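import Pool.Agent.Lib.P18dd.Defs

/-!
# P18dd.Cmb0: vertices of sets of edges

`card_Ve`: `Ve k J` is (the preimage in `Fin (k+1)` of) `J ∪ (J + 1)`, `|J ∪ (J+1)| = |J + 1| + |J \ (J + 1)|`, `J \ (J+1)` is the set counted by `comps`.
`ve_disj`: an edge of `S` and an edge of `J` with a common vertex are equal or adjacent.
-/

set_option autoImplicit false

namespace P18dd

open Finset

theorem card_Ve {k : ℕ} (J : Finset ℕ) (hJ : J ⊆ range k) : (Ve k J).card = J.card + comps J := by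
  have h1 : (Ve k J).card = ((Ve k J).image (fun v : Fin (k + 1) => (v : ℕ))).card :=
    (Finset.card_image_of_injective _ Fin.val_injective).symm
  have h2 : (Ve k J).image (fun v : Fin (k + 1) => (v : ℕ)) = J.image (fun j => j + 1) ∪
      J.filter fun a => ∀ j ∈ J, j + 1 ≠ a := by
    ext m
    simp only [Finset.mem_image, Finset.mem_union, Finset.mem_filter, Ve, Finset.mem_univ, true_and]
    constructor
    · rintro ⟨v, hv | ⟨j, hj, hv⟩, rfl⟩
      · by_cases h : ∃ j ∈ J, j + 1 = (v : ℕ)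
        · exact Or.inl h
        · push Not at h
          exact Or.inr ⟨hv, h⟩
      · exact Or.inl ⟨j, hj, hv.symm⟩
    · rintro (⟨j, hj, rfl⟩ | ⟨hm, _⟩)
      · have hjk := Finset.mem_range.1 (hJ hj)
        exact ⟨⟨j + 1, by omega⟩, Or.inr ⟨j, hj, rfl⟩, rfl⟩
      · have hjk := Finset.mem_range.1 (hJ hm)
        exact ⟨⟨m, by omega⟩, Or.inl hm, rfl⟩
  rw [h1, h2, Finset.card_union_of_disjoint, Finset.card_image_of_injective]
  · rfl
  · intro a b h
    simpa using h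
  · rw [Finset.disjoint_left]
    intro a ha hb
    obtain ⟨j, hj, rfl⟩ := Finset.mem_image.1 ha
    exact (Finset.mem_filter.1 hb).2 j hj rfl

theorem comps_pos {J : Finset ℕ} (hJ : J.Nonempty) : 1 ≤ comps J := by
  unfold comps
  refine Finset.card_pos.2 ⟨J.min' hJ, ?_⟩
  rw [Finset.mem_filter]
  refine ⟨Finset.min'_mem J hJ, fun j hj h => ?_⟩
  have := Finset.min'_le J j hj
  omega

theorem ve_disj {k : ℕ} {J F S : Finset ℕ} (hJ : Full J F) (hS : S ⊆ F \ J) :
    Disjoint (Ve k S) (Ve k J) := by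
  rw [Finset.disjoint_left]
  intro v hv hw
  unfold Ve at hv hw
  rw [Finset.mem_filter] at hv hw
  obtain ⟨hJF, hF⟩ := hJ
  have hS' : ∀ s ∈ S, s ∈ F ∧ s ∉ J := fun s hs => Finset.mem_sdiff.1 (hS hs)
  rcases hv.2 with hv | ⟨j, hj, hv⟩
  · rcases hw.2 with hw | ⟨i, hi, hw⟩
    · exact (hS' _ hv).2 hw
    · exact (hS' _ hv).2 (hF i hi _ (hS' _ hv).1 (Or.inl hw))
  · rcases hw.2 with hw | ⟨i, hi, hw⟩
    · exact (hS' _ hj).2 (hF _ hw _ (hS' _ hj).1 (Or.inr hv))
    · have : i = j := by omega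
      exact (hS' _ hj).2 (this ▸ hi)

theorem es_congr {k n : ℕ} (x x' : Pl k n) (F : Finset ℕ) (h : ∀ v ∈ Ve k F, x v = x' v) :
    Es x F = Es x' F := by
  unfold Es
  refine Finset.filter_congr fun a _ => ?_
  constructor
  · rintro ⟨h1, h2, h3⟩
    refine ⟨h1, ?_, ?_⟩
    · rw [h2]
      refine h _ ?_
      unfold Ve
      rw [Finset.mem_filter]
      exact ⟨Finset.mem_univ _, Or.inl (by simpa using h1)⟩
    · rw [h3]
      refine h _ ?_
      unfold Ve
      rw [Finset.mem_filter]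
      exact ⟨Finset.mem_univ _, Or.inr ⟨_, h1, by simp⟩⟩
  · rintro ⟨h1, h2, h3⟩
    refine ⟨h1, ?_, ?_⟩
    · rw [h2]
      refine (h _ ?_).symm
      unfold Ve
      rw [Finset.mem_filter]
      exact ⟨Finset.mem_univ _, Or.inl (by simpa using h1)⟩
    · rw [h3]
      refine (h _ ?_).symm
      unfold Ve
      rw [Finset.mem_filter]
      exact ⟨Finset.mem_univ _, Or.inr ⟨_, h1, by simp⟩⟩

theorem es_mono {k n : ℕ} (x : Pl k n) {S F : Finset ℕ} (h : S ⊆ F) : Es x S ⊆ Es x F := by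
  intro a ha
  unfold Es at ha ⊢
  rw [Finset.mem_filter] at ha ⊢
  exact ⟨ha.1, h ha.2.1, ha.2.2⟩

end P18dd
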