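import Mathlib

/-!
# P18dd: optimal depth of recursive doubling (MP_e46137_lc), definitions

Paper proof: `/team-store/r18_depth.md`.
-/

set_option autoImplicit false

namespace P18dd

open Finset

/-! ## Counting and product weights -/

open scoped Classical in
/-- indicator of a proposition -/
noncomputable def ind (p : Prop) : ℝ := if p then 1 else 0

open scoped Classical in
/-- number of points with property `S` -/
noncomputable def cnt {α : Type} [Fintype α] (S : α → Prop) : ℕ := (univ.filter S).card

/-- expectation of `F` for the product weight `w` on `I → A` -/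
noncomputable def ex {I A : Type} [Fintype I] [DecidableEq I] [Fintype A] (w : A → ℝ)
    (F : (I → A) → ℝ) : ℝ := ∑ x : I → A, (∏ i, w (x i)) * F x

/-- probability of `P` for the product weight `w` on `I → A` -/
noncomputable def pr {I A : Type} [Fintype I] [DecidableEq I] [Fintype A] (w : A → ℝ)
    (P : (I → A) → Prop) : ℝ := ex w fun x => ind (P x)

/-- Bernoulli weights -/
noncomputable def w2 (p : ℝ) (b : Bool) : ℝ := if b then p else 1 - p

/-- weights of a random restriction: one with probability `p`, star with probability `q` -/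
noncomputable def w3 (p q : ℝ) : Option Bool → ℝ
  | none => q
  | some true => p
  | some false => 1 - p - q

/-! ## Functions on a cube -/

section cube

variable {I : Type}

/-- at every point with value `b` there is a certificate of size at most `t` -/
def Cert (t : ℕ) (b : Bool) (h : (I → Bool) → Bool) : Prop :=
  ∀ z, h z = b → ∃ D : Finset I, D.card ≤ t ∧ ∀ z', (∀ i ∈ D, z' i = z i) → h z' = b

/-- `h` reads at most one variable -/
def Dep1 (h : (I → Bool) → Bool) : Prop :=
  (∃ c, ∀ z, h z = c) ∨ ∃ i, ∀ z z' : I → Bool, z i = z' i → h z = h z'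

/-- `z` with the coordinates in `S` switched on -/
def on [DecidableEq I] (z : I → Bool) (S : Finset I) : I → Bool := fun i => z i || decide (i ∈ S)

/-- Moebius derivative of `h` at `z` along `E` (up to a sign) -/
def dv [DecidableEq I] (h : (I → Bool) → Bool) (z : I → Bool) (E : Finset I) : ℤ :=
  ∑ S ∈ E.powerset, (-1) ^ S.card * (if h (on z S) = true then 1 else 0)

/-- a restriction; `none` is a star -/
abbrev Res (I : Type) : Type := I → Option Bool

/-- the point `z` with the fixed coordinates of `ρ` overwritten -/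
def ov (ρ : Res I) (z : I → Bool) : I → Bool := fun i => (ρ i).getD (z i)

/-- the restricted function, as a function on the whole cube -/
def res (ρ : Res I) (h : (I → Bool) → Bool) : (I → Bool) → Bool := fun z => h (ov ρ z)

/-- first `ρ`, then `τ` on the stars of `ρ` -/
def cmp (ρ τ : Res I) : Res I := fun i => (ρ i).elim (τ i) some

end cube

/-! ## Binary formulas -/

/-- binary formulas; `node true` is AND, `node false` is OR -/
inductive Tr (I : Type) : Type
  | leaf : ((I → Bool) → Bool) → Tr I
  | node : Bool → Tr I → Tr I → Tr I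

namespace Tr

variable {I : Type}

/-- the function computed -/
def fn : Tr I → (I → Bool) → Bool
  | leaf f => f
  | node b l r => fun z => if b then (l.fn z && r.fn z) else (l.fn z || r.fn z)

/-- number of leaves -/
def leaves : Tr I → ℕ
  | leaf _ => 1
  | node _ l r => l.leaves + r.leaves

/-- depth of the binary tree -/
def depth : Tr I → ℕ
  | leaf _ => 0
  | node _ l r => max l.depth r.depth + 1

/-- all leaves read at most one variable -/
def Lit : Tr I → Prop
  | leaf f => Dep1 f
  | node _ l r => l.Lit ∧ r.Lit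

/-- list of all subtrees -/
def subs : Tr I → List (Tr I)
  | leaf f => [leaf f]
  | node b l r => node b l r :: (l.subs ++ r.subs)

/-- `true` iff the root is a gate of type `b` -/
def isG (b : Bool) : Tr I → Bool
  | leaf _ => false
  | node b' _ _ => b == b'

/-- alternation depth: equal gates on top of each other are merged -/
def alt : Tr I → ℕ
  | leaf _ => 0
  | node b l r => max (if l.isG b then l.alt else l.alt + 1) (if r.isG b then r.alt else r.alt + 1)

/-- inputs of the merged gate of type `b` at the root -/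
def parts (b : Bool) : Tr I → List (Tr I)
  | leaf f => [leaf f]
  | node b' l r => if b = b' then l.parts b ++ r.parts b else [node b' l r]

end Tr

/-! ## Sets of edges of the path `0, 1, .., k`; edge `i` joins `i` and `i + 1` -/

/-- number of components -/
def comps (F : Finset ℕ) : ℕ := (F.filter fun a => ∀ j ∈ F, j + 1 ≠ a).card

/-- `J` is a union of components of `F` -/
def Full (J F : Finset ℕ) : Prop :=
  J ⊆ F ∧ ∀ x ∈ J, ∀ y ∈ F, (y = x + 1 ∨ x = y + 1) → y ∈ J

/-- `F` has no interval with more than `K` edges -/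
def Short (K : ℕ) (F : Finset ℕ) : Prop := ∀ a, ¬ Icc a (a + K) ⊆ F

/-- `R` is a component of `F` -/
def IsComp (R F : Finset ℕ) : Prop :=
  ∃ a b, a ≤ b ∧ R = Icc a b ∧ Icc a b ⊆ F ∧ (∀ j ∈ F, j + 1 ≠ a) ∧ b + 1 ∉ F

/-- the vertices of the edges in `F` -/
def Ve (k : ℕ) (F : Finset ℕ) : Finset (Fin (k + 1)) :=
  univ.filter fun v => (v : ℕ) ∈ F ∨ ∃ j ∈ F, (v : ℕ) = j + 1

/-! ## Placements -/

/-- a path through the `k + 1` layers -/
abbrev Pl (k n : ℕ) : Type := Fin (k + 1) → Fin n

/-- the possible arcs between consecutive layers -/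
abbrev Arc (k n : ℕ) : Type := Fin k × Fin n × Fin n

/-- the arcs of the path `x` in the layers `F` -/
def Es {k n : ℕ} (x : Pl k n) (F : Finset ℕ) : Finset (Arc k n) :=
  univ.filter fun a => (a.1 : ℕ) ∈ F ∧ a.2.1 = x a.1.castSucc ∧ a.2.2 = x a.1.succ

/-- for every fixing of the coordinates outside `U` the set `S` has density at most `1 / E` -/
def Small {k n : ℕ} (S : Pl k n → Prop) (U : Finset (Fin (k + 1))) (E : ℕ) : Prop :=
  ∀ x : Pl k n, cnt (fun x' : Pl k n => (∀ i, i ∉ U → x' i = x i) ∧ S x') * E ≤ n ^ U.card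

/-- `S` does not depend on the coordinates in `U` -/
def Indep {k n : ℕ} (S : Pl k n → Prop) (U : Finset (Fin (k + 1))) : Prop :=
  ∀ x x' : Pl k n, (∀ i, i ∉ U → x i = x' i) → (S x ↔ S x')

/-- the rules of the recursion -/
structure Sys {I : Type} (k n K θ : ℕ) (T : Tr I) (A : Tr I → Finset ℕ → Pl k n → Prop) :
    Prop where
  dep : ∀ u ∈ T.subs, ∀ F ⊆ range k, ∀ x x' : Pl k n, (∀ v ∈ Ve k F, x v = x' v) →
    (A u F x ↔ A u F x')
  leaf : ∀ f, Tr.leaf f ∈ T.subs → ∀ F ⊆ range k, ∀ x, A (Tr.leaf f) F x → F.card ≤ 1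
  rule : ∀ b l r, Tr.node b l r ∈ T.subs → ∀ F ⊆ range k, ∀ x, A (Tr.node b l r) F x →
    ∃ F' F'', F' ∪ F'' = F ∧ A l F' x ∧ A r F'' x
  ss : ∀ u ∈ T.subs, ∀ F ⊆ range k, ∀ J, Full J F → J.card ≤ K * comps J →
    Small (A u F) (Ve k J) (2 ^ (16 * θ * comps J))

/-- the placements whose derivative in the layers `F` does not vanish at `Γ` -/
def Av {k n : ℕ} (Γ : Arc k n → Bool) (u : Tr (Arc k n)) (F : Finset ℕ) (x : Pl k n) : Prop :=
  F = ∅ ∨ dv u.fn Γ (Es x F) ≠ 0

/-! ## The layered instances -/

/-- there is a path through all layers -/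
def DPath {k n : ℕ} (G : Arc k n → Bool) : Prop :=
  ∃ x : Pl k n, ∀ i : Fin k, G (i, x i.castSucc, x i.succ) = true

/-- adjacency in the layered undirected graph -/
def Adj {k n : ℕ} (G : Arc k n → Bool) (a b : Fin (k + 1) × Fin n) : Prop :=
  (∃ i : Fin k, a.1 = i.castSucc ∧ b.1 = i.succ ∧ G (i, a.2, b.2) = true) ∨
    ∃ i : Fin k, b.1 = i.castSucc ∧ a.1 = i.succ ∧ G (i, b.2, a.2) = true

/-- the first and the last layer are connected in the undirected graph -/
def UConn {k n : ℕ} (G : Arc k n → Bool) : Prop :=
  ∃ u v : Fin n, Relation.ReflTransGen (Adj G) (0, u) (Fin.last k, v)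

/-- `f` accepts if there is a path through all layers and rejects if the first and the last layer are not
connected even in the undirected graph -/
def SepL {k n : ℕ} (f : (Arc k n → Bool) → Bool) : Prop :=
  ∀ G, (DPath G → f G = true) ∧ (¬ UConn G → f G = false)

/-! ## Formulas with gates of arbitrary fan-in -/

/-- `Fm P d S f`: `f` is computed by a formula over the base functions `P` with depth at most `d`
and `S` leaves -/
inductive Fm {X : Type} (P : Set (X → Bool)) : ℕ → ℕ → (X → Bool) → Prop
  | lit (d : ℕ) (f : X → Bool) : f ∈ P → Fm P d 1 f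
  | gate (d m : ℕ) (S : Fin m → ℕ) (g : Fin m → X → Bool) (f : X → Bool) : 0 < m →
      (∀ i, Fm P d (S i) (g i)) →
      ((∀ x, f x = true ↔ ∀ i, g i x = true) ∨ (∀ x, f x = true ↔ ∃ i, g i x = true)) →
      Fm P (d + 1) (∑ i, S i) f

/-! ## Small facts -/

theorem cnt_eq {α : Type} [Fintype α] (S : α → Prop) [DecidablePred S] :
    cnt S = (univ.filter S).card := by
  unfold cnt
  congr

theorem cnt_mono {α : Type} [Fintype α] {S S' : α → Prop} (h : ∀ x, S x → S' x) :
    cnt S ≤ cnt S' := by
  classical
  rw [cnt_eq, cnt_eq]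
  exact card_le_card fun x hx => by simp only [mem_filter, mem_univ, true_and] at hx ⊢; exact h x hx

theorem cnt_or_le {α : Type} [Fintype α] (S S' : α → Prop) :
    cnt (fun x => S x ∨ S' x) ≤ cnt S + cnt S' := by
  classical
  rw [cnt_eq, cnt_eq, cnt_eq, filter_or]
  exact card_union_le _ _

theorem ind_nonneg (p : Prop) : 0 ≤ ind p := by
  unfold ind; split_ifs <;> norm_num

theorem ind_le_one (p : Prop) : ind p ≤ 1 := by
  unfold ind; split_ifs <;> norm_num

theorem ind_of {p : Prop} (h : p) : ind p = 1 := by simp [ind, h]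

theorem ind_of_not {p : Prop} (h : ¬ p) : ind p = 0 := by simp [ind, h]

theorem ind_mono {p q : Prop} (h : p → q) : ind p ≤ ind q := by
  by_cases hp : p
  · rw [ind_of hp, ind_of (h hp)]
  · rw [ind_of_not hp]; exact ind_nonneg q

theorem leaves_pos {I : Type} (t : Tr I) : 1 ≤ t.leaves := by
  induction t with
  | leaf f => simp [Tr.leaves]
  | node b l r ihl ihr => simp only [Tr.leaves]; omega

theorem self_mem_subs {I : Type} (t : Tr I) : t ∈ t.subs := by
  cases t <;> simp [Tr.subs]

theorem subs_trans {I : Type} {t u v : Tr I} (h1 : u ∈ t.subs) (h2 : v ∈ u.subs) : v ∈ t.subs := by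
  induction t with
  | leaf f =>
    simp only [Tr.subs, List.mem_singleton] at h1
    subst h1; exact h2
  | node b l r ihl ihr =>
    simp only [Tr.subs, List.mem_cons, List.mem_append] at h1 ⊢
    rcases h1 with h | h | h
    · subst h; simpa [Tr.subs] using h2
    · exact Or.inr (Or.inl (ihl h))
    · exact Or.inr (Or.inr (ihr h))

end P18dd
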