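import Pool.Agent.Lib.P18dd.Defs

/-!
# P18dd.Der: Moebius derivatives

`dv_or_split`: general form for integer valued functions `φ : Finset I → ℤ`, `D φ E := ∑ S ∈ E.powerset, (-1)^|S| φ S`:
`D (φ ψ) E ≠ 0 → ∃ E' ∪ E'' = E, D φ E' ≠ 0 ∧ D ψ E'' ≠ 0`, by induction on `E` (`insert e E₀`): with `φ₀ S = φ S`, `φ₁ S = φ (insert e S)` the derivative of a product is
`D ((φ₀ - φ₁) ψ₀ + φ₀ (ψ₀ - ψ₁) - (φ₀ - φ₁)(ψ₀ - ψ₁)) E₀`, so one of the three terms is non-zero; `D (φ₀ - φ₁) A = D φ (insert e A)`, `D φ₀ A = D φ A` for `A ⊆ E₀`.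
AND = product of the indicators; OR by De Morgan (`1 - φ`: `D (1 - φ) E = - D φ E` for `E ≠ ∅`), hence the alternatives `E' = ∅ ∨ ..`.
`av_rule`: apply it to `E = Es x F` and put `F' := {i ∈ F | the arc of x in layer i is in E'}` (`Es x F' = E'` for `E' ⊆ Es x F`, `F ⊆ range k`; for `F = ∅` take `∅, ∅`).
`av_dep`: `Es x F = Es x' F` if `x = x'` on `Ve k F`. `av_leaf`: `dv f z E = 0` if `f` reads at most one variable and `2 ≤ E.card` (pair the terms by a second variable); `(Es x F).card = F.card`.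
`dv_plant`: `Es x F` is the disjoint union of `Es x J` and `Es x (F \ J)`; `dv h Γ (Es x F) = ∑_{S' ⊆ Es x (F \ J)} (-1)^|S'| dv (fun z => h (on z S')) Γ (Es x J)`.
-/

set_option autoImplicit false

namespace P18dd

open Finset

namespace DerAux

variable {I : Type} [DecidableEq I]

/-- derivative of a function of sets -/
def D (φ : Finset I → ℤ) (E : Finset I) : ℤ := ∑ S ∈ E.powerset, (-1) ^ S.card * φ S

theorem D_insert (φ : Finset I → ℤ) {a : I} {E : Finset I} (ha : a ∉ E) :
    D φ (insert a E) = D (fun S => φ S - φ (insert a S)) E := by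
  unfold D
  rw [sum_powerset_insert ha, ← sum_add_distrib]
  refine sum_congr rfl fun S hS => ?_
  have haS : a ∉ S := fun h => ha (mem_powerset.1 hS h)
  rw [card_insert_of_notMem haS, pow_succ]
  ring

theorem D_mul (E : Finset I) : ∀ φ ψ : Finset I → ℤ, D (fun S => φ S * ψ S) E ≠ 0 →
    ∃ E' E'', E' ∪ E'' = E ∧ D φ E' ≠ 0 ∧ D ψ E'' ≠ 0 := by
  induction E using Finset.induction_on with
  | empty =>
    intro φ ψ h
    simp only [D, powerset_empty, sum_singleton, card_empty, pow_zero, one_mul] at h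
    refine ⟨∅, ∅, by simp, ?_, ?_⟩
    · simp only [D, powerset_empty, sum_singleton, card_empty, pow_zero, one_mul]
      exact left_ne_zero_of_mul h
    · simp only [D, powerset_empty, sum_singleton, card_empty, pow_zero, one_mul]
      exact right_ne_zero_of_mul h
  | insert a E ha ih =>
    intro φ ψ h
    rw [D_insert _ ha] at h
    have hsum : D (fun S => φ S * ψ S - φ (insert a S) * ψ (insert a S)) E
        = D (fun S => (φ S - φ (insert a S)) * ψ S) E
          + D (fun S => φ S * (ψ S - ψ (insert a S))) E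
          - D (fun S => (φ S - φ (insert a S)) * (ψ S - ψ (insert a S))) E := by
      unfold D
      rw [← sum_add_distrib, ← sum_sub_distrib]
      refine sum_congr rfl fun S _ => ?_
      ring
    rw [hsum] at h
    have hor : D (fun S => (φ S - φ (insert a S)) * ψ S) E ≠ 0 ∨
        D (fun S => φ S * (ψ S - ψ (insert a S))) E ≠ 0 ∨
        D (fun S => (φ S - φ (insert a S)) * (ψ S - ψ (insert a S))) E ≠ 0 := by
      by_contra hcon
      push Not at hcon
      rw [hcon.1, hcon.2.1, hcon.2.2] at h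
      simp at h
    have hnot : ∀ A B : Finset I, A ∪ B = E → a ∉ A ∧ a ∉ B := by
      intro A B hAB
      constructor
      · intro h1; apply ha; rw [← hAB]; exact mem_union_left _ h1
      · intro h1; apply ha; rw [← hAB]; exact mem_union_right _ h1
    rcases hor with h1 | h1 | h1
    · obtain ⟨A, B, hAB, h2, h3⟩ := ih _ _ h1
      refine ⟨insert a A, B, by rw [insert_union, hAB], ?_, h3⟩
      rw [D_insert _ (hnot A B hAB).1]
      exact h2
    · obtain ⟨A, B, hAB, h2, h3⟩ := ih _ _ h1
      refine ⟨A, insert a B, by rw [union_insert, hAB], h2, ?_⟩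
      rw [D_insert _ (hnot A B hAB).2]
      exact h3
    · obtain ⟨A, B, hAB, h2, h3⟩ := ih _ _ h1
      refine ⟨insert a A, insert a B, by rw [insert_union, union_insert, hAB, insert_idem], ?_, ?_⟩
      · rw [D_insert _ (hnot A B hAB).1]
        exact h2
      · rw [D_insert _ (hnot A B hAB).2]
        exact h3

omit [DecidableEq I] in
theorem D_one {E : Finset I} (hE : E.Nonempty) : D (fun _ => 1) E = 0 := by
  unfold D
  simp only [mul_one]
  exact sum_powerset_neg_one_pow_card_of_nonempty hE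

theorem D_one_sub (φ : Finset I → ℤ) {E : Finset I} (hE : E.Nonempty) :
    D (fun S => 1 - φ S) E = - D φ E := by
  have h : D (fun S => 1 - φ S) E = D (fun _ => 1) E - D φ E := by
    unfold D
    rw [← sum_sub_distrib]
    refine sum_congr rfl fun S _ => ?_
    ring
  rw [h, D_one hE, zero_sub]

theorem dv_eq (h : (I → Bool) → Bool) (z : I → Bool) (E : Finset I) :
    dv h z E = D (fun S => if h (on z S) = true then 1 else 0) E := rfl

theorem D_union (A : Finset I) (B : Finset I) : ∀ φ : Finset I → ℤ, Disjoint A B →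
    D φ (A ∪ B) ≠ 0 → ∃ S' ⊆ B, D (fun S => φ (S ∪ S')) A ≠ 0 := by
  induction B using Finset.induction_on with
  | empty =>
    intro φ _ h
    refine ⟨∅, Subset.refl _, ?_⟩
    simpa using h
  | insert b B hb ih =>
    intro φ hd h
    rw [disjoint_insert_right] at hd
    have hbn : b ∉ A ∪ B := by
      rw [mem_union]; push Not; exact ⟨hd.1, hb⟩
    rw [union_insert, D_insert _ hbn] at h
    have hsplit : D (fun S => φ S - φ (insert b S)) (A ∪ B)
        = D φ (A ∪ B) - D (fun S => φ (insert b S)) (A ∪ B) := by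
      unfold D
      rw [← sum_sub_distrib]
      refine sum_congr rfl fun S _ => ?_
      ring
    rw [hsplit] at h
    by_cases h1 : D φ (A ∪ B) = 0
    · have h2 : D (fun S => φ (insert b S)) (A ∪ B) ≠ 0 := by
        intro h2
        rw [h1, h2] at h
        simp at h
      obtain ⟨S', hS', h3⟩ := ih _ hd.2 h2
      refine ⟨insert b S', insert_subset_insert _ hS', ?_⟩
      simpa [union_insert] using h3
    · obtain ⟨S', hS', h3⟩ := ih _ hd.2 h1
      exact ⟨S', hS'.trans (subset_insert _ _), h3⟩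

theorem on_on (z : I → Bool) (S S' : Finset I) : on (on z S) S' = on z (S ∪ S') := by
  funext i
  simp only [on, mem_union]
  by_cases h1 : i ∈ S <;> by_cases h2 : i ∈ S' <;> simp [h1, h2]

theorem dv_dep1 (f : (I → Bool) → Bool) (hf : Dep1 f) (z : I → Bool) {E : Finset I}
    (hE : 2 ≤ E.card) : dv f z E = 0 := by
  rw [dv_eq]
  have hne : E.Nonempty := card_pos.1 (by omega)
  rcases hf with ⟨c, hc⟩ | ⟨i, hi⟩
  · simp only [hc]
    have : D (fun _ : Finset I => if c = true then (1 : ℤ) else 0) E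
        = (if c = true then 1 else 0) * D (fun _ => 1) E := by
      unfold D
      rw [mul_sum]
      refine sum_congr rfl fun S _ => ?_
      ring
    rw [this, D_one hne, mul_zero]
  · have hex : ∃ a ∈ E, a ≠ i := by
      by_contra hcon
      push Not at hcon
      have h1 : E ⊆ {i} := fun a ha => by rw [mem_singleton]; exact hcon a ha
      have := card_le_card h1
      rw [card_singleton] at this
      omega
    obtain ⟨a, ha, hai⟩ := hex
    rw [← insert_erase ha, D_insert _ (notMem_erase a E)]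
    unfold D
    refine sum_eq_zero fun S _ => ?_
    have h1 : f (on z S) = f (on z (insert a S)) := by
      apply hi
      simp only [on, mem_insert]
      have : ¬ i = a := fun h => hai h.symm
      simp [this]
    simp [h1]

end DerAux

open DerAux

theorem dv_or_split {I : Type} [DecidableEq I] (b : Bool) (l r : Tr I) (z : I → Bool)
    (E : Finset I) (h : dv (Tr.node b l r).fn z E ≠ 0) :
    ∃ E' E'', E' ∪ E'' = E ∧ (E' = ∅ ∨ dv l.fn z E' ≠ 0) ∧ (E'' = ∅ ∨ dv r.fn z E'' ≠ 0) := by
  cases b with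
  | true =>
    have h1 : dv (Tr.node true l r).fn z E
        = D (fun S => (if l.fn (on z S) = true then 1 else 0)
          * (if r.fn (on z S) = true then 1 else 0)) E := by
      rw [dv_eq]
      unfold D
      refine sum_congr rfl fun S _ => ?_
      congr 1
      rcases Bool.eq_false_or_eq_true (l.fn (on z S)) with h1 | h1 <;>
        rcases Bool.eq_false_or_eq_true (r.fn (on z S)) with h2 | h2 <;>
        simp [Tr.fn, h1, h2]
    rw [h1] at h
    obtain ⟨A, B, hAB, h2, h3⟩ := D_mul E _ _ h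
    exact ⟨A, B, hAB, Or.inr h2, Or.inr h3⟩
  | false =>
    rcases E.eq_empty_or_nonempty with hE | hE
    · exact ⟨∅, ∅, by simp [hE], Or.inl rfl, Or.inl rfl⟩
    have h1 : dv (Tr.node false l r).fn z E
        = D (fun S => 1 - (1 - (if l.fn (on z S) = true then 1 else 0))
          * (1 - (if r.fn (on z S) = true then 1 else 0))) E := by
      rw [dv_eq]
      unfold D
      refine sum_congr rfl fun S _ => ?_
      congr 1
      rcases Bool.eq_false_or_eq_true (l.fn (on z S)) with h1 | h1 <;>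
        rcases Bool.eq_false_or_eq_true (r.fn (on z S)) with h2 | h2 <;>
        simp [Tr.fn, h1, h2]
    rw [h1, D_one_sub _ hE, neg_ne_zero] at h
    obtain ⟨A, B, hAB, h2, h3⟩ := D_mul E _ _ h
    refine ⟨A, B, hAB, ?_, ?_⟩
    · rcases A.eq_empty_or_nonempty with hA | hA
      · exact Or.inl hA
      · right
        rw [D_one_sub _ hA, neg_ne_zero] at h2
        exact h2
    · rcases B.eq_empty_or_nonempty with hB | hB
      · exact Or.inl hB
      · right
        rw [D_one_sub _ hB, neg_ne_zero] at h3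
        exact h3

theorem mem_Es {k n : ℕ} {x : Pl k n} {F : Finset ℕ} {a : Arc k n} :
    a ∈ Es x F ↔ (a.1 : ℕ) ∈ F ∧ a.2.1 = x a.1.castSucc ∧ a.2.2 = x a.1.succ := by
  simp [Es]

/-- the arc of `x` in layer `i` -/
def arcOf {k n : ℕ} (x : Pl k n) (i : Fin k) : Arc k n := (i, x i.castSucc, x i.succ)

theorem arcOf_mem {k n : ℕ} {x : Pl k n} {F : Finset ℕ} {i : Fin k} :
    arcOf x i ∈ Es x F ↔ (i : ℕ) ∈ F := by
  simp [mem_Es, arcOf]

theorem eq_arcOf {k n : ℕ} {x : Pl k n} {F : Finset ℕ} {a : Arc k n} (h : a ∈ Es x F) :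
    a = arcOf x a.1 := by
  rw [mem_Es] at h
  obtain ⟨i, u, v⟩ := a
  simp only at h
  simp [arcOf, h.2.1, h.2.2]

theorem card_Es {k n : ℕ} (x : Pl k n) (F : Finset ℕ) (hF : F ⊆ range k) :
    (Es x F).card = F.card := by
  have h1 : Es x F = (univ.filter fun i : Fin k => (i : ℕ) ∈ F).image (arcOf x) := by
    ext a
    rw [mem_image]
    constructor
    · intro ha
      refine ⟨a.1, ?_, (eq_arcOf ha).symm⟩
      rw [mem_filter]
      exact ⟨mem_univ _, (mem_Es.1 ha).1⟩
    · rintro ⟨i, hi, rfl⟩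
      rw [mem_filter] at hi
      exact arcOf_mem.2 hi.2
  have h2 : (univ.filter fun i : Fin k => (i : ℕ) ∈ F).map Fin.valEmbedding = F := by
    ext j
    simp only [mem_map, mem_filter, mem_univ, true_and, Fin.valEmbedding_apply]
    constructor
    · rintro ⟨i, hi, rfl⟩; exact hi
    · intro hj
      exact ⟨⟨j, mem_range.1 (hF hj)⟩, hj, rfl⟩
  rw [h1, card_image_of_injective]
  · conv_rhs => rw [← h2]
    rw [card_map]
  · intro i j hij
    exact congrArg Prod.fst hij

/-- the layers of a set of arcs -/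
def layers {k n : ℕ} (F : Finset ℕ) (E : Finset (Arc k n)) : Finset ℕ :=
  F.filter fun i => ∃ a ∈ E, (a.1 : ℕ) = i

theorem Es_layers {k n : ℕ} {x : Pl k n} {F : Finset ℕ} {E : Finset (Arc k n)}
    (hE : E ⊆ Es x F) : Es x (layers F E) = E := by
  ext a
  constructor
  · intro ha
    have h1 := mem_Es.1 ha
    rw [layers, mem_filter] at h1
    obtain ⟨a', ha', h2⟩ := h1.1.2
    have h3 : a = a' := by
      rw [eq_arcOf ha, eq_arcOf (hE ha')]
      congr 1
      exact Fin.ext h2.symm
    rw [h3]; exact ha'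
  · intro ha
    have h1 := mem_Es.1 (hE ha)
    rw [mem_Es, layers, mem_filter]
    exact ⟨⟨h1.1, a, ha, rfl⟩, h1.2⟩

theorem layers_union {k n : ℕ} {x : Pl k n} {F : Finset ℕ} (hF : F ⊆ range k)
    {E E' : Finset (Arc k n)} (h : E ∪ E' = Es x F) : layers F E ∪ layers F E' = F := by
  ext i
  simp only [layers, mem_union, mem_filter]
  constructor
  · rintro (h1 | h1) <;> exact h1.1
  · intro hi
    have h1 : arcOf x ⟨i, mem_range.1 (hF hi)⟩ ∈ E ∪ E' := by
      rw [h]; exact arcOf_mem.2 hi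
    rw [mem_union] at h1
    rcases h1 with h1 | h1
    · exact Or.inl ⟨hi, _, h1, rfl⟩
    · exact Or.inr ⟨hi, _, h1, rfl⟩

theorem av_rule {k n : ℕ} (Γ : Arc k n → Bool) (b : Bool) (l r : Tr (Arc k n)) (F : Finset ℕ)
    (hF : F ⊆ range k) (x : Pl k n) (h : Av Γ (Tr.node b l r) F x) :
    ∃ F' F'', F' ∪ F'' = F ∧ Av Γ l F' x ∧ Av Γ r F'' x := by
  rcases h with h | h
  · exact ⟨∅, ∅, by simp [h], Or.inl rfl, Or.inl rfl⟩
  · obtain ⟨E, E', hEE, h1, h2⟩ := dv_or_split b l r Γ _ h
    have hE : E ⊆ Es x F := by rw [← hEE]; exact subset_union_left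
    have hE' : E' ⊆ Es x F := by rw [← hEE]; exact subset_union_right
    refine ⟨layers F E, layers F E', layers_union hF hEE, ?_, ?_⟩
    · rcases h1 with h1 | h1
      · left; rw [h1]; simp [layers]
      · right; rw [Es_layers hE]; exact h1
    · rcases h2 with h2 | h2
      · left; rw [h2]; simp [layers]
      · right; rw [Es_layers hE']; exact h2

theorem av_dep {k n : ℕ} (Γ : Arc k n → Bool) (u : Tr (Arc k n)) (F : Finset ℕ)
    (x x' : Pl k n) (h : ∀ v ∈ Ve k F, x v = x' v) : Av Γ u F x ↔ Av Γ u F x' := by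
  have h1 : Es x F = Es x' F := by
    ext a
    rw [mem_Es, mem_Es]
    by_cases ha : (a.1 : ℕ) ∈ F
    · have h2 : x a.1.castSucc = x' a.1.castSucc := by
        apply h
        simp [Ve, ha]
      have h3 : x a.1.succ = x' a.1.succ := by
        apply h
        simp only [Ve, mem_filter, mem_univ, true_and, Fin.val_succ]
        exact Or.inr ⟨_, ha, rfl⟩
      rw [h2, h3]
    · simp [ha]
  unfold Av
  rw [h1]

theorem av_leaf {k n : ℕ} (Γ : Arc k n → Bool) (f : (Arc k n → Bool) → Bool) (hf : Dep1 f)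
    (F : Finset ℕ) (hF : F ⊆ range k) (x : Pl k n) (h : Av Γ (Tr.leaf f) F x) : F.card ≤ 1 := by
  rcases h with h | h
  · simp [h]
  · by_contra hcon
    push Not at hcon
    apply h
    apply dv_dep1 f hf
    rw [card_Es x F hF]
    omega

theorem dv_plant {k n : ℕ} (h : (Arc k n → Bool) → Bool) (Γ : Arc k n → Bool) (F J : Finset ℕ)
    (hF : F ⊆ range k) (hJ : J ⊆ F) (x : Pl k n) (hd : dv h Γ (Es x F) ≠ 0) :
    ∃ S ⊆ F \ J, dv (fun z => h (on z (Es x S))) Γ (Es x J) ≠ 0 := by
  have hun : Es x J ∪ Es x (F \ J) = Es x F := by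
    ext a
    rw [mem_union, mem_Es, mem_Es, mem_Es, mem_sdiff]
    constructor
    · rintro (h1 | h1)
      · exact ⟨hJ h1.1, h1.2⟩
      · exact ⟨h1.1.1, h1.2⟩
    · intro h1
      by_cases h2 : (a.1 : ℕ) ∈ J
      · exact Or.inl ⟨h2, h1.2⟩
      · exact Or.inr ⟨⟨h1.1, h2⟩, h1.2⟩
  have hdis : Disjoint (Es x J) (Es x (F \ J)) := by
    rw [disjoint_left]
    intro a h1 h2
    rw [mem_Es] at h1 h2
    exact (mem_sdiff.1 h2.1).2 h1.1
  rw [← hun, dv_eq] at hd
  obtain ⟨S', hS', h1⟩ := D_union _ _ _ hdis hd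
  refine ⟨layers (F \ J) S', filter_subset _ _, ?_⟩
  rw [Es_layers hS', dv_eq]
  simp only [on_on]
  exact h1

end P18dd
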