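import Pool.Agent.Lib.P18dd.Defs
import Pool.Agent.Lib.P28cd.GDefs

/-!
# P18dd.FmC: circuits and formulas
-/

set_option autoImplicit false

namespace P18dd

open Finset

theorem fm_comp {X Y : Type} {P : Set (X → Bool)} {Q : Set (Y → Bool)} (φ : Y → X)
    (hPQ : ∀ h ∈ P, (fun y => h (φ y)) ∈ Q) {d S : ℕ} {f : X → Bool} (h : Fm P d S f) :
    Fm Q d S fun y => f (φ y) := by
  induction h with
  | lit d f hf => exact Fm.lit d _ (hPQ f hf)
  | gate d m S g f hm hg hf ih =>
    refine Fm.gate d m S (fun i y => g i (φ y)) _ hm ih ?_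
    rcases hf with h | h
    · exact Or.inl fun y => h (φ y)
    · exact Or.inr fun y => h (φ y)

namespace FmCAux

theorem fm_succ {X : Type} {P : Set (X → Bool)} {d S : ℕ} {f : X → Bool} (h : Fm P d S f) :
    Fm P (d + 1) S f := by
  induction h with
  | lit d f hf => exact Fm.lit _ _ hf
  | gate d m S g f hm hg hf ih => exact Fm.gate (d + 1) m S g f hm ih hf

theorem fm_le {X : Type} {P : Set (X → Bool)} {d d' S : ℕ} {f : X → Bool} (hd : d ≤ d')
    (h : Fm P d S f) : Fm P d' S f := by
  induction hd with
  | refl => exact h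
  | step _ ih => exact fm_succ ih

theorem fm_neg {X : Type} {P : Set (X → Bool)} (hneg : ∀ h ∈ P, (fun x => !h x) ∈ P) {d S : ℕ}
    {f : X → Bool} (h : Fm P d S f) : Fm P d S fun x => !f x := by
  induction h with
  | lit d f hf => exact Fm.lit _ _ (hneg f hf)
  | gate d m S g f hm hg hf ih =>
    refine Fm.gate d m S (fun i x => !g i x) _ hm ih ?_
    rcases hf with h | h
    · refine Or.inr fun x => ?_
      have h1 := h x
      cases hfx : f x
      · rw [hfx] at h1
        simp only [Bool.false_eq_true, false_iff, not_forall, Bool.not_eq_true] at h1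
        obtain ⟨i, hi⟩ := h1
        simp only [Bool.not_false, true_iff]
        exact ⟨i, by rw [hi]; rfl⟩
      · rw [hfx] at h1
        simp only [Bool.not_true, Bool.false_eq_true, false_iff, not_exists]
        intro i
        rw [(h1.1 rfl) i]
        simp
    · refine Or.inl fun x => ?_
      have h1 := h x
      cases hfx : f x
      · rw [hfx] at h1
        simp only [Bool.false_eq_true, false_iff, not_exists, Bool.not_eq_true] at h1
        simp only [Bool.not_false, true_iff]
        intro i
        rw [h1 i]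
        rfl
      · rw [hfx] at h1
        obtain ⟨i, hi⟩ := h1.1 rfl
        simp only [Bool.not_true, Bool.false_eq_true, false_iff, not_forall]
        exact ⟨i, by rw [hi]; simp⟩

/-- a gate over a finite nonempty set of functions with formulas -/
theorem fm_set {X : Type} {P : Set (X → Bool)} {d : ℕ} (T : Finset (X → Bool)) (hT : T.Nonempty)
    (Lf : (X → Bool) → ℕ) (hL : ∀ h ∈ T, Fm P d (Lf h) h) (f : X → Bool)
    (hf : P28cd.IsGate (T : Set (X → Bool)) f) : Fm P (d + 1) (∑ h ∈ T, Lf h) f := by
  classical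
  have e := T.equivFin.symm
  have h1 : ∑ h ∈ T, Lf h = ∑ i : Fin T.card, Lf (e i : X → Bool) := by
    rw [← sum_coe_sort T Lf]
    exact (Equiv.sum_comp e (fun h : T => Lf (h : X → Bool))).symm
  rw [h1]
  refine Fm.gate d T.card (fun i => Lf (e i : X → Bool)) (fun i => (e i : X → Bool)) f
    (card_pos.2 hT) (fun i => hL _ (e i).2) ?_
  rcases hf with h | h
  · refine Or.inl fun x => (h x).trans ⟨fun h2 i => h2 _ (e i).2, fun h2 g hg => ?_⟩
    have := h2 (e.symm ⟨g, hg⟩)
    rwa [Equiv.apply_symm_apply] at this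
  · refine Or.inr fun x => (h x).trans ⟨?_, ?_⟩
    · rintro ⟨g, hg, hgx⟩
      refine ⟨e.symm ⟨g, hg⟩, ?_⟩
      rw [Equiv.apply_symm_apply]
      exact hgx
    · rintro ⟨i, hi⟩
      exact ⟨_, (e i).2, hi⟩

theorem level_bound {X : Type} (P : Set (X → Bool)) (M : ℕ) (hfin : P.Finite) (hM : P.ncard ≤ M)
    (hM1 : 1 ≤ M) (hneg : ∀ h ∈ P, (fun x => !h x) ∈ P) (hc : ∀ b : Bool, (fun _ : X => b) ∈ P)
    {S : ℕ} (level : Fin S → ℕ) (val : Fin S → X → Bool)
    (hg : ∀ g, ∃ T ⊆ P28cd.Avail P level val (level g), P28cd.IsGate T (val g)) (ℓ : ℕ) :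
    ∀ g, level g = ℓ → ∃ L, Fm P (ℓ + 1) L (val g) ∧ L ≤ M * (2 * S + 1) ^ ℓ := by
  classical
  induction ℓ using Nat.strong_induction_on with
  | _ ℓ ih =>
    intro g hgl
    obtain ⟨T, hT, hgate⟩ := hg g
    rw [hgl] at hT
    rcases T.eq_empty_or_nonempty with hE | hne
    · -- constant
      subst hE
      have hbound : 1 ≤ M * (2 * S + 1) ^ ℓ := Nat.mul_pos hM1 (by positivity)
      rcases hgate with h | h
      · refine ⟨1, Fm.lit _ _ ?_, hbound⟩
        have : val g = fun _ => true := by
          funext x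
          exact (h x).2 (by simp)
        rw [this]
        exact hc true
      · refine ⟨1, Fm.lit _ _ ?_, hbound⟩
        have : val g = fun _ => false := by
          funext x
          have h2 := h x
          simp only [Set.mem_empty_iff_false, false_and, exists_false, iff_false,
            Bool.not_eq_true] at h2
          exact h2
        rw [this]
        exact hc false
    · -- the inputs which are not base functions
      let G : Finset (X → Bool) := (univ.filter fun a : Fin S × Bool => level a.1 < ℓ).image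
        fun a => if a.2 then val a.1 else fun x => !val a.1 x
      have hTsub : T ⊆ P ∪ (G : Set (X → Bool)) := by
        intro h hh
        rcases hT hh with h1 | ⟨g', h1, h2⟩
        · exact Or.inl h1
        · refine Or.inr ?_
          rw [mem_coe, mem_image]
          rcases h2 with h2 | h2
          · exact ⟨(g', true), by simpa using h1, by simp [h2]⟩
          · exact ⟨(g', false), by simpa using h1, by simp [h2]⟩
      have hTfin : T.Finite := (hfin.union G.finite_toSet).subset hTsub
      have hch : ∀ h ∈ T, ∃ L, Fm P ℓ L h ∧ (h ∈ P → L = 1) ∧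
          (h ∉ P → 1 ≤ ℓ ∧ L ≤ M * (2 * S + 1) ^ (ℓ - 1)) := by
        intro h hh
        by_cases hP : h ∈ P
        · exact ⟨1, Fm.lit _ _ hP, fun _ => rfl, fun hn => absurd hP hn⟩
        · rcases hT hh with h1 | ⟨g', h1, h2⟩
          · exact absurd h1 hP
          · obtain ⟨L, hL, hLb⟩ := ih (level g') h1 g' rfl
            have hle : level g' + 1 ≤ ℓ := h1
            have hb : L ≤ M * (2 * S + 1) ^ (ℓ - 1) := by
              refine hLb.trans (Nat.mul_le_mul_left _ (Nat.pow_le_pow_right (by omega) ?_))
              omega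
            rcases h2 with h2 | h2
            · exact ⟨L, by rw [h2]; exact fm_le hle hL, fun hn => absurd hn hP,
                fun _ => ⟨by omega, hb⟩⟩
            · exact ⟨L, by rw [h2]; exact fm_neg hneg (fm_le hle hL), fun hn => absurd hn hP,
                fun _ => ⟨by omega, hb⟩⟩
      choose! Lf hLf using hch
      have hgate' : P28cd.IsGate (hTfin.toFinset : Set (X → Bool)) (val g) := by
        rw [Set.Finite.coe_toFinset]
        exact hgate
      have hfm := fm_set (P := P) (d := ℓ) hTfin.toFinset (by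
        rw [Set.Finite.toFinset_nonempty]; exact hne) Lf
        (fun h hh => (hLf h ((Set.Finite.mem_toFinset hTfin).1 hh)).1) (val g) hgate'
      refine ⟨_, hfm, ?_⟩
      -- the bound
      have hsplit := sum_filter_add_sum_filter_not hTfin.toFinset (fun h => h ∈ P) Lf
      rw [← hsplit]
      have h1 : ∑ h ∈ hTfin.toFinset.filter (fun h => h ∈ P), Lf h ≤ M := by
        have h2 : ∑ h ∈ hTfin.toFinset.filter (fun h => h ∈ P), Lf h =
            (hTfin.toFinset.filter (fun h => h ∈ P)).card := by
          rw [card_eq_sum_ones]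
          refine sum_congr rfl fun h hh => ?_
          rw [mem_filter, Set.Finite.mem_toFinset] at hh
          exact (hLf h hh.1).2.1 hh.2
        rw [h2]
        refine le_trans ?_ hM
        rw [← Set.ncard_coe_finset]
        refine Set.ncard_le_ncard ?_ hfin
        intro h hh
        rw [mem_coe, mem_filter] at hh
        exact hh.2
      have h3 : ∑ h ∈ hTfin.toFinset.filter (fun h => ¬ h ∈ P), Lf h ≤
          (hTfin.toFinset.filter (fun h => ¬ h ∈ P)).card * (M * (2 * S + 1) ^ (ℓ - 1)) := by
        rw [← smul_eq_mul, ← sum_const]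
        refine sum_le_sum fun h hh => ?_
        rw [mem_filter, Set.Finite.mem_toFinset] at hh
        exact ((hLf h hh.1).2.2 hh.2).2
      rcases Nat.eq_zero_or_pos ℓ with h0 | hpos
      · have hemp : hTfin.toFinset.filter (fun h => ¬ h ∈ P) = ∅ := by
          rw [filter_eq_empty_iff]
          intro h hh hP
          rw [Set.Finite.mem_toFinset] at hh
          have := ((hLf h hh).2.2 hP).1
          omega
        rw [hemp, sum_empty, add_zero]
        refine h1.trans ?_
        rw [h0, pow_zero, mul_one]
      · have hcard : (hTfin.toFinset.filter (fun h => ¬ h ∈ P)).card ≤ 2 * S := by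
          have h4 : hTfin.toFinset.filter (fun h => ¬ h ∈ P) ⊆ G := by
            intro h hh
            rw [mem_filter, Set.Finite.mem_toFinset] at hh
            rcases hTsub hh.1 with h5 | h5
            · exact absurd h5 hh.2
            · exact h5
          refine (card_le_card h4).trans (card_image_le.trans ((card_filter_le _ _).trans ?_))
          rw [card_univ, Fintype.card_prod, Fintype.card_fin, Fintype.card_bool]
          omega
        have h5 : (hTfin.toFinset.filter (fun h => ¬ h ∈ P)).card * (M * (2 * S + 1) ^ (ℓ - 1)) ≤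
            2 * S * (M * (2 * S + 1) ^ (ℓ - 1)) := Nat.mul_le_mul_right _ hcard
        have h6 : M ≤ M * (2 * S + 1) ^ (ℓ - 1) := Nat.le_mul_of_pos_right _ (by positivity)
        calc _ ≤ M * (2 * S + 1) ^ (ℓ - 1) + 2 * S * (M * (2 * S + 1) ^ (ℓ - 1)) :=
              Nat.add_le_add (h1.trans h6) (h3.trans h5)
          _ = M * ((2 * S + 1) ^ (ℓ - 1) * (2 * S + 1)) := by ring
          _ = M * (2 * S + 1) ^ ℓ := by
              rw [← pow_succ, Nat.sub_add_cancel hpos]

end FmCAux

theorem fm_of_circ {X : Type} (P : Set (X → Bool)) (M : ℕ) (hfin : P.Finite) (hM : P.ncard ≤ M)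
    (hM1 : 1 ≤ M) (hneg : ∀ h ∈ P, (fun x => !h x) ∈ P) (hc : ∀ b : Bool, (fun _ : X => b) ∈ P)
    {d S : ℕ} {f : X → Bool} (h : P28cd.Circ P d S f) :
    ∃ L, Fm P d L f ∧ L ≤ M * (2 * S + 1) ^ d := by
  obtain ⟨level, val, out, hlev, hg, rfl⟩ := h
  obtain ⟨L, hL, hb⟩ := FmCAux.level_bound P M hfin hM hM1 hneg hc level val hg (level out) out rfl
  refine ⟨L, FmCAux.fm_le (hlev out) hL, hb.trans (Nat.mul_le_mul_left _ ?_)⟩
  exact Nat.pow_le_pow_right (by omega) (hlev out).le

/-- the literals and the constants -/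
theorem lits_card (n : ℕ) :
    (P28cd.Lits n ∪ {f | ∃ b : Bool, f = fun _ => b} : Set ((Fin n → Fin n → Bool) → Bool)).Finite ∧
    (P28cd.Lits n ∪ {f | ∃ b : Bool, f = fun _ => b} : Set ((Fin n → Fin n → Bool) → Bool)).ncard ≤
      2 * n ^ 2 + 2 := by
  classical
  let A : Finset ((Fin n → Fin n → Bool) → Bool) := (univ : Finset (Fin n × Fin n × Bool)).image
    fun a => if a.2.2 then fun E => E a.1 a.2.1 else fun E => !E a.1 a.2.1
  let B : Finset ((Fin n → Fin n → Bool) → Bool) := (univ : Finset Bool).image fun b _ => b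
  have hsub : (P28cd.Lits n ∪ {f | ∃ b : Bool, f = fun _ => b} :
      Set ((Fin n → Fin n → Bool) → Bool)) ⊆ ((A ∪ B : Finset _) : Set _) := by
    rintro f (⟨u, v, h | h⟩ | ⟨b, h⟩)
    · rw [mem_coe, mem_union, mem_image]
      exact Or.inl ⟨(u, v, true), mem_univ _, by simp [h]⟩
    · rw [mem_coe, mem_union, mem_image]
      exact Or.inl ⟨(u, v, false), mem_univ _, by simp [h]⟩
    · rw [mem_coe, mem_union]
      exact Or.inr (mem_image.2 ⟨b, mem_univ _, h.symm⟩)
  refine ⟨(A ∪ B).finite_toSet.subset hsub, ?_⟩
  refine (Set.ncard_le_ncard hsub (A ∪ B).finite_toSet).trans ?_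
  rw [Set.ncard_coe_finset]
  refine (card_union_le _ _).trans (Nat.add_le_add (card_image_le.trans ?_)
    (card_image_le.trans ?_))
  · rw [card_univ, Fintype.card_prod, Fintype.card_prod, Fintype.card_fin, Fintype.card_bool]
    exact le_of_eq (by ring)
  · rw [card_univ, Fintype.card_bool]

end P18dd
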