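import Pool.Agent.Lib.P18dd.RootA
import Pool.Agent.Lib.P18dd.FmC
import Pool.Agent.Lib.P28cd.GDefs
import Pool.Agent.Lib.P28cd.Emb

/-!
# P18dd.EmbX: instances which are disjoint unions of paths
-/

set_option autoImplicit false

namespace P18dd

open Finset

/-- `E` is a disjoint union of directed paths (and isolated vertices) -/
def Paths {n : ℕ} (E : Fin n → Fin n → Bool) : Prop :=
  (∀ v w w', E v w = true → E v w' = true → w = w') ∧
  (∀ v w w', E w v = true → E w' v = true → w = w') ∧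
  ∀ (j : ℕ) (p : ℕ → Fin n), 0 < j → (∀ i < j, E (p i) (p (i + 1)) = true) → p 0 ≠ p j

/-- the underlying undirected graph -/
def und {n : ℕ} (E : Fin n → Fin n → Bool) : Fin n → Fin n → Bool := fun v w => E v w || E w v

/-- correct on disjoint unions of directed paths -/
def SepD {n : ℕ} (k : ℕ) (s t : Fin n) (f : (Fin n → Fin n → Bool) → Bool) : Prop :=
  ∀ E, Paths E → (P28cd.Walk E k s t → f E = true) ∧ ((∀ j, ¬ P28cd.Walk E j s t) → f E = false)

/-- correct on disjoint unions of undirected paths -/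
def SepUD {n : ℕ} (k : ℕ) (s t : Fin n) (f : (Fin n → Fin n → Bool) → Bool) : Prop :=
  ∀ E, Paths E → (P28cd.Walk (und E) k s t → f (und E) = true) ∧
    ((∀ j, ¬ P28cd.Walk (und E) j s t) → f (und E) = false)

/-- what is needed at the root -/
def SepX {k n : ℕ} (a b : Fin n) (f : (Arc k n → Bool) → Bool) : Prop :=
  ∀ (Γ : Arc k n → Bool) (x : Pl k n), Iso Γ x → x 0 = a → x (Fin.last k) = b →
    ∀ S ⊆ Es x (range k), f (on Γ S) = decide (S = Es x (range k))

namespace EmbXAux

/-- the functions whose conjunction is `kp` -/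
def fc {k n : ℕ} (i : Fin k) (u v : Fin n) : Fin n ⊕ Fin n → (Arc k n → Bool) → Bool
  | Sum.inl v' => fun G => if v' = v then G (i, u, v) else !G (i, u, v')
  | Sum.inr u' => fun G => if u' = u then G (i, u, v) else !G (i, u', v)

/-- the arc `(i, u, v)` is kept -/
def kp {k n : ℕ} (G : Arc k n → Bool) (i : Fin k) (u v : Fin n) : Bool :=
  decide (∀ c, fc i u v c G = true)

theorem kp_iff {k n : ℕ} (G : Arc k n → Bool) (i : Fin k) (u v : Fin n) :
    kp G i u v = true ↔ G (i, u, v) = true ∧ (∀ v', v' ≠ v → G (i, u, v') = false) ∧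
      ∀ u', u' ≠ u → G (i, u', v) = false := by
  unfold kp
  rw [decide_eq_true_iff]
  constructor
  · intro h
    refine ⟨?_, fun v' hv => ?_, fun u' hu => ?_⟩
    · simpa [fc] using h (Sum.inl v)
    · simpa [fc, hv] using h (Sum.inl v')
    · simpa [fc, hu] using h (Sum.inr u')
  · rintro ⟨h1, h2, h3⟩ (v' | u')
    · by_cases hv : v' = v
      · simp [fc, hv, h1]
      · simp [fc, hv, h2 v' hv]
    · by_cases hu : u' = u
      · simp [fc, hu, h1]
      · simp [fc, hu, h3 u' hu]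

/-- the arcs from one layer to the next -/
def arc {k n : ℕ} (G : Arc k n → Bool) (p q : Fin (k + 1) × Fin n) : Bool :=
  if h : (p.1 : ℕ) < k ∧ (q.1 : ℕ) = p.1 + 1 then kp G ⟨p.1, h.1⟩ p.2 q.2 else false

theorem arc_iff {k n : ℕ} (G : Arc k n → Bool) (p q : Fin (k + 1) × Fin n) :
    arc G p q = true ↔ ∃ i : Fin k, p.1 = i.castSucc ∧ q.1 = i.succ ∧ kp G i p.2 q.2 = true := by
  unfold arc
  constructor
  · intro h
    split_ifs at h with h1
    exact ⟨⟨p.1, h1.1⟩, Fin.ext rfl, Fin.ext (by simpa using h1.2), h⟩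
  · rintro ⟨i, h1, h2, h3⟩
    have h4 : (p.1 : ℕ) < k ∧ (q.1 : ℕ) = p.1 + 1 := by
      rw [h1, h2]; simp
    rw [dif_pos h4]
    have h5 : (⟨p.1, h4.1⟩ : Fin k) = i := by
      apply Fin.ext; simp [h1]
    rw [h5]
    exact h3

theorem hlay {k n : ℕ} (G : Arc k n → Bool) (p q : Fin (k + 1) × Fin n) (h : arc G p q = true) :
    (q.1 : ℕ) = p.1 + 1 := by
  unfold arc at h
  split_ifs at h with h1
  exact h1.2

/-- base functions -/
abbrev B (k n : ℕ) : Set ((Arc k n → Bool) → Bool) := {g | Dep1 g}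

theorem neg_B {k n : ℕ} : ∀ h ∈ B k n, (fun x => !h x) ∈ B k n := by
  rintro h (⟨c, hc⟩ | ⟨i, hi⟩)
  · exact Or.inl ⟨!c, fun z => by simp [hc z]⟩
  · exact Or.inr ⟨i, fun z z' hz => by simp [hi z z' hz]⟩

theorem fc_B {k n : ℕ} (i : Fin k) (u v : Fin n) (c : Fin n ⊕ Fin n) : fc i u v c ∈ B k n := by
  rcases c with v' | u'
  · by_cases hv : v' = v
    · exact Or.inr ⟨(i, u, v), fun z z' hz => by simp [fc, hv, hz]⟩
    · exact Or.inr ⟨(i, u, v'), fun z z' hz => by simp [fc, hv, hz]⟩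
  · by_cases hu : u' = u
    · exact Or.inr ⟨(i, u, v), fun z z' hz => by simp [fc, hu, hz]⟩
    · exact Or.inr ⟨(i, u', v), fun z z' hz => by simp [fc, hu, hz]⟩

theorem fm_kp {k n : ℕ} (i : Fin k) (u v : Fin n) :
    ∃ L ≤ 2 * n, Fm (B k n) 1 L fun G => kp G i u v := by
  have h := Fm.gate (P := B k n) 0 (n + n) (fun _ => 1)
    (fun c => fc i u v (finSumFinEquiv.symm c)) (fun G => kp G i u v) (by have := u.isLt; omega)
    (fun c => Fm.lit 0 _ (fc_B i u v _)) (Or.inl fun G => by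
      unfold kp
      rw [decide_eq_true_iff]
      constructor
      · intro h c
        exact h _
      · intro h c
        have := h (finSumFinEquiv c)
        simpa using this)
  refine ⟨_, ?_, h⟩
  simp
  omega

theorem fm_false {k n : ℕ} (hn : 1 ≤ n) : ∃ L ≤ 2 * n, Fm (B k n) 1 L fun _ => false :=
  ⟨1, by omega, Fm.lit 1 _ (Or.inl ⟨false, fun _ => rfl⟩)⟩

theorem fm_arc {k n : ℕ} (hn : 1 ≤ n) (p q : Fin (k + 1) × Fin n) :
    ∃ L ≤ 2 * n, Fm (B k n) 1 L fun G => arc G p q := by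
  by_cases h : (p.1 : ℕ) < k ∧ (q.1 : ℕ) = p.1 + 1
  · simp only [arc, dif_pos h]
    exact fm_kp _ _ _
  · simp only [arc, dif_neg h]
    exact fm_false hn

open P28cd.EmbAux

variable {k n N : ℕ} {ψ : Fin (k + 1) × Fin n → Fin N}

theorem fm_ed (hn : 1 ≤ n) (hψ : Function.Injective ψ) (v w : Fin N) :
    ∃ L ≤ 2 * n, Fm (B k n) 1 L fun G => Ed arc ψ G v w := by
  by_cases h : ∃ p q, ψ p = v ∧ ψ q = w
  · obtain ⟨p, q, rfl, rfl⟩ := h
    simp only [ed_eq hψ]
    exact fm_arc hn p q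
  · simp only [ed_false h]
    exact fm_false hn

theorem fm_und (hn : 1 ≤ n) (hψ : Function.Injective ψ) (v w : Fin N) :
    ∃ L ≤ 2 * n, Fm (B k n) 1 L fun G => und (Ed arc ψ G) v w := by
  unfold und
  by_cases h : ∃ p q, ψ p = v ∧ ψ q = w
  · obtain ⟨p, q, rfl, rfl⟩ := h
    simp only [ed_eq hψ]
    by_cases hl : (q.1 : ℕ) = p.1 + 1
    · have : ∀ G : Arc k n → Bool, arc G q p = false := by
        intro G
        rw [Bool.eq_false_iff]
        intro h'
        have := hlay G q p h'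
        omega
      simp only [this, Bool.or_false]
      exact fm_arc hn p q
    · have : ∀ G : Arc k n → Bool, arc G p q = false := by
        intro G
        rw [Bool.eq_false_iff]
        intro h'
        exact hl (hlay G p q h')
      simp only [this, Bool.false_or]
      exact fm_arc hn q p
  · have h' : ¬ ∃ p q, ψ p = w ∧ ψ q = v := by
      rintro ⟨p, q, h1, h2⟩
      exact h ⟨q, p, h2, h1⟩
    simp only [ed_false h, ed_false h', Bool.or_false]
    exact fm_false hn

theorem fm_not {f : (Arc k n → Bool) → Bool} (h : ∃ L ≤ 2 * n, Fm (B k n) 1 L f) :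
    ∃ L ≤ 2 * n, Fm (B k n) 1 L fun G => !f G := by
  obtain ⟨L, hL, h⟩ := h
  exact ⟨L, hL, FmCAux.fm_neg neg_B h⟩

theorem paths_ed (hψ : Function.Injective ψ) (G : Arc k n → Bool) : Paths (Ed arc ψ G) := by
  refine ⟨?_, ?_, ?_⟩
  · intro v w w' g g'
    obtain ⟨p, q, rfl, rfl, h⟩ := (ed_iff G _ _).1 g
    obtain ⟨p', q', h1, rfl, h'⟩ := (ed_iff G _ _).1 g'
    have := hψ h1
    subst this
    obtain ⟨i, h2, h3, h4⟩ := (arc_iff G _ _).1 h
    obtain ⟨i', h2', h3', h4'⟩ := (arc_iff G _ _).1 h'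
    have : i = i' := Fin.castSucc_injective _ (h2.symm.trans h2')
    subst this
    rw [kp_iff] at h4 h4'
    have h5 : q.2 = q'.2 := by
      by_contra hne
      have := h4.2.1 q'.2 (Ne.symm hne)
      rw [h4'.1] at this
      exact absurd this (by simp)
    congr 1
    exact Prod.ext (h3.trans h3'.symm) h5
  · intro v w w' g g'
    obtain ⟨p, q, rfl, rfl, h⟩ := (ed_iff G _ _).1 g
    obtain ⟨p', q', rfl, h1, h'⟩ := (ed_iff G _ _).1 g'
    have := hψ h1
    subst this
    obtain ⟨i, h2, h3, h4⟩ := (arc_iff G _ _).1 h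
    obtain ⟨i', h2', h3', h4'⟩ := (arc_iff G _ _).1 h'
    have : i = i' := Fin.succ_injective _ (h3.symm.trans h3')
    subst this
    rw [kp_iff] at h4 h4'
    have h5 : p.2 = p'.2 := by
      by_contra hne
      have := h4.2.2 p'.2 (Ne.symm hne)
      rw [h4'.1] at this
      exact absurd this (by simp)
    congr 1
    exact Prod.ext (h2.trans h2'.symm) h5
  · intro j p hj hp h0
    obtain ⟨r0, q0, h1, -, -⟩ := (ed_iff G _ _).1 (hp 0 hj)
    have key : ∀ i ≤ j, ∃ r, ψ r = p i ∧ (r.1 : ℕ) = r0.1 + i := by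
      intro i
      induction i with
      | zero => exact fun _ => ⟨r0, h1, rfl⟩
      | succ i ih =>
        intro hi
        obtain ⟨r, hr, hr'⟩ := ih (by omega)
        obtain ⟨p', q', h1, h2, h3⟩ := (ed_iff G _ _).1 (hp i (by omega))
        have : p' = r := hψ (h1.trans hr.symm)
        subst this
        have := hlay G _ _ h3
        exact ⟨q', h2, by omega⟩
    obtain ⟨r, hr, hr'⟩ := key j le_rfl
    have : r = r0 := hψ (hr.trans (h0.symm.trans h1.symm))
    subst this
    omega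

theorem mem_Es_iff {x : Pl k n} {e : Arc k n} :
    e ∈ Es x (range k) ↔ e = (e.1, x e.1.castSucc, x e.1.succ) := by
  simp only [Es, mem_filter, mem_univ, true_and, mem_range]
  constructor
  · rintro ⟨-, h1, h2⟩
    exact Prod.ext rfl (Prod.ext h1 h2)
  · intro h
    have h1 := congrArg (fun e => e.2.1) h
    have h2 := congrArg (fun e => e.2.2) h
    exact ⟨e.1.isLt, h1, h2⟩

theorem mem_S {Γ : Arc k n → Bool} {x : Pl k n} (hI : Iso Γ x) {S : Finset (Arc k n)}
    (hS : S ⊆ Es x (range k)) {i : Fin k} {u v : Fin n} (h : on Γ S (i, u, v) = true)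
    (hor : u = x i.castSucc ∨ v = x i.succ) :
    u = x i.castSucc ∧ v = x i.succ ∧ (i, x i.castSucc, x i.succ) ∈ S := by
  simp only [on, Bool.or_eq_true, decide_eq_true_eq] at h
  rcases h with h | h
  · have := hI _ h
    rcases hor with h1 | h1
    · exact absurd h1 this.1
    · exact absurd h1 this.2
  · have h1 := mem_Es_iff.1 (hS h)
    have h2 : u = x i.castSucc := congrArg (fun e => e.2.1) h1
    have h3 : v = x i.succ := congrArg (fun e => e.2.2) h1
    subst h2 h3
    exact ⟨rfl, rfl, h⟩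

theorem kp_on {Γ : Arc k n → Bool} {x : Pl k n} (hI : Iso Γ x) {S : Finset (Arc k n)}
    (hS : S ⊆ Es x (range k)) {i : Fin k} (h : (i, x i.castSucc, x i.succ) ∈ S) :
    kp (on Γ S) i (x i.castSucc) (x i.succ) = true := by
  rw [kp_iff]
  refine ⟨by simp [on, h], fun v' hv => ?_, fun u' hu => ?_⟩
  · rw [Bool.eq_false_iff]
    intro h'
    exact hv (mem_S hI hS h' (Or.inl rfl)).2.1
  · rw [Bool.eq_false_iff]
    intro h'
    exact hu (mem_S hI hS h' (Or.inr rfl)).1

/-- the path through the layers -/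
def pth (x : Pl k n) (j : ℕ) : Fin (k + 1) × Fin n :=
  (⟨min j k, by omega⟩, x ⟨min j k, by omega⟩)

theorem walk_full (hψ : Function.Injective ψ) {Γ : Arc k n → Bool} {x : Pl k n} (hI : Iso Γ x) :
    P28cd.Walk (Ed arc ψ (on Γ (Es x (range k)))) k (ψ (0, x 0))
      (ψ (Fin.last k, x (Fin.last k))) := by
  refine ⟨k, le_rfl, fun j => ψ (pth x j), ?_, ?_, fun i hi => ?_⟩
  · have h1 : (⟨min 0 k, by omega⟩ : Fin (k + 1)) = 0 := Fin.ext (by simp)
    simp only [pth, h1]
  · have h1 : (⟨min k k, by omega⟩ : Fin (k + 1)) = Fin.last k := Fin.ext (by simp)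
    simp only [pth, h1]
  · rw [ed_eq hψ, arc_iff]
    have h1 : (⟨min i k, by omega⟩ : Fin (k + 1)) = (⟨i, hi⟩ : Fin k).castSucc :=
      Fin.ext (by simp; omega)
    have h2 : (⟨min (i + 1) k, by omega⟩ : Fin (k + 1)) = (⟨i, hi⟩ : Fin k).succ :=
      Fin.ext (by simp; omega)
    refine ⟨⟨i, hi⟩, h1, h2, ?_⟩
    simp only [pth, h1, h2]
    exact kp_on hI (Subset.refl _) (mem_Es_iff.2 rfl)

theorem no_walk_und (hψ : Function.Injective ψ) {Γ : Arc k n → Bool} {x : Pl k n} (hI : Iso Γ x)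
    {S : Finset (Arc k n)} (hS : S ⊆ Es x (range k)) (hne : S ≠ Es x (range k)) (j : ℕ) :
    ¬ P28cd.Walk (und (Ed arc ψ (on Γ S))) j (ψ (0, x 0)) (ψ (Fin.last k, x (Fin.last k))) := by
  have hex : ∃ i : Fin k, (i, x i.castSucc, x i.succ) ∉ S := by
    by_contra hall
    push Not at hall
    refine hne (Subset.antisymm hS fun e he => ?_)
    rw [mem_Es_iff.1 he]
    exact hall _
  obtain ⟨i0, hi0⟩ := hex
  rintro ⟨j', -, p, hp0, hpj, hp⟩
  have key : ∀ i ≤ j', ∃ r : Fin (k + 1), ψ (r, x r) = p i ∧ (r : ℕ) ≤ i0 := by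
    intro i
    induction i with
    | zero => exact fun _ => ⟨0, hp0.symm, by simp⟩
    | succ i ih =>
      intro hi
      obtain ⟨r, hr, hr'⟩ := ih (by omega)
      have h1 := hp i (by omega)
      simp only [und, Bool.or_eq_true, ed_iff] at h1
      rcases h1 with ⟨p', q', h1, h2, h3⟩ | ⟨p', q', h1, h2, h3⟩
      · have h4 : p' = (r, x r) := hψ (h1.trans hr.symm)
        subst h4
        obtain ⟨i', h5, h6, h7⟩ := (arc_iff _ _ _).1 h3
        simp only at h5 h7
        subst h5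
        rw [kp_iff] at h7
        obtain ⟨-, h8, h9⟩ := mem_S hI hS h7.1 (Or.inl rfl)
        have h10 : i' ≠ i0 := by
          rintro rfl
          exact hi0 h9
        refine ⟨i'.succ, ?_, ?_⟩
        · rw [← h2]
          congr 1
          exact Prod.ext h6.symm h8.symm
        · have h11 : (i' : ℕ) ≠ i0 := fun h => h10 (Fin.ext h)
          simp only [Fin.val_castSucc] at hr'
          simp only [Fin.val_succ]
          omega
      · have h4 : q' = (r, x r) := hψ (h2.trans hr.symm)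
        subst h4
        obtain ⟨i', h5, h6, h7⟩ := (arc_iff _ _ _).1 h3
        simp only at h6 h7
        subst h6
        rw [kp_iff] at h7
        obtain ⟨h8, -, h9⟩ := mem_S hI hS h7.1 (Or.inr rfl)
        refine ⟨i'.castSucc, ?_, ?_⟩
        · rw [← h1]
          congr 1
          exact Prod.ext h5.symm h8.symm
        · simp only [Fin.val_succ] at hr'
          simp only [Fin.val_castSucc]
          omega
  obtain ⟨r, hr, hr'⟩ := key j' le_rfl
  have h1 := hψ (hr.trans hpj)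
  have h2 : r = Fin.last k := congrArg Prod.fst h1
  subst h2
  have := i0.isLt
  simp only [Fin.val_last] at hr'
  omega

end EmbXAux

open EmbXAux P28cd.EmbAux in
theorem embX {k n N : ℕ} (hk : 1 ≤ k) (hn : 1 ≤ n) (hN : (k + 1) * n ≤ N) (s t : Fin N)
    (hst : s ≠ t) : ∃ (a b : Fin n) (emb : (Arc k n → Bool) → Fin N → Fin N → Bool),
      (∀ v w, (∃ L ≤ 2 * n, Fm {g : (Arc k n → Bool) → Bool | Dep1 g} 1 L fun G => emb G v w) ∧
        (∃ L ≤ 2 * n, Fm {g : (Arc k n → Bool) → Bool | Dep1 g} 1 L fun G => !emb G v w) ∧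
        (∃ L ≤ 2 * n, Fm {g : (Arc k n → Bool) → Bool | Dep1 g} 1 L fun G => und (emb G) v w) ∧
        (∃ L ≤ 2 * n, Fm {g : (Arc k n → Bool) → Bool | Dep1 g} 1 L
          fun G => !und (emb G) v w)) ∧
      (∀ f, SepD k s t f → SepX a b fun G => f (emb G)) ∧
      (∀ f, SepUD k s t f → SepX a b fun G => f (und (emb G))) := by
  classical
  have hcard : Fintype.card (Fin (k + 1) × Fin n) ≤ N := by
    rw [Fintype.card_prod, Fintype.card_fin, Fintype.card_fin]
    exact hN
  have h0 : ((0 : Fin (k + 1)), (⟨0, hn⟩ : Fin n)) ≠ (Fin.last k, ⟨0, hn⟩) := by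
    intro h
    have := congrArg (fun p => ((p.1 : Fin (k + 1)) : ℕ)) h
    simp at this
    omega
  obtain ⟨ψ, hψ, rfl, rfl⟩ := exists_inj N hcard _ _ h0 s t hst
  refine ⟨⟨0, hn⟩, ⟨0, hn⟩, fun G => Ed arc ψ G, fun v w => ⟨fm_ed hn hψ v w,
    fm_not (fm_ed hn hψ v w), fm_und hn hψ v w, fm_not (fm_und hn hψ v w)⟩, ?_, ?_⟩
  · intro f hf Γ x hI hx0 hxk S hS
    have h1 := hf (Ed arc ψ (on Γ S)) (paths_ed hψ _)
    by_cases hSe : S = Es x (range k)
    · rw [decide_eq_true hSe]
      refine h1.1 ?_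
      have := walk_full hψ hI
      rw [hx0, hxk, ← hSe] at this
      exact this
    · rw [decide_eq_false hSe]
      refine h1.2 fun j hw => ?_
      have := no_walk_und hψ hI hS hSe j
      rw [hx0, hxk] at this
      refine this ?_
      obtain ⟨j', hj', p, hp0, hpj, hp⟩ := hw
      exact ⟨j', hj', p, hp0, hpj, fun i hi => by simp [und, hp i hi]⟩
  · intro f hf Γ x hI hx0 hxk S hS
    have h1 := hf (Ed arc ψ (on Γ S)) (paths_ed hψ _)
    by_cases hSe : S = Es x (range k)
    · rw [decide_eq_true hSe]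
      refine h1.1 ?_
      have := walk_full hψ hI
      rw [hx0, hxk, ← hSe] at this
      obtain ⟨j', hj', p, hp0, hpj, hp⟩ := this
      exact ⟨j', hj', p, hp0, hpj, fun i hi => by simp [und, hp i hi]⟩
    · rw [decide_eq_false hSe]
      refine h1.2 fun j hw => ?_
      have := no_walk_und hψ hI hS hSe j
      rw [hx0, hxk] at this
      exact this hw

end P18dd
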