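import Pool.Agent.Lib.P18dd.Defs
import Pool.Agent.Lib.P28cd.GDefs
import Pool.Agent.Lib.P28cd.Emb

/-!
# P18dd.Graph: the layered instances as undirected graphs on `Fin N`
-/

set_option autoImplicit false

namespace P18dd

open Finset

/-- `f` is true on the undirected graphs with a walk of length at most `k` from `s` to `t` and false on the
undirected graphs with no walk at all from `s` to `t` -/
def SepU {n : ℕ} (k : ℕ) (s t : Fin n) (f : (Fin n → Fin n → Bool) → Bool) : Prop :=
  ∀ E, (∀ v, E v v = false) → (∀ v w, E v w = E w v) →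
    (P28cd.Walk E k s t → f E = true) ∧ ((∀ j, ¬ P28cd.Walk E j s t) → f E = false)

namespace GraphAux

/-- the vertices: the source `none`, the sink `some none` and the pairs -/
abbrev Wt (k n : ℕ) : Type := Option (Option (Fin (k + 1) × Fin n))

/-- the arcs from one layer to the next -/
def arc {k n : ℕ} (G : Arc k n → Bool) : Wt k n → Wt k n → Bool
  | none, some (some (i, _)) => decide ((i : ℕ) = 0)
  | some (some (i, u)), some (some (j, v)) =>
      if h : (i : ℕ) < k ∧ (j : ℕ) = i + 1 then G (⟨i, h.1⟩, u, v) else false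
  | some (some (i, _)), some none => decide ((i : ℕ) = k)
  | _, _ => false

/-- the layers -/
def lay {k n : ℕ} : Wt k n → ℕ
  | none => 0
  | some none => k + 2
  | some (some (i, _)) => i + 1

theorem hlay {k n : ℕ} (G : Arc k n → Bool) (p q : Wt k n) (h : arc G p q = true) :
    lay q = lay p + 1 := by
  rcases p with _ | _ | ⟨i, u⟩
  · rcases q with _ | _ | ⟨j, v⟩
    · simp [arc] at h
    · simp [arc] at h
    · simp only [arc, decide_eq_true_eq] at h
      simp [lay, h]
  · rcases q with _ | _ | ⟨j, v⟩ <;> simp [arc] at h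
  · rcases q with _ | _ | ⟨j, v⟩
    · simp [arc] at h
    · simp only [arc, decide_eq_true_eq] at h
      simp [lay, h]
    · simp only [arc] at h
      split_ifs at h with h1
      simp only [lay]
      omega

theorem hdep {k n : ℕ} (p q : Wt k n) : P28cd.Dep1 (fun G : Arc k n → Bool => arc G p q) := by
  rcases p with _ | _ | ⟨i, u⟩
  · rcases q with _ | _ | ⟨j, v⟩ <;> exact P28cd.EmbAux.dep_const _
  · rcases q with _ | _ | ⟨j, v⟩ <;> exact P28cd.EmbAux.dep_const _
  · rcases q with _ | _ | ⟨j, v⟩
    · exact P28cd.EmbAux.dep_const _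
    · exact P28cd.EmbAux.dep_const _
    · by_cases h1 : (i : ℕ) < k ∧ (j : ℕ) = i + 1
      · refine ⟨{(⟨i, h1.1⟩, u, v)}, by simp, fun x x' h => ?_⟩
        simp only [arc, dif_pos h1]
        exact h _ (by simp)
      · simp only [arc, dif_neg h1]
        exact P28cd.EmbAux.dep_const _

theorem dep1_of {J : Type} {f : (J → Bool) → Bool} (h : P28cd.Dep1 f) : Dep1 f := by
  obtain ⟨K, hK, h⟩ := h
  rcases Nat.lt_or_ge 0 K.card with h0 | h0
  · have h1 : K.card = 1 := by omega
    obtain ⟨i, rfl⟩ := card_eq_one.1 h1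
    exact Or.inr ⟨i, fun z z' hz => h z z' (by simpa using hz)⟩
  · have h1 : K = ∅ := card_eq_zero.1 (by omega)
    subst h1
    exact Or.inl ⟨f fun _ => false, fun z => h z _ (by simp)⟩

/-- the path through the layers -/
def pth {k n : ℕ} (x : Pl k n) (j : ℕ) : Wt k n :=
  if j = 0 then none else if h : j - 1 < k + 1 then some (some (⟨j - 1, h⟩, x ⟨j - 1, h⟩))
  else some none

theorem pth_arc {k n : ℕ} {G : Arc k n → Bool} {x : Pl k n}
    (hx : ∀ i : Fin k, G (i, x i.castSucc, x i.succ) = true) (j : ℕ) (hj : j < k + 2) :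
    arc G (pth x j) (pth x (j + 1)) = true := by
  rcases j with _ | j
  · simp [pth, arc]
  · have h1 : pth x (j + 1) = some (some (⟨j, by omega⟩, x ⟨j, by omega⟩)) := by
      unfold pth
      rw [if_neg (by omega), dif_pos (by omega)]
      simp
    rw [h1]
    by_cases h2 : j < k
    · have h3 : pth x (j + 1 + 1) = some (some (⟨j + 1, by omega⟩, x ⟨j + 1, by omega⟩)) := by
        unfold pth
        rw [if_neg (by omega), dif_pos (by omega)]
        simp
      rw [h3]
      simp only [arc]
      rw [dif_pos ⟨h2, trivial⟩]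
      exact hx ⟨j, h2⟩
    · have h3 : pth x (j + 1 + 1) = some none := by
        unfold pth
        rw [if_neg (by omega), dif_neg (by omega)]
      rw [h3]
      simp only [arc, decide_eq_true_eq]
      omega

theorem adj_of_arc {k n : ℕ} {G : Arc k n → Bool} {i j : Fin (k + 1)} {u v : Fin n}
    (h : arc G (some (some (i, u))) (some (some (j, v))) = true) :
    Adj G (i, u) (j, v) ∧ Adj G (j, v) (i, u) := by
  simp only [arc] at h
  split_ifs at h with h1
  have h2 : i = (⟨i, h1.1⟩ : Fin k).castSucc := by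
    apply Fin.ext; rfl
  have h3 : j = (⟨i, h1.1⟩ : Fin k).succ := by
    apply Fin.ext; simpa using h1.2
  exact ⟨Or.inl ⟨_, h2, h3, h⟩, Or.inr ⟨_, h2, h3, h⟩⟩

/-- the vertices joined to the first layer -/
def Rch {k n : ℕ} (G : Arc k n → Bool) : Wt k n → Prop
  | none => True
  | some none => False
  | some (some a) => ∃ u : Fin n, Relation.ReflTransGen (Adj G) (0, u) a

theorem rch_arc {k n : ℕ} {G : Arc k n → Bool} (hU : ¬ UConn G) {p q : Wt k n}
    (h : arc G p q = true ∨ arc G q p = true) (hp : Rch G p) : Rch G q := by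
  rcases q with _ | _ | ⟨j, v⟩
  · trivial
  · -- the sink
    rcases p with _ | _ | ⟨i, u⟩
    · simp [arc] at h
    · simp [arc] at h
    · rcases h with h | h
      · simp only [arc, decide_eq_true_eq] at h
        obtain ⟨u0, hu0⟩ := hp
        have hi : i = Fin.last k := Fin.ext h
        subst hi
        exact absurd ⟨u0, u, hu0⟩ hU
      · simp [arc] at h
  · rcases p with _ | _ | ⟨i, u⟩
    · rcases h with h | h
      · simp only [arc, decide_eq_true_eq] at h
        have hj : j = 0 := Fin.ext h
        subst hj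
        exact ⟨v, Relation.ReflTransGen.refl⟩
      · simp [arc] at h
    · exact hp.elim
    · obtain ⟨u0, hu0⟩ := hp
      rcases h with h | h
      · exact ⟨u0, hu0.tail (adj_of_arc h).1⟩
      · exact ⟨u0, hu0.tail (adj_of_arc h).2⟩

end GraphAux

open GraphAux in
theorem embed {k n N : ℕ} (hk : 1 ≤ k) (hN : (k + 1) * n + 2 ≤ N) (s t : Fin N) (hst : s ≠ t)
    (f : (Fin N → Fin N → Bool) → Bool) (hf : SepU (k + 2) s t f) :
    ∃ emb : (Arc k n → Bool) → Fin N → Fin N → Bool, (∀ v w, Dep1 fun G => emb G v w) ∧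
      SepL fun G => f (emb G) := by
  classical
  have _ := hk
  have hcard : Fintype.card (Wt k n) ≤ N := by
    rw [Fintype.card_option, Fintype.card_option, Fintype.card_prod, Fintype.card_fin,
      Fintype.card_fin]
    omega
  obtain ⟨ψ, hψ, rfl, rfl⟩ := P28cd.EmbAux.exists_inj N hcard (none : Wt k n) (some none)
    (by simp) s t hst
  refine ⟨fun G v w => P28cd.EmbAux.Ed arc ψ G v w || P28cd.EmbAux.Ed arc ψ G w v,
    fun v w => dep1_of (P28cd.EmbAux.dep_es hψ hdep lay hlay v w), fun G => ?_⟩
  have hloop : ∀ v, (P28cd.EmbAux.Ed arc ψ G v v || P28cd.EmbAux.Ed arc ψ G v v) = false := by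
    intro v
    rw [Bool.or_self, Bool.eq_false_iff, ne_eq, P28cd.EmbAux.ed_iff]
    rintro ⟨p, q, h1, h2, h3⟩
    have h4 : p = q := hψ (h1.trans h2.symm)
    subst h4
    have := hlay G p p h3
    omega
  have hs := hf (fun v w => P28cd.EmbAux.Ed arc ψ G v w || P28cd.EmbAux.Ed arc ψ G w v) hloop
    (fun v w => Bool.or_comm _ _)
  refine ⟨?_, ?_⟩
  · rintro ⟨x, hx⟩
    refine hs.1 ⟨k + 2, le_rfl, fun j => ψ (pth x j), ?_, ?_, fun j hj => ?_⟩
    · simp [pth]
    · have : pth x (k + 2) = some none := by
        unfold pth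
        rw [if_neg (by omega), dif_neg (by omega)]
      exact congrArg ψ this
    · show (_ || _) = true
      rw [P28cd.EmbAux.ed_eq hψ, pth_arc hx j hj, Bool.true_or]
  · intro hU
    refine hs.2 fun j hw => ?_
    obtain ⟨j', -, p, hp0, hpj, hp⟩ := hw
    have key : ∀ i ≤ j', ∃ r, ψ r = p i ∧ Rch G r := by
      intro i
      induction i with
      | zero => exact fun _ => ⟨none, hp0.symm, trivial⟩
      | succ i ih =>
        intro hi
        obtain ⟨r, hr, hr'⟩ := ih (by omega)
        have h1 := hp i (by omega)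
        simp only [Bool.or_eq_true, P28cd.EmbAux.ed_iff] at h1
        rcases h1 with ⟨p', q', h1, h2, h3⟩ | ⟨p', q', h1, h2, h3⟩
        · have h4 : p' = r := hψ (h1.trans hr.symm)
          subst h4
          exact ⟨q', h2, rch_arc hU (Or.inl h3) hr'⟩
        · have h4 : q' = r := hψ (h2.trans hr.symm)
          subst h4
          exact ⟨p', h1, rch_arc hU (Or.inr h3) hr'⟩
    obtain ⟨r, hr, hr'⟩ := key j' le_rfl
    have h1 : r = some none := hψ (hr.trans hpj)
    subst h1
    exact hr'

end P18dd
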