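import Pool.Agent.Lib.P18dd.Num

/-!
# P18dd.NumA: the choice of the parameters, depth up to a power of the logarithm

The two theorems of `P18dd.Num` with the hypothesis `d ≤ (log N) ^ a`, `0 < a < 1` fixed, in place of
`d ≤ √(log N)`. The constants depend on `a`. As there, with `J ≥ 5` and `J (1 - a) > 1` in place of
the exponent `5`: `K₁` is the largest number with `(24 K₁) ^ J ≤ log₂ N`, and `c = 1 / (200 J)`.
-/

set_option autoImplicit false

namespace P18dd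

namespace NumAAux

open NumAux

theorem exists_rootA (J : ℕ) (hJ : 1 ≤ J) (l : ℕ) :
    ∃ a : ℕ, (24 * a) ^ J ≤ l ∧ l < (24 * (a + 1)) ^ J := by
  induction l with
  | zero => exact ⟨0, by simp [Nat.pos_iff_ne_zero.1 hJ], by positivity⟩
  | succ l ih =>
    obtain ⟨a, h1, h2⟩ := ih
    rcases lt_or_ge (l + 1) ((24 * (a + 1)) ^ J) with h | h
    · exact ⟨a, by omega, h⟩
    · have h3 : l + 1 = (24 * (a + 1)) ^ J := by omega
      refine ⟨a + 1, h, ?_⟩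
      rw [h3]
      exact Nat.pow_lt_pow_left (by omega) (by omega)

/-- `m ^ (2 d) ≤ 2 ^ m` for `d ≤ (m + 2) ^ b`, `b < 1` -/
theorem exists_m (b : ℝ) (hb0 : 0 < b) (hb : b < 1) : ∃ m₀ : ℕ, ∀ m ≥ m₀, ∀ d : ℕ,
    (d : ℝ) ≤ ((m : ℝ) + 2) ^ b → m ^ (2 * d) ≤ 2 ^ m := by
  have h1 := (isLittleO_log_rpow_atTop (show 0 < 1 - b by linarith)).bound
    (show (0 : ℝ) < 1 / 18 by norm_num)
  obtain ⟨A, hA⟩ := Filter.eventually_atTop.1 h1
  obtain ⟨m₁, hm₁⟩ := exists_nat_ge A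
  refine ⟨max m₁ 3, fun m hm d hd => ?_⟩
  have hmA : A ≤ m := hm₁.trans (by exact_mod_cast le_trans (le_max_left _ _) hm)
  have hm3 : 3 ≤ m := le_trans (le_max_right _ _) hm
  have hm3' : (3 : ℝ) ≤ m := by exact_mod_cast hm3
  have hm0 : (0 : ℝ) < m := by linarith
  have h2 := hA m hmA
  have hlog0 : 0 ≤ Real.log m := Real.log_natCast_nonneg m
  rw [Real.norm_of_nonneg hlog0, Real.norm_of_nonneg (Real.rpow_nonneg hm0.le _)] at h2
  -- `d log m ≤ m / 6`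
  have h3 : ((m : ℝ) + 2) ^ b ≤ 3 * (m : ℝ) ^ b := by
    have e1 : ((m : ℝ) + 2) ^ b ≤ (3 * (m : ℝ)) ^ b :=
      Real.rpow_le_rpow (by linarith) (by linarith) hb0.le
    have e2 : (3 * (m : ℝ)) ^ b = 3 ^ b * (m : ℝ) ^ b := Real.mul_rpow (by norm_num) hm0.le
    have e3 : (3 : ℝ) ^ b ≤ 3 ^ (1 : ℝ) := Real.rpow_le_rpow_of_exponent_le (by norm_num) hb.le
    rw [Real.rpow_one] at e3
    rw [e2] at e1
    exact e1.trans (mul_le_mul_of_nonneg_right e3 (Real.rpow_nonneg hm0.le _))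
  have h4 : (d : ℝ) * Real.log m ≤ m / 6 := by
    have e1 : (m : ℝ) ^ b * (m : ℝ) ^ (1 - b) = m := by
      rw [← Real.rpow_add hm0]
      have : b + (1 - b) = 1 := by ring
      rw [this, Real.rpow_one]
    calc (d : ℝ) * Real.log m ≤ (3 * (m : ℝ) ^ b) * Real.log m :=
          mul_le_mul_of_nonneg_right (hd.trans h3) hlog0
      _ ≤ (3 * (m : ℝ) ^ b) * (1 / 18 * (m : ℝ) ^ (1 - b)) :=
          mul_le_mul_of_nonneg_left h2 (by positivity)
      _ = 1 / 6 * ((m : ℝ) ^ b * (m : ℝ) ^ (1 - b)) := by ring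
      _ = m / 6 := by rw [e1]; ring
  have h5 : (2 * d : ℕ) * Real.log m ≤ (m : ℕ) * Real.log 2 := by
    have e1 := Real.log_two_gt_d9
    have e2 : (m : ℝ) * (1 / 2) ≤ (m : ℕ) * Real.log 2 :=
      mul_le_mul_of_nonneg_left (by linarith) hm0.le
    push_cast
    linarith
  have h6 : ((m : ℝ)) ^ (2 * d) ≤ 2 ^ m := by
    rw [← Real.log_le_log_iff (by positivity) (by positivity), Real.log_pow, Real.log_pow]
    exact h5
  exact_mod_cast h6

theorem pow20 {m : ℕ} (hm : 2 ^ 11 ≤ m) : m ^ 20 ≤ 2 ^ m := by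
  obtain ⟨r, hr⟩ : ∃ r, r = Nat.log 2 m + 1 := ⟨_, rfl⟩
  have hmr : m < 2 ^ r := by
    rw [hr]
    exact Nat.lt_pow_succ_log_self (by norm_num) m
  have hrm : 2 ^ (r - 1) ≤ m := by
    rw [hr, Nat.add_sub_cancel]
    exact Nat.pow_log_le_self 2 (by omega)
  have hr12 : 12 ≤ r := by
    have h1 : 11 ≤ Nat.log 2 m := Nat.le_log_of_pow_le (by norm_num) hm
    omega
  have hr3 : r ^ 3 ≤ m := (cube_le r hr12).trans hrm
  have h20 : 20 * r ≤ m := by
    refine le_trans ?_ hr3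
    have : r ^ 3 = r ^ 2 * r := by ring
    rw [this]
    refine Nat.mul_le_mul_right _ ?_
    have h4 : 12 * 12 ≤ r * r := Nat.mul_le_mul hr12 hr12
    rw [sq]
    omega
  calc m ^ 20 ≤ (2 ^ r) ^ 20 := Nat.pow_le_pow_left hmr.le _
    _ = 2 ^ (20 * r) := by rw [← pow_mul, mul_comm r]
    _ ≤ 2 ^ m := Nat.pow_le_pow_right (by norm_num) h20

/-- the purely arithmetic part -/
theorem arithA {K m d N l : ℕ} (hK : 100 ≤ K) (hl2 : 2 ^ l ≤ N)
    (hl : 24 * K * (m + 1) ≤ l) (hm : 1300 * (24 * K) ^ 3 ≤ m)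
    (hb1 : m ^ (2 * d) ≤ 2 ^ m) (hb2 : m ^ 20 ≤ 2 ^ m) :
    (24 * K + 1) * 2 ^ (m * (24 * K)) + 2 ≤ N ∧
      (64 * (10 * m * (24 * K) ^ 2)) ^ d ≤ 2 ^ m ∧ (16 * (10 * m * (24 * K) ^ 2)) ^ 10 ≤ 2 ^ m ∧
      4 * 4 ^ (24 * K) * (d * (m * (24 * K) ^ 2 + 1) + 1) ^ 2 ≤ 8 ^ (m * K) ∧
      ∀ S : ℕ, S ^ 4 < K ^ (m * K) →
        S ≤ 2 ^ (m * (24 * K) ^ 2) ∧
        2 ^ (m * K + 24 * K + 1) * (d * (m * (24 * K) ^ 2 + 1) + 1) * S < K ^ (m * K) := by
  obtain ⟨k, hk⟩ : ∃ k, k = 24 * K := ⟨_, rfl⟩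
  rw [← hk] at hl hm ⊢
  have hk1 : 1301 ≤ k := by omega
  have hk3 : k * k ^ 2 = k ^ 3 := by ring
  have h640 : 640 * k ^ 2 ≤ m := by
    refine le_trans ?_ hm
    calc 640 * k ^ 2 ≤ 1300 * (1 * k ^ 2) := by omega
      _ ≤ 1300 * (k * k ^ 2) :=
          Nat.mul_le_mul_left _ (Nat.mul_le_mul_right _ (by omega))
      _ = 1300 * k ^ 3 := by rw [hk3]
  have hkm : k + 1 ≤ m := by
    refine le_trans ?_ hm
    have h1 : k ≤ k ^ 3 := Nat.le_self_pow (by norm_num) k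
    omega
  have hm1 : 1 ≤ m := by omega
  have h5 : (64 * (10 * m * k ^ 2)) ^ d ≤ 2 ^ m := by
    refine le_trans ?_ hb1
    rw [pow_mul]
    refine Nat.pow_le_pow_left ?_ d
    calc 64 * (10 * m * k ^ 2) = m * (640 * k ^ 2) := by ring
      _ ≤ m * m := Nat.mul_le_mul_left _ h640
      _ = m ^ 2 := by ring
  have hP : d * (m * k ^ 2 + 1) + 1 ≤ 2 ^ m := by
    refine le_trans ?_ h5
    have h1 : 1 ≤ m * k ^ 2 := Nat.one_le_iff_ne_zero.2 (by positivity)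
    have h2 := P_bound (m * k ^ 2) d h1
    refine h2.trans (le_of_eq ?_)
    congr 1
    ring
  have hPk : 2 ^ (k + 1) * (d * (m * k ^ 2 + 1) + 1) ≤ 2 ^ (m * K) := by
    calc 2 ^ (k + 1) * (d * (m * k ^ 2 + 1) + 1) ≤ 2 ^ (k + 1) * 2 ^ m :=
          Nat.mul_le_mul_left _ hP
      _ = 2 ^ (k + 1 + m) := by rw [← pow_add]
      _ ≤ 2 ^ (m * K) := by
          refine Nat.pow_le_pow_right (by norm_num) ?_
          have h1 : m * 100 ≤ m * K := Nat.mul_le_mul_left _ hK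
          omega
  refine ⟨?_, h5, ?_, ?_, ?_⟩
  · refine le_trans ?_ hl2
    have h1 : k + 3 ≤ 2 ^ k := by
      have h2 : k < 2 ^ (k - 1) * 2 := by
        rw [← pow_succ, Nat.sub_add_cancel (by omega)]
        exact Nat.lt_two_pow_self
      have h3 : k - 1 < 2 ^ (k - 1) := Nat.lt_two_pow_self
      have h4 : 2 ^ k = 2 ^ (k - 1) * 2 := by
        rw [← pow_succ, Nat.sub_add_cancel (by omega)]
      omega
    have h2 : 1 ≤ 2 ^ (m * k) := Nat.one_le_two_pow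
    calc (k + 1) * 2 ^ (m * k) + 2 ≤ (k + 1) * 2 ^ (m * k) + 2 * 2 ^ (m * k) := by omega
      _ = (k + 3) * 2 ^ (m * k) := by ring
      _ ≤ 2 ^ k * 2 ^ (m * k) := Nat.mul_le_mul_right _ h1
      _ = 2 ^ (k + m * k) := by rw [← pow_add]
      _ ≤ 2 ^ l := by
          refine Nat.pow_le_pow_right (by norm_num) ?_
          refine le_trans (le_of_eq ?_) hl
          ring
  · refine le_trans ?_ hb2
    have h1 : m ^ 20 = (m ^ 2) ^ 10 := by rw [← pow_mul]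
    rw [h1]
    refine Nat.pow_le_pow_left ?_ 10
    calc 16 * (10 * m * k ^ 2) = m * (160 * k ^ 2) := by ring
      _ ≤ m * m := Nat.mul_le_mul_left _ (by omega)
      _ = m ^ 2 := by ring
  · have h1 : 4 * 4 ^ k * (d * (m * k ^ 2 + 1) + 1) ^ 2 =
        (2 ^ (k + 1) * (d * (m * k ^ 2 + 1) + 1)) ^ 2 := by
      rw [mul_pow, ← pow_mul, mul_comm (k + 1) 2, pow_mul]
      congr 1
      norm_num
      ring
    rw [h1]
    calc (2 ^ (k + 1) * (d * (m * k ^ 2 + 1) + 1)) ^ 2 ≤ (2 ^ (m * K)) ^ 2 :=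
          Nat.pow_le_pow_left hPk 2
      _ = 4 ^ (m * K) := by
          rw [← pow_mul, mul_comm (m * K) 2, pow_mul]
          norm_num
      _ ≤ 8 ^ (m * K) := Nat.pow_le_pow_left (by norm_num) _
  · intro S hS
    have hKK : K ^ (m * K) ≤ 2 ^ (m * k ^ 2) := by
      calc K ^ (m * K) ≤ (2 ^ K) ^ (m * K) := Nat.pow_le_pow_left Nat.lt_two_pow_self.le _
        _ = 2 ^ (K * (m * K)) := by rw [← pow_mul]
        _ ≤ 2 ^ (m * k ^ 2) := by
            refine Nat.pow_le_pow_right (by norm_num) ?_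
            calc K * (m * K) = m * K ^ 2 := by ring
              _ ≤ m * k ^ 2 := Nat.mul_le_mul_left _ (Nat.pow_le_pow_left (by omega) 2)
    have hSS : S ≤ S ^ 4 := Nat.le_self_pow (by norm_num) S
    refine ⟨(hSS.trans hS.le).trans hKK, ?_⟩
    have h1 : 2 ^ (m * K + k + 1) * (d * (m * k ^ 2 + 1) + 1) ≤ 2 ^ (2 * (m * K)) := by
      calc 2 ^ (m * K + k + 1) * (d * (m * k ^ 2 + 1) + 1) =
          2 ^ (m * K) * (2 ^ (k + 1) * (d * (m * k ^ 2 + 1) + 1)) := by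
            rw [add_assoc, pow_add]
            ring
        _ ≤ 2 ^ (m * K) * 2 ^ (m * K) := Nat.mul_le_mul_left _ hPk
        _ = 2 ^ (2 * (m * K)) := by rw [← pow_add, two_mul]
    have h2 : (2 ^ (2 * (m * K))) ^ 4 ≤ K ^ (m * K * 3) := by
      calc (2 ^ (2 * (m * K))) ^ 4 = (2 ^ 8) ^ (m * K) := by
            rw [← pow_mul, ← pow_mul]
            congr 1
            ring
        _ ≤ (K ^ 3) ^ (m * K) := by
            refine Nat.pow_le_pow_left ?_ _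
            have : 100 ^ 3 ≤ K ^ 3 := Nat.pow_le_pow_left hK 3
            exact le_trans (by norm_num) this
        _ = K ^ (m * K * 3) := by rw [← pow_mul, mul_comm 3]
    rw [← Nat.pow_lt_pow_iff_left (n := 4) (by norm_num)]
    have hpos : 0 < K ^ (m * K * 3) := by positivity
    calc (2 ^ (m * K + k + 1) * (d * (m * k ^ 2 + 1) + 1) * S) ^ 4 =
          (2 ^ (m * K + k + 1) * (d * (m * k ^ 2 + 1) + 1)) ^ 4 * S ^ 4 := mul_pow _ _ _
      _ ≤ (2 ^ (2 * (m * K))) ^ 4 * S ^ 4 :=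
          Nat.mul_le_mul_right _ (Nat.pow_le_pow_left h1 4)
      _ ≤ K ^ (m * K * 3) * S ^ 4 := Nat.mul_le_mul_right _ h2
      _ < K ^ (m * K * 3) * K ^ (m * K) := Nat.mul_lt_mul_of_pos_left hS hpos
      _ = (K ^ (m * K)) ^ 4 := by
          rw [← pow_add, ← pow_mul]
          congr 1

/-- from the real hypothesis on `S` to the integer one -/
theorem S_boundA {K m N l S J : ℕ} {x : ℝ} (hJ : 1 ≤ J) (hm : 48 ≤ m)
    (hN : 1 ≤ N) (hK : 1 ≤ K)
    (h : N < 2 ^ (l + 1)) (hl : l < 24 * K * (m + 2)) (hx : x ≤ 2 * J * Real.log K)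
    (hS : (S : ℝ) < (N : ℝ) ^ ((1 / (200 * J) : ℝ) * x)) : S ^ 4 < K ^ (m * K) := by
  have hlog := log_lt hN h
  have hK0 : (0 : ℝ) < K := by exact_mod_cast hK
  have hJ0 : (0 : ℝ) < J := by exact_mod_cast hJ
  have hN0 : (0 : ℝ) < N := by exact_mod_cast hN
  have hlN : 0 ≤ Real.log N := Real.log_natCast_nonneg N
  have hlK : 0 ≤ Real.log K := Real.log_natCast_nonneg K
  have h1 : (l : ℝ) + 1 ≤ 25 * (K * m) := by
    have h2 : l + 1 ≤ 25 * (K * m) := by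
      have h3 : 24 * K * (m + 2) ≤ 25 * (K * m) := by
        calc 24 * K * (m + 2) = K * (24 * m + 48) := by ring
          _ ≤ K * (25 * m) := Nat.mul_le_mul_left _ (by omega)
          _ = 25 * (K * m) := by ring
      omega
    exact_mod_cast h2
  have h2 : (S : ℝ) ^ 4 < ((K : ℝ) ^ (m * K)) := by
    calc (S : ℝ) ^ 4 < ((N : ℝ) ^ ((1 / (200 * J) : ℝ) * x)) ^ 4 :=
          pow_lt_pow_left₀ hS (Nat.cast_nonneg _) (by norm_num)
      _ = Real.exp (Real.log N * ((1 / (50 * J) : ℝ) * x)) := by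
          rw [Real.rpow_def_of_pos hN0, ← Real.exp_nat_mul]
          congr 1
          push_cast
          field_simp
          ring
      _ ≤ Real.exp ((m * K : ℕ) * Real.log K) := by
          refine Real.exp_le_exp.2 ?_
          calc Real.log N * ((1 / (50 * J) : ℝ) * x) ≤
                Real.log N * ((1 / (50 * J) : ℝ) * (2 * J * Real.log K)) :=
                mul_le_mul_of_nonneg_left
                  (mul_le_mul_of_nonneg_left hx (by positivity)) hlN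
            _ = Real.log N / 25 * Real.log K := by
                field_simp
                ring
            _ ≤ (m * K : ℕ) * Real.log K := by
                refine mul_le_mul_of_nonneg_right ?_ hlK
                push_cast
                linarith
      _ = (K : ℝ) ^ (m * K) := by
          rw [Real.exp_nat_mul, Real.exp_log hK0]
  exact_mod_cast h2

/-- the depth in terms of `m` -/
theorem d_bound {k m N l J d : ℕ} {a : ℝ} (ha0 : 0 < a) (hJ : 2 ≤ J) (hN : 1 ≤ N)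
    (h : N < 2 ^ (l + 1)) (hl : l < k * (m + 2)) (hk : k ^ (J - 1) ≤ m + 2)
    (hd : (d : ℝ) ≤ Real.log N ^ a) :
    (d : ℝ) ≤ ((m : ℝ) + 2) ^ ((1 + 1 / ((J : ℝ) - 1)) * a) := by
  have hlog := log_lt hN h
  have hlN : 0 ≤ Real.log N := Real.log_natCast_nonneg N
  have hJ2 : (2 : ℝ) ≤ J := by exact_mod_cast hJ
  have hJ1 : (0 : ℝ) < (J : ℝ) - 1 := by linarith
  have hm2 : (0 : ℝ) < (m : ℝ) + 2 := by positivity
  have h1 : (l : ℝ) + 1 ≤ k * ((m : ℝ) + 2) := by exact_mod_cast hl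
  have h2 : (k : ℝ) ≤ ((m : ℝ) + 2) ^ (1 / ((J : ℝ) - 1)) := by
    have e1 : ((k : ℝ)) ^ ((J : ℝ) - 1) ≤ (m : ℝ) + 2 := by
      have e2 : ((J : ℝ) - 1) = ((J - 1 : ℕ) : ℝ) := by
        rw [Nat.cast_sub (by omega)]
        norm_num
      rw [e2, Real.rpow_natCast]
      exact_mod_cast hk
    have e3 : (k : ℝ) = ((k : ℝ) ^ ((J : ℝ) - 1)) ^ (1 / ((J : ℝ) - 1)) := by
      rw [← Real.rpow_mul (Nat.cast_nonneg _), mul_one_div_cancel hJ1.ne', Real.rpow_one]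
    rw [e3]
    exact Real.rpow_le_rpow (by positivity) e1 (by positivity)
  have h3 : Real.log N ≤ ((m : ℝ) + 2) ^ (1 + 1 / ((J : ℝ) - 1)) := by
    rw [Real.rpow_add hm2, Real.rpow_one]
    calc Real.log N ≤ k * ((m : ℝ) + 2) := by linarith
      _ ≤ ((m : ℝ) + 2) ^ (1 / ((J : ℝ) - 1)) * ((m : ℝ) + 2) :=
          mul_le_mul_of_nonneg_right h2 hm2.le
      _ = _ := mul_comm _ _
  refine hd.trans ?_
  rw [Real.rpow_mul hm2.le]
  exact Real.rpow_le_rpow hlN h3 ha0.le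

end NumAAux

open NumAux NumAAux

theorem num_paramsA (a : ℝ) (ha0 : 0 < a) (ha : a < 1) :
    ∃ c : ℝ, 0 < c ∧ ∃ k₀ N₀ : ℕ, ∀ N ≥ N₀, ∀ κ ≥ k₀, ∀ d : ℕ,
    (d : ℝ) ≤ Real.log N ^ a → ∃ K m : ℕ, 1 ≤ K ∧ 24 * K + 2 ≤ κ ∧
      1300 * (24 * K) ^ 3 ≤ m ∧ (24 * K + 1) * 2 ^ (m * (24 * K)) + 2 ≤ N ∧
      (64 * (10 * m * (24 * K) ^ 2)) ^ d ≤ 2 ^ m ∧ (16 * (10 * m * (24 * K) ^ 2)) ^ 10 ≤ 2 ^ m ∧
      4 * 4 ^ (24 * K) * (d * (m * (24 * K) ^ 2 + 1) + 1) ^ 2 ≤ 8 ^ (m * K) ∧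
      ∀ S : ℕ, (S : ℝ) < (N : ℝ) ^ (c * min (Real.log κ) (Real.log (Real.log N))) →
        S ≤ 2 ^ (m * (24 * K) ^ 2) ∧
        2 ^ (m * K + 24 * K + 1) * (d * (m * (24 * K) ^ 2 + 1) + 1) * S < K ^ (m * K) := by
  obtain ⟨J₁, hJ₁⟩ := exists_nat_gt (1 / (1 - a))
  obtain ⟨J, hJd⟩ : ∃ J, J = max J₁ 5 := ⟨_, rfl⟩
  have hJ5 : 5 ≤ J := by
    rw [hJd]
    exact le_max_right _ _
  have hJa : 1 < (J : ℝ) * (1 - a) := by
    have h1 : (J₁ : ℝ) ≤ J := by
      rw [hJd]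
      exact_mod_cast le_max_left _ _
    have h2 : 0 < 1 - a := by linarith
    have h3 := hJ₁.trans_le h1
    rwa [div_lt_iff₀ h2] at h3
  have hJ5' : (5 : ℝ) ≤ J := by exact_mod_cast hJ5
  have hJ1 : (0 : ℝ) < (J : ℝ) - 1 := by linarith
  have hb : (1 + 1 / ((J : ℝ) - 1)) * a < 1 := by
    have e : 1 + 1 / ((J : ℝ) - 1) = J / ((J : ℝ) - 1) := by
      field_simp
      ring
    rw [e, div_mul_eq_mul_div, div_lt_one hJ1]
    linarith
  have hb0 : 0 < (1 + 1 / ((J : ℝ) - 1)) * a := by positivity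
  obtain ⟨m₀, hm₀⟩ := exists_m _ hb0 hb
  obtain ⟨K₀, hK₀⟩ : ∃ K₀, K₀ = max 100 m₀ := ⟨_, rfl⟩
  obtain ⟨N₀, hN₀⟩ := exists_log ((24 * (K₀ + 1)) ^ J)
  refine ⟨1 / (200 * J), by positivity, 24 * K₀ + 100, max N₀ 2, fun N hN κ hκ d hd => ?_⟩
  have hK100 : 100 ≤ K₀ := by
    rw [hK₀]
    exact le_max_left _ _
  have hKm₀ : m₀ ≤ K₀ := by
    rw [hK₀]
    exact le_max_right _ _
  have hN1 : N₀ ≤ N := le_trans (le_max_left _ _) hN
  have hN2 : 2 ≤ N := le_trans (le_max_right _ _) hN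
  have hlN := hN₀ N hN1
  obtain ⟨l, hl⟩ : ∃ l, l = Nat.log 2 N := ⟨_, rfl⟩
  rw [← hl] at hlN
  have hlo : 2 ^ l ≤ N := by
    rw [hl]
    exact Nat.pow_log_le_self 2 (by omega)
  have hhi : N < 2 ^ (l + 1) := by
    rw [hl]
    exact Nat.lt_pow_succ_log_self (by norm_num) N
  obtain ⟨K₁, hK1, hK2⟩ := exists_rootA J (by omega) l
  have hK₁ : K₀ ≤ K₁ := by
    by_contra hcon
    have h1 : (24 * (K₁ + 1)) ^ J ≤ (24 * (K₀ + 1)) ^ J := Nat.pow_le_pow_left (by omega) J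
    exact absurd (hK2.trans_le (h1.trans hlN)) (lt_irrefl _)
  obtain ⟨K, hKd⟩ : ∃ K, K = min ((κ - 2) / 24) K₁ := ⟨_, rfl⟩
  have hKK₀ : K₀ ≤ K := by
    rw [hKd]
    exact le_min (by omega) hK₁
  have hK : 100 ≤ K := hK100.trans hKK₀
  have hKκ : 24 * K + 2 ≤ κ := by
    have : K ≤ (κ - 2) / 24 := by
      rw [hKd]
      exact min_le_left _ _
    omega
  have hKK1 : K ≤ K₁ := by
    rw [hKd]
    exact min_le_right _ _
  have hkl : (24 * K) ^ J ≤ l := le_trans (Nat.pow_le_pow_left (by omega) J) hK1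
  have hkpos : 0 < 24 * K := by omega
  have hdiv : (24 * K) ^ (J - 1) ≤ l / (24 * K) := by
    rw [Nat.le_div_iff_mul_le hkpos, ← pow_succ, Nat.sub_add_cancel (by omega)]
    exact hkl
  obtain ⟨m, hm⟩ : ∃ m, m = l / (24 * K) - 1 := ⟨_, rfl⟩
  have hk4 : 1300 * (24 * K) ^ 3 + 1 ≤ (24 * K) ^ (J - 1) := by
    have h0 : (24 * K) ^ 4 ≤ (24 * K) ^ (J - 1) := Nat.pow_le_pow_right hkpos (by omega)
    have h1 : (24 * K) ^ 4 = (24 * K) * (24 * K) ^ 3 := by ring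
    refine le_trans ?_ h0
    rw [h1]
    have h2 : 1 ≤ (24 * K) ^ 3 := Nat.one_le_pow _ _ hkpos
    have h3 : 1301 * (24 * K) ^ 3 ≤ (24 * K) * (24 * K) ^ 3 :=
      Nat.mul_le_mul_right _ (by omega)
    omega
  have hm1 : m + 1 = l / (24 * K) := by omega
  have hm3 : 1300 * (24 * K) ^ 3 ≤ m := by omega
  have hc1 : 24 * K * (m + 1) ≤ l := by
    rw [hm1]
    exact Nat.mul_div_le l (24 * K)
  have hc2 : l < 24 * K * (m + 2) := by
    have := Nat.lt_mul_div_succ l hkpos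
    rw [← hm1] at this
    exact this
  have hKm : 1300 * K ≤ m := by
    have h1 : 24 * K ≤ (24 * K) ^ 3 := Nat.le_self_pow (by norm_num) _
    omega
  have hm48 : 48 ≤ m := by omega
  have hlogpos : 0 < Real.log N := Real.log_pos (by exact_mod_cast (by omega : 1 < N))
  have hlog := log_lt (by omega) hhi
  have hd1 := d_bound (J := J) ha0 (by omega) (by omega) hhi hc2 (by omega) hd
  have hb1 := hm₀ m (by omega) d hd1
  have hb2 : m ^ 20 ≤ 2 ^ m := pow20 (by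
    have e : (2 : ℕ) ^ 11 = 2048 := by norm_num
    omega)
  obtain ⟨a1, a2, a3, a4, a5⟩ := arithA hK hlo hc1 hm3 hb1 hb2
  refine ⟨K, m, by omega, hKκ, hm3, a1, a2, a3, a4, fun S hS => a5 S ?_⟩
  refine S_boundA (by omega) hm48 (by omega) (by omega) hhi hc2 ?_ hS
  have hK0 : (0 : ℝ) < K := by exact_mod_cast (by omega : 0 < K)
  have hlK : 0 ≤ Real.log K := Real.log_natCast_nonneg K
  rcases min_choice ((κ - 2) / 24) K₁ with h | h
  · rw [h] at hKd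
    refine (min_le_left _ _).trans ?_
    have h1 : κ ≤ K ^ 2 := by
      have h2 : κ ≤ 24 * K + 25 := by omega
      have h3 : 100 * K ≤ K ^ 2 := by
        rw [sq]
        exact Nat.mul_le_mul_right _ hK
      omega
    have h2 : Real.log κ ≤ Real.log ((K : ℝ) ^ 2) := by
      refine Real.log_le_log ?_ ?_
      · exact_mod_cast (by omega : 0 < κ)
      · exact_mod_cast h1
    rw [Real.log_pow] at h2
    push_cast at h2
    have h3 : 1 * (2 * Real.log K) ≤ J * (2 * Real.log K) :=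
      mul_le_mul_of_nonneg_right (by linarith) (by linarith)
    linarith
  · rw [h] at hKd
    refine (min_le_right _ _).trans ?_
    have h1 : l + 1 ≤ K ^ (2 * J) := by
      have h2 : l + 1 ≤ (24 * (K + 1)) ^ J := by
        rw [hKd]
        exact hK2
      have h3 : (24 * (K + 1)) ^ J ≤ (K ^ 2) ^ J := by
        refine Nat.pow_le_pow_left ?_ J
        have h5 : 100 * K ≤ K ^ 2 := by
          rw [sq]
          exact Nat.mul_le_mul_right _ hK
        omega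
      have h4 : (K ^ 2) ^ J = K ^ (2 * J) := by rw [← pow_mul]
      omega
    have h2 : Real.log N ≤ (K : ℝ) ^ (2 * J) := by
      have h3 : ((l : ℝ) + 1) ≤ (K : ℝ) ^ (2 * J) := by exact_mod_cast h1
      linarith
    have h3 := Real.log_le_log hlogpos h2
    rw [Real.log_pow] at h3
    push_cast at h3
    exact h3

theorem num_circA (a : ℝ) (ha0 : 0 < a) (ha : a < 1) (c : ℝ) (hc : 0 < c) :
    ∃ c' : ℝ, 0 < c' ∧ ∃ k₁ N₁ : ℕ, ∀ N ≥ N₁, ∀ κ ≥ k₁,
    ∀ d : ℕ, 1 ≤ d → (d : ℝ) ≤ Real.log N ^ a → ∀ S L : ℕ,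
      (S : ℝ) < (N : ℝ) ^ (c' * min (Real.log κ) (Real.log (Real.log N)) / d) →
      L ≤ (2 * N ^ 2 + 2) * (2 * S + 1) ^ d →
      (L : ℝ) < (N : ℝ) ^ (c * min (Real.log κ) (Real.log (Real.log N))) := by
  obtain ⟨k₁, hk₁⟩ := exists_nat_gt (Real.exp (8 / c))
  obtain ⟨N₁, hN₁⟩ := exists_nat_gt (Real.exp (max ((2 : ℝ) ^ (1 / (1 - a))) (Real.exp (8 / c))))
  refine ⟨c / 2, by positivity, k₁, max N₁ 4, fun N hN κ hκ d hd1 hd S L hS hL => ?_⟩
  have hN1 : (N₁ : ℝ) ≤ N := by exact_mod_cast le_trans (le_max_left _ _) hN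
  have hN4 : 4 ≤ N := le_trans (le_max_right _ _) hN
  have hN4' : (4 : ℝ) ≤ N := by exact_mod_cast hN4
  have hN0 : (0 : ℝ) < N := by linarith
  have hNgt1 : (1 : ℝ) < N := by linarith
  have hlogN : max ((2 : ℝ) ^ (1 / (1 - a))) (Real.exp (8 / c)) < Real.log N := by
    rw [Real.lt_log_iff_exp_lt hN0]
    linarith
  have hlog4 : (2 : ℝ) ^ (1 / (1 - a)) < Real.log N := lt_of_le_of_lt (le_max_left _ _) hlogN
  have hlogE : Real.exp (8 / c) < Real.log N := lt_of_le_of_lt (le_max_right _ _) hlogN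
  have hlog0 : 0 < Real.log N := (Real.exp_pos _).trans hlogE
  obtain ⟨x, hx⟩ : ∃ x, x = min (Real.log κ) (Real.log (Real.log N)) := ⟨_, rfl⟩
  rw [← hx] at hS ⊢
  have hx8 : 8 / c < x := by
    rw [hx]
    refine lt_min ?_ ?_
    · have h1 : (k₁ : ℝ) ≤ κ := by exact_mod_cast hκ
      have h2 : (0 : ℝ) < κ := lt_of_lt_of_le ((Real.exp_pos _).trans hk₁) h1
      rw [Real.lt_log_iff_exp_lt h2]
      linarith
    · rw [Real.lt_log_iff_exp_lt hlog0]
      exact hlogE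
  have hx0 : 0 < x := lt_trans (by positivity) hx8
  have hcx : 8 < c * x := by
    rw [div_lt_iff₀ hc] at hx8
    linarith
  have hd0 : (0 : ℝ) < d := by exact_mod_cast hd1
  -- the base
  obtain ⟨B, hB⟩ : ∃ B, B = (N : ℝ) ^ (c / 2 * x / d) := ⟨_, rfl⟩
  rw [← hB] at hS
  have hB1 : 1 ≤ B := by
    rw [hB]
    exact Real.one_le_rpow hNgt1.le (by positivity)
  have hBd : B ^ d = (N : ℝ) ^ (c / 2 * x) := by
    rw [hB, ← Real.rpow_natCast, ← Real.rpow_mul hN0.le]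
    congr 1
    field_simp
  have h3d : (3 : ℝ) ^ d ≤ N := by
    have h1 : Real.log 3 ≤ 2 := by
      have h2 := Real.log_le_sub_one_of_pos (show (0 : ℝ) < 3 by norm_num)
      linarith
    have ha1 : 0 < 1 - a := by linarith
    have h2 : 2 ≤ Real.log N ^ (1 - a) := by
      have h3 : ((2 : ℝ) ^ (1 / (1 - a))) ^ (1 - a) ≤ Real.log N ^ (1 - a) :=
        Real.rpow_le_rpow (by positivity) hlog4.le ha1.le
      rwa [← Real.rpow_mul (by norm_num), one_div_mul_cancel ha1.ne', Real.rpow_one] at h3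
    have h4 : (d : ℝ) * Real.log 3 ≤ Real.log N := by
      have h5 : Real.log N ^ a * Real.log N ^ (1 - a) = Real.log N := by
        rw [← Real.rpow_add hlog0]
        have : a + (1 - a) = 1 := by ring
        rw [this, Real.rpow_one]
      have h6 : 0 ≤ Real.log N ^ a := Real.rpow_nonneg hlog0.le _
      have h7 : (d : ℝ) * Real.log 3 ≤ (d : ℝ) * 2 := mul_le_mul_of_nonneg_left h1 hd0.le
      have h8 : (d : ℝ) * 2 ≤ Real.log N ^ a * 2 := by linarith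
      have h9 : Real.log N ^ a * 2 ≤ Real.log N ^ a * Real.log N ^ (1 - a) :=
        mul_le_mul_of_nonneg_left h2 h6
      linarith
    have h5 : (3 : ℝ) ^ d = Real.exp (d * Real.log 3) := by
      rw [Real.exp_nat_mul, Real.exp_log (by norm_num)]
    rw [h5, ← Real.exp_log hN0]
    exact Real.exp_le_exp.2 h4
  have hLr : (L : ℝ) ≤ (2 * (N : ℝ) ^ 2 + 2) * (2 * (S : ℝ) + 1) ^ d := by exact_mod_cast hL
  have hbase : (2 * (S : ℝ) + 1) ^ d ≤ (N : ℝ) * (N : ℝ) ^ (c / 2 * x) := by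
    calc (2 * (S : ℝ) + 1) ^ d ≤ (3 * B) ^ d := by
          refine pow_le_pow_left₀ (by positivity) ?_ d
          linarith
      _ = 3 ^ d * B ^ d := mul_pow _ _ _
      _ ≤ (N : ℝ) * (N : ℝ) ^ (c / 2 * x) := by
          rw [hBd]
          exact mul_le_mul_of_nonneg_right h3d (Real.rpow_nonneg hN0.le _)
  have hpoly : 2 * (N : ℝ) ^ 2 + 2 ≤ (N : ℝ) ^ 3 := by
    have h1 : (N : ℝ) ^ 3 = N * (N : ℝ) ^ 2 := by ring
    have h2 : (1 : ℝ) ≤ (N : ℝ) ^ 2 := one_le_pow₀ hNgt1.le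
    rw [h1]
    have h3 : 4 * (N : ℝ) ^ 2 ≤ N * (N : ℝ) ^ 2 :=
      mul_le_mul_of_nonneg_right hN4' (by positivity)
    linarith
  calc (L : ℝ) ≤ (2 * (N : ℝ) ^ 2 + 2) * (2 * (S : ℝ) + 1) ^ d := hLr
    _ ≤ (N : ℝ) ^ 3 * ((N : ℝ) * (N : ℝ) ^ (c / 2 * x)) :=
        mul_le_mul hpoly hbase (by positivity) (by positivity)
    _ = (N : ℝ) ^ (4 + c / 2 * x) := by
        rw [Real.rpow_add hN0]
        have : (N : ℝ) ^ (4 : ℝ) = (N : ℝ) ^ 4 := by
          rw [← Real.rpow_natCast]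
          norm_num
        rw [this]
        ring
    _ < (N : ℝ) ^ (c * x) := by
        refine Real.rpow_lt_rpow_of_exponent_lt hNgt1 ?_
        linarith

end P18dd
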