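import Pool.Agent.Lib.P18dd.RComp

/-! P18dd.RTree (helper20): subtrees, siblings and the pointwise descent. -/

set_option autoImplicit false

namespace P18dd

namespace R

open Finset

variable {I : Type}

/-- proper subtrees -/
def psub : Tr I → List (Tr I)
  | Tr.leaf _ => []
  | Tr.node _ l r => l.subs ++ r.subs

/-- pairs (v, s) with `s` the sibling of an ancestor of `v` or of `v` -/
def cash : Tr I → List (Tr I × Tr I)
  | Tr.leaf _ => []
  | Tr.node _ l r =>
    (l.subs.map fun v => (v, r)) ++ (r.subs.map fun v => (v, l)) ++ (cash l ++ cash r)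

theorem sum_subs (t : Tr I) : (t.subs.map Tr.leaves).sum ≤ (t.depth + 1) * t.leaves := by
  induction t with
  | leaf f => simp [Tr.subs, Tr.leaves, Tr.depth]
  | node b l r ihl ihr =>
    simp only [Tr.subs, List.map_cons, List.map_append, List.sum_cons, List.sum_append, Tr.leaves,
      Tr.depth]
    have h1 : (l.depth + 1) * l.leaves ≤ (max l.depth r.depth + 1) * l.leaves :=
      Nat.mul_le_mul_right _ (by omega)
    have h2 : (r.depth + 1) * r.leaves ≤ (max l.depth r.depth + 1) * r.leaves :=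
      Nat.mul_le_mul_right _ (by omega)
    nlinarith

theorem sum_psub (t : Tr I) : ((psub t).map Tr.leaves).sum ≤ t.depth * t.leaves := by
  cases t with
  | leaf f => simp [psub]
  | node b l r =>
    simp only [psub, List.map_append, List.sum_append, Tr.leaves, Tr.depth]
    have h1 := sum_subs l
    have h2 := sum_subs r
    have h3 : (l.depth + 1) * l.leaves ≤ (max l.depth r.depth + 1) * l.leaves :=
      Nat.mul_le_mul_right _ (by omega)
    have h4 : (r.depth + 1) * r.leaves ≤ (max l.depth r.depth + 1) * r.leaves :=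
      Nat.mul_le_mul_right _ (by omega)
    nlinarith

theorem sum_cash (t : Tr I) :
    ((cash t).map fun p => p.1.leaves).sum ≤ t.depth ^ 2 * t.leaves := by
  induction t with
  | leaf f => simp [cash]
  | node b l r ihl ihr =>
    have h1 := sum_subs l
    have h2 := sum_subs r
    simp only [cash, List.map_append, List.sum_append, List.map_map, Tr.leaves, Tr.depth]
    have e1 : (List.map ((fun p : Tr I × Tr I => p.1.leaves) ∘ fun v => (v, r)) l.subs).sum
        = (l.subs.map Tr.leaves).sum := rfl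
    have e2 : (List.map ((fun p : Tr I × Tr I => p.1.leaves) ∘ fun v => (v, l)) r.subs).sum
        = (r.subs.map Tr.leaves).sum := rfl
    rw [e1, e2]
    set D := max l.depth r.depth with hD
    have h3 : (l.depth + 1) * l.leaves ≤ (D + 1) * l.leaves :=
      Nat.mul_le_mul_right _ (by omega)
    have h4 : (r.depth + 1) * r.leaves ≤ (D + 1) * r.leaves :=
      Nat.mul_le_mul_right _ (by omega)
    have h5 : l.depth ^ 2 * l.leaves ≤ D ^ 2 * l.leaves :=
      Nat.mul_le_mul_right _ (Nat.pow_le_pow_left (by omega) 2)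
    have h6 : r.depth ^ 2 * r.leaves ≤ D ^ 2 * r.leaves :=
      Nat.mul_le_mul_right _ (Nat.pow_le_pow_left (by omega) 2)
    have h7 : (D + 1) * l.leaves + (D + 1) * r.leaves + (D ^ 2 * l.leaves + D ^ 2 * r.leaves)
        ≤ (D + 1) ^ 2 * (l.leaves + r.leaves) := by
      ring_nf
      nlinarith [Nat.zero_le (D * l.leaves), Nat.zero_le (D * r.leaves)]
    calc _ ≤ (D + 1) * l.leaves + (D + 1) * r.leaves + (D ^ 2 * l.leaves + D ^ 2 * r.leaves) := by
          omega
      _ ≤ _ := h7

theorem psub_mem {t u : Tr I} (h : u ∈ psub t) : u ∈ t.subs := by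
  cases t with
  | leaf f => simp [psub] at h
  | node b l r =>
    simp only [psub, List.mem_append] at h
    simp only [Tr.subs, List.mem_cons, List.mem_append]
    exact Or.inr h

theorem psub_leaves {t u : Tr I} (h : u ∈ psub t) : u.leaves < t.leaves := by
  have key : ∀ t u : Tr I, u ∈ t.subs → u.leaves ≤ t.leaves := by
    intro t
    induction t with
    | leaf f =>
      intro u hu
      simp only [Tr.subs, List.mem_singleton] at hu
      rw [hu]
    | node b l r ihl ihr =>
      intro u hu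
      simp only [Tr.subs, List.mem_cons, List.mem_append] at hu
      rcases hu with h | h | h
      · rw [h]
      · have := ihl u h; simp only [Tr.leaves]; omega
      · have := ihr u h; simp only [Tr.leaves]; omega
  cases t with
  | leaf f => simp [psub] at h
  | node b l r =>
    simp only [psub, List.mem_append] at h
    have h1 := leaves_pos l
    have h2 := leaves_pos r
    rcases h with h | h
    · have := key _ _ h; simp only [Tr.leaves]; omega
    · have := key _ _ h; simp only [Tr.leaves]; omega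

theorem cash_mem {t : Tr I} {p : Tr I × Tr I} (h : p ∈ cash t) :
    p.1 ∈ psub t ∧ p.2 ∈ psub t := by
  induction t with
  | leaf f => simp [cash] at h
  | node b l r ihl ihr =>
    simp only [cash, List.mem_append, List.mem_map] at h
    simp only [psub, List.mem_append]
    rcases h with (⟨v, hv, rfl⟩ | ⟨v, hv, rfl⟩) | h | h
    · exact ⟨Or.inl hv, Or.inr (self_mem_subs r)⟩
    · exact ⟨Or.inr hv, Or.inl (self_mem_subs l)⟩
    · have := ihl h
      exact ⟨Or.inl (psub_mem this.1), Or.inl (psub_mem this.2)⟩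
    · have := ihr h
      exact ⟨Or.inr (psub_mem this.1), Or.inr (psub_mem this.2)⟩

/-- the local rules for one placement -/
structure Loc (F0 : Finset ℕ) (w : Tr I) (L : Tr I → Finset ℕ → Prop) : Prop where
  leaf : ∀ f, Tr.leaf f ∈ w.subs → ∀ G ⊆ F0, L (Tr.leaf f) G → G.card ≤ 1
  rule : ∀ b l r, Tr.node b l r ∈ w.subs → ∀ G ⊆ F0, L (Tr.node b l r) G →
    ∃ G' G'', G' ∪ G'' = G ∧ L l G' ∧ L r G''

theorem Loc.sub {F0 : Finset ℕ} {w u : Tr I} {L : Tr I → Finset ℕ → Prop} (h : Loc F0 w L)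
    (hu : u ∈ w.subs) : Loc F0 u L :=
  ⟨fun f hf => h.leaf f (subs_trans hu hf), fun b l r hb => h.rule b l r (subs_trans hu hb)⟩

theorem card_inter_union (G' G'' T : Finset ℕ) :
    ((G' ∪ G'') ∩ T).card ≤ (G' ∩ T).card + (G'' ∩ T).card := by
  rw [union_inter_distrib_right]
  exact card_union_le _ _

/-- descent to a node with a medium set -/
theorem descend {F0 : Finset ℕ} (T : Finset ℕ) (s : ℕ) (hs : 1 ≤ s)
    {L : Tr I → Finset ℕ → Prop} :
    ∀ u : Tr I, Loc F0 u L → ∀ G ⊆ F0, L u G → s < 2 * (G ∩ T).card →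
      ∃ v ∈ u.subs, ∃ G' ⊆ G, L v G' ∧ s < 2 * (G' ∩ T).card ∧ (G' ∩ T).card ≤ s := by
  intro u
  induction u with
  | leaf f =>
    intro hL G hG hLG hc
    have h1 := hL.leaf f (by simp [Tr.subs]) G hG hLG
    have h2 : (G ∩ T).card ≤ G.card := card_le_card inter_subset_left
    exact ⟨Tr.leaf f, by simp [Tr.subs], G, Subset.refl _, hLG, hc, by omega⟩
  | node b l r ihl ihr =>
    intro hL G hG hLG hc
    by_cases hst : (G ∩ T).card ≤ s
    · exact ⟨Tr.node b l r, self_mem_subs _, G, Subset.refl _, hLG, hc, hst⟩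
    · push Not at hst
      obtain ⟨G', G'', hGG, h1, h2⟩ := hL.rule b l r (self_mem_subs _) G hG hLG
      have h3 := card_inter_union G' G'' T
      rw [hGG] at h3
      have hs1 : G' ⊆ G := by rw [← hGG]; exact subset_union_left
      have hs2 : G'' ⊆ G := by rw [← hGG]; exact subset_union_right
      by_cases hc1 : s < 2 * (G' ∩ T).card
      · obtain ⟨v, hv, G1, hG1, h4, h5, h6⟩ := ihl (hL.sub (by
          simp only [Tr.subs, List.mem_cons, List.mem_append]
          exact Or.inr (Or.inl (self_mem_subs l)))) G' (hs1.trans hG) h1 hc1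
        refine ⟨v, ?_, G1, hG1.trans hs1, h4, h5, h6⟩
        simp only [Tr.subs, List.mem_cons, List.mem_append]
        exact Or.inr (Or.inl hv)
      · obtain ⟨v, hv, G1, hG1, h4, h5, h6⟩ := ihr (hL.sub (by
          simp only [Tr.subs, List.mem_cons, List.mem_append]
          exact Or.inr (Or.inr (self_mem_subs r)))) G'' (hs2.trans hG) h2 (by omega)
        refine ⟨v, ?_, G1, hG1.trans hs2, h4, h5, h6⟩
        simp only [Tr.subs, List.mem_cons, List.mem_append]
        exact Or.inr (Or.inr hv)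

/-- the first node which loses a part of `T`, with its sibling -/
theorem lose {F0 : Finset ℕ} (T : Finset ℕ) (hT : 2 ≤ T.card) {L : Tr I → Finset ℕ → Prop} :
    ∀ w : Tr I, Loc F0 w L → ∀ G ⊆ F0, L w G → T ⊆ G →
      ∃ u s G1 G2, (∀ v ∈ Tr.subs u, (v, s) ∈ cash w) ∧ L u G1 ∧ L s G2 ∧ G1 ⊆ G ∧ G2 ⊆ G ∧
        T ⊆ G1 ∪ G2 ∧ ¬ T ⊆ G1 ∧ (G2 ∩ T).card ≤ (G1 ∩ T).card := by
  intro w
  induction w with
  | leaf f =>
    intro hL G hG hLG hTG
    have h1 := hL.leaf f (by simp [Tr.subs]) G hG hLG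
    have h2 := card_le_card hTG
    omega
  | node b l r ihl ihr =>
    intro hL G hG hLG hTG
    obtain ⟨G', G'', hGG, h1, h2⟩ := hL.rule b l r (self_mem_subs _) G hG hLG
    have hs1 : G' ⊆ G := by rw [← hGG]; exact subset_union_left
    have hs2 : G'' ⊆ G := by rw [← hGG]; exact subset_union_right
    have hl : l ∈ (Tr.node b l r).subs := by
      simp only [Tr.subs, List.mem_cons, List.mem_append]
      exact Or.inr (Or.inl (self_mem_subs l))
    have hr : r ∈ (Tr.node b l r).subs := by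
      simp only [Tr.subs, List.mem_cons, List.mem_append]
      exact Or.inr (Or.inr (self_mem_subs r))
    by_cases hc : (G'' ∩ T).card ≤ (G' ∩ T).card
    · by_cases hT' : T ⊆ G'
      · obtain ⟨u, s, G1, G2, h3, h4, h5, h6, h7, h8, h9, h10⟩ :=
          ihl (hL.sub hl) G' (hs1.trans hG) h1 hT'
        refine ⟨u, s, G1, G2, ?_, h4, h5, h6.trans hs1, h7.trans hs1, h8, h9, h10⟩
        intro v hv
        simp only [cash, List.mem_append]
        exact Or.inr (Or.inl (h3 v hv))
      · refine ⟨l, r, G', G'', ?_, h1, h2, hs1, hs2, by rw [hGG]; exact hTG, hT', hc⟩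
        intro v hv
        simp only [cash, List.mem_append, List.mem_map]
        exact Or.inl (Or.inl ⟨v, hv, rfl⟩)
    · by_cases hT' : T ⊆ G''
      · obtain ⟨u, s, G1, G2, h3, h4, h5, h6, h7, h8, h9, h10⟩ :=
          ihr (hL.sub hr) G'' (hs2.trans hG) h2 hT'
        refine ⟨u, s, G1, G2, ?_, h4, h5, h6.trans hs2, h7.trans hs2, h8, h9, h10⟩
        intro v hv
        simp only [cash, List.mem_append]
        exact Or.inr (Or.inr (h3 v hv))
      · refine ⟨r, l, G'', G', ?_, h2, h1, hs2, hs1, ?_, hT', by omega⟩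
        · intro v hv
          simp only [cash, List.mem_append, List.mem_map]
          exact Or.inl (Or.inr ⟨v, hv, rfl⟩)
        · rw [union_comm, hGG]; exact hTG

/-- an interval of `F` which meets a class lies in it -/
theorem icc_sub_cl {F : Finset ℕ} {a c d e : ℕ} (h : Icc c d ⊆ F) (he : e ∈ Icc c d)
    (hea : e ∈ cl F a) : Icc c d ⊆ cl F a := by
  have key : ∀ m, c + m ≤ d → lf F (c + m) = lf F c := by
    intro m
    induction m with
    | zero => intro _; rfl
    | succ m ih =>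
      intro hd
      rw [← ih (by omega), ← Nat.add_assoc]
      exact lf_adj (h (by rw [mem_Icc]; omega)) (h (by rw [mem_Icc]; omega))
  have hall : ∀ i ∈ Icc c d, lf F i = lf F c := by
    intro i hi
    rw [mem_Icc] at hi
    have := key (i - c) (by omega)
    rwa [show c + (i - c) = i by omega] at this
  intro i hi
  rw [mem_cl] at hea ⊢
  exact ⟨h hi, by rw [hall i hi, ← hall e he]; exact hea.2⟩

/-- the three cheap kinds of outcomes -/
def Good (F : Finset ℕ) (a : ℕ) (T G : Finset ℕ) : Prop :=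
  2 ≤ comps (G ∩ cl F a) ∨ (miss F G).Nonempty ∨ G ∩ cl F a ⊆ T

theorem not_good {F : Finset ℕ} {a : ℕ} {T G : Finset ℕ} (h : ¬ Good F a T G)
    (hne : (G ∩ T).Nonempty) (hT : T ⊆ cl F a) :
    comps (G ∩ cl F a) = 1 ∧ miss F G = ∅ ∧ ¬ G ∩ cl F a ⊆ T := by
  unfold Good at h
  push Not at h
  obtain ⟨h1, h2, h3⟩ := h
  refine ⟨?_, by simpa [not_nonempty_iff_eq_empty] using h2, h3⟩
  have h4 : (G ∩ cl F a).Nonempty := by
    obtain ⟨g, hg⟩ := hne
    rw [mem_inter] at hg
    exact ⟨g, by rw [mem_inter]; exact ⟨hg.1, hT hg.2⟩⟩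
  have h5 := comps_pos h4
  omega

/-- the pointwise descent lemma -/
theorem pointwise {k : ℕ} {F : Finset ℕ} {a : ℕ} {T : Finset ℕ} {e : ℕ}
    (hT : T ⊆ cl F a) (heT : e ∈ T) (hT4 : 4 ≤ T.card)
    (hE : ∀ c d, Icc c d ⊆ cl F a → e ∈ Icc c d → ¬ Icc c d ⊆ T → T ⊆ Icc c d)
    {w : Tr I} {L : Tr I → Finset ℕ → Prop} (hL : Loc F w L) (hw : L w F) :
    (∃ v ∈ psub w, ∃ G ⊆ F, L v G ∧ T.card < 4 * (G ∩ T).card ∧ Good F a T G) ∨
    (∃ p ∈ cash w, ∃ G ⊆ F, ∃ G2 ⊆ F, L p.1 G ∧ L p.2 G2 ∧ T.card < 4 * (G ∩ T).card ∧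
      comps (G ∩ cl F a) = 1 ∧ miss F G = ∅ ∧
      ∃ a2 ∈ LE G2, Disjoint (Ve k (cl G2 a2)) (Ve k G)) := by
  have hTF : T ⊆ F := hT.trans (cl_sub F a)
  obtain ⟨u, s, G1, G2, h3, h4, h5, h6, h7, h8, h9, h10⟩ :=
    lose T (by omega) w hL F (Subset.refl _) hw hTF
  have hcu := cash_mem (h3 u (self_mem_subs u))
  have hc1 : T.card ≤ 2 * (G1 ∩ T).card := by
    have h11 := card_inter_union G1 G2 T
    have h12 : (G1 ∪ G2) ∩ T = T := inter_eq_right.2 h8
    rw [h12] at h11
    omega
  by_cases hg1 : Good F a T G1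
  · exact Or.inl ⟨u, hcu.1, G1, h6, h4, by omega, hg1⟩
  obtain ⟨v, hv, Gv, hGv, h13, h14, h15⟩ := descend T (T.card / 2) (by omega) u
    (hL.sub (psub_mem hcu.1)) G1 h6 h4 (by omega)
  have hcv := cash_mem (h3 v hv)
  have hGvF : Gv ⊆ F := hGv.trans h6
  by_cases hgv : Good F a T Gv
  · exact Or.inl ⟨v, hcv.1, Gv, hGvF, h13, by omega, hgv⟩
  have hng1 := not_good hg1 (card_pos.1 (by omega)) hT
  have hngv := not_good hgv (card_pos.1 (by omega)) hT
  obtain ⟨c1, d1, hcd1, hI1⟩ := comps_one hng1.1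
  have heR : e ∈ cl F a := hT heT
  have heG1 : e ∉ G1 := by
    intro he
    apply h9
    have h16 : e ∈ Icc c1 d1 := by
      rw [← hI1, mem_inter]; exact ⟨he, heR⟩
    have h17 := hE c1 d1 (by rw [← hI1]; exact inter_subset_right) h16 (by
      rw [← hI1]; exact hng1.2.2)
    rw [← hI1] at h17
    exact h17.trans inter_subset_left
  have heG2 : e ∈ G2 := by
    have := h8 heT
    rw [mem_union] at this
    exact this.resolve_left heG1
  have ha2 := lf_mem_LE heG2
  have heJ : e ∈ cl G2 (lf G2 e) := by rw [mem_cl]; exact ⟨heG2, rfl⟩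
  by_cases hd : Disjoint (Ve k (cl G2 (lf G2 e))) (Ve k Gv)
  · exact Or.inr ⟨(v, s), h3 v hv, Gv, hGvF, G2, h7, h13, h5, by omega, hngv.1, hngv.2.1,
      lf G2 e, ha2, hd⟩
  -- the two intervals touch
  obtain ⟨c2, d2, hcd2, hI2, hsub2, _, _⟩ := cl_isComp ha2
  obtain ⟨c3, d3, hcd3, hI3⟩ := comps_one hngv.1
  have hJR : Icc c2 d2 ⊆ cl F a := by
    apply icc_sub_cl (hsub2.trans h7) _ heR
    rw [← hI2]; exact heJ
  have hex : ∃ i ∈ cl G2 (lf G2 e), ∃ j ∈ Gv, i = j ∨ i + 1 = j ∨ j + 1 = i := by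
    by_contra hcon
    push Not at hcon
    exact hd (Ve_disj (fun i hi j hj => by
      have := hcon i hi j hj
      exact ⟨this.1, this.2.1, this.2.2⟩))
  obtain ⟨i, hi, j, hj, hij⟩ := hex
  rw [hI2] at hi
  have hiR := hJR hi
  have hjR : j ∈ cl F a := by
    rcases hij with h | h | h
    · rw [← h]; exact hiR
    · exact (full_cl F a).2 i hiR j (hGvF hj) (Or.inl h.symm)
    · exact (full_cl F a).2 i hiR j (hGvF hj) (Or.inr h.symm)
  have hjI : j ∈ Icc c3 d3 := by
    rw [← hI3, mem_inter]; exact ⟨hj, hjR⟩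
  have hun : Icc (min c2 c3) (max d2 d3) = Icc c2 d2 ∪ Icc c3 d3 := by
    ext z
    rw [mem_Icc] at hi hjI
    simp only [mem_union, mem_Icc]
    rcases hij with h | h | h <;> omega
  have hIR : Icc c3 d3 ⊆ cl F a := by rw [← hI3]; exact inter_subset_right
  have hTU : T ⊆ Icc c2 d2 ∪ Icc c3 d3 := by
    rw [← hun]
    apply hE
    · rw [hun]; exact union_subset hJR hIR
    · rw [hun, mem_union]; left; rw [← hI2]; exact heJ
    · rw [hun]
      intro hh
      apply hngv.2.2
      rw [hI3]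
      exact subset_union_right.trans hh
  have hc2 : T.card ≤ (Icc c2 d2 ∩ T).card + (Icc c3 d3 ∩ T).card := by
    have h11 := card_inter_union (Icc c2 d2) (Icc c3 d3) T
    rwa [inter_eq_right.2 hTU] at h11
  have hc3 : (Icc c3 d3 ∩ T).card ≤ (Gv ∩ T).card := by
    apply card_le_card
    rw [← hI3]
    intro z hz
    simp only [mem_inter] at hz ⊢
    exact ⟨hz.1.1, hz.2⟩
  have hc4 : (Icc c2 d2 ∩ T).card ≤ (G2 ∩ T).card :=
    card_le_card (inter_subset_inter_right hsub2)
  have hc5 : T.card < 4 * (G2 ∩ T).card := by omega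
  by_cases hg2 : Good F a T G2
  · exact Or.inl ⟨s, hcu.2, G2, h7, h5, hc5, hg2⟩
  exfalso
  have hng2 := not_good hg2 (card_pos.1 (by omega)) hT
  obtain ⟨c4, d4, hcd4, hI4⟩ := comps_one hng2.1
  have h20 : T ⊆ Icc c4 d4 := by
    apply hE
    · rw [← hI4]; exact inter_subset_right
    · rw [← hI4, mem_inter]; exact ⟨heG2, heR⟩
    · rw [← hI4]; exact hng2.2.2
  have h21 : (G2 ∩ T).card = T.card := by
    congr 1
    apply inter_eq_right.2
    rw [← hI4] at h20
    exact h20.trans inter_subset_left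
  have h22 : (G1 ∩ T).card < T.card := by
    apply card_lt_card
    rw [ssubset_iff_subset_ne]
    refine ⟨inter_subset_right, fun h => h9 ?_⟩
    rw [← h]
    exact inter_subset_left
  omega

end R

end P18dd
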