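import Pool.Agent.Lib.P18dd.RMeas
import Pool.Agent.Lib.P18dd.RTree

/-!
# P18dd.Rec: the recursion (section 2 and 3 of the paper), owner helper20
-/

set_option autoImplicit false

namespace P18dd

namespace R

open Finset

/-! ## union bounds -/

theorem cd_or {ι α : Type*} [Fintype ι] [DecidableEq ι] [Fintype α] (S S' : (ι → α) → Prop) :
    cd (fun x => S x ∨ S' x) ≤ cd S + cd S' := by
  classical
  unfold cd
  calc _ ≤ (univ.filter S ∪ univ.filter S').card := by
        apply card_le_card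
        intro x hx
        simpa using hx
    _ ≤ _ := card_union_le _ _

theorem cd_list {ι α β : Type*} [Fintype ι] [DecidableEq ι] [Fintype α]
    (Q : β → (ι → α) → Prop) (c : β → ℕ) (M N : ℕ) :
    ∀ l : List β, (∀ v ∈ l, cd (Q v) * M ≤ c v * N) →
      cd (fun x => ∃ v ∈ l, Q v x) * M ≤ (l.map c).sum * N := by
  intro l
  induction l with
  | nil =>
    intro _
    rw [cd_zero (fun y => by simp)]
    simp
  | cons v l ih =>
    intro h
    have h1 := h v (by simp)
    have h2 := ih (fun u hu => h u (by simp [hu]))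
    have h3 : cd (fun x => ∃ u ∈ v :: l, Q u x) ≤ cd (Q v) + cd (fun x => ∃ u ∈ l, Q u x) := by
      refine le_trans (cd_mono ?_) (cd_or _ _)
      intro x hx
      simpa using hx
    rw [List.map_cons, List.sum_cons]
    calc _ ≤ (cd (Q v) + cd (fun x => ∃ u ∈ l, Q u x)) * M := Nat.mul_le_mul_right _ h3
      _ = cd (Q v) * M + cd (fun x => ∃ u ∈ l, Q u x) * M := by ring
      _ ≤ c v * N + (l.map c).sum * N := Nat.add_le_add h1 h2
      _ = _ := by ring

theorem cd_fin {ι α β : Type*} [Fintype ι] [DecidableEq ι] [Fintype α]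
    (Q : β → (ι → α) → Prop) (c M N : ℕ) (s : Finset β) (h : ∀ v ∈ s, cd (Q v) * M ≤ c * N) :
    cd (fun x => ∃ v ∈ s, Q v x) * M ≤ s.card * c * N := by
  have h1 := cd_list Q (fun _ => c) M N s.toList (fun v hv => h v (by simpa using hv))
  have h2 : (s.toList.map fun _ => c).sum = s.card * c := by
    rw [List.map_const', List.sum_replicate, smul_eq_mul, length_toList]
  rw [h2] at h1
  simpa using h1

/-! ## numbers -/

theorem num_good {c d : ℕ} (_hc : 1 ≤ c) (h : 2 ≤ c + d) : 96 * c ≤ 256 ^ (c + d - 1) := by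
  have key : ∀ m : ℕ, 1 ≤ m → 96 * (m + 1) ≤ 256 ^ m := by
    intro m hm
    induction m, hm using Nat.le_induction with
    | base => norm_num
    | succ m hm ih => rw [pow_succ]; omega
  have h1 := key (c + d - 1) (by omega)
  calc 96 * c ≤ 96 * (c + d - 1 + 1) := by
        apply Nat.mul_le_mul_left; omega
    _ ≤ _ := h1

theorem num_pow (c : ℕ) : c ≤ 256 ^ (c - 1) := by
  have key : ∀ m : ℕ, m + 1 ≤ 256 ^ m := by
    intro m
    induction m with
    | zero => norm_num
    | succ m ih => rw [pow_succ]; omega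
  rcases Nat.eq_zero_or_pos c with h | h
  · subst h; norm_num
  · have := key (c - 1)
    rwa [show c - 1 + 1 = c by omega] at this

theorem big_comp' {G : Finset ℕ} (hG : G.Nonempty) :
    ∃ R', IsComp R' G ∧ G.card ≤ R'.card * comps G := by
  classical
  have hmap : ∀ i ∈ G, lf G i ∈ LE G := fun i hi => lf_mem_LE hi
  have h := card_eq_sum_card_fiberwise (s := G) (t := LE G) (f := lf G) hmap
  obtain ⟨i, hi⟩ := hG
  obtain ⟨m, hm, hmax⟩ := exists_max_image (LE G)
    (fun m => (G.filter fun i => lf G i = m).card) ⟨_, hmap i hi⟩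
  refine ⟨cl G m, cl_isComp hm, ?_⟩
  rw [comps_eq, mul_comm]
  conv_lhs => rw [h]
  rw [← smul_eq_mul, ← sum_const]
  exact sum_le_sum fun x hx => hmax x hx

section main

variable {I : Type} {k n K θ : ℕ} {T : Tr I} {A : Tr I → Finset ℕ → Pl k n → Prop}

theorem inv_of_dep (h : Sys k n K θ T A) {v : Tr I} (hv : v ∈ T.subs) {G : Finset ℕ}
    (hG : G ⊆ range k) {U : Finset (Fin (k + 1))} (hU : Disjoint U (Ve k G)) :
    Inv (A v G) U := by
  intro x y hy
  apply h.dep v hv G hG
  intro i hi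
  rw [mem_fib] at hy
  exact hy i (fun hiU => (disjoint_left.1 hU) hiU hi)

/-- the claim of section 2 -/
def Claim (n K θ : ℕ) (A : Tr I → Finset ℕ → Pl k n → Prop) (w : Tr I) : Prop :=
  ∀ F ⊆ range k, Short K F → ∀ R, IsComp R F →
    cd (A w F) * (256 ^ (comps F - 1) * R.card) ^ θ ≤ w.leaves * n ^ (k + 1)

theorem total {S : Pl k n → Prop} {U : Finset (Fin (k + 1))} {E : ℕ} (h : Small S U E) :
    cd S * E ≤ n ^ (k + 1) := by
  have h1 := fub (small_iff.1 h) (B := fun _ => True) (fun _ _ _ => Iff.rfl)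
  have h2 : cd (fun x : Pl k n => S x ∧ True) = cd S := by
    congr 1; funext x; simp
  have h3 : cd (fun _ : Pl k n => True) ≤ n ^ (k + 1) := by
    have := cd_le (fun _ : Pl k n => True)
    simpa using this
  rw [h2] at h1
  exact h1.trans h3

/-- cheap outcomes: a node `v` whose set `G` meets `T` in more than a quarter -/
theorem cheap_core (h : Sys k n K θ T A) {F : Finset ℕ} (hF : F ⊆ range k) (hS : Short K F)
    {a : ℕ} (ha : a ∈ LE F) {T' : Finset ℕ} (hT : T' ⊆ cl F a) (hT3 : (cl F a).card ≤ 3 * T'.card + 2)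
    {v : Tr I} (_hv : v ∈ T.subs) (ih : Claim n K θ A v) {G : Finset ℕ} (hG : G ⊆ F)
    (hGT : T'.card < 4 * (G ∩ T').card) {S : Pl k n → Prop} {E : ℕ}
    (hE : cd (fun x => S x ∧ A v G x) * E ^ θ ≤ cd (A v G))
    (hnum : 96 * comps (G ∩ cl F a) * 256 ^ (comps F - 1) ≤ E * 256 ^ (comps G - 1)) :
    cd (fun x => S x ∧ A v G x) * (8 * (256 ^ (comps F - 1) * (cl F a).card)) ^ θ
      ≤ v.leaves * n ^ (k + 1) := by
  have hne : (G ∩ cl F a).Nonempty := by
    obtain ⟨g, hg⟩ := card_pos.1 (show 0 < (G ∩ T').card by omega)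
    rw [mem_inter] at hg
    exact ⟨g, by rw [mem_inter]; exact ⟨hg.1, hT hg.2⟩⟩
  obtain ⟨R', hR', hbig⟩ := big_comp hG hne
  have h1 := ih G (hG.trans hF) (short_mono hS hG) R' hR'
  have h2 : (G ∩ T').card ≤ (G ∩ cl F a).card := card_le_card (inter_subset_inter_left hT)
  set c := comps (G ∩ cl F a) with hc
  have h3 : (cl F a).card ≤ 12 * (R'.card * c) := by omega
  have h4 : 8 * (256 ^ (comps F - 1) * (cl F a).card)
      ≤ E * (256 ^ (comps G - 1) * R'.card) := by
    calc 8 * (256 ^ (comps F - 1) * (cl F a).card)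
        ≤ 8 * (256 ^ (comps F - 1) * (12 * (R'.card * c))) := by
          apply Nat.mul_le_mul_left
          exact Nat.mul_le_mul_left _ h3
      _ = (96 * c * 256 ^ (comps F - 1)) * R'.card := by ring
      _ ≤ (E * 256 ^ (comps G - 1)) * R'.card := Nat.mul_le_mul_right _ hnum
      _ = _ := by ring
  calc cd (fun x => S x ∧ A v G x) * (8 * (256 ^ (comps F - 1) * (cl F a).card)) ^ θ
      ≤ cd (fun x => S x ∧ A v G x) * (E * (256 ^ (comps G - 1) * R'.card)) ^ θ :=
        Nat.mul_le_mul_left _ (Nat.pow_le_pow_left h4 θ)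
    _ = (cd (fun x => S x ∧ A v G x) * E ^ θ) * (256 ^ (comps G - 1) * R'.card) ^ θ := by
        rw [mul_pow E]; ring
    _ ≤ cd (A v G) * (256 ^ (comps G - 1) * R'.card) ^ θ := Nat.mul_le_mul_right _ hE
    _ ≤ _ := h1

/-- half of the dichotomy -/
theorem half (h : Sys k n K θ T A) {w : Tr I} (hw : w ∈ T.subs)
    (ih : ∀ v ∈ psub w, Claim n K θ A v) {F : Finset ℕ} (hF : F ⊆ range k) (hS : Short K F)
    {a : ℕ} (ha : a ∈ LE F) {T' : Finset ℕ} {e : ℕ} (hT : T' ⊆ cl F a) (heT : e ∈ T')
    (hT4 : 4 ≤ T'.card) (hT3 : (cl F a).card ≤ 3 * T'.card + 2)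
    (hE : ∀ c d, Icc c d ⊆ cl F a → e ∈ Icc c d → ¬ Icc c d ⊆ T' → T' ⊆ Icc c d)
    {S : Pl k n → Prop} (hSA : ∀ x, S x → A w F x)
    (hsm : SmallG S (Ve k (cl F a) \ Ve k T') (2 ^ (8 * θ))) :
    cd S * (8 * (256 ^ (comps F - 1) * (cl F a).card)) ^ θ
      ≤ 2 * (4 ^ k * (T.depth + 1) ^ 2 * w.leaves * n ^ (k + 1)) := by
  classical
  set M := (8 * (256 ^ (comps F - 1) * (cl F a).card)) ^ θ with hM
  set N := n ^ (k + 1) with hN
  have hcF : 1 ≤ comps F := comps_pos ⟨a, (mem_LE.1 ha).1⟩
  have hsubs : ∀ v ∈ psub w, v ∈ T.subs := fun v hv => subs_trans hw (psub_mem hv)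
  -- GOOD
  have good : ∀ v ∈ psub w, ∀ G ⊆ F, T'.card < 4 * (G ∩ T').card → Good F a T' G →
      cd (fun x => S x ∧ A v G x) * M ≤ v.leaves * N := by
    intro v hv G hG hGT hgood
    have hne : (G ∩ cl F a).Nonempty := by
      obtain ⟨g, hg⟩ := card_pos.1 (show 0 < (G ∩ T').card by omega)
      rw [mem_inter] at hg
      exact ⟨g, by rw [mem_inter]; exact ⟨hg.1, hT hg.2⟩⟩
    have hc1 := comps_pos hne
    have hineq := comps_ineq hG ha hne
    by_cases hcase : 2 ≤ comps (G ∩ cl F a) + comps (miss F G)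
    · -- smallness of the missed components
      have hss := h.ss w hw F hF (miss F G) (miss_full F G)
        (card_le_comps (short_mono hS (miss_sub F G)))
      have hdis : Disjoint (Ve k (miss F G)) (Ve k G) :=
        full_disj (miss_full F G) hG miss_disj
      have hfub := fub (small_iff.1 hss) (inv_of_dep h (hsubs v hv) (hG.trans hF) hdis)
      have hfub2 : cd (fun x => S x ∧ A v G x) * (256 ^ (2 * comps (miss F G))) ^ θ
          ≤ cd (A v G) := by
        refine le_trans ?_ hfub
        have e1 : (256 ^ (2 * comps (miss F G))) ^ θ = 2 ^ (16 * θ * comps (miss F G)) := by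
          rw [show (256 : ℕ) = 2 ^ 8 by norm_num, ← pow_mul, ← pow_mul]
          congr 1; ring
        rw [e1]
        exact Nat.mul_le_mul_right _ (cd_mono fun x hx => ⟨hSA x hx.1, hx.2⟩)
      refine cheap_core h hF hS ha hT hT3 (hsubs v hv) (ih v hv) hG hGT hfub2 ?_
      have h5 := num_good hc1 hcase
      calc 96 * comps (G ∩ cl F a) * 256 ^ (comps F - 1)
          ≤ 256 ^ (comps (G ∩ cl F a) + comps (miss F G) - 1) * 256 ^ (comps F - 1) :=
            Nat.mul_le_mul_right _ h5
        _ = 256 ^ (comps (G ∩ cl F a) + comps (miss F G) - 1 + (comps F - 1)) := by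
            rw [← pow_add]
        _ ≤ 256 ^ (2 * comps (miss F G) + (comps G - 1)) := by
            apply Nat.pow_le_pow_right (by norm_num)
            have hcG : 1 ≤ comps G := comps_pos (hne.mono inter_subset_left)
            omega
        _ = _ := by rw [pow_add]
    · -- one component, nothing missed, inside T'
      have hc : comps (G ∩ cl F a) = 1 := by omega
      have hm : comps (miss F G) = 0 := by omega
      have hm2 : ¬ (miss F G).Nonempty := by
        intro hh
        have := comps_pos hh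
        omega
      have hin : G ∩ cl F a ⊆ T' := by
        rcases hgood with h6 | h6 | h6
        · omega
        · exact absurd h6 hm2
        · exact h6
      have hdis : Disjoint (Ve k (cl F a) \ Ve k T') (Ve k G) := by
        rw [disjoint_left]
        intro i hi hiG
        rw [mem_sdiff] at hi
        have hsplit : G = (G ∩ cl F a) ∪ (G \ cl F a) := by
          ext z; simp only [mem_union, mem_inter, mem_sdiff]; tauto
        have hd2 : Disjoint (Ve k (cl F a)) (Ve k (G \ cl F a)) :=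
          full_disj (full_cl F a) (sdiff_subset.trans hG) disjoint_sdiff
        rw [mem_Ve] at hiG
        rcases hiG with h7 | ⟨j, h7, h8⟩
        · by_cases h9 : (i : ℕ) ∈ cl F a
          · exact hi.2 (mem_Ve.2 (Or.inl (hin (mem_inter.2 ⟨h7, h9⟩))))
          · exact (disjoint_left.1 hd2) hi.1 (mem_Ve.2 (Or.inl (mem_sdiff.2 ⟨h7, h9⟩)))
        · by_cases h9 : j ∈ cl F a
          · exact hi.2 (mem_Ve.2 (Or.inr ⟨j, hin (mem_inter.2 ⟨h7, h9⟩), h8⟩))
          · exact (disjoint_left.1 hd2) hi.1 (mem_Ve.2 (Or.inr ⟨j, mem_sdiff.2 ⟨h7, h9⟩, h8⟩))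
      have hfub := fub hsm (inv_of_dep h (hsubs v hv) (hG.trans hF) hdis)
      have hfub2 : cd (fun x => S x ∧ A v G x) * 256 ^ θ ≤ cd (A v G) := by
        have e1 : (256 : ℕ) ^ θ = 2 ^ (8 * θ) := by
          rw [show (256 : ℕ) = 2 ^ 8 by norm_num, ← pow_mul]
        rw [e1]
        exact hfub
      refine cheap_core h hF hS ha hT hT3 (hsubs v hv) (ih v hv) hG hGT hfub2 ?_
      rw [hc]
      have hcG : 1 ≤ comps G := comps_pos (hne.mono inter_subset_left)
      calc 96 * 1 * 256 ^ (comps F - 1) ≤ 256 * 256 ^ (comps F - 1) :=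
            Nat.mul_le_mul_right _ (by norm_num)
        _ ≤ 256 * 256 ^ (comps G - 1) := by
            apply Nat.mul_le_mul_left
            apply Nat.pow_le_pow_right (by norm_num)
            omega
  -- CASH
  have cashb : ∀ p ∈ cash w, ∀ G ⊆ F, ∀ G2 ⊆ F, T'.card < 4 * (G ∩ T').card →
      comps (G ∩ cl F a) = 1 → miss F G = ∅ →
      (∃ a2 ∈ LE G2, Disjoint (Ve k (cl G2 a2)) (Ve k G)) →
      cd (fun x => A p.2 G2 x ∧ A p.1 G x) * M ≤ p.1.leaves * N := by
    rintro p hp G hG G2 hG2 hGT hc hm ⟨a2, ha2, hdis⟩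
    have hpm := cash_mem hp
    have hne : (G ∩ cl F a).Nonempty := by
      obtain ⟨g, hg⟩ := card_pos.1 (show 0 < (G ∩ T').card by omega)
      rw [mem_inter] at hg
      exact ⟨g, by rw [mem_inter]; exact ⟨hg.1, hT hg.2⟩⟩
    have hineq := comps_ineq hG ha hne
    have hss := h.ss p.2 (hsubs _ hpm.2) G2 (hG2.trans hF) (cl G2 a2) (full_cl G2 a2) (by
      rw [comps_cl ha2, mul_one]
      exact card_cl_le (short_mono hS hG2) ha2)
    rw [comps_cl ha2, mul_one] at hss
    have hfub := fub (small_iff.1 hss) (inv_of_dep h (hsubs _ hpm.1) (hG.trans hF) hdis)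
    have hfub2 : cd (fun x => A p.2 G2 x ∧ A p.1 G x) * (2 ^ 16) ^ θ ≤ cd (A p.1 G) := by
      rw [← pow_mul]
      exact hfub
    refine cheap_core h hF hS ha hT hT3 (hsubs _ hpm.1) (ih _ hpm.1) hG hGT hfub2 ?_
    rw [hc]
    have hm2 : comps (miss F G) = 0 := by rw [hm]; rfl
    have hcG : 1 ≤ comps G := comps_pos (hne.mono inter_subset_left)
    calc 96 * 1 * 256 ^ (comps F - 1) ≤ 2 ^ 16 * 256 ^ (comps F - 1) :=
          Nat.mul_le_mul_right _ (by norm_num)
      _ ≤ 2 ^ 16 * 256 ^ (comps G - 1) := by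
          apply Nat.mul_le_mul_left
          apply Nat.pow_le_pow_right (by norm_num)
          omega
  -- union bound
  have hcardP : F.powerset.card ≤ 2 ^ k := by
    rw [card_powerset]
    apply Nat.pow_le_pow_right (by norm_num)
    have := card_le_card hF
    simpa using this
  have hcov : ∀ x, S x →
      (∃ v ∈ psub w, ∃ G ∈ F.powerset, (S x ∧ A v G x) ∧
        (T'.card < 4 * (G ∩ T').card ∧ Good F a T' G)) ∨
      (∃ p ∈ cash w, ∃ G ∈ F.powerset, ∃ G2 ∈ F.powerset, (A p.2 G2 x ∧ A p.1 G x) ∧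
        (T'.card < 4 * (G ∩ T').card ∧ comps (G ∩ cl F a) = 1 ∧ miss F G = ∅ ∧
          ∃ a2 ∈ LE G2, Disjoint (Ve k (cl G2 a2)) (Ve k G))) := by
    intro x hx
    have hloc : Loc F w (fun u G => A u G x) := by
      refine ⟨?_, ?_⟩
      · intro f hf G hG hAG
        exact h.leaf f (subs_trans hw hf) G (hG.trans hF) x hAG
      · intro b l r hb G hG hAG
        exact h.rule b l r (subs_trans hw hb) G (hG.trans hF) x hAG
    rcases pointwise (k := k) hT heT hT4 hE hloc (hSA x hx) with
      ⟨v, hv, G, hG, h1, h2, h3⟩ | ⟨p, hp, G, hG, G2, hG2, h1, h2, h3, h4, h5, h6⟩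
    · exact Or.inl ⟨v, hv, G, mem_powerset.2 hG, ⟨hx, h1⟩, h2, h3⟩
    · exact Or.inr ⟨p, hp, G, mem_powerset.2 hG, G2, mem_powerset.2 hG2, ⟨h2, h1⟩, h3, h4, h5, h6⟩
  have hzero : ∀ (Q : Prop) (S' : Pl k n → Prop) (c : ℕ), (Q → cd S' * M ≤ c * N) →
      cd (fun x => S' x ∧ Q) * M ≤ c * N := by
    intro Q S' c hQ
    by_cases hq : Q
    · exact (Nat.mul_le_mul_right _ (cd_mono fun x hx => hx.1)).trans (hQ hq)
    · rw [cd_zero fun y hy => hq hy.2]; simp
  have hA1 : cd (fun x => ∃ v ∈ psub w, ∃ G ∈ F.powerset, (S x ∧ A v G x) ∧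
        (T'.card < 4 * (G ∩ T').card ∧ Good F a T' G)) * M
      ≤ ((psub w).map fun v => 2 ^ k * v.leaves).sum * N := by
    apply cd_list
    intro v hv
    calc _ ≤ F.powerset.card * v.leaves * N := by
          apply cd_fin
          intro G hG
          apply hzero
          rintro ⟨h1, h2⟩
          exact good v hv G (mem_powerset.1 hG) h1 h2
      _ ≤ 2 ^ k * v.leaves * N := by
          apply Nat.mul_le_mul_right
          exact Nat.mul_le_mul_right _ hcardP
  have hA2 : cd (fun x => ∃ p ∈ cash w, ∃ G ∈ F.powerset, ∃ G2 ∈ F.powerset,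
        (A p.2 G2 x ∧ A p.1 G x) ∧
        (T'.card < 4 * (G ∩ T').card ∧ comps (G ∩ cl F a) = 1 ∧ miss F G = ∅ ∧
          ∃ a2 ∈ LE G2, Disjoint (Ve k (cl G2 a2)) (Ve k G))) * M
      ≤ ((cash w).map fun p => 2 ^ k * (2 ^ k * p.1.leaves)).sum * N := by
    apply cd_list
    intro p hp
    calc _ ≤ F.powerset.card * (2 ^ k * p.1.leaves) * N := by
          apply cd_fin
          intro G hG
          calc _ ≤ F.powerset.card * p.1.leaves * N := by
                apply cd_fin
                intro G2 hG2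
                apply hzero
                rintro ⟨h1, h2, h3, h4⟩
                exact cashb p hp G (mem_powerset.1 hG) G2 (mem_powerset.1 hG2) h1 h2 h3 h4
            _ ≤ 2 ^ k * p.1.leaves * N := by
                apply Nat.mul_le_mul_right
                exact Nat.mul_le_mul_right _ hcardP
      _ ≤ _ := by
          apply Nat.mul_le_mul_right
          exact Nat.mul_le_mul_right _ hcardP
  have hs1 : ((psub w).map fun v => 2 ^ k * v.leaves).sum = 2 ^ k * ((psub w).map Tr.leaves).sum :=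
    List.sum_map_mul_left _ _ _
  have hs2 : ((cash w).map fun p => 2 ^ k * (2 ^ k * p.1.leaves)).sum
      = 2 ^ k * (2 ^ k * ((cash w).map fun p => p.1.leaves).sum) := by
    rw [List.sum_map_mul_left, List.sum_map_mul_left]
  have hdep : w.depth ≤ T.depth := by
    have key : ∀ t u : Tr I, u ∈ t.subs → u.depth ≤ t.depth := by
      intro t
      induction t with
      | leaf f =>
        intro u hu
        simp only [Tr.subs, List.mem_singleton] at hu
        rw [hu]
      | node b l r ihl ihr =>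
        intro u hu
        simp only [Tr.subs, List.mem_cons, List.mem_append] at hu
        rcases hu with h | h | h
        · rw [h]
        · have := ihl u h; simp only [Tr.depth]; omega
        · have := ihr u h; simp only [Tr.depth]; omega
    exact key _ _ hw
  have hsp := sum_psub w
  have hsc := sum_cash w
  rw [hs1] at hA1
  rw [hs2] at hA2
  have hfin1 : 2 ^ k * ((psub w).map Tr.leaves).sum ≤ 4 ^ k * (T.depth + 1) ^ 2 * w.leaves := by
    calc 2 ^ k * ((psub w).map Tr.leaves).sum ≤ 4 ^ k * (w.depth * w.leaves) :=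
          Nat.mul_le_mul (Nat.pow_le_pow_left (by norm_num) k) hsp
      _ ≤ 4 ^ k * ((T.depth + 1) ^ 2 * w.leaves) := by
          apply Nat.mul_le_mul_left
          apply Nat.mul_le_mul_right
          nlinarith
      _ = _ := by ring
  have hfin2 : 2 ^ k * (2 ^ k * ((cash w).map fun p => p.1.leaves).sum)
      ≤ 4 ^ k * (T.depth + 1) ^ 2 * w.leaves := by
    calc 2 ^ k * (2 ^ k * ((cash w).map fun p => p.1.leaves).sum)
        = 4 ^ k * ((cash w).map fun p => p.1.leaves).sum := by
          rw [← mul_assoc, ← mul_pow]; norm_num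
      _ ≤ 4 ^ k * (w.depth ^ 2 * w.leaves) := Nat.mul_le_mul_left _ hsc
      _ ≤ 4 ^ k * ((T.depth + 1) ^ 2 * w.leaves) := by
          apply Nat.mul_le_mul_left
          apply Nat.mul_le_mul_right
          exact Nat.pow_le_pow_left (by omega) 2
      _ = _ := by ring
  calc cd S * M ≤ (cd _ + cd _) * M :=
        Nat.mul_le_mul_right _ ((cd_mono hcov).trans (cd_or _ _))
    _ = cd _ * M + cd _ * M := by rw [add_mul]
    _ ≤ 2 ^ k * ((psub w).map Tr.leaves).sum * N
        + 2 ^ k * (2 ^ k * ((cash w).map fun p => p.1.leaves).sum) * N :=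
        Nat.add_le_add hA1 hA2
    _ ≤ 4 ^ k * (T.depth + 1) ^ 2 * w.leaves * N + 4 ^ k * (T.depth + 1) ^ 2 * w.leaves * N :=
        Nat.add_le_add (Nat.mul_le_mul_right _ hfin1) (Nat.mul_le_mul_right _ hfin2)
    _ = _ := by ring

theorem claim_step (h : Sys k n K θ T A) (hN : 4 * 4 ^ k * (T.depth + 1) ^ 2 ≤ 8 ^ θ) {w : Tr I}
    (hw : w ∈ T.subs) (ih : ∀ v ∈ psub w, Claim n K θ A v) : Claim n K θ A w := by
  intro F hF hS R hR
  obtain ⟨a, ha, rfl⟩ := isComp_cl hR
  have hcF : 1 ≤ comps F := comps_pos ⟨a, (mem_LE.1 ha).1⟩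
  have hlw := leaves_pos w
  by_cases hl : (cl F a).card ≤ 2 ^ 16 * 256 ^ (comps F - 1)
  · -- base
    have hss := h.ss w hw F hF F ⟨Subset.refl _, fun x _ y hy _ => hy⟩ (card_le_comps hS)
    have h1 := total hss
    have h2 : (256 ^ (comps F - 1) * (cl F a).card) ^ θ ≤ 2 ^ (16 * θ * comps F) := by
      calc (256 ^ (comps F - 1) * (cl F a).card) ^ θ
          ≤ (256 ^ (comps F - 1) * (2 ^ 16 * 256 ^ (comps F - 1))) ^ θ :=
            Nat.pow_le_pow_left (Nat.mul_le_mul_left _ hl) θ
        _ = 2 ^ (16 * θ * comps F) := by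
            obtain ⟨m, hm⟩ : ∃ m, comps F = m + 1 := ⟨comps F - 1, by omega⟩
            rw [hm, Nat.add_sub_cancel, show (256 : ℕ) = 2 ^ 8 by norm_num, ← pow_mul, ← pow_add,
              ← pow_add, ← pow_mul]
            congr 1; ring
    calc _ ≤ cd (A w F) * 2 ^ (16 * θ * comps F) := Nat.mul_le_mul_left _ h2
      _ ≤ n ^ (k + 1) := h1
      _ ≤ w.leaves * n ^ (k + 1) := Nat.le_mul_of_pos_left _ hlw
  · push Not at hl
    obtain ⟨a0, b0, hab, hI, hsub, _, _⟩ := hR
    have hcard : (cl F a).card = b0 + 1 - a0 := by rw [hI, Nat.card_Icc]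
    have hlbig : 65536 < (cl F a).card := by
      have : 1 ≤ 256 ^ (comps F - 1) := Nat.one_le_pow _ _ (by norm_num)
      omega
    set l := (cl F a).card with hldef
    set r := l / 3 with hr
    have hT1 : Icc a0 (a0 + r - 1) ⊆ cl F a := by
      rw [hI]; intro z hz; rw [mem_Icc] at hz ⊢; omega
    have hT2 : Icc (b0 + 1 - r) b0 ⊆ cl F a := by
      rw [hI]; intro z hz; rw [mem_Icc] at hz ⊢; omega
    have hc1 : (Icc a0 (a0 + r - 1)).card = r := by rw [Nat.card_Icc]; omega
    have hc2 : (Icc (b0 + 1 - r) b0).card = r := by rw [Nat.card_Icc]; omega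
    -- smallness of R
    have hss := h.ss w hw F hF (cl F a) (full_cl F a) (by
      rw [comps_cl ha, mul_one]; exact card_cl_le hS ha)
    rw [comps_cl ha, mul_one] at hss
    have hsm : SmallG (A w F) (Ve k (cl F a)) (2 ^ (8 * θ) * 2 ^ (8 * θ)) := by
      rw [← pow_add, show 8 * θ + 8 * θ = 16 * θ by ring]
      exact small_iff.1 hss
    have hdis : Disjoint (Ve k (Icc a0 (a0 + r - 1))) (Ve k (Icc (b0 + 1 - r) b0)) := by
      apply Ve_disj
      intro i hi j hj
      rw [mem_Icc] at hi hj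
      omega
    obtain ⟨P, hP1, hP2⟩ := dichotomy hsm (Ve_mono hT1) hdis
    have b1 := half h hw ih hF hS ha (T' := Icc a0 (a0 + r - 1)) (e := a0) hT1
      (by rw [mem_Icc]; omega) (by omega) (by rw [hc1]; omega)
      (by
        intro c d hcd he hn z hz
        rw [hI] at hcd
        rw [mem_Icc] at he hz ⊢
        have h1 : c ∈ Icc a0 b0 := hcd (by rw [mem_Icc]; omega)
        rw [mem_Icc] at h1
        have h2 : a0 + r - 1 < d := by
          by_contra hcon
          push Not at hcon
          apply hn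
          intro y hy
          rw [mem_Icc] at hy ⊢
          omega
        omega)
      (S := fun x => A w F x ∧ ¬ P x) (fun x hx => hx.1) hP1
    have b2 := half h hw ih hF hS ha (T' := Icc (b0 + 1 - r) b0) (e := b0) hT2
      (by rw [mem_Icc]; omega) (by omega) (by rw [hc2]; omega)
      (by
        intro c d hcd he hn z hz
        rw [hI] at hcd
        rw [mem_Icc] at he hz ⊢
        have h1 : d ∈ Icc a0 b0 := hcd (by rw [mem_Icc]; omega)
        rw [mem_Icc] at h1
        have h2 : c < b0 + 1 - r := by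
          by_contra hcon
          push Not at hcon
          apply hn
          intro y hy
          rw [mem_Icc] at hy ⊢
          omega
        omega)
      (S := fun x => A w F x ∧ P x) (fun x hx => hx.1) hP2
    set X := 256 ^ (comps F - 1) * l with hX
    have h3 : cd (A w F) ≤ cd (fun x => A w F x ∧ ¬ P x) + cd (fun x => A w F x ∧ P x) := by
      refine le_trans (cd_mono ?_) (cd_or _ _)
      intro x hx
      by_cases hp : P x
      · exact Or.inr ⟨hx, hp⟩
      · exact Or.inl ⟨hx, hp⟩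
    have h4 : cd (A w F) * (8 * X) ^ θ ≤ 8 ^ θ * (w.leaves * n ^ (k + 1)) := by
      calc cd (A w F) * (8 * X) ^ θ
          ≤ (cd (fun x => A w F x ∧ ¬ P x) + cd (fun x => A w F x ∧ P x)) * (8 * X) ^ θ :=
            Nat.mul_le_mul_right _ h3
        _ = cd (fun x => A w F x ∧ ¬ P x) * (8 * X) ^ θ
            + cd (fun x => A w F x ∧ P x) * (8 * X) ^ θ := by ring
        _ ≤ 2 * (4 ^ k * (T.depth + 1) ^ 2 * w.leaves * n ^ (k + 1))
            + 2 * (4 ^ k * (T.depth + 1) ^ 2 * w.leaves * n ^ (k + 1)) := Nat.add_le_add b1 b2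
        _ = (4 * 4 ^ k * (T.depth + 1) ^ 2) * (w.leaves * n ^ (k + 1)) := by ring
        _ ≤ _ := Nat.mul_le_mul_right _ hN
    have h5 : 0 < 8 ^ θ := by positivity
    rw [mul_pow, ← mul_assoc, mul_comm (cd (A w F)), mul_assoc] at h4
    exact Nat.le_of_mul_le_mul_left h4 h5

theorem claim_all (h : Sys k n K θ T A) (hN : 4 * 4 ^ k * (T.depth + 1) ^ 2 ≤ 8 ^ θ) :
    ∀ m : ℕ, ∀ w ∈ T.subs, w.leaves ≤ m → Claim n K θ A w := by
  intro m
  induction m with
  | zero =>
    intro w _ hm
    have := leaves_pos w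
    omega
  | succ m ih =>
    intro w hw hm
    apply claim_step h hN hw
    intro v hv
    exact ih v (subs_trans hw (psub_mem hv)) (by have := psub_leaves hv; omega)

end main

end R

open Finset R in
theorem recursion {I : Type} {k n K θ : ℕ} {T : Tr I} {A : Tr I → Finset ℕ → Pl k n → Prop}
    (h : Sys k n K θ T A) (hn : 0 < n) (hK : K ≤ k)
    (hN : 4 * 4 ^ k * (T.depth + 1) ^ 2 ≤ 8 ^ θ)
    (hroot : n ^ (k + 1) ≤ 2 * cnt (A T (range k))) :
    K ^ θ ≤ 2 ^ (θ + k + 1) * (T.depth + 1) * T.leaves := by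
  classical
  have hlT := leaves_pos T
  rcases Nat.eq_zero_or_pos K with hK0 | hK0
  · subst hK0
    rcases Nat.eq_zero_or_pos θ with ht | ht
    · subst ht
      simp only [pow_zero]
      have : 0 < 2 ^ (0 + k + 1) * (T.depth + 1) * T.leaves := by positivity
      omega
    · rw [Nat.zero_pow ht]; exact Nat.zero_le _
  rw [cd_eq] at hroot
  set N := n ^ (k + 1) with hNdef
  have hNpos : 0 < N := by positivity
  -- bound for one outcome
  have one : ∀ v ∈ T.subs, ∀ G ⊆ range k, K < 2 * G.card → G.card ≤ K →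
      cd (A v G) * K ^ θ ≤ (2 ^ θ * v.leaves) * N := by
    intro v hv G hG h1 h2
    have hne : G.Nonempty := card_pos.1 (by omega)
    have hSh : Short K G := by
      intro a hsub
      have := card_le_card hsub
      rw [Nat.card_Icc] at this
      omega
    obtain ⟨R', hR', hbig⟩ := big_comp' hne
    have hcl := claim_all h hN v.leaves v hv le_rfl G hG hSh R' hR'
    have h3 : K ≤ 2 * (256 ^ (comps G - 1) * R'.card) := by
      have h4 := num_pow (comps G)
      calc K ≤ 2 * G.card := by omega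
        _ ≤ 2 * (R'.card * comps G) := Nat.mul_le_mul_left _ hbig
        _ ≤ 2 * (R'.card * 256 ^ (comps G - 1)) :=
            Nat.mul_le_mul_left _ (Nat.mul_le_mul_left _ h4)
        _ = _ := by ring
    calc cd (A v G) * K ^ θ ≤ cd (A v G) * (2 * (256 ^ (comps G - 1) * R'.card)) ^ θ :=
          Nat.mul_le_mul_left _ (Nat.pow_le_pow_left h3 θ)
      _ = 2 ^ θ * (cd (A v G) * (256 ^ (comps G - 1) * R'.card) ^ θ) := by
          rw [mul_pow 2]; ring
      _ ≤ 2 ^ θ * (v.leaves * N) := Nat.mul_le_mul_left _ hcl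
      _ = _ := by ring
  have hcov : ∀ x, A T (range k) x →
      ∃ v ∈ T.subs, ∃ G ∈ (range k).powerset, A v G x ∧ (K < 2 * G.card ∧ G.card ≤ K) := by
    intro x hx
    have hloc : Loc (range k) T (fun u G => A u G x) := by
      refine ⟨?_, ?_⟩
      · intro f hf G hG hAG
        exact h.leaf f hf G hG x hAG
      · intro b l r hb G hG hAG
        exact h.rule b l r hb G hG x hAG
    obtain ⟨v, hv, G, hG, h1, h2, h3⟩ := descend (range k) K hK0 T hloc (range k)
      (Subset.refl _) hx (by rw [inter_self, card_range]; omega)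
    rw [inter_eq_left.2 hG] at h2 h3
    exact ⟨v, hv, G, mem_powerset.2 hG, h1, h2, h3⟩
  have hbound : cd (A T (range k)) * K ^ θ
      ≤ (T.subs.map fun v => 2 ^ k * (2 ^ θ * v.leaves)).sum * N := by
    refine le_trans (Nat.mul_le_mul_right _ (cd_mono hcov)) ?_
    apply cd_list
    intro v hv
    calc _ ≤ (range k).powerset.card * (2 ^ θ * v.leaves) * N := by
          apply cd_fin
          intro G hG
          by_cases hq : K < 2 * G.card ∧ G.card ≤ K
          · exact (Nat.mul_le_mul_right _ (cd_mono fun x hx => hx.1)).trans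
              (one v hv G (mem_powerset.1 hG) hq.1 hq.2)
          · rw [cd_zero fun y hy => hq hy.2]; simp
      _ = _ := by rw [card_powerset, card_range]
  have hs : (T.subs.map fun v => 2 ^ k * (2 ^ θ * v.leaves)).sum
      = 2 ^ k * (2 ^ θ * (T.subs.map Tr.leaves).sum) := by
    rw [List.sum_map_mul_left, List.sum_map_mul_left]
  rw [hs] at hbound
  have hss := sum_subs T
  have hfin : K ^ θ * N ≤ 2 ^ (θ + k + 1) * (T.depth + 1) * T.leaves * N := by
    calc K ^ θ * N ≤ K ^ θ * (2 * cd (A T (range k))) := Nat.mul_le_mul_left _ hroot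
      _ = 2 * (cd (A T (range k)) * K ^ θ) := by ring
      _ ≤ 2 * (2 ^ k * (2 ^ θ * (T.subs.map Tr.leaves).sum) * N) := Nat.mul_le_mul_left _ hbound
      _ ≤ 2 * (2 ^ k * (2 ^ θ * ((T.depth + 1) * T.leaves)) * N) := by
          apply Nat.mul_le_mul_left
          apply Nat.mul_le_mul_right
          apply Nat.mul_le_mul_left
          exact Nat.mul_le_mul_left _ hss
      _ = _ := by rw [pow_add, pow_add]; ring
  exact Nat.le_of_mul_le_mul_right hfin hNpos

end P18dd
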