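import Pool.Agent.Lib.P18dd.Typ
import Pool.Agent.Lib.P18dd.Rec
import Pool.Agent.Lib.P18dd.Graph
import Pool.Agent.Lib.P18dd.FmC
import Pool.Agent.Lib.P18dd.NumA

/-!
# P18dd.Fin: the lower bounds
-/

set_option autoImplicit false

namespace P18dd

open Finset TypAux

theorem layer_bound {k n K m θ d w t : ℕ} (h : Par k n K m θ d w t)
    (hD : 4 * 4 ^ k * (d * (m * k ^ 2 + 1) + 1) ^ 2 ≤ 8 ^ θ)
    (P : Set ((Arc k n → Bool) → Bool)) (hP : ∀ g ∈ P, Dep1 g) {S : ℕ}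
    {f : (Arc k n → Bool) → Bool} (hf : Fm P d S f) (hsep : SepL f) (hS : S ≤ 2 ^ (m * k ^ 2)) :
    K ^ θ ≤ 2 ^ (θ + k + 1) * (d * (m * k ^ 2 + 1) + 1) * S := by
  obtain ⟨T, hTf, hLit, hleaves, halt, hdepth⟩ := tree_of_fm P hP hf
  obtain ⟨Γ, hsys, hroot⟩ := typical h T hLit halt (by rw [hTf]; exact hsep)
    (by rw [hleaves]; exact hS)
  have hlog : Nat.log 2 S ≤ m * k ^ 2 := by
    have := Nat.log_mono_right (b := 2) hS
    rwa [Nat.log_pow (by norm_num)] at this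
  have hdep : T.depth ≤ d * (m * k ^ 2 + 1) :=
    hdepth.trans (Nat.mul_le_mul_left _ (by omega))
  have hKk : K ≤ k := by have := h.hk; omega
  have h1 := recursion hsys h.n1 hKk (le_trans (Nat.mul_le_mul_left _
    (Nat.pow_le_pow_left (by omega) 2)) hD) hroot
  rw [hleaves] at h1
  refine h1.trans (Nat.mul_le_mul_right _ (Nat.mul_le_mul_left _ (by omega)))

theorem SepU.mono {n k k' : ℕ} (hk : k' ≤ k) {s t : Fin n} {f : (Fin n → Fin n → Bool) → Bool}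
    (h : SepU k s t f) : SepU k' s t f := by
  intro E h1 h2
  obtain ⟨h3, h4⟩ := h E h1 h2
  refine ⟨fun ⟨j, hj, hp⟩ => h3 ⟨j, hj.trans hk, hp⟩, h4⟩

/-- the base functions of formulas: literals and constants -/
def LitC (n : ℕ) : Set ((Fin n → Fin n → Bool) → Bool) :=
  P28cd.Lits n ∪ {f | ∃ b : Bool, f = fun _ => b}

theorem litC_not {n : ℕ} : ∀ h ∈ LitC n, (fun x => !h x) ∈ LitC n := by
  rintro h (⟨u, v, rfl | rfl⟩ | ⟨b, rfl⟩)
  · exact Or.inl ⟨u, v, Or.inr rfl⟩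
  · exact Or.inl ⟨u, v, Or.inl (by funext E; simp)⟩
  · exact Or.inr ⟨!b, rfl⟩

theorem Dep1.not {I : Type} {h : (I → Bool) → Bool} (hh : Dep1 h) : Dep1 fun z => !h z := by
  rcases hh with ⟨c, hc⟩ | ⟨i, hi⟩
  · exact Or.inl ⟨!c, fun z => congrArg (! ·) (hc z)⟩
  · exact Or.inr ⟨i, fun z z' hz => congrArg (! ·) (hi z z' hz)⟩

theorem graph_bound {k n K m θ d w t : ℕ} (h : Par k n K m θ d w t)
    (hD : 4 * 4 ^ k * (d * (m * k ^ 2 + 1) + 1) ^ 2 ≤ 8 ^ θ) {N : ℕ}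
    (hN : (k + 1) * n + 2 ≤ N) {κ : ℕ} (hκ : k + 2 ≤ κ) (s t' : Fin N) (hst : s ≠ t')
    {f : (Fin N → Fin N → Bool) → Bool} (hsep : SepU κ s t' f) {S : ℕ}
    (hf : Fm (LitC N) d S f) (hS : S ≤ 2 ^ (m * k ^ 2)) :
    K ^ θ ≤ 2 ^ (θ + k + 1) * (d * (m * k ^ 2 + 1) + 1) * S := by
  obtain ⟨emb, hemb, hs⟩ := embed (k := k) (n := n) (by have := h.k24; omega) hN s t' hst f
    (hsep.mono hκ)
  have h1 : Fm {g : (Arc k n → Bool) → Bool | Dep1 g} d S fun G => f (emb G) := by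
    refine fm_comp emb ?_ hf
    rintro g (⟨u, v, rfl | rfl⟩ | ⟨b, rfl⟩)
    · exact hemb u v
    · exact (hemb u v).not
    · exact Or.inl ⟨b, fun z => rfl⟩
  exact layer_bound h hD _ (fun g hg => hg) h1 hs hS

theorem lower_formula (a : ℝ) (ha0 : 0 < a) (ha : a < 1) : ∃ c : ℝ, 0 < c ∧ ∃ k₀ n₀ : ℕ,
    ∀ n ≥ n₀, ∀ k ≥ k₀, ∀ s t : Fin n, s ≠ t → ∀ d : ℕ, (d : ℝ) ≤ Real.log n ^ a →
    ∀ (S : ℕ) (f : (Fin n → Fin n → Bool) → Bool), Fm (LitC n) d S f → SepU k s t f →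
      (n : ℝ) ^ (c * min (Real.log k) (Real.log (Real.log n))) ≤ S := by
  obtain ⟨c, hc, k₀, n₀, hnum⟩ := num_paramsA a ha0 ha
  refine ⟨c, hc, k₀, n₀, ?_⟩
  intro n hn k hk s t hst d hd S f hf hsep
  by_contra hlt
  push Not at hlt
  obtain ⟨K, m, hK, hk2, hm, hN, hd1, hw10, hD, hfin⟩ := hnum n hn k hk d hd
  obtain ⟨hS1, hS2⟩ := hfin S hlt
  have hpar : Par (24 * K) (2 ^ (m * (24 * K))) K m (m * K) d (10 * m * (24 * K) ^ 2)
      (10 * (24 * K) ^ 2) := ⟨hK, rfl, rfl, rfl, hm, rfl, rfl, hd1, hw10⟩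
  have h1 := graph_bound hpar hD hN hk2 s t hst hsep hf hS1
  omega

theorem lower_circuit (a : ℝ) (ha0 : 0 < a) (ha : a < 1) : ∃ c : ℝ, 0 < c ∧ ∃ k₀ n₀ : ℕ,
    ∀ n ≥ n₀, ∀ k ≥ k₀, ∀ s t : Fin n, s ≠ t → ∀ d : ℕ, (d : ℝ) ≤ Real.log n ^ a →
    ∀ (S : ℕ) (f : (Fin n → Fin n → Bool) → Bool), P28cd.Circ (P28cd.Lits n) d S f →
      SepU k s t f →
      (n : ℝ) ^ (c * min (Real.log k) (Real.log (Real.log n)) / d) ≤ S := by
  obtain ⟨c, hc, k₀, n₀, h⟩ := lower_formula a ha0 ha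
  obtain ⟨c', hc', k₁, n₁, h'⟩ := num_circA a ha0 ha c hc
  refine ⟨c', hc', max k₀ k₁, max n₀ n₁, ?_⟩
  intro n hn k hk s t hst d hd S f hf hsep
  by_contra hlt
  push Not at hlt
  have hf' : P28cd.Circ (LitC n) d S f := by
    obtain ⟨level, val, out, h1, h2, h3⟩ := hf
    refine ⟨level, val, out, h1, fun g => ?_, h3⟩
    obtain ⟨T, hT, hg⟩ := h2 g
    refine ⟨T, fun x hx => ?_, hg⟩
    rcases hT hx with hx' | hx'
    · exact Or.inl (Or.inl hx')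
    · exact Or.inr hx'
  have hd1 : 1 ≤ d := by
    obtain ⟨level, val, out, h1, h2, h3⟩ := hf
    have := h1 out
    omega
  obtain ⟨hfin, hcard⟩ := lits_card n
  obtain ⟨L, hL1, hL2⟩ := fm_of_circ (LitC n) (2 * n ^ 2 + 2) hfin hcard (by omega) litC_not
    (fun b => Or.inr ⟨b, rfl⟩) hf'
  have h1 := h' n (le_of_max_le_right hn) k (le_of_max_le_right hk) d hd1 hd S L hlt hL2
  have h2 := h n (le_of_max_le_left hn) k (le_of_max_le_left hk) s t hst d hd L f hL1 hsep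
  linarith

end P18dd
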