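import Pool.Agent.Lib.P18dd.Fin
import Pool.Agent.Lib.P28cd.Up

/-!
# P18dd.Fin2: consequences
-/

set_option autoImplicit false

namespace P18dd

open Finset

theorem upper (n k : ℕ) (hk : 2 ≤ k) (hkn : k ≤ n) (hn : 4 ≤ n) (s t : Fin n) :
    ∃ (S : ℕ) (f : (Fin n → Fin n → Bool) → Bool),
      P28cd.Circ (P28cd.Lits n) (2 * Nat.clog 2 k) S f ∧
      (∀ E, f E = true ↔ P28cd.Walk E k s t) ∧ S ≤ n ^ 6 := by
  obtain ⟨S, hS, f, h1, h2⟩ := P28cd.upper_circuit n k (Nat.clog 2 k) 2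
    (Nat.clog_pos (by norm_num) hk) (by norm_num) (Nat.le_pow_clog (by norm_num) k) s t
  refine ⟨S, f, h1, h2, hS.trans ?_⟩
  have h3 : Nat.clog 2 k ≤ n := by
    have : Nat.clog 2 k ≤ k := by
      apply Nat.clog_le_of_le_pow
      exact Nat.lt_two_pow_self.le
    omega
  have h4 : k + 1 ≤ 2 * n := by omega
  calc 2 * Nat.clog 2 k * (k + 1) * n ^ (2 + 1) ≤ 2 * n * (2 * n) * n ^ (2 + 1) := by gcongr
    _ = 4 * n ^ 5 := by ring
    _ ≤ n * n ^ 5 := Nat.mul_le_mul_right _ hn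
    _ = n ^ 6 := by ring

theorem loglog_tendsto (B : ℝ) : ∃ n₀ : ℕ, ∀ n ≥ n₀, B ≤ Real.log (Real.log n) := by
  have h : Filter.Tendsto (fun n : ℕ => Real.log (Real.log n)) Filter.atTop Filter.atTop :=
    Real.tendsto_log_atTop.comp (Real.tendsto_log_atTop.comp tendsto_natCast_atTop_atTop)
  obtain ⟨n₀, hn₀⟩ := Filter.eventually_atTop.1 (h.eventually_ge_atTop B)
  exact ⟨n₀, hn₀⟩

/-- `A * log x ≤ x ^ a` for large `x` -/
theorem log_le_pow (a : ℝ) (ha0 : 0 < a) (A : ℝ) : ∃ n₀ : ℕ, ∀ n ≥ n₀,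
    A * Real.log (Real.log n) ≤ Real.log n ^ a := by
  have h1 : Filter.Tendsto (fun x : ℝ => Real.log x / x ^ a) Filter.atTop (nhds 0) :=
    (isLittleO_log_rpow_atTop ha0).tendsto_div_nhds_zero
  have h2 : Filter.Tendsto (fun n : ℕ => Real.log n) Filter.atTop Filter.atTop :=
    Real.tendsto_log_atTop.comp tendsto_natCast_atTop_atTop
  have h3 := h1.comp h2
  have hpos : (0 : ℝ) < 1 / (|A| + 1) := by positivity
  have h4 := h3.eventually_le_const hpos
  have h5 := h2.eventually_ge_atTop 1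
  obtain ⟨n₀, hn₀⟩ := Filter.eventually_atTop.1 (h4.and h5)
  refine ⟨n₀, fun n hn => ?_⟩
  obtain ⟨h6, h7⟩ := hn₀ n hn
  simp only [Function.comp_apply] at h6
  have hx : 0 < Real.log n := by linarith
  rw [div_le_div_iff₀ (Real.rpow_pos_of_pos hx a) (by positivity)] at h6
  have h8 : 0 ≤ Real.log (Real.log n) := Real.log_nonneg h7
  have h9 : A ≤ |A| := le_abs_self A
  nlinarith [abs_nonneg A]

theorem depth_poly (A : ℝ) (hA : 1 ≤ A) (C : ℝ) (hC : 0 < C) : ∃ c : ℝ, 0 < c ∧ ∃ k₀ n₀ : ℕ,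
    ∀ n ≥ n₀, ∀ k ≥ k₀, (k : ℝ) ≤ Real.log n ^ A → ∀ s t : Fin n, s ≠ t →
    ∀ (d S : ℕ) (f : (Fin n → Fin n → Bool) → Bool), P28cd.Circ (P28cd.Lits n) d S f →
      SepU k s t f → (S : ℝ) ≤ (n : ℝ) ^ C → c * Real.log k ≤ d := by
  obtain ⟨c, hc, k₀, n₀, h⟩ := lower_circuit (1 / 2) (by norm_num) (by norm_num)
  obtain ⟨n₁, h₁⟩ := loglog_tendsto 1
  obtain ⟨n₂, h₂⟩ := log_le_pow (1 / 2) (by norm_num) A
  refine ⟨min (c / (C * A)) 1, by positivity, max k₀ 1, max (max n₀ n₁) n₂, ?_⟩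
  intro n hn k hk hkA s t hst d S f hf hsep hS
  have hn0 : n₀ ≤ n := by omega
  have hn1 : n₁ ≤ n := by omega
  have hn2 : n₂ ≤ n := by omega
  have hk0 : k₀ ≤ k := by omega
  have hk1 : 1 ≤ k := by omega
  have hll := h₁ n hn1
  have hsq := h₂ n hn2
  have hlog : 0 < Real.log n := by
    by_contra hcon
    push Not at hcon
    rcases hcon.eq_or_lt with h0 | h0
    · rw [h0, Real.log_zero] at hll; linarith
    · have : 0 ≤ Real.log n := Real.log_natCast_nonneg n
      linarith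
  have hkr : (1 : ℝ) ≤ k := by exact_mod_cast hk1
  have hlk0 : 0 ≤ Real.log k := Real.log_nonneg hkr
  have hlk : Real.log k ≤ A * Real.log (Real.log n) := by
    have := Real.log_le_log (by linarith) hkA
    rwa [Real.log_rpow hlog] at this
  by_cases hd : (d : ℝ) ≤ Real.log n ^ (1 / 2 : ℝ)
  · have h3 := (h n hn0 k hk0 s t hst d hd S f hf hsep).trans hS
    have hn1' : (1 : ℝ) < n := by
      by_contra hcon
      push Not at hcon
      have := Real.log_nonpos (by positivity) hcon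
      linarith
    have h4 : c * min (Real.log k) (Real.log (Real.log n)) / d ≤ C :=
      (Real.rpow_le_rpow_left_iff hn1').1 h3
    have hd1 : (0 : ℝ) < d := by
      obtain ⟨level, val, out, h1, h2, h3⟩ := hf
      have := h1 out
      exact_mod_cast (by omega : 0 < d)
    rw [div_le_iff₀ hd1] at h4
    have h5 : Real.log k / A ≤ min (Real.log k) (Real.log (Real.log n)) := by
      refine le_min ?_ ?_
      · exact div_le_self hlk0 hA
      · rw [div_le_iff₀ (by linarith)]; linarith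
    have h6 : c * (Real.log k / A) ≤ C * d := le_trans (mul_le_mul_of_nonneg_left h5 hc.le) h4
    calc min (c / (C * A)) 1 * Real.log k ≤ c / (C * A) * Real.log k :=
          mul_le_mul_of_nonneg_right (min_le_left _ _) hlk0
      _ = c * (Real.log k / A) / C := by field_simp
      _ ≤ d := by rw [div_le_iff₀ hC]; linarith
  · push Not at hd
    calc min (c / (C * A)) 1 * Real.log k ≤ 1 * Real.log k :=
          mul_le_mul_of_nonneg_right (min_le_right _ _) hlk0
      _ ≤ d := by linarith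

/-- formulas by recursive doubling -/
theorem upper_formula_aux (n : ℕ) (i : ℕ) : ∀ k ≤ 2 ^ i, ∀ u v : Fin n,
    ∃ (L : ℕ) (f : (Fin n → Fin n → Bool) → Bool), Fm (LitC n) (2 * i) L f ∧
      (∀ E, f E = true ↔ P28cd.Walk E k u v) ∧ L ≤ (2 * n) ^ i := by
  induction i with
  | zero =>
    intro k hk u v
    by_cases huv : u = v
    · refine ⟨1, fun _ => true, Fm.lit _ _ (Or.inr ⟨true, rfl⟩), fun E => ?_, by simp⟩
      simp only [true_iff]
      exact ⟨0, Nat.zero_le _, fun _ => u, rfl, huv, fun i hi => absurd hi (Nat.not_lt_zero i)⟩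
    · have hk1 : k = 0 ∨ k = 1 := by simp at hk; omega
      rcases hk1 with rfl | rfl
      · refine ⟨1, fun _ => false, Fm.lit _ _ (Or.inr ⟨false, rfl⟩), fun E => ?_, by simp⟩
        simp only [Bool.false_eq_true, false_iff]
        intro h
        exact huv (P28cd.UpAux.walk_zero.1 h)
      · refine ⟨1, fun E => E u v, Fm.lit _ _ (Or.inl ⟨u, v, Or.inl rfl⟩), fun E => ?_, by simp⟩
        rw [P28cd.UpAux.walk_one]
        simp [huv]
  | succ i ih =>
    intro k hk u v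
    obtain ⟨k₁, k₂, hk12, h1, h2⟩ : ∃ k₁ k₂, k = k₁ + k₂ ∧ k₁ ≤ 2 ^ i ∧ k₂ ≤ 2 ^ i := by
      refine ⟨k / 2, k - k / 2, by omega, ?_, ?_⟩
      · rw [pow_succ] at hk; omega
      · rw [pow_succ] at hk; omega
    have hn : 0 < n := by have := u.2; omega
    choose L₁ f₁ a1 a2 a3 using fun w => ih k₁ h1 u w
    choose L₂ f₂ b1 b2 b3 using fun w => ih k₂ h2 w v
    have hand : ∀ w, Fm (LitC n) (2 * i + 1) (L₁ w + L₂ w) (fun E => f₁ w E && f₂ w E) := by
      intro w
      have := Fm.gate (P := LitC n) (2 * i) 2 ![L₁ w, L₂ w] ![f₁ w, f₂ w]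
        (fun E => f₁ w E && f₂ w E) (by norm_num) (by
          intro j
          fin_cases j
          · exact a1 w
          · exact b1 w) (Or.inl fun E => by simp [Fin.forall_fin_two])
      simpa [Fin.sum_univ_two] using this
    refine ⟨∑ w, (L₁ w + L₂ w), fun E => decide (∃ w, (f₁ w E && f₂ w E) = true), ?_, ?_, ?_⟩
    · have := Fm.gate (P := LitC n) (2 * i + 1) n (fun w => L₁ w + L₂ w)
        (fun w E => f₁ w E && f₂ w E) (fun E => decide (∃ w, (f₁ w E && f₂ w E) = true)) hn hand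
        (Or.inr fun E => by simp)
      exact this
    · intro E
      rw [decide_eq_true_iff, hk12, P28cd.UpAux.walk_add]
      refine exists_congr fun w => ?_
      rw [Bool.and_eq_true, a2, b2]
    · calc ∑ w, (L₁ w + L₂ w) ≤ ∑ _w : Fin n, ((2 * n) ^ i + (2 * n) ^ i) :=
            Finset.sum_le_sum fun w _ => Nat.add_le_add (a3 w) (b3 w)
        _ = (2 * n) ^ (i + 1) := by
          rw [Finset.sum_const, Finset.card_univ, Fintype.card_fin, smul_eq_mul, pow_succ]
          ring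

theorem upper_formula (n k : ℕ) (s t : Fin n) :
    ∃ (L : ℕ) (f : (Fin n → Fin n → Bool) → Bool), Fm (LitC n) (2 * Nat.clog 2 k) L f ∧
      (∀ E, f E = true ↔ P28cd.Walk E k s t) ∧ L ≤ (2 * n) ^ Nat.clog 2 k :=
  upper_formula_aux n (Nat.clog 2 k) k (Nat.le_pow_clog (by norm_num) k) s t

end P18dd
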