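import Pool.Agent.Lib.P18dd.NumA

/-!
# P18dd.NumX: parameters with some more room

From `num_paramsA` with `a' = (1 + a) / 2`, applied to the depth `d + 1` (`(log N)^a + 1 ≤ (log N)^a'` for large `N`) and to `S' = 2 * 2 ^ (3 * (m * (24 K))) * S`; `c' = c / 2`:
`2 ^ (m * (24 K)) ≤ N`, so `S' ≤ 2 N³ S < 2 N ^ (3 + c' x) ≤ N ^ (c x)`, `x = min (log κ) (log log N)`, as soon as `c x / 2 ≥ 4` (choose `k₀, N₀`). `24 K + 2 ≤ κ` gives `24 K ≤ κ`.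
-/

set_option autoImplicit false

namespace P18dd

namespace NumXAux

theorem depth_succ {a l : ℝ} {d : ℕ} (ha0 : 0 < a) (ha : a < 1) (hl1 : 1 ≤ l)
    (hl : (2 : ℝ) ^ (2 / (1 - a)) ≤ l) (hd : (d : ℝ) ≤ l ^ a) :
    ((d + 1 : ℕ) : ℝ) ≤ l ^ ((1 + a) / 2) := by
  have hl0 : 0 < l := by linarith
  have ha1 : 0 < 1 - a := by linarith
  have h1 : (1 : ℝ) ≤ l ^ a := Real.one_le_rpow hl1 ha0.le
  have h2 : (2 : ℝ) ≤ l ^ ((1 - a) / 2) := by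
    have h3 : ((2 : ℝ) ^ (2 / (1 - a))) ^ ((1 - a) / 2) ≤ l ^ ((1 - a) / 2) :=
      Real.rpow_le_rpow (by positivity) hl (by positivity)
    have h4 : 2 / (1 - a) * ((1 - a) / 2) = 1 := by field_simp
    rwa [← Real.rpow_mul (by norm_num), h4, Real.rpow_one] at h3
  have h5 : l ^ ((1 + a) / 2) = l ^ a * l ^ ((1 - a) / 2) := by
    rw [← Real.rpow_add hl0]
    congr 1
    ring
  have h6 : l ^ a * 2 ≤ l ^ a * l ^ ((1 - a) / 2) := mul_le_mul_of_nonneg_left h2 (by linarith)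
  rw [h5]
  push_cast
  linarith

theorem S_up {c x : ℝ} {N P S : ℕ} (hN : 2 ≤ N) (hP : P ≤ N) (hx : 8 ≤ c * x)
    (hS : (S : ℝ) < (N : ℝ) ^ (c / 2 * x)) :
    ((2 * P ^ 3 * S : ℕ) : ℝ) < (N : ℝ) ^ (c * x) := by
  have hN2 : (2 : ℝ) ≤ N := by exact_mod_cast hN
  have hN0 : (0 : ℝ) < N := by linarith
  have hPN : (P : ℝ) ≤ N := by exact_mod_cast hP
  have h1 : (2 : ℝ) * (P : ℝ) ^ 3 ≤ (N : ℝ) ^ 4 := by
    calc (2 : ℝ) * (P : ℝ) ^ 3 ≤ N * (N : ℝ) ^ 3 :=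
          mul_le_mul hN2 (pow_le_pow_left₀ (Nat.cast_nonneg _) hPN 3) (by positivity) hN0.le
      _ = (N : ℝ) ^ 4 := by ring
  have h4 : (N : ℝ) ^ (4 : ℝ) = (N : ℝ) ^ 4 := by
    rw [← Real.rpow_natCast]
    norm_num
  push_cast
  calc (2 : ℝ) * (P : ℝ) ^ 3 * S ≤ (N : ℝ) ^ 4 * S :=
        mul_le_mul_of_nonneg_right h1 (Nat.cast_nonneg _)
    _ < (N : ℝ) ^ 4 * (N : ℝ) ^ (c / 2 * x) := mul_lt_mul_of_pos_left hS (by positivity)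
    _ = (N : ℝ) ^ (4 + c / 2 * x) := by rw [Real.rpow_add hN0, h4]
    _ ≤ (N : ℝ) ^ (c * x) := Real.rpow_le_rpow_of_exponent_le (by linarith) (by linarith)

end NumXAux

open NumXAux

theorem num_paramsX (a : ℝ) (ha0 : 0 < a) (ha : a < 1) : ∃ c : ℝ, 0 < c ∧ ∃ k₀ N₀ : ℕ,
    ∀ N ≥ N₀, ∀ κ ≥ k₀, ∀ d : ℕ,
    (d : ℝ) ≤ Real.log N ^ a → ∃ K m : ℕ, 1 ≤ K ∧ 24 * K ≤ κ ∧
      1300 * (24 * K) ^ 3 ≤ m ∧ (24 * K + 1) * 2 ^ (m * (24 * K)) ≤ N ∧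
      (64 * (10 * m * (24 * K) ^ 2)) ^ (d + 1) ≤ 2 ^ m ∧
      (16 * (10 * m * (24 * K) ^ 2)) ^ 10 ≤ 2 ^ m ∧
      4 * 4 ^ (24 * K) * ((d + 1) * (m * (24 * K) ^ 2 + 1) + 1) ^ 2 ≤ 8 ^ (m * K) ∧
      ∀ S : ℕ, (S : ℝ) < (N : ℝ) ^ (c * min (Real.log κ) (Real.log (Real.log N))) →
        2 * 2 ^ (m * (24 * K)) * S ≤ 2 ^ (m * (24 * K) ^ 2) ∧
        2 ^ (m * K + 24 * K + 1) * (2 ^ (m * (24 * K))) ^ 2 *
          ((d + 1) * (m * (24 * K) ^ 2 + 1) + 1) * (2 * 2 ^ (m * (24 * K)) * S) < K ^ (m * K) := by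
  obtain ⟨c, hc, k₀, N₀, H⟩ := num_paramsA ((1 + a) / 2) (by linarith) (by linarith)
  obtain ⟨k₁, hk₁⟩ := exists_nat_gt (Real.exp (8 / c))
  obtain ⟨N₁, hN₁⟩ := exists_nat_gt
    (Real.exp (max (max 1 ((2 : ℝ) ^ (2 / (1 - a)))) (Real.exp (8 / c))))
  refine ⟨c / 2, by positivity, max k₀ k₁, max N₀ (max N₁ 2), fun N hN κ hκ d hd => ?_⟩
  have hN0 : N₀ ≤ N := le_trans (le_max_left _ _) hN
  have hN1 : N₁ ≤ N := le_trans (le_trans (le_max_left _ _) (le_max_right _ _)) hN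
  have hN2 : 2 ≤ N := le_trans (le_trans (le_max_right _ _) (le_max_right _ _)) hN
  have hκ0 : k₀ ≤ κ := le_trans (le_max_left _ _) hκ
  have hκ1 : k₁ ≤ κ := le_trans (le_max_right _ _) hκ
  have hNpos : (0 : ℝ) < N := by exact_mod_cast (by omega : 0 < N)
  have hN1' : (N₁ : ℝ) ≤ N := by exact_mod_cast hN1
  have hlog : max (max 1 ((2 : ℝ) ^ (2 / (1 - a)))) (Real.exp (8 / c)) < Real.log N := by
    rw [Real.lt_log_iff_exp_lt hNpos]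
    linarith
  have hl1 : 1 ≤ Real.log N :=
    ((le_max_left _ _).trans (le_max_left _ _)).trans hlog.le
  have hl2 : (2 : ℝ) ^ (2 / (1 - a)) ≤ Real.log N :=
    ((le_max_right _ _).trans (le_max_left _ _)).trans hlog.le
  have hl3 : Real.exp (8 / c) < Real.log N := lt_of_le_of_lt (le_max_right _ _) hlog
  have hx : 8 / c < min (Real.log κ) (Real.log (Real.log N)) := by
    refine lt_min ?_ ?_
    · have h1 : (k₁ : ℝ) ≤ κ := by exact_mod_cast hκ1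
      have h2 : (0 : ℝ) < κ := lt_of_lt_of_le ((Real.exp_pos _).trans hk₁) h1
      rw [Real.lt_log_iff_exp_lt h2]
      linarith
    · rw [Real.lt_log_iff_exp_lt (by linarith)]
      exact hl3
  have hcx : 8 ≤ c * min (Real.log κ) (Real.log (Real.log N)) := by
    rw [div_lt_iff₀ hc] at hx
    linarith
  obtain ⟨K, m, h1, h2, h3, h4, h5, h6, h7, h8⟩ :=
    H N hN0 κ hκ0 (d + 1) (depth_succ ha0 ha hl1 hl2 hd)
  obtain ⟨P, hP⟩ : ∃ P, P = 2 ^ (m * (24 * K)) := ⟨_, rfl⟩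
  rw [← hP] at h4
  have hP1 : 1 ≤ P := by
    rw [hP]
    exact Nat.one_le_two_pow
  have hPN : P ≤ N := by
    have : P ≤ (24 * K + 1) * P := Nat.le_mul_of_pos_left _ (by omega)
    omega
  refine ⟨K, m, h1, by omega, h3, by rw [← hP]; omega, h5, h6, h7, fun S hS => ?_⟩
  rw [← hP]
  obtain ⟨g1, g2⟩ := h8 (2 * P ^ 3 * S) (S_up hN2 hPN hcx hS)
  constructor
  · refine le_trans ?_ g1
    refine Nat.mul_le_mul_right _ (Nat.mul_le_mul_left _ ?_)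
    exact Nat.le_self_pow (by norm_num) P
  · refine lt_of_eq_of_lt ?_ g2
    ring

end P18dd
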