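import Pool.Agent.Lib.P18dd.Rec

/-!
# P18dd.RecX: the end of the recursion with a smaller density at the root
-/

set_option autoImplicit false

namespace P18dd

open Finset R in
theorem recursionX {I : Type} {k n K θ c : ℕ} {T : Tr I} {A : Tr I → Finset ℕ → Pl k n → Prop}
    (h : Sys k n K θ T A) (hn : 0 < n) (hK : K ≤ k)
    (hN : 4 * 4 ^ k * (T.depth + 1) ^ 2 ≤ 8 ^ θ)
    (hroot : n ^ (k + 1) ≤ 2 * c * cnt (A T (range k))) :
    K ^ θ ≤ 2 ^ (θ + k + 1) * c * (T.depth + 1) * T.leaves := by
  classical
  have hlT := leaves_pos T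
  rcases Nat.eq_zero_or_pos K with hK0 | hK0
  · subst hK0
    rcases Nat.eq_zero_or_pos θ with ht | ht
    · subst ht
      simp only [pow_zero]
      have hc : 0 < c := by
        rcases Nat.eq_zero_or_pos c with hc | hc
        · subst hc
          rw [mul_zero, zero_mul] at hroot
          have : 0 < n ^ (k + 1) := by positivity
          omega
        · exact hc
      have : 0 < 2 ^ (0 + k + 1) * c * (T.depth + 1) * T.leaves := by positivity
      omega
    · rw [Nat.zero_pow ht]; exact Nat.zero_le _
  rw [cd_eq] at hroot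
  set N := n ^ (k + 1) with hNdef
  have hNpos : 0 < N := by positivity
  -- bound for one outcome
  have one : ∀ v ∈ T.subs, ∀ G ⊆ range k, K < 2 * G.card → G.card ≤ K →
      cd (A v G) * K ^ θ ≤ (2 ^ θ * v.leaves) * N := by
    intro v hv G hG h1 h2
    have hne : G.Nonempty := card_pos.1 (by omega)
    have hSh : Short K G := by
      intro a hsub
      have := card_le_card hsub
      rw [Nat.card_Icc] at this
      omega
    obtain ⟨R', hR', hbig⟩ := big_comp' hne
    have hcl := claim_all h hN v.leaves v hv le_rfl G hG hSh R' hR'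
    have h3 : K ≤ 2 * (256 ^ (comps G - 1) * R'.card) := by
      have h4 := num_pow (comps G)
      calc K ≤ 2 * G.card := by omega
        _ ≤ 2 * (R'.card * comps G) := Nat.mul_le_mul_left _ hbig
        _ ≤ 2 * (R'.card * 256 ^ (comps G - 1)) :=
            Nat.mul_le_mul_left _ (Nat.mul_le_mul_left _ h4)
        _ = _ := by ring
    calc cd (A v G) * K ^ θ ≤ cd (A v G) * (2 * (256 ^ (comps G - 1) * R'.card)) ^ θ :=
          Nat.mul_le_mul_left _ (Nat.pow_le_pow_left h3 θ)
      _ = 2 ^ θ * (cd (A v G) * (256 ^ (comps G - 1) * R'.card) ^ θ) := by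
          rw [mul_pow 2]; ring
      _ ≤ 2 ^ θ * (v.leaves * N) := Nat.mul_le_mul_left _ hcl
      _ = _ := by ring
  have hcov : ∀ x, A T (range k) x →
      ∃ v ∈ T.subs, ∃ G ∈ (range k).powerset, A v G x ∧ (K < 2 * G.card ∧ G.card ≤ K) := by
    intro x hx
    have hloc : Loc (range k) T (fun u G => A u G x) := by
      refine ⟨?_, ?_⟩
      · intro f hf G hG hAG
        exact h.leaf f hf G hG x hAG
      · intro b l r hb G hG hAG
        exact h.rule b l r hb G hG x hAG
    obtain ⟨v, hv, G, hG, h1, h2, h3⟩ := descend (range k) K hK0 T hloc (range k)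
      (Subset.refl _) hx (by rw [inter_self, card_range]; omega)
    rw [inter_eq_left.2 hG] at h2 h3
    exact ⟨v, hv, G, mem_powerset.2 hG, h1, h2, h3⟩
  have hbound : cd (A T (range k)) * K ^ θ
      ≤ (T.subs.map fun v => 2 ^ k * (2 ^ θ * v.leaves)).sum * N := by
    refine le_trans (Nat.mul_le_mul_right _ (cd_mono hcov)) ?_
    apply cd_list
    intro v hv
    calc _ ≤ (range k).powerset.card * (2 ^ θ * v.leaves) * N := by
          apply cd_fin
          intro G hG
          by_cases hq : K < 2 * G.card ∧ G.card ≤ K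
          · exact (Nat.mul_le_mul_right _ (cd_mono fun x hx => hx.1)).trans
              (one v hv G (mem_powerset.1 hG) hq.1 hq.2)
          · rw [cd_zero fun y hy => hq hy.2]; simp
      _ = _ := by rw [card_powerset, card_range]
  have hs : (T.subs.map fun v => 2 ^ k * (2 ^ θ * v.leaves)).sum
      = 2 ^ k * (2 ^ θ * (T.subs.map Tr.leaves).sum) := by
    rw [List.sum_map_mul_left, List.sum_map_mul_left]
  rw [hs] at hbound
  have hss := sum_subs T
  have hfin : K ^ θ * N ≤ 2 ^ (θ + k + 1) * c * (T.depth + 1) * T.leaves * N := by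
    calc K ^ θ * N ≤ K ^ θ * (2 * c * cd (A T (range k))) := Nat.mul_le_mul_left _ hroot
      _ = 2 * c * (cd (A T (range k)) * K ^ θ) := by ring
      _ ≤ 2 * c * (2 ^ k * (2 ^ θ * (T.subs.map Tr.leaves).sum) * N) :=
          Nat.mul_le_mul_left _ hbound
      _ ≤ 2 * c * (2 ^ k * (2 ^ θ * ((T.depth + 1) * T.leaves)) * N) := by
          apply Nat.mul_le_mul_left
          apply Nat.mul_le_mul_right
          apply Nat.mul_le_mul_left
          exact Nat.mul_le_mul_left _ hss
      _ = _ := by rw [pow_add, pow_add]; ring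
  exact Nat.le_of_mul_le_mul_right hfin hNpos

end P18dd
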