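import Pool.Agent.Lib.P18dd.TypX
import Pool.Agent.Lib.P18dd.RecX
import Pool.Agent.Lib.P18dd.FmC
import Pool.Agent.Lib.P18dd.NumX
import Pool.Agent.Lib.P28cd.Up

/-!
# P18dd.FinX: the lower bounds for disjoint unions of paths
-/

set_option autoImplicit false

namespace P18dd

open Finset TypAux

theorem layer_boundX {k n K m θ d w t : ℕ} (h : Par k n K m θ d w t)
    (hD : 4 * 4 ^ k * (d * (m * k ^ 2 + 1) + 1) ^ 2 ≤ 8 ^ θ)
    (P : Set ((Arc k n → Bool) → Bool)) (hP : ∀ g ∈ P, Dep1 g) {S : ℕ}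
    {f : (Arc k n → Bool) → Bool} (hf : Fm P d S f) (a b : Fin n) (hsep : SepX a b f)
    (hS : S ≤ 2 ^ (m * k ^ 2)) :
    K ^ θ ≤ 2 ^ (θ + k + 1) * n ^ 2 * (d * (m * k ^ 2 + 1) + 1) * S := by
  obtain ⟨T, hTf, hLit, hleaves, halt, hdepth⟩ := tree_of_fm P hP hf
  obtain ⟨Γ, hsys, hroot⟩ := typicalX h T hLit halt a b (by rw [hTf]; exact hsep)
    (by rw [hleaves]; exact hS)
  have hlog : Nat.log 2 S ≤ m * k ^ 2 := by
    have := Nat.log_mono_right (b := 2) hS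
    rwa [Nat.log_pow (by norm_num)] at this
  have hdep : T.depth ≤ d * (m * k ^ 2 + 1) :=
    hdepth.trans (Nat.mul_le_mul_left _ (by omega))
  have hKk : K ≤ k := by have := h.hk; omega
  have h1 := recursionX hsys h.n1 hKk (le_trans (Nat.mul_le_mul_left _
    (Nat.pow_le_pow_left (by omega) 2)) hD) hroot
  rw [hleaves] at h1
  refine h1.trans (Nat.mul_le_mul_right _ (Nat.mul_le_mul_left _ (by omega)))

/-- substitution of formulas of depth one for the leaves -/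
theorem fm_subst {X Y : Type} {P : Set (X → Bool)} {Q : Set (Y → Bool)} (φ : Y → X) (M : ℕ)
    (hPQ : ∀ h ∈ P, ∃ L ≤ M, Fm Q 1 L fun y => h (φ y)) {d S : ℕ} {f : X → Bool}
    (h : Fm P d S f) : ∃ L ≤ M * S, Fm Q (d + 1) L fun y => f (φ y) := by
  induction h with
  | lit d f hf =>
    obtain ⟨L, hL, hfm⟩ := hPQ f hf
    exact ⟨L, by omega, FmCAux.fm_le (by omega) hfm⟩
  | gate d m S g f hm _ hf ih =>
    choose L hL hfm using ih
    refine ⟨∑ i, L i, ?_, ?_⟩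
    · rw [mul_sum]
      exact sum_le_sum fun i _ => hL i
    · refine Fm.gate (d + 1) m L (fun i y => g i (φ y)) _ hm hfm ?_
      rcases hf with hf | hf
      · exact Or.inl fun y => hf _
      · exact Or.inr fun y => hf _

/-- the base functions of formulas: literals and constants -/
def LitC (n : ℕ) : Set ((Fin n → Fin n → Bool) → Bool) :=
  P28cd.Lits n ∪ {f | ∃ b : Bool, f = fun _ => b}

theorem litC_not {n : ℕ} : ∀ h ∈ LitC n, (fun x => !h x) ∈ LitC n := by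
  rintro h (⟨u, v, rfl | rfl⟩ | ⟨b, rfl⟩)
  · exact Or.inl ⟨u, v, Or.inr rfl⟩
  · exact Or.inl ⟨u, v, Or.inl (by funext E; simp)⟩
  · exact Or.inr ⟨!b, rfl⟩

theorem graph_boundX {k n K m θ d w t : ℕ} (h : Par k n K m θ (d + 1) w t)
    (hD : 4 * 4 ^ k * ((d + 1) * (m * k ^ 2 + 1) + 1) ^ 2 ≤ 8 ^ θ) {N : ℕ}
    (hN : (k + 1) * n ≤ N) {κ : ℕ} (hκ : k ≤ κ) (s t' : Fin N) (hst : s ≠ t')
    {f : (Fin N → Fin N → Bool) → Bool} (hsep : SepD κ s t' f ∨ SepUD κ s t' f) {S : ℕ}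
    (hf : Fm (LitC N) d S f) (hS : 2 * n * S ≤ 2 ^ (m * k ^ 2)) :
    K ^ θ ≤ 2 ^ (θ + k + 1) * n ^ 2 * ((d + 1) * (m * k ^ 2 + 1) + 1) * (2 * n * S) := by
  have hk1 : 1 ≤ k := by have := h.k24; omega
  obtain ⟨a, b, emb, hemb, hs1, hs2⟩ := embX (k := k) (n := n) hk1 h.n1 hN s t' hst
  have hn2 : 1 ≤ 2 * n := by have := h.n1; omega
  have key : ∃ g : (Arc k n → Bool) → Fin N → Fin N → Bool,
      (∀ v w, (∃ L ≤ 2 * n, Fm {g : (Arc k n → Bool) → Bool | Dep1 g} 1 L fun G => g G v w) ∧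
        (∃ L ≤ 2 * n, Fm {g : (Arc k n → Bool) → Bool | Dep1 g} 1 L fun G => !g G v w)) ∧
      SepX a b fun G => f (g G) := by
    rcases hsep with hsep | hsep
    · exact ⟨emb, fun v w => ⟨(hemb v w).1, (hemb v w).2.1⟩,
        hs1 f fun E hE => ⟨fun ⟨j, hj, hp⟩ => (hsep E hE).1 ⟨j, hj.trans hκ, hp⟩, (hsep E hE).2⟩⟩
    · exact ⟨fun G => und (emb G), fun v w => ⟨(hemb v w).2.2.1, (hemb v w).2.2.2⟩,
        hs2 f fun E hE => ⟨fun ⟨j, hj, hp⟩ => (hsep E hE).1 ⟨j, hj.trans hκ, hp⟩, (hsep E hE).2⟩⟩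
  obtain ⟨g, hg, hX⟩ := key
  obtain ⟨L, hL, hfm⟩ := fm_subst (Q := {g : (Arc k n → Bool) → Bool | Dep1 g}) g (2 * n) (by
    rintro q (⟨u, v, rfl | rfl⟩ | ⟨b, rfl⟩)
    · exact (hg u v).1
    · exact (hg u v).2
    · exact ⟨1, hn2, Fm.lit 1 _ (Or.inl ⟨b, fun z => rfl⟩)⟩) hf
  have h1 := layer_boundX h hD _ (fun g hg => hg) hfm a b hX (hL.trans hS)
  exact h1.trans (Nat.mul_le_mul_left _ hL)

theorem lower_formula (a : ℝ) (ha0 : 0 < a) (ha : a < 1) : ∃ c : ℝ, 0 < c ∧ ∃ k₀ n₀ : ℕ,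
    ∀ n ≥ n₀, ∀ k ≥ k₀, ∀ s t : Fin n, s ≠ t → ∀ d : ℕ, (d : ℝ) ≤ Real.log n ^ a →
    ∀ (S : ℕ) (f : (Fin n → Fin n → Bool) → Bool), Fm (LitC n) d S f →
      (SepD k s t f ∨ SepUD k s t f) →
      (n : ℝ) ^ (c * min (Real.log k) (Real.log (Real.log n))) ≤ S := by
  obtain ⟨c, hc, k₀, n₀, hnum⟩ := num_paramsX a ha0 ha
  refine ⟨c, hc, k₀, n₀, ?_⟩
  intro n hn k hk s t hst d hd S f hf hsep
  by_contra hlt
  push Not at hlt
  obtain ⟨K, m, hK, hk2, hm, hN, hd1, hw10, hD, hfin⟩ := hnum n hn k hk d hd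
  obtain ⟨hS1, hS2⟩ := hfin S hlt
  have hpar : Par (24 * K) (2 ^ (m * (24 * K))) K m (m * K) (d + 1) (10 * m * (24 * K) ^ 2)
      (10 * (24 * K) ^ 2) := ⟨hK, rfl, rfl, rfl, hm, rfl, rfl, hd1, hw10⟩
  have h1 := graph_boundX hpar hD hN hk2 s t hst hsep hf hS1
  omega

theorem lower_circuit (a : ℝ) (ha0 : 0 < a) (ha : a < 1) : ∃ c : ℝ, 0 < c ∧ ∃ k₀ n₀ : ℕ,
    ∀ n ≥ n₀, ∀ k ≥ k₀, ∀ s t : Fin n, s ≠ t → ∀ d : ℕ, (d : ℝ) ≤ Real.log n ^ a →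
    ∀ (S : ℕ) (f : (Fin n → Fin n → Bool) → Bool), P28cd.Circ (P28cd.Lits n) d S f →
      (SepD k s t f ∨ SepUD k s t f) →
      (n : ℝ) ^ (c * min (Real.log k) (Real.log (Real.log n)) / d) ≤ S := by
  obtain ⟨c, hc, k₀, n₀, h⟩ := lower_formula a ha0 ha
  obtain ⟨c', hc', k₁, n₁, h'⟩ := num_circA a ha0 ha c hc
  refine ⟨c', hc', max k₀ k₁, max n₀ n₁, ?_⟩
  intro n hn k hk s t hst d hd S f hf hsep
  by_contra hlt
  push Not at hlt
  have hf' : P28cd.Circ (LitC n) d S f := by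
    obtain ⟨level, val, out, h1, h2, h3⟩ := hf
    refine ⟨level, val, out, h1, fun g => ?_, h3⟩
    obtain ⟨T, hT, hg⟩ := h2 g
    refine ⟨T, fun x hx => ?_, hg⟩
    rcases hT hx with hx' | hx'
    · exact Or.inl (Or.inl hx')
    · exact Or.inr hx'
  have hd1 : 1 ≤ d := by
    obtain ⟨level, val, out, h1, h2, h3⟩ := hf
    have := h1 out
    omega
  obtain ⟨hfin, hcard⟩ := lits_card n
  obtain ⟨L, hL1, hL2⟩ := fm_of_circ (LitC n) (2 * n ^ 2 + 2) hfin hcard (by omega) litC_not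
    (fun b => Or.inr ⟨b, rfl⟩) hf'
  have h1 := h' n (le_of_max_le_right hn) k (le_of_max_le_right hk) d hd1 hd S L hlt hL2
  have h2 := h n (le_of_max_le_left hn) k (le_of_max_le_left hk) s t hst d hd L f hL1 hsep
  linarith

end P18dd
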