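import Pool.Agent.Lib.P18dd.Pw

/-!
# P18dd.Kern: the kernel lemma

`M` = a set of placements `y`, `e i y` = the arc of `y` in layer `i ∈ J`. Random set `R` of arcs, density `q`.
For `K ⊆ J` and `z` with `M z` let `N(K, z) := #{y | M y ∧ ∀ i ∈ K, e i y = e i z}`. Choose `(K*, z*)` maximising `N(K, z) / q^|K|`, value `m* ≥ cnt M` (`K = ∅`);
`M* := {y | M y ∧ ∀ i ∈ K*, e i y = e i z*}`. `Y R := #{y ∈ M* | ∀ i ∈ J, R (e i y)}`. `EY = |M*| q^|J|` (`pr_cyl`, the arcs of different layers are different).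
`E Y² = ∑_{y, y' ∈ M*} q^(2|J| - |K'|)`, `K' := {i ∈ J | e i y = e i y'}` contains `K*`; for fixed `y` and `K'` there are at most `N(K', y) ≤ m* q^|K'|` such `y'`:
`E Y² ≤ |M*| 2^|J| m* q^(2|J|) = 2^|J| (EY)² / q^|K*|`. `E[Y; Y ≤ M0] ≤ M0 Pr(∀ i ∈ K*, R (e i z*)) = M0 q^|K*| ≤ EY / 2` because `EY = m* q^|K*| q^|J| ≥ q^|K*| cnt M q^|J| ≥ 2 M0 q^|K*|`.
Cauchy-Schwarz (`ex_cs` with `ind (M0 < Y)`): `(EY/2)² ≤ E Y² Pr(Y > M0)`.
-/

set_option autoImplicit false

namespace P18dd

open Finset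

section aux

variable {I Y : Type} [Fintype I] [DecidableEq I] [Fintype Y] (J : Finset ℕ)
    (e : ℕ → Y → I) (hlay : ∀ i ∈ J, ∀ i' ∈ J, ∀ y y', e i y = e i' y' → i = i')

include hlay

omit [Fintype I] [Fintype Y] in
theorem kern_card (y : Y) {K : Finset ℕ} (hK : K ⊆ J) : (K.image fun i => e i y).card = K.card := by
  refine card_image_of_injOn ?_
  intro i hi i' hi' h
  exact hlay i (hK hi) i' (hK hi') y y h

theorem kern_pr (q : ℝ) (y : Y) {K : Finset ℕ} (hK : K ⊆ J) :
    pr (w2 q) (fun R : I → Bool => ∀ i ∈ K, R (e i y) = true) = q ^ K.card := by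
  rw [← kern_card J e hlay y hK, ← pr_cyl]
  congr 1
  funext R
  simp

theorem kern_pr2 (q : ℝ) (y y' : Y) :
    pr (w2 q) (fun R : I → Bool => (∀ i ∈ J, R (e i y) = true) ∧ ∀ i ∈ J, R (e i y') = true) *
      q ^ (J.filter fun i => e i y' = e i y).card = q ^ (2 * J.card) := by
  have h1 : pr (w2 q) (fun R : I → Bool => (∀ i ∈ J, R (e i y) = true) ∧
      ∀ i ∈ J, R (e i y') = true) =
      q ^ ((J.image fun i => e i y) ∪ (J.image fun i => e i y')).card := by
    rw [← pr_cyl]
    congr 1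
    funext R
    simp only [mem_union, mem_image, eq_iff_iff]
    constructor
    · rintro ⟨h, h'⟩ i (⟨j, hj, rfl⟩ | ⟨j, hj, rfl⟩)
      · exact h j hj
      · exact h' j hj
    · intro h
      exact ⟨fun i hi => h _ (Or.inl ⟨i, hi, rfl⟩), fun i hi => h _ (Or.inr ⟨i, hi, rfl⟩)⟩
  have h2 : (J.image fun i => e i y) ∩ (J.image fun i => e i y') =
      (J.filter fun i => e i y' = e i y).image fun i => e i y := by
    ext x
    simp only [mem_inter, mem_image, mem_filter]
    constructor
    · rintro ⟨⟨i, hi, rfl⟩, ⟨i', hi', h⟩⟩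
      obtain rfl := hlay i' hi' i hi y' y h
      exact ⟨i', ⟨hi, h⟩, rfl⟩
    · rintro ⟨i, ⟨hi, h⟩, rfl⟩
      exact ⟨⟨i, hi, rfl⟩, ⟨i, hi, h⟩⟩
  have h3 := card_union_add_card_inter (J.image fun i => e i y) (J.image fun i => e i y')
  rw [h2, kern_card J e hlay y (Subset.refl J), kern_card J e hlay y' (Subset.refl J),
    kern_card J e hlay y (filter_subset _ _)] at h3
  rw [h1, ← pow_add, h3, two_mul]

end aux

theorem kernel {I Y : Type} [Fintype I] [DecidableEq I] [Fintype Y] (J : Finset ℕ)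
    (e : ℕ → Y → I) (hlay : ∀ i ∈ J, ∀ i' ∈ J, ∀ y y', e i y = e i' y' → i = i')
    (M : Y → Prop) (hne : ∃ y, M y) (q : ℝ) (hq : 0 < q) (hq1 : q ≤ 1) (M0 : ℕ)
    (hM : 2 * (M0 : ℝ) ≤ cnt M * q ^ J.card) :
    q ^ J.card / 2 ^ (J.card + 2) ≤
      pr (w2 q) (fun R : I → Bool => M0 < cnt fun y => M y ∧ ∀ i ∈ J, R (e i y) = true) := by
  classical
  have hw : ∀ b, 0 ≤ w2 q b := w2_nonneg hq.le hq1
  set Ms : Finset Y := univ.filter M with hMs
  have hMsc : Ms.card = cnt M := (cnt_eq M).symm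
  set N : Finset ℕ → Y → ℕ := fun K z => (Ms.filter fun y => ∀ i ∈ K, e i y = e i z).card with hN
  obtain ⟨y0, hy0⟩ := hne
  have hnep : (J.powerset ×ˢ Ms).Nonempty :=
    ⟨(∅, y0), by simp [hMs, hy0]⟩
  obtain ⟨⟨K, z⟩, hKz, hmax⟩ := exists_max_image (J.powerset ×ˢ Ms)
    (fun p => (N p.1 p.2 : ℝ) / q ^ p.1.card) hnep
  rw [mem_product, mem_powerset] at hKz
  obtain ⟨hKJ, hz⟩ := hKz
  have hzM : M z := by simpa [hMs] using hz
  set m : ℝ := (N K z : ℝ) / q ^ K.card with hm
  have hqK : 0 < q ^ K.card := pow_pos hq _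
  have hqJ : 0 < q ^ J.card := pow_pos hq _
  have hmM : (cnt M : ℝ) ≤ m := by
    have h := hmax (∅, y0) (by simp [hMs, hy0])
    have h2 : N ∅ y0 = cnt M := by simp [hN, hMsc]
    simpa [h2] using h
  set S : Finset Y := Ms.filter fun y => ∀ i ∈ K, e i y = e i z with hS
  have hScard : (S.card : ℝ) = m * q ^ K.card := by
    rw [hm, div_mul_cancel₀ _ hqK.ne']
  have hM1 : (1 : ℝ) ≤ cnt M := by
    have : 0 < Ms.card := card_pos.2 ⟨z, hz⟩
    rw [hMsc] at this
    exact_mod_cast this
  have hmpos : 0 < m := by linarith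
  set F : (I → Bool) → ℝ := fun R => ∑ y ∈ S, ind (∀ i ∈ J, R (e i y) = true) with hF
  have hFcard : ∀ R, F R = ((S.filter fun y => ∀ i ∈ J, R (e i y) = true).card : ℝ) := by
    intro R
    rw [hF, card_filter]
    push_cast
    refine sum_congr rfl fun y _ => ?_
    by_cases h : ∀ i ∈ J, R (e i y) = true
    · rw [ind_of h, if_pos h]
    · rw [ind_of_not h, if_neg h]
  have hF0 : ∀ R, 0 ≤ F R := fun R => sum_nonneg fun y _ => ind_nonneg _
  -- first moment
  have hEF : ex (w2 q) F = S.card * q ^ J.card := by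
    rw [hF, ex_sum]
    have : ∀ y ∈ S, ex (w2 q) (fun R : I → Bool => ind (∀ i ∈ J, R (e i y) = true)) = q ^ J.card :=
      fun y _ => kern_pr J e hlay q y (Subset.refl J)
    rw [sum_congr rfl this, sum_const, nsmul_eq_mul]
  -- second moment
  have hEF2 : ex (w2 q) (fun R => F R ^ 2) ≤ S.card * (2 ^ J.card * m * q ^ (2 * J.card)) := by
    have h1 : (fun R : I → Bool => F R ^ 2) = fun R => ∑ y ∈ S, ∑ y' ∈ S,
        ind ((∀ i ∈ J, R (e i y) = true) ∧ ∀ i ∈ J, R (e i y') = true) := by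
      funext R
      rw [hF, pow_two, sum_mul_sum]
      refine sum_congr rfl fun y _ => sum_congr rfl fun y' _ => ?_
      by_cases h : ∀ i ∈ J, R (e i y) = true
      · by_cases h' : ∀ i ∈ J, R (e i y') = true
        · rw [ind_of h, ind_of h', ind_of ⟨h, h'⟩, one_mul]
        · rw [ind_of_not h', mul_zero]
          exact (ind_of_not (fun hh => h' hh.2)).symm
      · rw [ind_of_not h, zero_mul]
        exact (ind_of_not (fun hh => h hh.1)).symm
    rw [h1, ex_sum]
    have h2 : ∀ y ∈ S, ex (w2 q) (fun R : I → Bool => ∑ y' ∈ S,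
        ind ((∀ i ∈ J, R (e i y) = true) ∧ ∀ i ∈ J, R (e i y') = true)) ≤
        2 ^ J.card * m * q ^ (2 * J.card) := by
      intro y hy
      have hyM : y ∈ Ms := (mem_filter.1 hy).1
      rw [ex_sum]
      have h3 : ∀ y' ∈ S, ex (w2 q) (fun R : I → Bool =>
          ind ((∀ i ∈ J, R (e i y) = true) ∧ ∀ i ∈ J, R (e i y') = true)) =
          q ^ (2 * J.card) / q ^ (J.filter fun i => e i y' = e i y).card := by
        intro y' _
        rw [eq_div_iff (pow_pos hq _).ne']
        exact kern_pr2 J e hlay q y y'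
      rw [sum_congr rfl h3]
      have h4 : ∑ y' ∈ S, q ^ (2 * J.card) / q ^ (J.filter fun i => e i y' = e i y).card =
          ∑ K' ∈ J.powerset, ∑ y' ∈ S.filter (fun y' => (J.filter fun i => e i y' = e i y) = K'),
            q ^ (2 * J.card) / q ^ (J.filter fun i => e i y' = e i y).card := by
        rw [sum_fiberwise_of_maps_to]
        intro y' _
        exact mem_powerset.2 (filter_subset _ _)
      rw [h4]
      have h5 : ∀ K' ∈ J.powerset, ∑ y' ∈ S.filter (fun y' => (J.filter fun i => e i y' = e i y) = K'),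
            q ^ (2 * J.card) / q ^ (J.filter fun i => e i y' = e i y).card ≤
            m * q ^ (2 * J.card) := by
        intro K' hK'
        have h6 : ∀ y' ∈ S.filter (fun y' => (J.filter fun i => e i y' = e i y) = K'),
            q ^ (2 * J.card) / q ^ (J.filter fun i => e i y' = e i y).card =
            q ^ (2 * J.card) / q ^ K'.card := by
          intro y' hy'
          rw [(mem_filter.1 hy').2]
        rw [sum_congr rfl h6, sum_const, nsmul_eq_mul]
        have h7 : ((S.filter (fun y' => (J.filter fun i => e i y' = e i y) = K')).card : ℝ) ≤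
            N K' y := by
          have : (S.filter (fun y' => (J.filter fun i => e i y' = e i y) = K')).card ≤ N K' y := by
            refine card_le_card fun y' hy' => ?_
            rw [mem_filter] at hy' ⊢
            refine ⟨(mem_filter.1 hy'.1).1, fun i hi => ?_⟩
            rw [← hy'.2] at hi
            exact (mem_filter.1 hi).2
          exact_mod_cast this
        have h8 := hmax (K', y) (by rw [mem_product]; exact ⟨hK', hyM⟩)
        have hqK' : 0 < q ^ K'.card := pow_pos hq _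
        calc ((S.filter (fun y' => (J.filter fun i => e i y' = e i y) = K')).card : ℝ) *
              (q ^ (2 * J.card) / q ^ K'.card) ≤ N K' y * (q ^ (2 * J.card) / q ^ K'.card) :=
              mul_le_mul_of_nonneg_right h7 (by positivity)
          _ = (N K' y / q ^ K'.card) * q ^ (2 * J.card) := by ring
          _ ≤ m * q ^ (2 * J.card) := mul_le_mul_of_nonneg_right h8 (by positivity)
      refine (sum_le_sum h5).trans ?_
      rw [sum_const, card_powerset, nsmul_eq_mul]
      push_cast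
      rw [mul_assoc]
    refine (sum_le_sum h2).trans ?_
    rw [sum_const, nsmul_eq_mul]
  -- small values
  have hsmall : ex (w2 q) (fun R => F R * ind (¬ (M0 : ℝ) < F R)) ≤ M0 * q ^ K.card := by
    rw [← kern_pr J e hlay q z hKJ]
    unfold pr
    rw [← ex_mul]
    refine ex_mono hw fun R => ?_
    by_cases h : (M0 : ℝ) < F R
    · rw [ind_of_not (not_not.2 h), mul_zero]
      exact mul_nonneg (Nat.cast_nonneg _) (ind_nonneg _)
    · rw [ind_of h, mul_one]
      push Not at h
      by_cases h0 : F R = 0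
      · rw [h0]
        exact mul_nonneg (Nat.cast_nonneg _) (ind_nonneg _)
      · have h1 : (S.filter fun y => ∀ i ∈ J, R (e i y) = true).Nonempty := by
          rw [nonempty_iff_ne_empty]
          intro h2
          apply h0
          rw [hFcard, h2, card_empty, Nat.cast_zero]
        obtain ⟨y, hy⟩ := h1
        rw [mem_filter, hS, mem_filter] at hy
        have h3 : ∀ i ∈ K, R (e i z) = true := by
          intro i hi
          rw [← hy.1.2 i hi]
          exact hy.2 i (hKJ hi)
        rw [ind_of h3, mul_one]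
        exact h
  -- large values
  have hlarge : ex (w2 q) F / 2 ≤ ex (w2 q) (fun R => F R * ind ((M0 : ℝ) < F R)) := by
    have h1 : ex (w2 q) F = ex (w2 q) (fun R => F R * ind ((M0 : ℝ) < F R)) +
        ex (w2 q) (fun R => F R * ind (¬ (M0 : ℝ) < F R)) := by
      rw [← ex_add]
      congr 1
      funext R
      by_cases h : (M0 : ℝ) < F R
      · rw [ind_of h, ind_of_not (not_not.2 h)]; ring
      · rw [ind_of_not h, ind_of h]; ring
    have h2 : (M0 : ℝ) * q ^ K.card ≤ ex (w2 q) F / 2 := by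
      rw [hEF, hScard]
      have h3 : 2 * (M0 : ℝ) ≤ m * q ^ J.card :=
        hM.trans (mul_le_mul_of_nonneg_right hmM hqJ.le)
      have h4 := mul_le_mul_of_nonneg_right h3 hqK.le
      nlinarith
    linarith
  have hcs := ex_cs hw F (fun R => ind ((M0 : ℝ) < F R))
  have hind2 : (fun R : I → Bool => ind ((M0 : ℝ) < F R) ^ 2) = fun R => ind ((M0 : ℝ) < F R) := by
    funext R
    by_cases h : (M0 : ℝ) < F R
    · rw [ind_of h]; norm_num
    · rw [ind_of_not h]; norm_num
  rw [hind2] at hcs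
  set P : ℝ := ex (w2 q) (fun R : I → Bool => ind ((M0 : ℝ) < F R)) with hP
  have hP0 : 0 ≤ P := ex_nonneg hw fun R => ind_nonneg _
  have hEFpos : 0 < ex (w2 q) F := by
    rw [hEF, hScard]
    exact mul_pos (mul_pos hmpos hqK) hqJ
  have h1 : (ex (w2 q) F / 2) ^ 2 ≤ S.card * (2 ^ J.card * m * q ^ (2 * J.card)) * P := by
    refine (pow_le_pow_left₀ (by linarith) hlarge 2).trans (hcs.trans ?_)
    exact mul_le_mul_of_nonneg_right hEF2 hP0
  have hP1 : q ^ K.card / 2 ^ (J.card + 2) ≤ P := by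
    rw [hEF, hScard] at h1
    have hc0 : (0 : ℝ) < 2 ^ (J.card + 2) := pow_pos (by norm_num) _
    rw [div_le_iff₀ hc0]
    have h2 : (m ^ 2 * q ^ K.card * q ^ (2 * J.card)) * q ^ K.card ≤
        (m ^ 2 * q ^ K.card * q ^ (2 * J.card)) * (P * 2 ^ (J.card + 2)) := by
      have e1 : q ^ (2 * J.card) = q ^ J.card * q ^ J.card := by rw [two_mul, pow_add]
      have e2 : (2 : ℝ) ^ (J.card + 2) = 2 ^ J.card * 4 := by rw [pow_add]; norm_num
      rw [e1] at h1 ⊢
      rw [e2]
      nlinarith [h1]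
    exact le_of_mul_le_mul_left h2 (mul_pos (mul_pos (pow_pos hmpos 2) hqK) (pow_pos hq _))
  have hKJc : K.card ≤ J.card := card_le_card hKJ
  have h2 : q ^ J.card / 2 ^ (J.card + 2) ≤ q ^ K.card / 2 ^ (J.card + 2) :=
    div_le_div_of_nonneg_right (pow_le_pow_of_le_one hq.le hq1 hKJc) (pow_pos (by norm_num) _).le
  refine h2.trans (hP1.trans ?_)
  refine pr_mono hw fun R h => ?_
  rw [hFcard] at h
  have h3 : M0 < (S.filter fun y => ∀ i ∈ J, R (e i y) = true).card := by exact_mod_cast h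
  refine h3.trans_le ?_
  rw [cnt_eq]
  refine card_le_card fun y hy => ?_
  rw [mem_filter, hS, mem_filter, hMs, mem_filter] at hy
  rw [mem_filter]
  exact ⟨mem_univ _, hy.1.1.2, hy.2⟩

end P18dd
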