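import Pool.Agent.Lib.P18dd.Defs

/-!
# P18dd.Mono: few monomials

`mono`: by induction on `u`: if all points with value `true` have certificates of size `≤ t` and all points with value `false` certificates of size `≤ u`, then at most
`4 ^ (t * u)` sets `E` have `dv g 0 E ≠ 0` (`0 := fun _ => false`). `u = 0`: `g` is constant (a certificate of size `0` at a point with value `false` makes `g` constant false;
otherwise `g` is constant true), `dv` of a constant is `0` unless `E = ∅` (alternating sum owr the powerset, `Finset.sum_powerset_neg_one_pow_card`).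
Step: `g = false` everywhere: nothing to do (`dv = 0`). Otherwise take a certificate `D` (size `≤ t`) of a point `z₁` with `g z₁ = true`. For `S₀ ⊆ D` let `g_{S₀} z := g (z overwritten on D by S₀)`.
Every certificate `C` (size `≤ u + 1`) of a value `false` of `g_{S₀}`, minimal form: take a certificate of `g` at the overwritten point; it meets `D` (else change the point on `D` to `z₁`: value
`true`, contradiction), so `C \ D` is a certificate of `g_{S₀}` of size `≤ u`; `true` certificates stay `≤ t`. For `E = E_D ∪ E'` (`E_D := E ∩ D`): `dv g 0 E = ∑_{S₀ ⊆ E_D} (-1)^|S₀| dv g_{S₀} 0 E'`,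
so `dv g 0 E ≠ 0` gives `S₀ ⊆ D` with `dv g_{S₀} 0 (E \ D) ≠ 0`; the number of `E` is at most `∑_{S₀ ⊆ D} ∑_{E_D ⊆ D} 4^(t u) ≤ 4^t 4^(tu)`.
`dv_res`: for sets `E` of stars `ov ρ (on 0 S) = on (ones ρ) S` for `S ⊆ E`.
-/

set_option autoImplicit false

namespace P18dd

open Finset

variable {I : Type}

/-- the ones of a restriction -/
def ones (ρ : Res I) : I → Bool := fun i => (ρ i).getD false

theorem dv_res [DecidableEq I] (ρ : Res I) (h : (I → Bool) → Bool) (E : Finset I)
    (hE : ∀ i ∈ E, ρ i = none) : dv (res ρ h) (fun _ => false) E = dv h (ones ρ) E := by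
  unfold dv
  refine sum_congr rfl fun S hS => ?_
  have h1 : ov ρ (on (fun _ => false) S) = on (ones ρ) S := by
    funext i
    by_cases hi : i ∈ S
    · have := hE i (mem_powerset.1 hS hi)
      simp [ov, on, ones, hi, this]
    · simp [ov, on, ones, hi]
  unfold res
  rw [h1]

namespace MonoAux

variable [DecidableEq I]

/-- derivative of a function of sets -/
def D (φ : Finset I → ℤ) (E : Finset I) : ℤ := ∑ S ∈ E.powerset, (-1) ^ S.card * φ S

theorem D_insert (φ : Finset I → ℤ) {a : I} {E : Finset I} (ha : a ∉ E) :
    D φ (insert a E) = D (fun S => φ S - φ (insert a S)) E := by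
  unfold D
  rw [sum_powerset_insert ha, ← sum_add_distrib]
  refine sum_congr rfl fun S hS => ?_
  have haS : a ∉ S := fun h => ha (mem_powerset.1 hS h)
  rw [card_insert_of_notMem haS, pow_succ]
  ring

theorem D_union (A : Finset I) (B : Finset I) : ∀ φ : Finset I → ℤ, Disjoint A B →
    D φ (A ∪ B) ≠ 0 → ∃ S' ⊆ B, D (fun S => φ (S ∪ S')) A ≠ 0 := by
  induction B using Finset.induction_on with
  | empty =>
    intro φ _ h
    refine ⟨∅, Subset.refl _, ?_⟩
    simpa using h
  | insert b B hb ih =>
    intro φ hd h
    rw [disjoint_insert_right] at hd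
    have hbn : b ∉ A ∪ B := by
      rw [mem_union]; push Not; exact ⟨hd.1, hb⟩
    rw [union_insert, D_insert _ hbn] at h
    have hsplit : D (fun S => φ S - φ (insert b S)) (A ∪ B)
        = D φ (A ∪ B) - D (fun S => φ (insert b S)) (A ∪ B) := by
      unfold D
      rw [← sum_sub_distrib]
      refine sum_congr rfl fun S _ => ?_
      ring
    rw [hsplit] at h
    by_cases h1 : D φ (A ∪ B) = 0
    · have h2 : D (fun S => φ (insert b S)) (A ∪ B) ≠ 0 := by
        intro h2
        rw [h1, h2] at h
        simp at h
      obtain ⟨S', hS', h3⟩ := ih _ hd.2 h2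
      refine ⟨insert b S', insert_subset_insert _ hS', ?_⟩
      simpa [union_insert] using h3
    · obtain ⟨S', hS', h3⟩ := ih _ hd.2 h1
      exact ⟨S', hS'.trans (subset_insert _ _), h3⟩

theorem dv_const (g : (I → Bool) → Bool) (c : Bool) (hg : ∀ z, g z = c) (z : I → Bool)
    {E : Finset I} (hE : E.Nonempty) : dv g z E = 0 := by
  unfold dv
  simp only [hg]
  rw [← sum_mul, sum_powerset_neg_one_pow_card_of_nonempty hE, zero_mul]

theorem dv_false (g : (I → Bool) → Bool) (hg : ∀ z, g z = false) (z : I → Bool)
    (E : Finset I) : dv g z E = 0 := by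
  unfold dv
  simp [hg]

/-- overwrite on `D` by `S₀` -/
def owr (D S0 : Finset I) (z : I → Bool) : I → Bool :=
  fun i => if i ∈ D then decide (i ∈ S0) else z i

theorem main [Fintype I] (t : ℕ) : ∀ (u : ℕ) (g : (I → Bool) → Bool), Cert t true g → Cert u false g →
    cnt (fun E : Finset I => dv g (fun _ => false) E ≠ 0) ≤ 4 ^ (t * u) := by
  intro u
  induction u with
  | zero =>
    intro g _ hf
    have hconst : ∃ c, ∀ z, g z = c := by
      by_cases hex : ∃ z, g z = false
      · obtain ⟨z, hz⟩ := hex
        obtain ⟨C, hC, hC2⟩ := hf z hz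
        have hC0 : C = ∅ := card_eq_zero.1 (Nat.le_zero.1 hC)
        subst hC0
        exact ⟨false, fun z' => hC2 z' (by simp)⟩
      · push Not at hex
        exact ⟨true, fun z => by simpa using hex z⟩
    obtain ⟨c, hc⟩ := hconst
    rw [mul_zero, pow_zero, cnt_eq, card_le_one]
    intro a ha b hb
    rw [mem_filter] at ha hb
    have h1 : ∀ E : Finset I, dv g (fun _ => false) E ≠ 0 → E = ∅ := by
      intro E hE
      by_contra hne
      exact hE (dv_const g c hc _ (nonempty_iff_ne_empty.2 hne))
    rw [h1 a ha.2, h1 b hb.2]
  | succ u ih =>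
    intro g ht hf
    by_cases hex : ∃ z, g z = true
    swap
    · have hz : ∀ z, g z = false := fun z => by
        by_contra h
        exact hex ⟨z, by simpa using h⟩
      have : cnt (fun E : Finset I => dv g (fun _ => false) E ≠ 0) = 0 := by
        rw [cnt_eq, card_eq_zero, filter_eq_empty_iff]
        intro E _ h
        exact h (dv_false g hz _ E)
      rw [this]; exact Nat.zero_le _
    obtain ⟨z1, hz1⟩ := hex
    obtain ⟨Dd, hDc, hD⟩ := ht z1 hz1
    -- the restricted functions
    have hih : ∀ S0 ⊆ Dd, cnt (fun E : Finset I =>
        dv (fun z => g (owr Dd S0 z)) (fun _ => false) E ≠ 0) ≤ 4 ^ (t * u) := by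
      intro S0 _
      apply ih
      · intro z hz
        obtain ⟨C, hC, hC2⟩ := ht _ hz
        refine ⟨C, hC, fun z' hz' => hC2 _ fun i hi => ?_⟩
        simp only [owr]
        split_ifs
        · rfl
        · exact hz' i hi
      · intro z hz
        obtain ⟨C, hC, hC2⟩ := hf _ hz
        have hmeet : (C ∩ Dd).Nonempty := by
          by_contra hne
          rw [not_nonempty_iff_eq_empty] at hne
          -- change the point on Dd to z1
          have h1 := hC2 (fun i => if i ∈ Dd then z1 i else owr Dd S0 z i) (by
            intro i hi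
            have : i ∉ Dd := fun h => by
              have : i ∈ C ∩ Dd := mem_inter.2 ⟨hi, h⟩
              rw [hne] at this
              simp at this
            simp [this])
          have h2 := hD (fun i => if i ∈ Dd then z1 i else owr Dd S0 z i) (by
            intro i hi
            simp [hi])
          rw [h1] at h2
          cases h2
        refine ⟨C \ Dd, ?_, ?_⟩
        · have h3 := card_sdiff_add_card_inter C Dd
          have h4 := card_pos.2 hmeet
          omega
        · intro z' hz'
          apply hC2
          intro i hi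
          simp only [owr]
          split_ifs with h5
          · rfl
          · exact hz' i (mem_sdiff.2 ⟨hi, h5⟩)
    -- covering
    have hcov : ∀ E : Finset I, dv g (fun _ => false) E ≠ 0 →
        ∃ S0 ∈ Dd.powerset, dv (fun z => g (owr Dd S0 z)) (fun _ => false) (E \ Dd) ≠ 0 := by
      intro E hE
      have hsplit : E = (E \ Dd) ∪ (E ∩ Dd) := (sdiff_union_inter E Dd).symm
      have hd : Disjoint (E \ Dd) (E ∩ Dd) := disjoint_sdiff_inter E Dd
      have h1 : dv g (fun _ => false) E
          = D (fun S => if g (on (fun _ => false) S) = true then 1 else 0) E := rfl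
      rw [h1, hsplit] at hE
      obtain ⟨S', hS', h2⟩ := D_union _ _ _ hd hE
      refine ⟨S', mem_powerset.2 (hS'.trans inter_subset_right), ?_⟩
      have h3 : dv (fun z => g (owr Dd S' z)) (fun _ => false) (E \ Dd)
          = D (fun S => if g (on (fun _ => false) (S ∪ S')) = true then 1 else 0) (E \ Dd) := by
        unfold dv D
        refine sum_congr rfl fun S hS => ?_
        have h4 : owr Dd S' (on (fun _ => false) S) = on (fun _ => false) (S ∪ S') := by
          funext i
          simp only [owr, on, Bool.false_or]
          split_ifs with h5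
          · have h6 : i ∉ S := by
              intro h
              have := mem_powerset.1 hS h
              rw [mem_sdiff] at this
              exact this.2 h5
            simp [h6]
          · have h6 : i ∉ S' := fun h => h5 (mem_inter.1 (hS' h)).2
            simp [h6]
        simp only [h4]
      rw [h3]
      exact h2
    -- counting
    classical
    set Bad : Finset I → Finset (Finset I) := fun S0 =>
      univ.filter fun E : Finset I => dv (fun z => g (owr Dd S0 z)) (fun _ => false) E ≠ 0
      with hBad
    have hsub : (univ.filter fun E : Finset I => dv g (fun _ => false) E ≠ 0)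
        ⊆ Dd.powerset.biUnion fun S0 => Dd.powerset.biUnion fun ED =>
          (Bad S0).image fun E' => E' ∪ ED := by
      intro E hE
      rw [mem_filter] at hE
      obtain ⟨S0, hS0, h1⟩ := hcov E hE.2
      rw [mem_biUnion]
      refine ⟨S0, hS0, ?_⟩
      rw [mem_biUnion]
      refine ⟨E ∩ Dd, mem_powerset.2 inter_subset_right, ?_⟩
      rw [mem_image]
      refine ⟨E \ Dd, ?_, sdiff_union_inter E Dd⟩
      rw [hBad, mem_filter]
      exact ⟨mem_univ _, h1⟩
    rw [cnt_eq]
    have hp : Dd.powerset.card ≤ 2 ^ t := by
      rw [card_powerset]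
      exact Nat.pow_le_pow_right (by norm_num) hDc
    calc (univ.filter fun E : Finset I => dv g (fun _ => false) E ≠ 0).card
        ≤ _ := card_le_card hsub
      _ ≤ Dd.powerset.card * (2 ^ t * 4 ^ (t * u)) := by
          apply card_biUnion_le_card_mul
          intro S0 hS0
          calc _ ≤ Dd.powerset.card * 4 ^ (t * u) := by
                apply card_biUnion_le_card_mul
                intro ED _
                refine card_image_le.trans ?_
                have := hih S0 (mem_powerset.1 hS0)
                rw [cnt_eq] at this
                exact this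
            _ ≤ _ := Nat.mul_le_mul_right _ hp
      _ ≤ 2 ^ t * (2 ^ t * 4 ^ (t * u)) := Nat.mul_le_mul_right _ hp
      _ = 4 ^ (t * (u + 1)) := by
          rw [← mul_assoc, ← mul_pow, mul_add, mul_one, pow_add]
          norm_num
          ring

end MonoAux

theorem mono [Fintype I] [DecidableEq I] (t : ℕ) (g : (I → Bool) → Bool)
    (h : ∀ b, Cert t b g) : cnt (fun E : Finset I => dv g (fun _ => false) E ≠ 0) ≤ 4 ^ (t * t) :=
  MonoAux.main t t g (h true) (h false)

end P18dd
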