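import Mathlib

/-!
# P18dd.Num: the choice of the parameters

Write `l = Nat.log 2 N` (so `2 ^ l ≤ N < 2 ^ (l+1)`, `l → ∞`), `x = min (log κ) (log (log N))`, `k = 24 K`.
`num_params`: `K := min ((κ - 2) / 24) K₁` where `K₁` = integer part of `(l / 10 ^ 10) ^ (1/4)` (any `K₁ → ∞` with `1400 (24 K₁)^4 ≤ l` and `log (log N) ≤ 5 log K₁` for large `N` will do),
`m := l / (24 K) - 1`. Then `K ≥ K₀` (any constant, for `κ ≥ k₀`, `N ≥ N₀`), `m k + 2 k > l ≥ m k + k`; `(k + 1) 2^(mk) + 2 ≤ 2^(mk + k) ≤ 2^l ≤ N`; `m ≥ 1300 k³` from `l ≥ 1400 k⁴`;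
`m ≥ c₁ l^(3/4)`, `m ≤ l`, `k ≤ l^(1/4)`, so `d log₂(640 m k²) ≤ √l * 3 log₂ l ≤ m` etc. for large `N` (all three inequalities with `2 ^ m` and `8 ^ (m K)` (`m K = m k / 24 ≥ (l - 2k)/24`) only need `l ≥ l₀`).
Last part: `x ≤ 6 log K` (case `K = (κ-2)/24`: `log κ ≤ log (24 K + 26) ≤ 2 log K`; case `K = K₁`: `log log N ≤ 5 log K₁`). So `S < N^(c x) ≤ 2^((l+1) c 6 log K)`. With `c = 1/1000`:
`S ≤ 2^(m k²)` because `m k² ≥ 24 (l - 2k)`... (`m k ≥ l - 2k`, `k ≥ 24`, `6 c log K ≤ k`); and `log₂` of `2^(mK + 24K + 1) (d (m k² + 1) + 1) S` is at most `mK + k + 1 + 3 log₂ l + 6 c (l+1) log K`, while `log₂ (K^(mK)) = mK log₂ K`,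
`mK ≥ (l - 2k)/24 ≥ l/25`, `log₂ K ≥ 10`.
`num_circ`: `c' = c / 4`; `k₁, N₁` such that `x ≥ 16 / c`; `L ≤ 4 N² 3^d max(1, N^(c' x / d))^d`..., i.e. `2 S + 1 ≤ 3 N^(c' x / d)` (also for `S = 0`), so `L ≤ 4 N² 3^d N^(c' x)`, `3^d ≤ N` for `d ≤ √(log N)`, `4 ≤ N`: `L ≤ N^(4 + c' x) < N^(c x)` as `(3/4) c x ≥ 12 > 4`.
-/

set_option autoImplicit false

namespace P18dd

namespace NumAux

theorem exists_root (l : ℕ) : ∃ a : ℕ, (24 * a) ^ 5 ≤ l ∧ l < (24 * (a + 1)) ^ 5 := by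
  induction l with
  | zero => exact ⟨0, by norm_num, by norm_num⟩
  | succ l ih =>
    obtain ⟨a, h1, h2⟩ := ih
    rcases lt_or_ge (l + 1) ((24 * (a + 1)) ^ 5) with h | h
    · exact ⟨a, by omega, h⟩
    · have h3 : l + 1 = (24 * (a + 1)) ^ 5 := by omega
      refine ⟨a + 1, h, ?_⟩
      rw [h3]
      exact Nat.pow_lt_pow_left (by omega) (by norm_num)

theorem exists_log (A : ℕ) : ∃ N₀ : ℕ, ∀ N ≥ N₀, A ≤ Nat.log 2 N :=
  ⟨2 ^ A, fun N hN => Nat.le_log_of_pow_le (by norm_num) hN⟩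

theorem cube_le (r : ℕ) (hr : 12 ≤ r) : r ^ 3 ≤ 2 ^ (r - 1) := by
  induction r, hr using Nat.le_induction with
  | base => norm_num
  | succ r hr ih =>
    have h1 : 2 ^ (r + 1 - 1) = 2 * 2 ^ (r - 1) := by
      rw [← pow_succ']
      congr 1
      omega
    rw [h1]
    have h2 : (r + 1) ^ 3 ≤ 2 * r ^ 3 := by
      have e1 : 12 * r ^ 2 ≤ r ^ 3 := by
        rw [pow_succ' r 2]
        exact Nat.mul_le_mul_right _ hr
      have e2 : 12 * r ≤ r ^ 2 := by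
        rw [sq]
        exact Nat.mul_le_mul_right _ hr
      have e3 : (r + 1) ^ 3 = r ^ 3 + 3 * r ^ 2 + 3 * r + 1 := by ring
      omega
    omega

theorem pow_bound {k m d : ℕ} (hk : 1301 ≤ k) (hm : 1300 * k ^ 3 ≤ m)
    (hd : d ^ 2 ≤ 2 * k * m) : m ^ (2 * d) ≤ 2 ^ m ∧ m ^ 20 ≤ 2 ^ m := by
  have hm0 : 2 ^ 11 ≤ m := by
    have h1 : k ≤ k ^ 3 := Nat.le_self_pow (by norm_num) k
    have h2 : (2 : ℕ) ^ 11 = 2048 := by norm_num
    omega
  obtain ⟨r, hr⟩ : ∃ r, r = Nat.log 2 m + 1 := ⟨_, rfl⟩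
  have hmr : m < 2 ^ r := by
    rw [hr]
    exact Nat.lt_pow_succ_log_self (by norm_num) m
  have hrm : 2 ^ (r - 1) ≤ m := by
    rw [hr, Nat.add_sub_cancel]
    exact Nat.pow_log_le_self 2 (by omega)
  have hr12 : 12 ≤ r := by
    have h1 : 11 ≤ Nat.log 2 m := Nat.le_log_of_pow_le (by norm_num) hm0
    omega
  have hr3 : r ^ 3 ≤ m := (cube_le r hr12).trans hrm
  have hd6 : 1300 * d ^ 6 ≤ 8 * m ^ 4 := by
    have h1 : (d ^ 2) ^ 3 ≤ (2 * k * m) ^ 3 := Nat.pow_le_pow_left hd 3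
    calc 1300 * d ^ 6 = 1300 * (d ^ 2) ^ 3 := by ring
      _ ≤ 1300 * (2 * k * m) ^ 3 := Nat.mul_le_mul_left _ h1
      _ = 8 * m ^ 3 * (1300 * k ^ 3) := by ring
      _ ≤ 8 * m ^ 3 * m := Nat.mul_le_mul_left _ hm
      _ = 8 * m ^ 4 := by ring
  have hd3 : 12 * d ^ 3 ≤ m ^ 2 := by
    rw [← Nat.pow_le_pow_iff_left (n := 2) (by norm_num)]
    have e1 : (12 * d ^ 3) ^ 2 = 144 * d ^ 6 := by ring
    have e2 : (m ^ 2) ^ 2 = m ^ 4 := by ring
    rw [e1, e2]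
    omega
  have h2dr : 2 * d * r ≤ m := by
    rw [← Nat.pow_le_pow_iff_left (n := 3) (by norm_num)]
    calc (2 * d * r) ^ 3 = 8 * d ^ 3 * r ^ 3 := by ring
      _ ≤ 12 * d ^ 3 * m := Nat.mul_le_mul (by omega) hr3
      _ ≤ m ^ 2 * m := Nat.mul_le_mul_right _ hd3
      _ = m ^ 3 := by ring
  have h20 : 20 * r ≤ m := by
    refine le_trans ?_ hr3
    have : r ^ 3 = r ^ 2 * r := by ring
    rw [this]
    refine Nat.mul_le_mul_right _ ?_
    have h4 : 12 * 12 ≤ r * r := Nat.mul_le_mul hr12 hr12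
    rw [sq]
    omega
  constructor
  · calc m ^ (2 * d) ≤ (2 ^ r) ^ (2 * d) := Nat.pow_le_pow_left hmr.le _
      _ = 2 ^ (2 * d * r) := by rw [← pow_mul, mul_comm r]
      _ ≤ 2 ^ m := Nat.pow_le_pow_right (by norm_num) h2dr
  · calc m ^ 20 ≤ (2 ^ r) ^ 20 := Nat.pow_le_pow_left hmr.le _
      _ = 2 ^ (20 * r) := by rw [← pow_mul, mul_comm r]
      _ ≤ 2 ^ m := Nat.pow_le_pow_right (by norm_num) h20

theorem P_bound (y d : ℕ) (hy : 1 ≤ y) : d * (y + 1) + 1 ≤ (640 * y) ^ d := by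
  induction d with
  | zero => simp
  | succ d ih =>
    rw [pow_succ]
    have h1 : 1 ≤ (640 * y) ^ d := Nat.one_le_pow _ _ (by omega)
    calc (d + 1) * (y + 1) + 1 = (d * (y + 1) + 1) + (y + 1) := by ring
      _ ≤ (640 * y) ^ d + (y + 1) := by omega
      _ ≤ (640 * y) ^ d + (640 * y) ^ d * (y + 1) :=
          Nat.add_le_add_left (Nat.le_mul_of_pos_left _ h1) _
      _ = (640 * y) ^ d * (y + 2) := by ring
      _ ≤ (640 * y) ^ d * (640 * y) := Nat.mul_le_mul_left _ (by omega)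

/-- the purely arithmetic part -/
theorem arith {K m d N l : ℕ} (hK : 100 ≤ K) (hl2 : 2 ^ l ≤ N)
    (hl : 24 * K * (m + 1) ≤ l) (hm : 1300 * (24 * K) ^ 3 ≤ m)
    (hd : d ^ 2 ≤ 2 * (24 * K) * m) :
    (24 * K + 1) * 2 ^ (m * (24 * K)) + 2 ≤ N ∧
      (64 * (10 * m * (24 * K) ^ 2)) ^ d ≤ 2 ^ m ∧ (16 * (10 * m * (24 * K) ^ 2)) ^ 10 ≤ 2 ^ m ∧
      4 * 4 ^ (24 * K) * (d * (m * (24 * K) ^ 2 + 1) + 1) ^ 2 ≤ 8 ^ (m * K) ∧
      ∀ S : ℕ, S ^ 4 < K ^ (m * K) →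
        S ≤ 2 ^ (m * (24 * K) ^ 2) ∧
        2 ^ (m * K + 24 * K + 1) * (d * (m * (24 * K) ^ 2 + 1) + 1) * S < K ^ (m * K) := by
  obtain ⟨k, hk⟩ : ∃ k, k = 24 * K := ⟨_, rfl⟩
  rw [← hk] at hl hm hd ⊢
  have hk1 : 1301 ≤ k := by omega
  obtain ⟨hb1, hb2⟩ := pow_bound hk1 hm hd
  have hk3 : k * k ^ 2 = k ^ 3 := by ring
  have h640 : 640 * k ^ 2 ≤ m := by
    refine le_trans ?_ hm
    calc 640 * k ^ 2 ≤ 1300 * (1 * k ^ 2) := by omega
      _ ≤ 1300 * (k * k ^ 2) :=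
          Nat.mul_le_mul_left _ (Nat.mul_le_mul_right _ (by omega))
      _ = 1300 * k ^ 3 := by rw [hk3]
  have hkm : k + 1 ≤ m := by
    refine le_trans ?_ hm
    have h1 : k ≤ k ^ 3 := Nat.le_self_pow (by norm_num) k
    omega
  have hm1 : 1 ≤ m := by omega
  have h5 : (64 * (10 * m * k ^ 2)) ^ d ≤ 2 ^ m := by
    refine le_trans ?_ hb1
    rw [pow_mul]
    refine Nat.pow_le_pow_left ?_ d
    calc 64 * (10 * m * k ^ 2) = m * (640 * k ^ 2) := by ring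
      _ ≤ m * m := Nat.mul_le_mul_left _ h640
      _ = m ^ 2 := by ring
  have hP : d * (m * k ^ 2 + 1) + 1 ≤ 2 ^ m := by
    refine le_trans ?_ h5
    have h1 : 1 ≤ m * k ^ 2 := Nat.one_le_iff_ne_zero.2 (by positivity)
    have h2 := P_bound (m * k ^ 2) d h1
    refine h2.trans (le_of_eq ?_)
    congr 1
    ring
  have hPk : 2 ^ (k + 1) * (d * (m * k ^ 2 + 1) + 1) ≤ 2 ^ (m * K) := by
    calc 2 ^ (k + 1) * (d * (m * k ^ 2 + 1) + 1) ≤ 2 ^ (k + 1) * 2 ^ m :=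
          Nat.mul_le_mul_left _ hP
      _ = 2 ^ (k + 1 + m) := by rw [← pow_add]
      _ ≤ 2 ^ (m * K) := by
          refine Nat.pow_le_pow_right (by norm_num) ?_
          have h1 : m * 100 ≤ m * K := Nat.mul_le_mul_left _ hK
          omega
  refine ⟨?_, h5, ?_, ?_, ?_⟩
  · refine le_trans ?_ hl2
    have h1 : k + 3 ≤ 2 ^ k := by
      have h2 : k < 2 ^ (k - 1) * 2 := by
        rw [← pow_succ, Nat.sub_add_cancel (by omega)]
        exact Nat.lt_two_pow_self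
      have h3 : k - 1 < 2 ^ (k - 1) := Nat.lt_two_pow_self
      have h4 : 2 ^ k = 2 ^ (k - 1) * 2 := by
        rw [← pow_succ, Nat.sub_add_cancel (by omega)]
      omega
    have h2 : 1 ≤ 2 ^ (m * k) := Nat.one_le_two_pow
    calc (k + 1) * 2 ^ (m * k) + 2 ≤ (k + 1) * 2 ^ (m * k) + 2 * 2 ^ (m * k) := by omega
      _ = (k + 3) * 2 ^ (m * k) := by ring
      _ ≤ 2 ^ k * 2 ^ (m * k) := Nat.mul_le_mul_right _ h1
      _ = 2 ^ (k + m * k) := by rw [← pow_add]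
      _ ≤ 2 ^ l := by
          refine Nat.pow_le_pow_right (by norm_num) ?_
          refine le_trans (le_of_eq ?_) hl
          ring
  · refine le_trans ?_ hb2
    have h1 : m ^ 20 = (m ^ 2) ^ 10 := by rw [← pow_mul]
    rw [h1]
    refine Nat.pow_le_pow_left ?_ 10
    calc 16 * (10 * m * k ^ 2) = m * (160 * k ^ 2) := by ring
      _ ≤ m * m := Nat.mul_le_mul_left _ (by omega)
      _ = m ^ 2 := by ring
  · have h1 : 4 * 4 ^ k * (d * (m * k ^ 2 + 1) + 1) ^ 2 =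
        (2 ^ (k + 1) * (d * (m * k ^ 2 + 1) + 1)) ^ 2 := by
      rw [mul_pow, ← pow_mul, mul_comm (k + 1) 2, pow_mul]
      congr 1
      norm_num
      ring
    rw [h1]
    calc (2 ^ (k + 1) * (d * (m * k ^ 2 + 1) + 1)) ^ 2 ≤ (2 ^ (m * K)) ^ 2 :=
          Nat.pow_le_pow_left hPk 2
      _ = 4 ^ (m * K) := by
          rw [← pow_mul, mul_comm (m * K) 2, pow_mul]
          norm_num
      _ ≤ 8 ^ (m * K) := Nat.pow_le_pow_left (by norm_num) _
  · intro S hS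
    have hKK : K ^ (m * K) ≤ 2 ^ (m * k ^ 2) := by
      calc K ^ (m * K) ≤ (2 ^ K) ^ (m * K) := Nat.pow_le_pow_left Nat.lt_two_pow_self.le _
        _ = 2 ^ (K * (m * K)) := by rw [← pow_mul]
        _ ≤ 2 ^ (m * k ^ 2) := by
            refine Nat.pow_le_pow_right (by norm_num) ?_
            calc K * (m * K) = m * K ^ 2 := by ring
              _ ≤ m * k ^ 2 := Nat.mul_le_mul_left _ (Nat.pow_le_pow_left (by omega) 2)
    have hSS : S ≤ S ^ 4 := Nat.le_self_pow (by norm_num) S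
    refine ⟨(hSS.trans hS.le).trans hKK, ?_⟩
    have h1 : 2 ^ (m * K + k + 1) * (d * (m * k ^ 2 + 1) + 1) ≤ 2 ^ (2 * (m * K)) := by
      calc 2 ^ (m * K + k + 1) * (d * (m * k ^ 2 + 1) + 1) =
          2 ^ (m * K) * (2 ^ (k + 1) * (d * (m * k ^ 2 + 1) + 1)) := by
            rw [add_assoc, pow_add]
            ring
        _ ≤ 2 ^ (m * K) * 2 ^ (m * K) := Nat.mul_le_mul_left _ hPk
        _ = 2 ^ (2 * (m * K)) := by rw [← pow_add, two_mul]
    have h2 : (2 ^ (2 * (m * K))) ^ 4 ≤ K ^ (m * K * 3) := by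
      calc (2 ^ (2 * (m * K))) ^ 4 = (2 ^ 8) ^ (m * K) := by
            rw [← pow_mul, ← pow_mul]
            congr 1
            ring
        _ ≤ (K ^ 3) ^ (m * K) := by
            refine Nat.pow_le_pow_left ?_ _
            have : 100 ^ 3 ≤ K ^ 3 := Nat.pow_le_pow_left hK 3
            exact le_trans (by norm_num) this
        _ = K ^ (m * K * 3) := by rw [← pow_mul, mul_comm 3]
    rw [← Nat.pow_lt_pow_iff_left (n := 4) (by norm_num)]
    have hpos : 0 < K ^ (m * K * 3) := by positivity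
    calc (2 ^ (m * K + k + 1) * (d * (m * k ^ 2 + 1) + 1) * S) ^ 4 =
          (2 ^ (m * K + k + 1) * (d * (m * k ^ 2 + 1) + 1)) ^ 4 * S ^ 4 := mul_pow _ _ _
      _ ≤ (2 ^ (2 * (m * K))) ^ 4 * S ^ 4 :=
          Nat.mul_le_mul_right _ (Nat.pow_le_pow_left h1 4)
      _ ≤ K ^ (m * K * 3) * S ^ 4 := Nat.mul_le_mul_right _ h2
      _ < K ^ (m * K * 3) * K ^ (m * K) := Nat.mul_lt_mul_of_pos_left hS hpos
      _ = (K ^ (m * K)) ^ 4 := by
          rw [← pow_add, ← pow_mul]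
          congr 1

theorem log_lt {N l : ℕ} (hN : 1 ≤ N) (h : N < 2 ^ (l + 1)) : Real.log N < l + 1 := by
  have h0 : (0 : ℝ) < N := by exact_mod_cast hN
  have h1 : (N : ℝ) < 2 ^ (l + 1) := by exact_mod_cast h
  have h2 := Real.log_lt_log h0 h1
  rw [Real.log_pow] at h2
  have h3 : Real.log 2 < 1 := by
    have := Real.log_two_lt_d9
    linarith
  have h4 : ((l + 1 : ℕ) : ℝ) * Real.log 2 ≤ ((l + 1 : ℕ) : ℝ) * 1 :=
    mul_le_mul_of_nonneg_left h3.le (Nat.cast_nonneg _)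
  push_cast at h2 h4
  linarith

/-- from the real hypothesis on `S` to the integer one -/
theorem S_bound {K m N l S : ℕ} {x : ℝ} (hK : 100 ≤ K) (hm : 48 ≤ m) (hN : 1 ≤ N)
    (h : N < 2 ^ (l + 1)) (hl : l < 24 * K * (m + 2)) (hx : x ≤ 10 * Real.log K)
    (hS : (S : ℝ) < (N : ℝ) ^ ((1 / 1000 : ℝ) * x)) : S ^ 4 < K ^ (m * K) := by
  have hlog := log_lt hN h
  have hK0 : (0 : ℝ) < K := by
    have : 0 < K := by omega
    exact_mod_cast this
  have hN0 : (0 : ℝ) < N := by exact_mod_cast hN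
  have hlN : 0 ≤ Real.log N := Real.log_natCast_nonneg N
  have hlK : 0 ≤ Real.log K := Real.log_natCast_nonneg K
  have h1 : (l : ℝ) + 1 ≤ 25 * (K * m) := by
    have h2 : l + 1 ≤ 25 * (K * m) := by
      have h3 : 24 * K * (m + 2) ≤ 25 * (K * m) := by
        calc 24 * K * (m + 2) = K * (24 * m + 48) := by ring
          _ ≤ K * (25 * m) := Nat.mul_le_mul_left _ (by omega)
          _ = 25 * (K * m) := by ring
      omega
    exact_mod_cast h2
  have h2 : (S : ℝ) ^ 4 < ((K : ℝ) ^ (m * K)) := by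
    calc (S : ℝ) ^ 4 < ((N : ℝ) ^ ((1 / 1000 : ℝ) * x)) ^ 4 :=
          pow_lt_pow_left₀ hS (Nat.cast_nonneg _) (by norm_num)
      _ = Real.exp (Real.log N * ((1 / 250 : ℝ) * x)) := by
          rw [Real.rpow_def_of_pos hN0, ← Real.exp_nat_mul]
          congr 1
          push_cast
          ring
      _ ≤ Real.exp ((m * K : ℕ) * Real.log K) := by
          refine Real.exp_le_exp.2 ?_
          calc Real.log N * ((1 / 250 : ℝ) * x) ≤
                Real.log N * ((1 / 250 : ℝ) * (10 * Real.log K)) :=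
                mul_le_mul_of_nonneg_left (by linarith) hlN
            _ = Real.log N / 25 * Real.log K := by ring
            _ ≤ (m * K : ℕ) * Real.log K := by
                refine mul_le_mul_of_nonneg_right ?_ hlK
                push_cast
                linarith
      _ = (K : ℝ) ^ (m * K) := by
          rw [Real.exp_nat_mul, Real.exp_log hK0]
  exact_mod_cast h2

end NumAux

open NumAux

theorem num_params : ∃ c : ℝ, 0 < c ∧ ∃ k₀ N₀ : ℕ, ∀ N ≥ N₀, ∀ κ ≥ k₀, ∀ d : ℕ,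
    (d : ℝ) ≤ Real.sqrt (Real.log N) → ∃ K m : ℕ, 1 ≤ K ∧ 24 * K + 2 ≤ κ ∧
      1300 * (24 * K) ^ 3 ≤ m ∧ (24 * K + 1) * 2 ^ (m * (24 * K)) + 2 ≤ N ∧
      (64 * (10 * m * (24 * K) ^ 2)) ^ d ≤ 2 ^ m ∧ (16 * (10 * m * (24 * K) ^ 2)) ^ 10 ≤ 2 ^ m ∧
      4 * 4 ^ (24 * K) * (d * (m * (24 * K) ^ 2 + 1) + 1) ^ 2 ≤ 8 ^ (m * K) ∧
      ∀ S : ℕ, (S : ℝ) < (N : ℝ) ^ (c * min (Real.log κ) (Real.log (Real.log N))) →
        S ≤ 2 ^ (m * (24 * K) ^ 2) ∧
        2 ^ (m * K + 24 * K + 1) * (d * (m * (24 * K) ^ 2 + 1) + 1) * S < K ^ (m * K) := by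
  obtain ⟨N₀, hN₀⟩ := exists_log ((24 * 101) ^ 5)
  refine ⟨1 / 1000, by norm_num, 2500, max N₀ 2, fun N hN κ hκ d hd => ?_⟩
  have hN1 : N₀ ≤ N := le_trans (le_max_left _ _) hN
  have hN2 : 2 ≤ N := le_trans (le_max_right _ _) hN
  have hlN := hN₀ N hN1
  obtain ⟨l, hl⟩ : ∃ l, l = Nat.log 2 N := ⟨_, rfl⟩
  rw [← hl] at hlN
  have hlo : 2 ^ l ≤ N := by
    rw [hl]
    exact Nat.pow_log_le_self 2 (by omega)
  have hhi : N < 2 ^ (l + 1) := by
    rw [hl]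
    exact Nat.lt_pow_succ_log_self (by norm_num) N
  obtain ⟨K₁, hK1, hK2⟩ := exists_root l
  have hK₁ : 100 ≤ K₁ := by
    by_contra hcon
    have h1 : (24 * (K₁ + 1)) ^ 5 ≤ (24 * 101) ^ 5 := Nat.pow_le_pow_left (by omega) 5
    exact absurd (hK2.trans_le (h1.trans hlN)) (lt_irrefl _)
  obtain ⟨K, hKd⟩ : ∃ K, K = min ((κ - 2) / 24) K₁ := ⟨_, rfl⟩
  have hK : 100 ≤ K := by
    rw [hKd]
    exact le_min (by omega) hK₁
  have hKκ : 24 * K + 2 ≤ κ := by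
    have : K ≤ (κ - 2) / 24 := by
      rw [hKd]
      exact min_le_left _ _
    omega
  have hKK1 : K ≤ K₁ := by
    rw [hKd]
    exact min_le_right _ _
  have hkl : (24 * K) ^ 5 ≤ l := le_trans (Nat.pow_le_pow_left (by omega) 5) hK1
  have hkpos : 0 < 24 * K := by omega
  have hdiv : (24 * K) ^ 4 ≤ l / (24 * K) := by
    rw [Nat.le_div_iff_mul_le hkpos, ← pow_succ]
    exact hkl
  obtain ⟨m, hm⟩ : ∃ m, m = l / (24 * K) - 1 := ⟨_, rfl⟩
  have hk4 : 1300 * (24 * K) ^ 3 + 1 ≤ (24 * K) ^ 4 := by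
    have h1 : (24 * K) ^ 4 = (24 * K) * (24 * K) ^ 3 := by ring
    rw [h1]
    have h2 : 1 ≤ (24 * K) ^ 3 := Nat.one_le_pow _ _ hkpos
    have h3 : 1301 * (24 * K) ^ 3 ≤ (24 * K) * (24 * K) ^ 3 :=
      Nat.mul_le_mul_right _ (by omega)
    omega
  have hm1 : m + 1 = l / (24 * K) := by omega
  have hm3 : 1300 * (24 * K) ^ 3 ≤ m := by omega
  have hc1 : 24 * K * (m + 1) ≤ l := by
    rw [hm1]
    exact Nat.mul_div_le l (24 * K)
  have hc2 : l < 24 * K * (m + 2) := by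
    have := Nat.lt_mul_div_succ l hkpos
    rw [← hm1] at this
    exact this
  have hm48 : 48 ≤ m := by
    have h2 : 1 ≤ (24 * K) ^ 3 := Nat.one_le_pow _ _ hkpos
    omega
  have hlog := log_lt (by omega) hhi
  have hlogpos : 0 < Real.log N := Real.log_pos (by exact_mod_cast (by omega : 1 < N))
  have hd2 : d ^ 2 ≤ 2 * (24 * K) * m := by
    have h1 : (d : ℝ) ^ 2 ≤ Real.log N := by
      rw [← Real.sq_sqrt hlogpos.le]
      exact pow_le_pow_left₀ (Nat.cast_nonneg _) hd 2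
    have h2 : (d : ℝ) ^ 2 < l + 1 := lt_of_le_of_lt h1 hlog
    have h3 : d ^ 2 < l + 1 := by exact_mod_cast h2
    have h4 : 24 * K * (m + 2) ≤ 2 * (24 * K) * m := by
      have h5 : 24 * K * (m + 2) ≤ 24 * K * (2 * m) := Nat.mul_le_mul_left _ (by omega)
      refine h5.trans (le_of_eq ?_)
      ring
    omega
  obtain ⟨a1, a2, a3, a4, a5⟩ := arith hK hlo hc1 hm3 hd2
  refine ⟨K, m, by omega, hKκ, hm3, a1, a2, a3, a4, fun S hS => a5 S ?_⟩
  refine S_bound hK hm48 (by omega) hhi hc2 ?_ hS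
  have hK0 : (0 : ℝ) < K := by exact_mod_cast (by omega : 0 < K)
  have hlK : 0 ≤ Real.log K := Real.log_natCast_nonneg K
  rcases min_choice ((κ - 2) / 24) K₁ with h | h
  · rw [h] at hKd
    refine (min_le_left _ _).trans ?_
    have h1 : κ ≤ K ^ 2 := by
      have h2 : κ ≤ 24 * K + 25 := by omega
      have h3 : 100 * K ≤ K ^ 2 := by
        rw [sq]
        exact Nat.mul_le_mul_right _ hK
      omega
    have h2 : Real.log κ ≤ Real.log ((K : ℝ) ^ 2) := by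
      refine Real.log_le_log ?_ ?_
      · exact_mod_cast (by omega : 0 < κ)
      · exact_mod_cast h1
    rw [Real.log_pow] at h2
    push_cast at h2
    linarith
  · rw [h] at hKd
    refine (min_le_right _ _).trans ?_
    have h1 : l + 1 ≤ K ^ 10 := by
      have h2 : l + 1 ≤ (24 * (K + 1)) ^ 5 := by
        rw [hKd]
        exact hK2
      have h3 : (24 * (K + 1)) ^ 5 ≤ (K ^ 2) ^ 5 := by
        refine Nat.pow_le_pow_left ?_ 5
        have h5 : 100 * K ≤ K ^ 2 := by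
          rw [sq]
          exact Nat.mul_le_mul_right _ hK
        omega
      have h4 : (K ^ 2) ^ 5 = K ^ 10 := by rw [← pow_mul]
      omega
    have h2 : Real.log N ≤ (K : ℝ) ^ 10 := by
      have h3 : ((l : ℝ) + 1) ≤ (K : ℝ) ^ 10 := by exact_mod_cast h1
      linarith
    have h3 := Real.log_le_log hlogpos h2
    rw [Real.log_pow] at h3
    push_cast at h3
    exact h3

theorem num_circ (c : ℝ) (hc : 0 < c) : ∃ c' : ℝ, 0 < c' ∧ ∃ k₁ N₁ : ℕ, ∀ N ≥ N₁, ∀ κ ≥ k₁,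
    ∀ d : ℕ, 1 ≤ d → (d : ℝ) ≤ Real.sqrt (Real.log N) → ∀ S L : ℕ,
      (S : ℝ) < (N : ℝ) ^ (c' * min (Real.log κ) (Real.log (Real.log N)) / d) →
      L ≤ (2 * N ^ 2 + 2) * (2 * S + 1) ^ d →
      (L : ℝ) < (N : ℝ) ^ (c * min (Real.log κ) (Real.log (Real.log N))) := by
  obtain ⟨k₁, hk₁⟩ := exists_nat_gt (Real.exp (8 / c))
  obtain ⟨N₁, hN₁⟩ := exists_nat_gt (Real.exp (max 4 (Real.exp (8 / c))))
  refine ⟨c / 2, by positivity, k₁, max N₁ 4, fun N hN κ hκ d hd1 hd S L hS hL => ?_⟩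
  have hN1 : (N₁ : ℝ) ≤ N := by exact_mod_cast le_trans (le_max_left _ _) hN
  have hN4 : 4 ≤ N := le_trans (le_max_right _ _) hN
  have hN4' : (4 : ℝ) ≤ N := by exact_mod_cast hN4
  have hN0 : (0 : ℝ) < N := by linarith
  have hNgt1 : (1 : ℝ) < N := by linarith
  have hlogN : max 4 (Real.exp (8 / c)) < Real.log N := by
    rw [Real.lt_log_iff_exp_lt hN0]
    linarith
  have hlog4 : 4 < Real.log N := lt_of_le_of_lt (le_max_left _ _) hlogN
  have hlogE : Real.exp (8 / c) < Real.log N := lt_of_le_of_lt (le_max_right _ _) hlogN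
  obtain ⟨x, hx⟩ : ∃ x, x = min (Real.log κ) (Real.log (Real.log N)) := ⟨_, rfl⟩
  rw [← hx] at hS ⊢
  have hx8 : 8 / c < x := by
    rw [hx]
    refine lt_min ?_ ?_
    · have h1 : (k₁ : ℝ) ≤ κ := by exact_mod_cast hκ
      have h2 : (0 : ℝ) < κ := lt_of_lt_of_le ((Real.exp_pos _).trans hk₁) h1
      rw [Real.lt_log_iff_exp_lt h2]
      linarith
    · rw [Real.lt_log_iff_exp_lt (by linarith)]
      exact hlogE
  have hx0 : 0 < x := lt_trans (by positivity) hx8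
  have hcx : 8 < c * x := by
    rw [div_lt_iff₀ hc] at hx8
    linarith
  have hd0 : (0 : ℝ) < d := by exact_mod_cast hd1
  -- the base
  obtain ⟨B, hB⟩ : ∃ B, B = (N : ℝ) ^ (c / 2 * x / d) := ⟨_, rfl⟩
  rw [← hB] at hS
  have hB1 : 1 ≤ B := by
    rw [hB]
    exact Real.one_le_rpow hNgt1.le (by positivity)
  have hBd : B ^ d = (N : ℝ) ^ (c / 2 * x) := by
    rw [hB, ← Real.rpow_natCast, ← Real.rpow_mul hN0.le]
    congr 1
    field_simp
  have h3d : (3 : ℝ) ^ d ≤ N := by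
    have h1 : Real.log 3 ≤ 2 := by
      have h2 := Real.log_le_sub_one_of_pos (show (0 : ℝ) < 3 by norm_num)
      linarith
    have h2 : 2 ≤ Real.sqrt (Real.log N) := by
      have h3 : Real.sqrt 4 = 2 := by
        rw [show (4 : ℝ) = 2 ^ 2 by norm_num]
        exact Real.sqrt_sq (by norm_num)
      rw [← h3]
      exact Real.sqrt_le_sqrt hlog4.le
    have h4 : (d : ℝ) * Real.log 3 ≤ Real.log N := by
      have h5 : Real.sqrt (Real.log N) * Real.sqrt (Real.log N) = Real.log N :=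
        Real.mul_self_sqrt (by linarith)
      have h6 : 0 ≤ Real.sqrt (Real.log N) := Real.sqrt_nonneg _
      have h7 : (d : ℝ) * Real.log 3 ≤ (d : ℝ) * 2 := mul_le_mul_of_nonneg_left h1 hd0.le
      have h8 : (d : ℝ) * 2 ≤ Real.sqrt (Real.log N) * 2 := by linarith
      have h9 : Real.sqrt (Real.log N) * 2 ≤ Real.sqrt (Real.log N) * Real.sqrt (Real.log N) :=
        mul_le_mul_of_nonneg_left h2 h6
      linarith
    have h5 : (3 : ℝ) ^ d = Real.exp (d * Real.log 3) := by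
      rw [Real.exp_nat_mul, Real.exp_log (by norm_num)]
    rw [h5, ← Real.exp_log hN0]
    exact Real.exp_le_exp.2 h4
  have hLr : (L : ℝ) ≤ (2 * (N : ℝ) ^ 2 + 2) * (2 * (S : ℝ) + 1) ^ d := by exact_mod_cast hL
  have hbase : (2 * (S : ℝ) + 1) ^ d ≤ (N : ℝ) * (N : ℝ) ^ (c / 2 * x) := by
    calc (2 * (S : ℝ) + 1) ^ d ≤ (3 * B) ^ d := by
          refine pow_le_pow_left₀ (by positivity) ?_ d
          linarith
      _ = 3 ^ d * B ^ d := mul_pow _ _ _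
      _ ≤ (N : ℝ) * (N : ℝ) ^ (c / 2 * x) := by
          rw [hBd]
          exact mul_le_mul_of_nonneg_right h3d (Real.rpow_nonneg hN0.le _)
  have hpoly : 2 * (N : ℝ) ^ 2 + 2 ≤ (N : ℝ) ^ 3 := by
    have h1 : (N : ℝ) ^ 3 = N * (N : ℝ) ^ 2 := by ring
    have h2 : (1 : ℝ) ≤ (N : ℝ) ^ 2 := one_le_pow₀ hNgt1.le
    rw [h1]
    have h3 : 4 * (N : ℝ) ^ 2 ≤ N * (N : ℝ) ^ 2 :=
      mul_le_mul_of_nonneg_right hN4' (by positivity)
    linarith
  calc (L : ℝ) ≤ (2 * (N : ℝ) ^ 2 + 2) * (2 * (S : ℝ) + 1) ^ d := hLr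
    _ ≤ (N : ℝ) ^ 3 * ((N : ℝ) * (N : ℝ) ^ (c / 2 * x)) :=
        mul_le_mul hpoly hbase (by positivity) (by positivity)
    _ = (N : ℝ) ^ (4 + c / 2 * x) := by
        rw [Real.rpow_add hN0]
        have : (N : ℝ) ^ (4 : ℝ) = (N : ℝ) ^ 4 := by
          rw [← Real.rpow_natCast]
          norm_num
        rw [this]
        ring
    _ < (N : ℝ) ^ (c * x) := by
        refine Real.rpow_lt_rpow_of_exponent_lt hNgt1 ?_
        linarith

end P18dd
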