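import Pool.Agent.Lib.P18dd.Defs

/-!
# P18dd.Pw: product weights

Elementary facts about `ex` and `pr` (Defs).
-/

set_option autoImplicit false

namespace P18dd

open Finset

variable {I : Type} [Fintype I] [DecidableEq I] {A : Type} [Fintype A]

theorem ex_mono {w : A → ℝ} (hw : ∀ a, 0 ≤ w a) {F G : (I → A) → ℝ} (h : ∀ x, F x ≤ G x) :
    ex w F ≤ ex w G := by
  unfold ex
  exact sum_le_sum fun x _ => mul_le_mul_of_nonneg_left (h x) (prod_nonneg fun i _ => hw (x i))

theorem ex_nonneg {w : A → ℝ} (hw : ∀ a, 0 ≤ w a) {F : (I → A) → ℝ} (h : ∀ x, 0 ≤ F x) :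
    0 ≤ ex w F := by
  unfold ex
  exact sum_nonneg fun x _ => mul_nonneg (prod_nonneg fun i _ => hw (x i)) (h x)

theorem ex_prod (w : A → ℝ) (f : I → A → ℝ) :
    ex w (fun x => ∏ i, f i (x i)) = ∏ i, ∑ a, w a * f i a := by
  classical
  unfold ex
  rw [prod_univ_sum, Fintype.piFinset_univ]
  refine sum_congr rfl fun x _ => ?_
  rw [← prod_mul_distrib]

theorem ex_one {w : A → ℝ} (h1 : ∑ a, w a = 1) : ex w (fun _ : I → A => (1 : ℝ)) = 1 := by
  have h := ex_prod (I := I) w (fun _ _ => (1 : ℝ))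
  simpa [h1] using h

theorem ex_add (w : A → ℝ) (F G : (I → A) → ℝ) :
    ex w (fun x => F x + G x) = ex w F + ex w G := by
  unfold ex
  rw [← sum_add_distrib]
  exact sum_congr rfl fun x _ => by ring

theorem ex_mul (w : A → ℝ) (c : ℝ) (F : (I → A) → ℝ) :
    ex w (fun x => c * F x) = c * ex w F := by
  unfold ex
  rw [mul_sum]
  exact sum_congr rfl fun x _ => by ring

theorem ex_sum {J : Type} (s : Finset J) (w : A → ℝ) (F : J → (I → A) → ℝ) :
    ex w (fun x => ∑ j ∈ s, F j x) = ∑ j ∈ s, ex w (F j) := by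
  unfold ex
  rw [sum_comm]
  exact sum_congr rfl fun x _ => by rw [mul_sum]

theorem ex_cs {w : A → ℝ} (hw : ∀ a, 0 ≤ w a) (F G : (I → A) → ℝ) :
    ex w (fun x => F x * G x) ^ 2 ≤ ex w (fun x => F x ^ 2) * ex w (fun x => G x ^ 2) := by
  unfold ex
  have hp : ∀ x : I → A, 0 ≤ ∏ i, w (x i) := fun x => prod_nonneg fun i _ => hw (x i)
  have h := sum_mul_sq_le_sq_mul_sq (univ : Finset (I → A))
    (fun x => Real.sqrt (∏ i, w (x i)) * F x) (fun x => Real.sqrt (∏ i, w (x i)) * G x)
  have e1 : ∀ x : I → A, Real.sqrt (∏ i, w (x i)) * F x * (Real.sqrt (∏ i, w (x i)) * G x) =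
      (∏ i, w (x i)) * (F x * G x) := by
    intro x
    have := Real.mul_self_sqrt (hp x)
    calc Real.sqrt (∏ i, w (x i)) * F x * (Real.sqrt (∏ i, w (x i)) * G x)
        = (Real.sqrt (∏ i, w (x i)) * Real.sqrt (∏ i, w (x i))) * (F x * G x) := by ring
      _ = _ := by rw [this]
  have e2 : ∀ (H : (I → A) → ℝ) (x : I → A), (Real.sqrt (∏ i, w (x i)) * H x) ^ 2 =
      (∏ i, w (x i)) * H x ^ 2 := by
    intro H x
    rw [mul_pow, Real.sq_sqrt (hp x)]
  simp only [e1, e2] at h
  exact h

theorem pr_nonneg {w : A → ℝ} (hw : ∀ a, 0 ≤ w a) (P : (I → A) → Prop) : 0 ≤ pr w P :=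
  ex_nonneg hw fun x => ind_nonneg (P x)

theorem pr_mono {w : A → ℝ} (hw : ∀ a, 0 ≤ w a) {P Q : (I → A) → Prop} (h : ∀ x, P x → Q x) :
    pr w P ≤ pr w Q :=
  ex_mono hw fun x => ind_mono (h x)

theorem pr_le_one {w : A → ℝ} (hw : ∀ a, 0 ≤ w a) (h1 : ∑ a, w a = 1) (P : (I → A) → Prop) :
    pr w P ≤ 1 := by
  calc pr w P ≤ ex w (fun _ : I → A => (1 : ℝ)) := ex_mono hw fun x => ind_le_one (P x)
    _ = 1 := ex_one h1

theorem pr_or_le {w : A → ℝ} (hw : ∀ a, 0 ≤ w a) (P Q : (I → A) → Prop) :
    pr w (fun x => P x ∨ Q x) ≤ pr w P + pr w Q := by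
  unfold pr
  rw [← ex_add]
  refine ex_mono hw fun x => ?_
  by_cases hP : P x
  · rw [ind_of hP]
    have := ind_nonneg (Q x)
    have := ind_le_one (P x ∨ Q x)
    linarith
  · by_cases hQ : Q x
    · rw [ind_of hQ]
      have := ind_nonneg (P x)
      have := ind_le_one (P x ∨ Q x)
      linarith
    · rw [ind_of_not hP, ind_of_not hQ, ind_of_not (by tauto)]
      norm_num

theorem pr_exists_le {J : Type} (s : Finset J) {w : A → ℝ} (hw : ∀ a, 0 ≤ w a)
    (P : J → (I → A) → Prop) :
    pr w (fun x => ∃ j ∈ s, P j x) ≤ ∑ j ∈ s, pr w (P j) := by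
  unfold pr
  rw [← ex_sum]
  refine ex_mono hw fun x => ?_
  by_cases h : ∃ j ∈ s, P j x
  · obtain ⟨j, hj, hPj⟩ := h
    have h1 : ind (P j x) ≤ ∑ j ∈ s, ind (P j x) :=
      single_le_sum (f := fun j => ind (P j x)) (fun j _ => ind_nonneg (P j x)) hj
    rw [ind_of hPj] at h1
    exact (ind_le_one _).trans h1
  · rw [ind_of_not h]
    exact sum_nonneg fun j _ => ind_nonneg (P j x)

/-- if the bad events have total probability less than one some point is good -/
theorem exists_good {w : A → ℝ} (hw : ∀ a, 0 ≤ w a) (h1 : ∑ a, w a = 1) {P : (I → A) → Prop}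
    (h : pr w P < 1) : ∃ x, ¬ P x := by
  by_contra hno
  push Not at hno
  have h2 : ex w (fun _ : I → A => (1 : ℝ)) ≤ pr w P :=
    ex_mono hw fun x => by rw [ind_of (hno x)]
  rw [ex_one h1] at h2
  linarith

/-- Markov -/
theorem markov {w : A → ℝ} (hw : ∀ a, 0 ≤ w a) {F : (I → A) → ℝ} (hF : ∀ x, 0 ≤ F x) {c : ℝ}
    (hc : 0 < c) : pr w (fun x => c ≤ F x) ≤ ex w F / c := by
  rw [le_div_iff₀ hc, mul_comm]
  unfold pr
  rw [← ex_mul]
  refine ex_mono hw fun x => ?_
  by_cases h : c ≤ F x
  · rw [ind_of h]; linarith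
  · rw [ind_of_not h]; linarith [hF x]

theorem ex_push {B C : Type} [Fintype B] [Fintype C] [DecidableEq C] (u : A → ℝ) (v : B → ℝ)
    (w : C → ℝ) (φ : A → B → C)
    (h : ∀ c, w c = ∑ a, ∑ b, if φ a b = c then u a * v b else 0) (F : (I → C) → ℝ) :
    ex u (fun x : I → A => ex v (fun y : I → B => F (fun i => φ (x i) (y i)))) = ex w F := by
  classical
  unfold ex
  have h1 : ∀ z : I → C, ∏ i, w (z i) = ∑ x : I → A, ∑ y : I → B,
      if (fun i => φ (x i) (y i)) = z then (∏ i, u (x i)) * ∏ i, v (y i) else 0 := by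
    intro z
    calc ∏ i, w (z i) = ∏ i, ∑ a, ∑ b, (if φ a b = z i then u a * v b else 0) :=
          prod_congr rfl fun i _ => h (z i)
      _ = ∑ x : I → A, ∏ i, ∑ b, (if φ (x i) b = z i then u (x i) * v b else 0) := by
          rw [prod_univ_sum, Fintype.piFinset_univ]
      _ = ∑ x : I → A, ∑ y : I → B, ∏ i, (if φ (x i) (y i) = z i then u (x i) * v (y i) else 0) := by
          refine sum_congr rfl fun x _ => ?_
          rw [prod_univ_sum, Fintype.piFinset_univ]
      _ = _ := by
          refine sum_congr rfl fun x _ => sum_congr rfl fun y _ => ?_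
          by_cases hz : (fun i => φ (x i) (y i)) = z
          · rw [if_pos hz, ← prod_mul_distrib]
            refine prod_congr rfl fun i _ => ?_
            rw [if_pos (congrFun hz i)]
          · rw [if_neg hz]
            have : ∃ i, φ (x i) (y i) ≠ z i := by
              by_contra hno
              push Not at hno
              exact hz (funext hno)
            obtain ⟨i, hi⟩ := this
            exact prod_eq_zero (mem_univ i) (by rw [if_neg hi])
  calc ∑ x : I → A, (∏ i, u (x i)) * ∑ y : I → B, (∏ i, v (y i)) * F (fun i => φ (x i) (y i))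
      = ∑ x : I → A, ∑ y : I → B, ∑ z : I → C,
          (if (fun i => φ (x i) (y i)) = z then (∏ i, u (x i)) * ∏ i, v (y i) else 0) * F z := by
        refine sum_congr rfl fun x _ => ?_
        rw [mul_sum]
        refine sum_congr rfl fun y _ => ?_
        rw [sum_eq_single (fun i => φ (x i) (y i))]
        · rw [if_pos rfl]; ring
        · intro z _ hz
          rw [if_neg (Ne.symm hz), zero_mul]
        · intro hno
          exact absurd (mem_univ _) hno
    _ = ∑ z : I → C, (∏ i, w (z i)) * F z := by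
        have h2 : ∀ z : I → C, (∏ i, w (z i)) * F z = ∑ x : I → A, ∑ y : I → B,
            (if (fun i => φ (x i) (y i)) = z then (∏ i, u (x i)) * ∏ i, v (y i) else 0) * F z := by
          intro z
          rw [h1 z, sum_mul]
          refine sum_congr rfl fun x _ => ?_
          rw [sum_mul]
        refine Eq.trans (sum_congr rfl fun x _ => sum_comm) (Eq.trans sum_comm ?_)
        exact sum_congr rfl fun z _ => (h2 z).symm

theorem w2_nonneg {p : ℝ} (h0 : 0 ≤ p) (h1 : p ≤ 1) (b : Bool) : 0 ≤ w2 p b := by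
  unfold w2
  split_ifs
  · exact h0
  · linarith

theorem w2_sum (p : ℝ) : ∑ b, w2 p b = 1 := by
  rw [Fintype.sum_bool]
  simp [w2]

theorem w3_nonneg {p q : ℝ} (h0 : 0 ≤ p) (h1 : 0 ≤ q) (h2 : p + q ≤ 1) (b : Option Bool) :
    0 ≤ w3 p q b := by
  rcases b with _ | _ | _
  · exact h1
  · show 0 ≤ 1 - p - q
    linarith
  · exact h0

theorem w3_sum (p q : ℝ) : ∑ b, w3 p q b = 1 := by
  rw [Fintype.sum_option, Fintype.sum_bool]
  show q + (p + (1 - p - q)) = 1
  ring

theorem pr_cyl (p : ℝ) (E : Finset I) :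
    pr (w2 p) (fun R : I → Bool => ∀ i ∈ E, R i = true) = p ^ E.card := by
  classical
  unfold pr
  have h1 : (fun R : I → Bool => ind (∀ i ∈ E, R i = true)) =
      fun R : I → Bool => ∏ i, (fun (i : I) (b : Bool) => if i ∈ E then (if b then (1 : ℝ) else 0)
        else 1) i (R i) := by
    funext R
    by_cases h : ∀ i ∈ E, R i = true
    · rw [ind_of h]
      symm
      refine prod_eq_one fun i _ => ?_
      by_cases hi : i ∈ E
      · simp [hi, h i hi]
      · simp [hi]
    · rw [ind_of_not h]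
      push Not at h
      obtain ⟨i, hi, hR⟩ := h
      symm
      refine prod_eq_zero (mem_univ i) ?_
      simp only [hi, if_true]
      rw [if_neg hR]
  rw [h1]
  refine (ex_prod (w2 p) (fun (i : I) (b : Bool) => if i ∈ E then (if b then (1 : ℝ) else 0)
    else 1)).trans ?_
  have h2 : ∀ i : I, ∑ a, w2 p a * (if i ∈ E then (if a then (1 : ℝ) else 0) else 1) =
      if i ∈ E then p else 1 := by
    intro i
    rw [Fintype.sum_bool]
    by_cases hi : i ∈ E
    · simp [hi, w2]
    · simp [hi, w2]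
  rw [prod_congr rfl fun i _ => h2 i, prod_ite]
  simp

/-- first a round with ones `p` and stars `q`, then a round with ones `p'` and stars `q'` -/
theorem ex_cmp (p q p' q' : ℝ) (F : Res I → ℝ) :
    ex (w3 p q) (fun ρ => ex (w3 p' q') (fun τ => F (cmp ρ τ))) =
      ex (w3 (p + q * p') (q * q')) F := by
  have h := ex_push (I := I) (w3 p q) (w3 p' q') (w3 (p + q * p') (q * q'))
    (fun a b : Option Bool => a.elim b some) (by
      intro c
      rw [Fintype.sum_option, Fintype.sum_bool]
      simp only [Fintype.sum_option, Fintype.sum_bool, Option.elim]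
      rcases c with _ | _ | _
      · simp [w3]
      · simp [w3]; ring
      · simp [w3]; ring) F
  exact h

/-- given the ones `Γ` the other coordinates are stars independently with probability `q` -/
theorem ex_ones (p q : ℝ) (F : Res I → ℝ) :
    ex (w2 p) (fun Γ : I → Bool => ex (w2 q) (fun R : I → Bool =>
      F (fun i => if Γ i then some true else if R i then none else some false))) =
      ex (w3 p ((1 - p) * q)) F := by
  have h := ex_push (I := I) (w2 p) (w2 q) (w3 p ((1 - p) * q))
    (fun a b : Bool => if a then some true else if b then none else some false) (by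
      intro c
      simp only [Fintype.sum_bool]
      rcases c with _ | _ | _
      · simp [w3, w2]
      · simp [w3, w2]; ring
      · simp [w3, w2]; ring) F
  exact h

end P18dd
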