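import Pool.Agent.Lib.P18dd.Defs

/-! P18dd.RComp (helper20): components of sets of edges of a path. -/

set_option autoImplicit false

namespace P18dd

namespace R

open Finset

/-- left end of the component of `i` in `F` -/
def lf (F : Finset ℕ) (i : ℕ) : ℕ :=
  Nat.find (p := fun a => Icc a i ⊆ F) ⟨i + 1, by simp⟩

theorem lf_sub (F : Finset ℕ) (i : ℕ) : Icc (lf F i) i ⊆ F :=
  Nat.find_spec (p := fun a => Icc a i ⊆ F) ⟨i + 1, by simp⟩

theorem lf_le {F : Finset ℕ} {i a : ℕ} (h : Icc a i ⊆ F) : lf F i ≤ a :=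
  Nat.find_min' (p := fun a => Icc a i ⊆ F) ⟨i + 1, by simp⟩ h

theorem lf_le_self {F : Finset ℕ} {i : ℕ} (h : i ∈ F) : lf F i ≤ i :=
  lf_le (by simpa using h)

theorem lf_mem {F : Finset ℕ} {i : ℕ} (h : i ∈ F) : lf F i ∈ F :=
  lf_sub F i (by simp [lf_le_self h])

/-- the left ends -/
def LE (F : Finset ℕ) : Finset ℕ := F.filter fun a => ∀ j ∈ F, j + 1 ≠ a

theorem comps_eq (F : Finset ℕ) : comps F = (LE F).card := rfl

theorem mem_LE {F : Finset ℕ} {a : ℕ} : a ∈ LE F ↔ a ∈ F ∧ ∀ j ∈ F, j + 1 ≠ a := by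
  simp [LE]

theorem lf_mem_LE {F : Finset ℕ} {i : ℕ} (h : i ∈ F) : lf F i ∈ LE F := by
  rw [mem_LE]
  refine ⟨lf_mem h, fun j hj hji => ?_⟩
  have : lf F i ≤ j := by
    apply lf_le
    intro x hx
    rw [mem_Icc] at hx
    rcases Nat.eq_or_lt_of_le hx.1 with h1 | h1
    · rw [← h1]; exact hj
    · exact lf_sub F i (by rw [mem_Icc]; omega)
  omega

theorem lf_of_LE {F : Finset ℕ} {a : ℕ} (h : a ∈ LE F) : lf F a = a := by
  rw [mem_LE] at h
  have h1 := lf_le_self h.1
  by_contra hne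
  have h2 : a - 1 ∈ F := lf_sub F a (by rw [mem_Icc]; omega)
  exact h.2 (a - 1) h2 (by omega)

theorem lf_adj {F : Finset ℕ} {i : ℕ} (_h : i ∈ F) (h' : i + 1 ∈ F) : lf F (i + 1) = lf F i := by
  apply le_antisymm
  · apply lf_le
    intro x hx
    rw [mem_Icc] at hx
    rcases Nat.eq_or_lt_of_le hx.2 with h1 | h1
    · rw [h1]; exact h'
    · exact lf_sub F i (by rw [mem_Icc]; omega)
  · apply lf_le
    intro x hx
    rw [mem_Icc] at hx
    exact lf_sub F (i + 1) (by rw [mem_Icc]; omega)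

/-- the class of a left end -/
def cl (F : Finset ℕ) (a : ℕ) : Finset ℕ := F.filter fun i => lf F i = a

theorem mem_cl {F : Finset ℕ} {a i : ℕ} : i ∈ cl F a ↔ i ∈ F ∧ lf F i = a := by simp [cl]

theorem cl_sub (F : Finset ℕ) (a : ℕ) : cl F a ⊆ F := filter_subset _ _

theorem cl_isComp {F : Finset ℕ} {a : ℕ} (h : a ∈ LE F) : IsComp (cl F a) F := by
  have hne : (cl F a).Nonempty := ⟨a, by rw [mem_cl]; exact ⟨(mem_LE.1 h).1, lf_of_LE h⟩⟩
  set b := (cl F a).max' hne with hb
  have hbm : b ∈ cl F a := max'_mem _ _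
  have hbm' := mem_cl.1 hbm
  have hab : a ≤ b := by
    have := lf_le_self hbm'.1
    omega
  have hsub : Icc a b ⊆ F := by
    have := lf_sub F b
    rw [hbm'.2] at this
    exact this
  refine ⟨a, b, hab, ?_, hsub, (mem_LE.1 h).2, ?_⟩
  · ext i
    rw [mem_cl, mem_Icc]
    constructor
    · rintro ⟨h1, h2⟩
      refine ⟨by have := lf_le_self h1; omega, le_max' _ _ (by rw [mem_cl]; exact ⟨h1, h2⟩)⟩
    · rintro ⟨h1, h2⟩
      have hiF : i ∈ F := hsub (by rw [mem_Icc]; exact ⟨h1, h2⟩)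
      refine ⟨hiF, le_antisymm ?_ ?_⟩
      · apply lf_le
        intro x hx
        rw [mem_Icc] at hx
        exact hsub (by rw [mem_Icc]; omega)
      · by_contra hlt
        push Not at hlt
        have : a - 1 ∈ F := lf_sub F i (by rw [mem_Icc]; omega)
        exact (mem_LE.1 h).2 (a - 1) this (by omega)
  · intro hb1
    have h1 : b + 1 ∈ cl F a := by
      rw [mem_cl]
      exact ⟨hb1, by rw [lf_adj hbm'.1 hb1]; exact hbm'.2⟩
    have := le_max' _ _ h1
    omega

/-- a component is the class of its left end -/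
theorem isComp_cl {R F : Finset ℕ} (h : IsComp R F) : ∃ a ∈ LE F, R = cl F a := by
  obtain ⟨a, b, hab, rfl, hsub, hl, hr⟩ := h
  have haF : a ∈ F := hsub (by rw [mem_Icc]; omega)
  have ha : a ∈ LE F := by
    rw [mem_LE]; exact ⟨haF, hl⟩
  refine ⟨a, ha, ?_⟩
  ext i
  rw [mem_cl, mem_Icc]
  constructor
  · rintro ⟨h1, h2⟩
    refine ⟨hsub (by rw [mem_Icc]; omega), le_antisymm ?_ ?_⟩
    · apply lf_le
      intro x hx
      rw [mem_Icc] at hx
      exact hsub (by rw [mem_Icc]; omega)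
    · by_contra hlt
      push Not at hlt
      have : a - 1 ∈ F := lf_sub F i (by rw [mem_Icc]; omega)
      exact hl (a - 1) this (by omega)
  · rintro ⟨h1, h2⟩
    have h3 := lf_le_self h1
    refine ⟨by omega, ?_⟩
    by_contra hlt
    push Not at hlt
    exact hr (lf_sub F i (by rw [mem_Icc]; omega))

/-- unions of classes are full -/
theorem full_filter (F : Finset ℕ) (Q : ℕ → Prop) [DecidablePred Q] :
    Full (F.filter fun i => Q (lf F i)) F := by
  refine ⟨filter_subset _ _, ?_⟩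
  intro x hx y hy hxy
  rw [mem_filter] at hx ⊢
  refine ⟨hy, ?_⟩
  rcases hxy with h | h
  · subst h
    rw [lf_adj hx.1 hy]; exact hx.2
  · subst h
    rw [← lf_adj hy hx.1]; exact hx.2

theorem LE_filter (F : Finset ℕ) (Q : ℕ → Prop) [DecidablePred Q] :
    LE (F.filter fun i => Q (lf F i)) = (LE F).filter Q := by
  ext a
  simp only [mem_LE, mem_filter]
  constructor
  · rintro ⟨⟨h1, h2⟩, h3⟩
    have h4 : ∀ j ∈ F, j + 1 ≠ a := by
      intro j hj hja
      subst hja
      exact h3 j ⟨hj, by rw [← lf_adj hj h1]; exact h2⟩ rfl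
    have h5 : a ∈ LE F := mem_LE.2 ⟨h1, h4⟩
    rw [lf_of_LE h5] at h2
    exact ⟨⟨h1, h4⟩, h2⟩
  · rintro ⟨⟨h1, h2⟩, h3⟩
    have h5 : a ∈ LE F := mem_LE.2 ⟨h1, h2⟩
    refine ⟨⟨h1, by rw [lf_of_LE h5]; exact h3⟩, fun j hj => h2 j hj.1⟩

theorem comps_filter (F : Finset ℕ) (Q : ℕ → Prop) [DecidablePred Q] :
    comps (F.filter fun i => Q (lf F i)) = ((LE F).filter Q).card := by
  rw [comps_eq, LE_filter]

theorem full_cl (F : Finset ℕ) (a : ℕ) : Full (cl F a) F :=
  full_filter F (fun i => i = a)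

theorem comps_cl {F : Finset ℕ} {a : ℕ} (h : a ∈ LE F) : comps (cl F a) = 1 := by
  have := comps_filter F (fun i => i = a)
  rw [cl, this, filter_eq' _ a, if_pos h, card_singleton]

/-- size of a class of a short set -/
theorem card_cl_le {K : ℕ} {F : Finset ℕ} (hF : Short K F) {a : ℕ} (h : a ∈ LE F) :
    (cl F a).card ≤ K := by
  obtain ⟨a', b, hab, hR, hsub, _, _⟩ := cl_isComp h
  rw [hR, Nat.card_Icc]
  by_contra hlt
  push Not at hlt
  apply hF a'
  intro x hx
  rw [mem_Icc] at hx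
  exact hsub (by rw [mem_Icc]; omega)

theorem short_mono {K : ℕ} {F G : Finset ℕ} (hF : Short K F) (h : G ⊆ F) : Short K G :=
  fun a ha => hF a (ha.trans h)

theorem card_le_comps {K : ℕ} {F : Finset ℕ} (hF : Short K F) : F.card ≤ K * comps F := by
  rw [comps_eq]
  have h := card_eq_sum_card_fiberwise (s := F) (t := LE F) (f := lf F) (fun i hi => lf_mem_LE hi)
  rw [h, mul_comm, ← smul_eq_mul, ← sum_const]
  exact sum_le_sum fun a ha => card_cl_le hF ha

theorem comps_pos {F : Finset ℕ} (h : F.Nonempty) : 1 ≤ comps F := by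
  obtain ⟨i, hi⟩ := h
  rw [comps_eq]
  exact card_pos.2 ⟨_, lf_mem_LE hi⟩

/-- a set with one component is an interval -/
theorem comps_one {F : Finset ℕ} (h : comps F = 1) : ∃ a b, a ≤ b ∧ F = Icc a b := by
  rw [comps_eq, card_eq_one] at h
  obtain ⟨a, ha⟩ := h
  have haF : a ∈ LE F := by rw [ha]; simp
  have hF : F = cl F a := by
    ext i
    rw [mem_cl]
    constructor
    · intro hi
      refine ⟨hi, ?_⟩
      have := lf_mem_LE hi
      rw [ha, mem_singleton] at this
      exact this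
    · exact fun h => h.1
  obtain ⟨a', b, hab, hR, _, _, _⟩ := cl_isComp haF
  exact ⟨a', b, hab, by rw [← hR]; exact hF⟩

/-- the components of `F` missed by `G` -/
def miss (F G : Finset ℕ) : Finset ℕ := F.filter fun i => ∀ g ∈ G, lf F g ≠ lf F i

theorem miss_full (F G : Finset ℕ) : Full (miss F G) F :=
  full_filter F (fun a => ∀ g ∈ G, lf F g ≠ a)

theorem miss_sub (F G : Finset ℕ) : miss F G ⊆ F := filter_subset _ _

/-- left ends of `G ∩ R` -/
theorem LE_inter {F G : Finset ℕ} (hG : G ⊆ F) (a : ℕ) :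
    LE (G ∩ cl F a) = (LE G).filter (· ∈ cl F a) := by
  ext m
  simp only [mem_LE, mem_filter, mem_inter]
  constructor
  · rintro ⟨⟨h1, h2⟩, h3⟩
    refine ⟨⟨h1, ?_⟩, h2⟩
    intro j hj hjm
    subst hjm
    have hc := mem_cl.1 h2
    refine h3 j ⟨hj, ?_⟩ rfl
    rw [mem_cl]
    exact ⟨hG hj, by rw [← lf_adj (hG hj) (hG h1)]; exact hc.2⟩
  · rintro ⟨⟨h1, h2⟩, h3⟩
    exact ⟨⟨h1, h3⟩, fun j hj => h2 j hj.1⟩

/-- `comps G >= comps F - (missed components) + (components of `G` in `R`) - 1` -/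
theorem comps_ineq {F G : Finset ℕ} (hG : G ⊆ F) {a : ℕ} (ha : a ∈ LE F)
    (hR : (G ∩ cl F a).Nonempty) :
    comps F + comps (G ∩ cl F a) ≤ comps G + comps (miss F G) + 1 := by
  classical
  -- the hit labels other than a
  set Hit := ((LE F).filter (fun x => ¬ ∀ g ∈ G, lf F g ≠ x)).erase a with hHit
  have hJ : comps (miss F G) = ((LE F).filter (fun x => ∀ g ∈ G, lf F g ≠ x)).card :=
    comps_filter F (fun x => ∀ g ∈ G, lf F g ≠ x)
  have hsplit : ((LE F).filter (fun x => ∀ g ∈ G, lf F g ≠ x)).card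
      + ((LE F).filter (fun x => ¬ ∀ g ∈ G, lf F g ≠ x)).card = (LE F).card :=
    card_filter_add_card_filter_not _
  have haHit : a ∈ (LE F).filter (fun x => ¬ ∀ g ∈ G, lf F g ≠ x) := by
    rw [mem_filter]
    refine ⟨ha, ?_⟩
    obtain ⟨g, hg⟩ := hR
    rw [mem_inter, mem_cl] at hg
    intro h
    exact h g hg.1 hg.2.2
  have hcard : Hit.card + 1 = ((LE F).filter (fun x => ¬ ∀ g ∈ G, lf F g ≠ x)).card := by
    rw [hHit, card_erase_of_mem haHit]
    have := card_pos.2 ⟨a, haHit⟩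
    omega
  -- injection of Hit into the left ends of G outside R
  have hinj : Hit.card ≤ ((LE G).filter (fun m => ¬ m ∈ cl F a)).card := by
    have hex : ∀ x ∈ Hit, ∃ m ∈ (LE G).filter (fun m => ¬ m ∈ cl F a), lf F m = x := by
      intro x hx
      rw [hHit, mem_erase, mem_filter] at hx
      obtain ⟨hxa, hxF, hxh⟩ := hx
      push Not at hxh
      obtain ⟨g, hg, hgx⟩ := hxh
      have hne : (G.filter fun i => lf F i = x).Nonempty := ⟨g, by rw [mem_filter]; exact ⟨hg, hgx⟩⟩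
      set m := (G.filter fun i => lf F i = x).min' hne with hm
      have hmm : m ∈ G.filter fun i => lf F i = x := min'_mem _ _
      rw [mem_filter] at hmm
      refine ⟨m, ?_, hmm.2⟩
      rw [mem_filter, mem_LE]
      refine ⟨⟨hmm.1, ?_⟩, ?_⟩
      · intro j hj hjm
        have h1 : j ∈ G.filter fun i => lf F i = x := by
          rw [mem_filter]
          refine ⟨hj, ?_⟩
          rw [← lf_adj (hG hj) (by rw [hjm]; exact hG hmm.1), hjm]
          exact hmm.2
        have := min'_le _ _ h1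
        omega
      · intro hc
        rw [mem_cl, hmm.2] at hc
        exact hxa hc.2
    choose! f hf1 hf2 using hex
    apply card_le_card_of_injOn f (fun x hx => hf1 x hx)
    intro x hx y hy hxy
    rw [← hf2 x hx, ← hf2 y hy, hxy]
  have hsplit2 : ((LE G).filter (fun m => m ∈ cl F a)).card
      + ((LE G).filter (fun m => ¬ m ∈ cl F a)).card = (LE G).card :=
    card_filter_add_card_filter_not _
  have h3 : comps (G ∩ cl F a) = ((LE G).filter (fun m => m ∈ cl F a)).card := by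
    rw [comps_eq, LE_inter hG]
  rw [comps_eq F, comps_eq G, hJ, h3]
  omega

/-- a large component of `G` inside `R` -/
theorem big_comp {F G : Finset ℕ} (hG : G ⊆ F) {a : ℕ} (hR : (G ∩ cl F a).Nonempty) :
    ∃ R', IsComp R' G ∧ (G ∩ cl F a).card ≤ R'.card * comps (G ∩ cl F a) := by
  classical
  have hmap : ∀ i ∈ G ∩ cl F a, lf G i ∈ LE (G ∩ cl F a) := by
    intro i hi
    rw [mem_inter, mem_cl] at hi
    rw [LE_inter hG, mem_filter]
    refine ⟨lf_mem_LE hi.1, ?_⟩
    rw [mem_cl]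
    refine ⟨hG (lf_mem hi.1), ?_⟩
    have h1 : Icc (lf G i) i ⊆ F := (lf_sub G i).trans hG
    have h2 := lf_le_self hi.1
    -- lf F is constant on an interval of F
    have key : ∀ d, lf G i + d ≤ i → lf F (lf G i + d) = lf F (lf G i) := by
      intro d
      induction d with
      | zero => intro _; rfl
      | succ d ih =>
        intro hd
        rw [← ih (by omega), ← Nat.add_assoc]
        exact lf_adj (h1 (by rw [mem_Icc]; omega)) (h1 (by rw [mem_Icc]; omega))
    have h3 := key (i - lf G i) (by omega)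
    rw [show lf G i + (i - lf G i) = i by omega] at h3
    rw [← h3]
    exact hi.2.2
  have h := card_eq_sum_card_fiberwise (s := G ∩ cl F a) (t := LE (G ∩ cl F a)) (f := lf G) hmap
  have hne : (LE (G ∩ cl F a)).Nonempty := by
    obtain ⟨i, hi⟩ := hR
    exact ⟨_, hmap i hi⟩
  obtain ⟨m, hm, hmax⟩ := exists_max_image (LE (G ∩ cl F a))
    (fun m => ((G ∩ cl F a).filter fun i => lf G i = m).card) hne
  have hmG : m ∈ LE G := by
    rw [LE_inter hG, mem_filter] at hm
    exact hm.1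
  refine ⟨cl G m, cl_isComp hmG, ?_⟩
  have h1 : (G ∩ cl F a).card ≤
      (LE (G ∩ cl F a)).card * ((G ∩ cl F a).filter fun i => lf G i = m).card := by
    rw [h, ← smul_eq_mul, ← sum_const]
    exact sum_le_sum fun x hx => hmax x hx
  have h2 : ((G ∩ cl F a).filter fun i => lf G i = m).card ≤ (cl G m).card := by
    apply card_le_card
    intro i hi
    rw [mem_filter, mem_inter] at hi
    rw [mem_cl]
    exact ⟨hi.1.1, hi.2⟩
  rw [comps_eq]
  calc (G ∩ cl F a).card ≤ (LE (G ∩ cl F a)).card *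
        ((G ∩ cl F a).filter fun i => lf G i = m).card := h1
    _ ≤ (LE (G ∩ cl F a)).card * (cl G m).card := Nat.mul_le_mul_left _ h2
    _ = _ := Nat.mul_comm _ _

theorem mem_Ve {k : ℕ} {F : Finset ℕ} {v : Fin (k + 1)} :
    v ∈ Ve k F ↔ (v : ℕ) ∈ F ∨ ∃ j ∈ F, (v : ℕ) = j + 1 := by
  simp [Ve]

theorem Ve_mono {k : ℕ} {F G : Finset ℕ} (h : F ⊆ G) : Ve k F ⊆ Ve k G := by
  intro v hv
  rw [mem_Ve] at *
  rcases hv with h1 | ⟨j, h1, h2⟩
  · exact Or.inl (h h1)
  · exact Or.inr ⟨j, h h1, h2⟩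

/-- vertex disjointness of sets of edges without equal or adjacent edges -/
theorem Ve_disj {k : ℕ} {F G : Finset ℕ}
    (h : ∀ i ∈ F, ∀ j ∈ G, i ≠ j ∧ i + 1 ≠ j ∧ j + 1 ≠ i) : Disjoint (Ve k F) (Ve k G) := by
  rw [disjoint_left]
  intro v hv hv'
  rw [mem_Ve] at hv hv'
  rcases hv with h1 | ⟨i, h1, h2⟩ <;> rcases hv' with h3 | ⟨j, h3, h4⟩
  · exact (h _ h1 _ h3).1 rfl
  · exact (h _ h1 _ h3).2.2 h4.symm
  · exact (h _ h1 _ h3).2.1 h2.symm
  · exact (h _ h1 _ h3).1 (by omega)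

/-- a full set is vertex disjoint from the rest -/
theorem full_disj {k : ℕ} {J F B : Finset ℕ} (h : Full J F) (hB : B ⊆ F) (hd : Disjoint J B) :
    Disjoint (Ve k J) (Ve k B) := by
  apply Ve_disj
  intro i hi j hj
  rw [disjoint_left] at hd
  refine ⟨?_, ?_, ?_⟩
  · rintro rfl; exact hd hi hj
  · intro hij
    exact hd (h.2 i hi j (hB hj) (Or.inl hij.symm)) hj
  · intro hij
    exact hd (h.2 i hi j (hB hj) (Or.inr hij.symm)) hj

theorem miss_disj {F G : Finset ℕ} : Disjoint (miss F G) G := by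
  rw [disjoint_left]
  intro i hi hg
  rw [miss, mem_filter] at hi
  exact hi.2 i hg rfl

end R

end P18dd
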