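import Pool.Agent.Lib.P18dd.Defs

/-! P18dd (helper20): fibres of a finite product, `SmallG`, Fubini and the Markov dichotomy. -/

set_option autoImplicit false

namespace P18dd

namespace R

open Finset
open scoped Classical

variable {ι α : Type*} [Fintype ι] [DecidableEq ι] [Fintype α]

/-- the fibre of `x`: all points which agree with `x` outside `U` -/
noncomputable def fib (x : ι → α) (U : Finset ι) : Finset (ι → α) :=
  Finset.univ.filter (fun y => ∀ i, i ∉ U → y i = x i)

theorem mem_fib {x y : ι → α} {U : Finset ι} : y ∈ fib x U ↔ ∀ i, i ∉ U → y i = x i := by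
  simp [fib]

theorem fib_comm {x y : ι → α} {U : Finset ι} : y ∈ fib x U ↔ x ∈ fib y U := by
  simp only [mem_fib]
  constructor <;> intro h i hi <;> exact (h i hi).symm

theorem fib_self (x : ι → α) (U : Finset ι) : x ∈ fib x U := by simp [mem_fib]

theorem fib_eq {x y : ι → α} {U : Finset ι} (h : y ∈ fib x U) : fib y U = fib x U := by
  ext z
  simp only [mem_fib] at *
  constructor
  · intro hz i hi
    rw [hz i hi, h i hi]
  · intro hz i hi
    rw [hz i hi, h i hi]

theorem fib_mono {x : ι → α} {U W : Finset ι} (h : U ⊆ W) : fib x U ⊆ fib x W := by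
  intro z hz
  rw [mem_fib] at *
  intro i hi
  exact hz i (fun hh => hi (h hh))

theorem card_fib (x : ι → α) (U : Finset ι) : (fib x U).card = Fintype.card α ^ U.card := by
  have h : fib x U = Fintype.piFinset (fun i => if i ∈ U then Finset.univ else {x i}) := by
    ext y
    simp only [mem_fib, Fintype.mem_piFinset]
    constructor
    · intro hy i
      by_cases hi : i ∈ U
      · simp [hi]
      · simp [hi, hy i hi]
    · intro hy i hi
      have := hy i
      simpa [hi] using this
  rw [h, Fintype.card_piFinset]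
  have h2 : ∀ i, (if i ∈ U then (Finset.univ : Finset α) else {x i}).card
      = if i ∈ U then Fintype.card α else 1 := by
    intro i
    by_cases hi : i ∈ U <;> simp [hi, Finset.card_univ]
  simp only [h2]
  rw [Finset.prod_ite]
  simp

/-- number of points of the fibre in `S` -/
noncomputable def cn (S : (ι → α) → Prop) (x : ι → α) (U : Finset ι) : ℕ :=
  ((fib x U).filter S).card

theorem cn_mono {S S' : (ι → α) → Prop} {x : ι → α} {U : Finset ι}
    (h : ∀ y ∈ fib x U, S y → S' y) : cn S x U ≤ cn S' x U := by
  apply Finset.card_le_card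
  intro y hy
  rw [Finset.mem_filter] at hy ⊢
  exact ⟨hy.1, h y hy.1 hy.2⟩

theorem cn_zero {S : (ι → α) → Prop} {x : ι → α} {U : Finset ι}
    (h : ∀ y ∈ fib x U, ¬ S y) : cn S x U = 0 := by
  rw [cn, Finset.card_eq_zero, Finset.filter_eq_empty_iff]
  exact h

/-- number of points in `S` -/
noncomputable def cd (S : (ι → α) → Prop) : ℕ := (Finset.univ.filter S).card

theorem cd_mono {S S' : (ι → α) → Prop} (h : ∀ y, S y → S' y) : cd S ≤ cd S' := by
  apply Finset.card_le_card
  intro y hy
  rw [Finset.mem_filter] at hy ⊢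
  exact ⟨hy.1, h y hy.2⟩

theorem cd_le (S : (ι → α) → Prop) : cd S ≤ Fintype.card α ^ Fintype.card ι := by
  calc cd S ≤ (Finset.univ : Finset (ι → α)).card := Finset.card_le_card (Finset.filter_subset _ _)
    _ = _ := by rw [Finset.card_univ, Fintype.card_fun]

theorem cd_zero {S : (ι → α) → Prop} (h : ∀ y, ¬ S y) : cd S = 0 := by
  rw [cd, Finset.card_eq_zero, Finset.filter_eq_empty_iff]
  exact fun y _ => h y

/-- `S` has density at most `1 / E` on every fibre of `U` -/
def SmallG (S : (ι → α) → Prop) (U : Finset ι) (E : ℕ) : Prop :=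
  ∀ x : ι → α, cn S x U * E ≤ Fintype.card α ^ U.card

/-- `S` does not depend on the coordinates in `U` -/
def Inv (S : (ι → α) → Prop) (U : Finset ι) : Prop :=
  ∀ x y : ι → α, y ∈ fib x U → (S y ↔ S x)

theorem Inv.mono {S : (ι → α) → Prop} {U W : Finset ι} (h : Inv S W) (hU : U ⊆ W) : Inv S U :=
  fun x y hy => h x y (fib_mono hU hy)

/-- double counting over the equivalence relation `fib` -/
theorem sum_fib (P : Finset (ι → α)) (S : (ι → α) → Prop) (U : Finset ι)
    (hP : ∀ x y, y ∈ fib x U → (y ∈ P ↔ x ∈ P)) :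
    ∑ x ∈ P, cn S x U = (P.filter S).card * Fintype.card α ^ U.card := by
  have h1 : ∑ x ∈ P, cn S x U
      = ∑ x ∈ P, ∑ y ∈ Finset.univ.filter S, if y ∈ fib x U then 1 else 0 := by
    refine Finset.sum_congr rfl (fun x _ => ?_)
    rw [← Finset.sum_filter, Finset.sum_const, smul_eq_mul, mul_one, cn]
    congr 1
    ext y
    simp [and_comm]
  rw [h1, Finset.sum_comm]
  have h2 : ∀ y ∈ Finset.univ.filter S, (∑ x ∈ P, if y ∈ fib x U then 1 else 0)
      = if y ∈ P then Fintype.card α ^ U.card else 0 := by
    intro y _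
    rw [← Finset.sum_filter, Finset.sum_const, smul_eq_mul, mul_one]
    by_cases hy : y ∈ P
    · rw [if_pos hy, ← card_fib y U]
      congr 1
      ext x
      simp only [Finset.mem_filter]
      constructor
      · rintro ⟨_, h⟩
        exact fib_comm.1 h
      · intro h
        exact ⟨(hP y x h).2 hy, fib_comm.1 h⟩
    · rw [if_neg hy, Finset.card_eq_zero, Finset.filter_eq_empty_iff]
      intro x hx h
      exact hy ((hP x y h).2 hx)
  rw [Finset.sum_congr rfl h2, ← Finset.sum_filter, Finset.sum_const, smul_eq_mul]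
  congr 2
  ext y
  simp [and_comm]

theorem pos_card (x : ι → α) (U : Finset ι) : 0 < Fintype.card α ^ U.card := by
  rw [← card_fib x U]
  exact Finset.card_pos.2 ⟨x, fib_self x U⟩

/-- Fubini: a set of small density on every fibre meets an invariant set in a small part of it -/
theorem fub {S B : (ι → α) → Prop} {U : Finset ι} {E : ℕ}
    (hS : SmallG S U E) (hB : Inv B U) : cd (fun x => S x ∧ B x) * E ≤ cd B := by
  by_cases hne : Nonempty (ι → α)
  swap
  · rw [not_nonempty_iff] at hne
    rw [cd_zero (fun y => (hne.false y).elim)]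
    simp
  obtain ⟨x0⟩ := hne
  have hpos := pos_card x0 U
  have h := sum_fib (Finset.univ.filter B) S U (by intro x y hy; simpa using hB x y hy)
  have h2 : ∑ x ∈ Finset.univ.filter B, cn S x U * E
      ≤ ∑ x ∈ Finset.univ.filter B, Fintype.card α ^ U.card :=
    Finset.sum_le_sum (fun x _ => hS x)
  rw [← Finset.sum_mul, h, Finset.sum_const, smul_eq_mul] at h2
  have h3 : (Finset.univ.filter B).filter S = Finset.univ.filter (fun x => S x ∧ B x) := by
    ext y; simp [and_comm]
  rw [h3] at h2
  have h4 : cd (fun x => S x ∧ B x) * E * Fintype.card α ^ U.card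
      ≤ cd B * Fintype.card α ^ U.card := by
    calc _ = cd (fun x => S x ∧ B x) * Fintype.card α ^ U.card * E := by
          ring
      _ ≤ _ := by
          unfold cd
          convert h2
  exact Nat.le_of_mul_le_mul_right h4 hpos

theorem fib_closed {x : ι → α} {U W : Finset ι} (hU : U ⊆ W) (a b : ι → α) (hab : b ∈ fib a U) :
    (b ∈ fib x W ↔ a ∈ fib x W) := by
  constructor
  · intro hb
    have : b ∈ fib a W := fib_mono hU hab
    rw [fib_comm] at this
    rw [← fib_eq hb]
    exact this
  · intro ha
    rw [← fib_eq ha]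
    exact fib_mono hU hab

theorem SmallG.mono_set {S : (ι → α) → Prop} {U W : Finset ι} {E : ℕ}
    (hS : SmallG S U E) (hU : U ⊆ W) : SmallG S W E := by
  intro x
  have hpos := pos_card x U
  have h := sum_fib (fib x W) S U (fun a b hab => fib_closed hU a b hab)
  have h2 : ∑ y ∈ fib x W, cn S y U * E ≤ ∑ y ∈ fib x W, Fintype.card α ^ U.card :=
    Finset.sum_le_sum (fun y _ => hS y)
  rw [← Finset.sum_mul, h, Finset.sum_const, smul_eq_mul, card_fib] at h2
  have h4 : cn S x W * E * Fintype.card α ^ U.card
      ≤ Fintype.card α ^ W.card * Fintype.card α ^ U.card := by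
    calc _ = cn S x W * Fintype.card α ^ U.card * E := by ring
      _ ≤ _ := h2
  exact Nat.le_of_mul_le_mul_right h4 hpos

/-- a set not depending on `W \ U` has on the fibres of `W` the density of the fibres of `U` -/
theorem SmallG.of_inv {S : (ι → α) → Prop} {U W : Finset ι} {E : ℕ}
    (hS : SmallG S W E) (hU : U ⊆ W) (hI : Inv S (W \ U)) : SmallG S U E := by
  intro x
  have hpos := pos_card x (W \ U)
  have h1 : cn S x U * Fintype.card α ^ (W \ U).card ≤ cn S x W := by
    have h := sum_fib (Finset.univ : Finset (ι → α))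
      (fun z => z ∈ (fib x U).filter S) (W \ U) (by intro a b _; simp)
    have h5 : ∀ y : ι → α, cn (fun z => z ∈ (fib x U).filter S) y (W \ U)
        ≤ if y ∈ (fib x W).filter S then 1 else 0 := by
      intro y
      by_cases hy : y ∈ (fib x W).filter S
      · rw [if_pos hy, cn, Finset.card_le_one]
        intro a ha b hb
        simp only [Finset.mem_filter, mem_fib] at ha hb
        funext i
        by_cases hi : i ∈ U
        · have hiW : i ∉ W \ U := by simp [hi]
          rw [ha.1 i hiW, hb.1 i hiW]
        · rw [ha.2.1 i hi, hb.2.1 i hi]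
      · rw [if_neg hy, Nat.le_zero]
        apply cn_zero
        intro z hz hz2
        apply hy
        simp only [Finset.mem_filter] at hz2 ⊢
        have hzy : y ∈ fib z (W \ U) := fib_comm.1 hz
        refine ⟨?_, (hI z y hzy).2 hz2.2⟩
        rw [mem_fib] at hz ⊢
        have hz2' := hz2.1
        rw [mem_fib] at hz2'
        intro i hi
        have hi1 : i ∉ W \ U := by simp [hi]
        have hi2 : i ∉ U := fun h => hi (hU h)
        rw [← hz i hi1, hz2' i hi2]
    calc cn S x U * Fintype.card α ^ (W \ U).card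
        = ∑ y : ι → α, cn (fun z => z ∈ (fib x U).filter S) y (W \ U) := by
          rw [h, cn]
          congr 2
          ext z; simp
      _ ≤ ∑ y : ι → α, if y ∈ (fib x W).filter S then 1 else 0 :=
          Finset.sum_le_sum (fun y _ => h5 y)
      _ = cn S x W := by
          rw [← Finset.sum_filter, Finset.sum_const, smul_eq_mul, mul_one, cn]
          congr 1
          ext y; simp
  have h2 := hS x
  have h3 : Fintype.card α ^ W.card = Fintype.card α ^ U.card * Fintype.card α ^ (W \ U).card := by
    rw [← pow_add]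
    congr 1
    rw [Finset.card_sdiff_of_subset hU]
    have := Finset.card_le_card hU
    omega
  have h4 : cn S x U * E * Fintype.card α ^ (W \ U).card
      ≤ Fintype.card α ^ U.card * Fintype.card α ^ (W \ U).card := by
    calc _ = cn S x U * Fintype.card α ^ (W \ U).card * E := by ring
      _ ≤ cn S x W * E := Nat.mul_le_mul_right _ h1
      _ ≤ _ := by rw [← h3]; exact h2
  exact Nat.le_of_mul_le_mul_right h4 hpos

/-- the Markov dichotomy of section 2: `X`, `X'` disjoint parts of `W` -/
theorem dichotomy {S : (ι → α) → Prop} {W X X' : Finset ι} {E : ℕ}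
    (hS : SmallG S W (E * E)) (hX : X ⊆ W) (hd : Disjoint X X') :
    ∃ P : (ι → α) → Prop,
      SmallG (fun x => S x ∧ ¬ P x) (W \ X) E ∧ SmallG (fun x => S x ∧ P x) (W \ X') E := by
  obtain ⟨P, hPdef⟩ : ∃ P : (ι → α) → Prop, ∀ x, P x ↔
      Fintype.card α ^ (W \ X).card < cn S x (W \ X) * E := ⟨_, fun x => Iff.rfl⟩
  have hPinv : Inv P (W \ X) := by
    intro x y hy
    rw [hPdef, hPdef]
    simp only [cn, fib_eq hy]
  refine ⟨P, ?_, ?_⟩
  · intro x
    by_cases hx : P x
    · rw [cn_zero]
      · simp
      · rintro y hy ⟨_, h2⟩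
        exact h2 ((hPinv x y hy).2 hx)
    · have h1 : cn (fun y => S y ∧ ¬ P y) x (W \ X) ≤ cn S x (W \ X) :=
        cn_mono (fun y _ h => h.1)
      have h2 : cn S x (W \ X) * E ≤ Fintype.card α ^ (W \ X).card := by
        rw [hPdef] at hx
        exact Nat.le_of_not_lt hx
      exact (Nat.mul_le_mul_right _ h1).trans h2
  · have hP1 : SmallG P W E := by
      intro x
      have hpos := pos_card x (W \ X)
      have h1 : cn P x W * Fintype.card α ^ (W \ X).card
          ≤ ∑ y ∈ (fib x W).filter P, cn S y (W \ X) * E := by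
        rw [cn, ← smul_eq_mul, ← Finset.sum_const]
        refine Finset.sum_le_sum (fun y hy => ?_)
        rw [Finset.mem_filter] at hy
        exact le_of_lt ((hPdef y).1 hy.2)
      have h2 : ∑ y ∈ (fib x W).filter P, cn S y (W \ X) * E
          ≤ ∑ y ∈ fib x W, cn S y (W \ X) * E :=
        Finset.sum_le_sum_of_subset (Finset.filter_subset _ _)
      have h3 : ∑ y ∈ fib x W, cn S y (W \ X)
          = cn S x W * Fintype.card α ^ (W \ X).card :=
        sum_fib (fib x W) S (W \ X) (fun a b hab => fib_closed Finset.sdiff_subset a b hab)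
      have h8 : ∑ y ∈ fib x W, cn S y (W \ X) * E
          = cn S x W * E * Fintype.card α ^ (W \ X).card := by
        rw [← Finset.sum_mul, h3]; ring
      have h5 := hS x
      have h7 := Nat.le_of_mul_le_mul_right ((h1.trans h2).trans (le_of_eq h8)) hpos
      calc cn P x W * E ≤ (cn S x W * E) * E := Nat.mul_le_mul_right _ h7
        _ = cn S x W * (E * E) := by ring
        _ ≤ _ := h5
    have hP2 : SmallG P X E := hP1.of_inv hX hPinv
    have hXX : X ⊆ W \ X' := by
      intro i hi
      rw [Finset.mem_sdiff]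
      exact ⟨hX hi, fun h => (Finset.disjoint_left.1 hd) hi h⟩
    have hP3 : SmallG P (W \ X') E := hP2.mono_set hXX
    intro x
    exact (Nat.mul_le_mul_right _ (cn_mono (fun y _ h => h.2))).trans (hP3 x)

theorem cd_eq {k n : ℕ} (S : Pl k n → Prop) : cnt S = cd S := by
  unfold cnt cd
  congr

theorem small_iff {k n : ℕ} {S : Pl k n → Prop} {U : Finset (Fin (k + 1))} {E : ℕ} :
    Small S U E ↔ SmallG S U E := by
  have h : ∀ x : Pl k n, cnt (fun x' : Pl k n => (∀ i, i ∉ U → x' i = x i) ∧ S x') = cn S x U := by
    intro x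
    unfold cnt cn
    congr 1
    ext y
    simp [mem_fib]
  unfold Small SmallG
  simp only [h, Fintype.card_fin]

end R

end P18dd
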