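import Pool.Agent.Lib.P18dd.Pw

/-!
# P18dd.RootA: sparse random layered graphs do not connect the first and the last layer

`pr_uconn`: if `UConn Γ` there is an undirected path (no vertex twice) from layer `0` to layer `k`; the layer changes by one in every step, so it has at least `k` edges; its first `k` edges
are given by `v₀, .., v_k` pairwise distinct, `v₀` in layer `0`, `v_{j+1}` one of the `≤ 2n` vertices of the adjacent layers. E.g. `SimpleGraph` on `Fin (k+1) × Fin n` with adjacency `Adj Γ a b`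
(symmetric, irreflexive), `Reachable`, `Walk.toPath`, `Walk.take`, or directly a shortest walk. Number of sequences `≤ n (2n)^k`; the `k` arcs are distinct (distinct vertices), so each sequence is
present with probability `p^k` (`pr_cyl` for the set of its arcs). Union bound `pr_exists_le`.
`pr_touch`: the arcs `(i, u, v)` with `u = x i` or `v = x (i+1)`: at most `2 n k` arcs, each present with probability `p`.
-/

set_option autoImplicit false

namespace P18dd

open Finset

/-- no arc of `Γ` meets the path `x` -/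
def Iso {k n : ℕ} (Γ : Arc k n → Bool) (x : Pl k n) : Prop :=
  ∀ a : Arc k n, Γ a = true → a.2.1 ≠ x a.1.castSucc ∧ a.2.2 ≠ x a.1.succ

namespace RootAAux

/-- sequences of `k + 1` vertices, consecutive ones in adjacent layers, the first in layer `0` -/
def Seq {k n : ℕ} (v : Fin (k + 1) → Fin (k + 1) × Fin n) : Prop :=
  ((v 0).1 : ℕ) = 0 ∧ Function.Injective v ∧ ∀ j : Fin k,
    (((v j.castSucc).1 : ℕ) + 1 = (v j.succ).1 ∨ ((v j.succ).1 : ℕ) + 1 = (v j.castSucc).1)

/-- the arc `a` joins `v j` and `v (j + 1)` -/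
def Jn {k n : ℕ} (v : Fin (k + 1) → Fin (k + 1) × Fin n) (a : Arc k n) (j : Fin k) : Prop :=
  (v j.castSucc = (a.1.castSucc, a.2.1) ∧ v j.succ = (a.1.succ, a.2.2)) ∨
    (v j.succ = (a.1.castSucc, a.2.1) ∧ v j.castSucc = (a.1.succ, a.2.2))

open scoped Classical in
/-- the set of the arcs of the sequence -/
noncomputable def AS {k n : ℕ} (v : Fin (k + 1) → Fin (k + 1) × Fin n) : Finset (Arc k n) :=
  univ.filter fun a => ∃ j : Fin k, Jn v a j

open scoped Classical in
/-- the set of the sequences -/
noncomputable def SS (k n : ℕ) : Finset (Fin (k + 1) → Fin (k + 1) × Fin n) :=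
  univ.filter fun v => Seq v

lemma exists_arc {k n : ℕ} {v : Fin (k + 1) → Fin (k + 1) × Fin n} (hv : Seq v) (j : Fin k) :
    ∃ a : Arc k n, Jn v a j := by
  rcases hv.2.2 j with h | h
  · have hlt : ((v j.castSucc).1 : ℕ) < k := by
      have := (v j.succ).1.isLt
      omega
    refine ⟨(⟨(v j.castSucc).1, hlt⟩, (v j.castSucc).2, (v j.succ).2), Or.inl ⟨?_, ?_⟩⟩
    · ext <;> simp
    · ext
      · simp only [Fin.val_succ]
        exact h.symm
      · rfl
  · have hlt : ((v j.succ).1 : ℕ) < k := by
      have := (v j.castSucc).1.isLt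
      omega
    refine ⟨(⟨(v j.succ).1, hlt⟩, (v j.succ).2, (v j.castSucc).2), Or.inr ⟨?_, ?_⟩⟩
    · ext <;> simp
    · ext
      · simp only [Fin.val_succ]
        exact h.symm
      · rfl

lemma arc_inj {k n : ℕ} {v : Fin (k + 1) → Fin (k + 1) × Fin n} (hv : Seq v) {a : Arc k n}
    {i j : Fin k} (hi : Jn v a i) (hj : Jn v a j) : i = j := by
  have hinj := hv.2.1
  rcases hi with hi | hi <;> rcases hj with hj | hj
  · exact Fin.castSucc_injective _ (hinj (hi.1.trans hj.1.symm))
  · have h1 : i.castSucc = j.succ := hinj (hi.1.trans hj.1.symm)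
    have h2 : i.succ = j.castSucc := hinj (hi.2.trans hj.2.symm)
    have h3 := congrArg Fin.val h1
    have h4 := congrArg Fin.val h2
    simp only [Fin.val_succ, Fin.val_castSucc] at h3 h4
    omega
  · have h1 : i.succ = j.castSucc := hinj (hi.1.trans hj.1.symm)
    have h2 : i.castSucc = j.succ := hinj (hi.2.trans hj.2.symm)
    have h3 := congrArg Fin.val h1
    have h4 := congrArg Fin.val h2
    simp only [Fin.val_succ, Fin.val_castSucc] at h3 h4
    omega
  · exact Fin.castSucc_injective _ (hinj (hi.2.trans hj.2.symm))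

lemma card_AS {k n : ℕ} {v : Fin (k + 1) → Fin (k + 1) × Fin n} (hv : Seq v) :
    k ≤ (AS v).card := by
  classical
  choose f hf using exists_arc hv
  have hinj : Function.Injective f := by
    intro i j hij
    have h1 := hf i
    rw [hij] at h1
    exact arc_inj hv h1 (hf j)
  calc k = (univ.image f : Finset (Arc k n)).card := by
        rw [card_image_of_injective _ hinj, card_univ, Fintype.card_fin]
    _ ≤ (AS v).card := by
        apply card_le_card
        intro a ha
        rw [mem_image] at ha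
        obtain ⟨j, -, rfl⟩ := ha
        simp only [AS, mem_filter, mem_univ, true_and]
        exact ⟨j, hf j⟩

/-- the code of a sequence -/
noncomputable def code {k n : ℕ} (v : Fin (k + 1) → Fin (k + 1) × Fin n) :
    Fin n × (Fin k → Bool × Fin n) :=
  ((v 0).2, fun j => (decide (((v j.castSucc).1 : ℕ) < (v j.succ).1), (v j.succ).2))

lemma code_inj {k n : ℕ} {v w : Fin (k + 1) → Fin (k + 1) × Fin n} (hv : Seq v) (hw : Seq w)
    (h : code v = code w) : v = w := by
  have h0 : (v 0).2 = (w 0).2 := congrArg Prod.fst h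
  have hj : ∀ j : Fin k, (decide (((v j.castSucc).1 : ℕ) < (v j.succ).1), (v j.succ).2) =
      (decide (((w j.castSucc).1 : ℕ) < (w j.succ).1), (w j.succ).2) :=
    fun j => congrFun (congrArg Prod.snd h) j
  funext i
  induction i using Fin.induction with
  | zero =>
    ext
    · rw [hv.1, hw.1]
    · rw [h0]
  | succ j ih =>
    have h1 := congrArg Prod.fst (hj j)
    have h2 := congrArg Prod.snd (hj j)
    simp only at h1 h2
    ext
    · have h3 := hv.2.2 j
      have h4 := hw.2.2 j
      rw [decide_eq_decide, ih] at h1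
      rw [ih] at h3
      rcases h3 with h3 | h3 <;> rcases h4 with h4 | h4
      · rw [← h3, ← h4]
      · have : ((w j.castSucc).1 : ℕ) < (v j.succ).1 := by omega
        have := h1.mp this
        omega
      · have : ((w j.castSucc).1 : ℕ) < (w j.succ).1 := by omega
        have := h1.mpr this
        omega
      · omega
    · rw [h2]

lemma card_SS (k n : ℕ) : (SS k n).card ≤ n * (2 * n) ^ k := by
  classical
  have hc : Fintype.card (Fin n × (Fin k → Bool × Fin n)) = n * (2 * n) ^ k := by
    simp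
  rw [← hc, ← card_univ]
  refine card_le_card_of_injOn code (fun _ _ => mem_univ _) ?_
  intro v hv w hw h
  simp only [SS, coe_filter, mem_univ, true_and, Set.mem_ofPred_eq] at hv hw
  exact code_inj hv hw h

/-- the undirected graph -/
def Gr {k n : ℕ} (Γ : Arc k n → Bool) : SimpleGraph (Fin (k + 1) × Fin n) where
  Adj := Adj Γ
  symm := ⟨fun a b h => h.symm⟩
  loopless := ⟨fun a h => by
    rcases h with ⟨i, h1, h2, -⟩ | ⟨i, h1, h2, -⟩
    · have := congrArg Fin.val (h1.symm.trans h2)
      simp at this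
    · have := congrArg Fin.val (h1.symm.trans h2)
      simp at this⟩

lemma adj_layer {k n : ℕ} {Γ : Arc k n → Bool} {a b : Fin (k + 1) × Fin n} (h : Adj Γ a b) :
    (a.1 : ℕ) + 1 = b.1 ∨ (b.1 : ℕ) + 1 = a.1 := by
  rcases h with ⟨i, h1, h2, -⟩ | ⟨i, h1, h2, -⟩
  · left; rw [h1, h2]; simp
  · right; rw [h1, h2]; simp

lemma exists_seq {k n : ℕ} {Γ : Arc k n → Bool} (h : UConn Γ) :
    ∃ v ∈ SS k n, ∀ a ∈ AS v, Γ a = true := by
  classical
  obtain ⟨u, u', hu⟩ := h
  have hr : (Gr Γ).Reachable (0, u) (Fin.last k, u') := by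
    rw [SimpleGraph.reachable_iff_reflTransGen]
    exact hu
  obtain ⟨w⟩ := hr
  obtain ⟨P, hP⟩ : ∃ P : (Gr Γ).Walk (0, u) (Fin.last k, u'), P.IsPath :=
    ⟨w.toPath, w.toPath.isPath⟩
  have hadj : ∀ i, i < P.length → Adj Γ (P.getVert i) (P.getVert (i + 1)) :=
    fun i hi => P.adj_getVert_succ hi
  have hlay : ∀ i, i ≤ P.length → ((P.getVert i).1 : ℕ) ≤ i := by
    intro i
    induction i with
    | zero => intro _; simp
    | succ i ih =>
      intro hi
      have h1 := adj_layer (hadj i (by omega))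
      have h2 := ih (by omega)
      omega
  have hk : k ≤ P.length := by
    have h1 := hlay P.length le_rfl
    rw [SimpleGraph.Walk.getVert_length] at h1
    simpa using h1
  have hinj := hP.getVert_injOn
  refine ⟨fun i => P.getVert i, ?_, ?_⟩
  · simp only [SS, mem_filter, mem_univ, true_and]
    refine ⟨by simp, ?_, ?_⟩
    · intro i j hij
      have h1 := i.isLt
      have h2 := j.isLt
      have h3 := hinj (show (i : ℕ) ∈ {i | i ≤ P.length} by
        rw [Set.mem_ofPred_eq]; omega) (show (j : ℕ) ∈ {i | i ≤ P.length} by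
        rw [Set.mem_ofPred_eq]; omega) hij
      exact Fin.ext h3
    · intro j
      have h1 := j.isLt
      have := adj_layer (hadj j (by omega))
      simpa using this
  · intro a ha
    simp only [AS, mem_filter, mem_univ, true_and] at ha
    obtain ⟨j, hj⟩ := ha
    have h1 := j.isLt
    have h2 := hadj j (by omega)
    unfold Jn at hj
    simp only [Fin.val_castSucc, Fin.val_succ] at hj
    rcases hj with ⟨h3, h4⟩ | ⟨h3, h4⟩
    · rw [h3, h4] at h2
      rcases h2 with ⟨i, h5, h6, h7⟩ | ⟨i, h5, h6, h7⟩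
      · have h8 : a.1 = i := Fin.castSucc_injective _ h5
        subst h8
        exact h7
      · have h8 := congrArg Fin.val h5
        have h9 := congrArg Fin.val h6
        simp at h8 h9
        omega
    · rw [h3, h4] at h2
      rcases h2 with ⟨i, h5, h6, h7⟩ | ⟨i, h5, h6, h7⟩
      · have h8 := congrArg Fin.val h5
        have h9 := congrArg Fin.val h6
        simp at h8 h9
        omega
      · have h8 : a.1 = i := Fin.castSucc_injective _ h5
        subst h8
        exact h7

end RootAAux

open RootAAux in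
theorem pr_uconn {k n : ℕ} (p : ℝ) (hp : 0 ≤ p) (hp1 : p ≤ 1) :
    pr (w2 p) (fun Γ : Arc k n → Bool => UConn Γ) ≤ n * (2 * n) ^ k * p ^ k := by
  have hw : ∀ b, 0 ≤ w2 p b := w2_nonneg hp hp1
  have hle : pr (w2 p) (fun Γ : Arc k n → Bool => UConn Γ) ≤
      pr (w2 p) (fun Γ : Arc k n → Bool => ∃ v ∈ SS k n, ∀ a ∈ AS v, Γ a = true) :=
    pr_mono hw fun Γ hΓ => exists_seq hΓ
  refine (hle.trans (pr_exists_le _ hw _)).trans ?_
  have h1 : ∀ v ∈ SS k n,
      pr (w2 p) (fun Γ : Arc k n → Bool => ∀ a ∈ AS v, Γ a = true) ≤ p ^ k := by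
    intro v hv
    simp only [SS, mem_filter, mem_univ, true_and] at hv
    rw [pr_cyl]
    exact pow_le_pow_of_le_one hp hp1 (card_AS hv)
  refine (sum_le_sum h1).trans ?_
  rw [sum_const, nsmul_eq_mul]
  refine mul_le_mul_of_nonneg_right ?_ (pow_nonneg hp k)
  exact_mod_cast card_SS k n

theorem pr_touch {k n : ℕ} (p : ℝ) (hp : 0 ≤ p) (hp1 : p ≤ 1) (x : Pl k n) :
    pr (w2 p) (fun Γ : Arc k n → Bool => ¬ Iso Γ x) ≤ 2 * n * k * p := by
  classical
  have hw : ∀ b, 0 ≤ w2 p b := w2_nonneg hp hp1
  set s1 : Finset (Arc k n) := univ.image fun c : Fin k × Fin n => (c.1, x c.1.castSucc, c.2)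
    with hs1
  set s2 : Finset (Arc k n) := univ.image fun c : Fin k × Fin n => (c.1, c.2, x c.1.succ)
    with hs2
  have hle : pr (w2 p) (fun Γ : Arc k n → Bool => ¬ Iso Γ x) ≤
      pr (w2 p) (fun Γ : Arc k n → Bool => ∃ a ∈ s1 ∪ s2, ∀ b ∈ ({a} : Finset (Arc k n)),
        Γ b = true) := by
    refine pr_mono hw fun Γ hΓ => ?_
    unfold Iso at hΓ
    push Not at hΓ
    obtain ⟨a, ha, h⟩ := hΓ
    refine ⟨a, ?_, fun b hb => by rw [mem_singleton] at hb; rw [hb]; exact ha⟩
    rw [mem_union]
    by_cases h1 : a.2.1 = x a.1.castSucc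
    · left
      rw [hs1, mem_image]
      exact ⟨(a.1, a.2.2), mem_univ _, by rw [← h1]⟩
    · right
      rw [hs2, mem_image]
      exact ⟨(a.1, a.2.1), mem_univ _, by rw [← h h1]⟩
  refine (hle.trans (pr_exists_le _ hw _)).trans ?_
  have h1 : ∀ a ∈ s1 ∪ s2, pr (w2 p) (fun Γ : Arc k n → Bool =>
      ∀ b ∈ ({a} : Finset (Arc k n)), Γ b = true) = p := by
    intro a _
    rw [pr_cyl, card_singleton, pow_one]
  rw [sum_congr rfl h1, sum_const, nsmul_eq_mul]
  refine mul_le_mul_of_nonneg_right ?_ hp
  have hc : ((s1 ∪ s2).card : ℝ) ≤ ((k * n + k * n : ℕ) : ℝ) := by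
    have c1 : s1.card ≤ k * n := by
      refine card_image_le.trans ?_
      simp
    have c2 : s2.card ≤ k * n := by
      refine card_image_le.trans ?_
      simp
    exact_mod_cast (card_union_le _ _).trans (add_le_add c1 c2)
  refine hc.trans (le_of_eq ?_)
  push_cast
  ring

end P18dd
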