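import Pool.Agent.Lib.P18dd.RootA

/-!
# P18dd.RootB: the derivative at the root

For `S ⊆ Es x (range k)`: if `S = Es x (range k)` then `DPath (on Γ S)`, so `f = true`. If `S` misses the arc of layer `i`, then `¬ UConn (on Γ S)`: the set of vertices
`C := {(j, x j) | j ≤ i}` is closed under adjacency (arcs of `S` stay on the path and do not cross layer `i`; arcs of `Γ` do not meet the path, `Iso`), and the complement of the path is closed
too with only arcs of `Γ`: a walk from layer `0` to layer `k` either stays in `C` (then its end is in a layer `≤ i < k`), or it never meets the path and is a walk in `Γ`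
(`¬ UConn Γ`). So `f (on Γ S) = false`. Hence `dv f Γ (Es x (range k)) = (-1)^k`.
-/

set_option autoImplicit false

namespace P18dd

open Finset

namespace RootBAux

theorem mem_Es {k n : ℕ} {x : Pl k n} {a : Arc k n} :
    a ∈ Es x (range k) ↔ a.2.1 = x a.1.castSucc ∧ a.2.2 = x a.1.succ := by
  simp only [Es, mem_filter, mem_univ, true_and, mem_range]
  exact ⟨fun h => h.2, fun h => ⟨a.1.2, h⟩⟩

/-- an arc switched on is old or in `S` -/
theorem on_cases {k n : ℕ} {Γ : Arc k n → Bool} {S : Finset (Arc k n)} {a : Arc k n}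
    (h : on Γ S a = true) : Γ a = true ∨ a ∈ S := by
  simpa [on] using h

theorem dpath_full {k n : ℕ} (Γ : Arc k n → Bool) (x : Pl k n) :
    DPath (on Γ (Es x (range k))) := by
  refine ⟨x, fun i => ?_⟩
  have h : ((i, x i.castSucc, x i.succ) : Arc k n) ∈ Es x (range k) := mem_Es.2 ⟨rfl, rfl⟩
  simp [on, h]

/-- walks starting on the path stay on the path and do not cross the missing layer -/
theorem stay {k n : ℕ} {Γ : Arc k n → Bool} {x : Pl k n} (hx : Iso Γ x)
    {S : Finset (Arc k n)} (hS : S ⊆ Es x (range k)) {i : Fin k}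
    (hi : ((i, x i.castSucc, x i.succ) : Arc k n) ∉ S) {b : Fin (k + 1) × Fin n}
    (h : Relation.ReflTransGen (Adj (on Γ S)) (0, x 0) b) :
    b.2 = x b.1 ∧ (b.1 : ℕ) ≤ i := by
  induction h with
  | refl => exact ⟨rfl, Nat.zero_le _⟩
  | @tail b c _ hbc ih =>
    obtain ⟨h1, h2⟩ := ih
    rcases hbc with ⟨j, hb, hc, hj⟩ | ⟨j, hc, hb, hj⟩
    · rcases on_cases hj with hj | hj
      · exact absurd (by rw [h1, hb]) (hx _ hj).1
      · have h3 := mem_Es.1 (hS hj)
        simp only at h3
        have h4 : j ≠ i := by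
          rintro rfl
          apply hi
          rw [← h3.1, ← h3.2]
          exact hj
        have h5 : (j : ℕ) ≠ i := fun h => h4 (Fin.ext h)
        have h6 : (b.1 : ℕ) = j := by rw [hb]; rfl
        have h7 : (c.1 : ℕ) = j + 1 := by rw [hc]; rfl
        refine ⟨by rw [hc]; exact h3.2, ?_⟩
        omega
    · rcases on_cases hj with hj | hj
      · exact absurd (by rw [h1, hb]) (hx _ hj).2
      · have h3 := mem_Es.1 (hS hj)
        simp only at h3
        have h6 : (b.1 : ℕ) = j + 1 := by rw [hb]; rfl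
        have h7 : (c.1 : ℕ) = j := by rw [hc]; rfl
        refine ⟨by rw [hc]; exact h3.1, ?_⟩
        omega

/-- walks starting off the path never meet it -/
theorem off {k n : ℕ} {Γ : Arc k n → Bool} {x : Pl k n} (hx : Iso Γ x)
    {S : Finset (Arc k n)} (hS : S ⊆ Es x (range k)) {u : Fin n} (hu : u ≠ x 0)
    {b : Fin (k + 1) × Fin n} (h : Relation.ReflTransGen (Adj (on Γ S)) (0, u) b) :
    b.2 ≠ x b.1 ∧ Relation.ReflTransGen (Adj Γ) (0, u) b := by
  induction h with
  | refl => exact ⟨hu, Relation.ReflTransGen.refl⟩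
  | @tail b c _ hbc ih =>
    obtain ⟨h1, h2⟩ := ih
    rcases hbc with ⟨j, hb, hc, hj⟩ | ⟨j, hc, hb, hj⟩
    · rcases on_cases hj with hj | hj
      · refine ⟨?_, h2.tail (Or.inl ⟨j, hb, hc, hj⟩)⟩
        rw [hc]
        exact (hx _ hj).2
      · have h3 := mem_Es.1 (hS hj)
        exact absurd (by rw [hb]; exact h3.1) h1
    · rcases on_cases hj with hj | hj
      · refine ⟨?_, h2.tail (Or.inr ⟨j, hc, hb, hj⟩)⟩
        rw [hc]
        exact (hx _ hj).1
      · have h3 := mem_Es.1 (hS hj)
        exact absurd (by rw [hb]; exact h3.2) h1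

theorem not_uconn {k n : ℕ} {Γ : Arc k n → Bool} (hΓ : ¬ UConn Γ) {x : Pl k n} (hx : Iso Γ x)
    {S : Finset (Arc k n)} (hS : S ⊆ Es x (range k)) (hne : S ≠ Es x (range k)) :
    ¬ UConn (on Γ S) := by
  rintro ⟨u, v, huv⟩
  by_cases hu : u = x 0
  · obtain ⟨a, ha, haS⟩ : ∃ a ∈ Es x (range k), a ∉ S := by
      by_contra hcon
      push Not at hcon
      exact hne (Finset.Subset.antisymm hS hcon)
    obtain ⟨i, a1, a2⟩ := a
    have h3 := mem_Es.1 ha
    simp only at h3
    obtain ⟨h4, h5⟩ := h3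
    subst h4 h5
    subst hu
    have h6 := (stay hx hS haS huv).2
    simp only [Fin.val_last] at h6
    have := i.2
    omega
  · exact hΓ ⟨u, v, (off hx hS hu huv).2⟩

end RootBAux

open RootBAux in
theorem root_dv {k n : ℕ} (f : (Arc k n → Bool) → Bool) (hf : SepL f)
    (Γ : Arc k n → Bool) (hΓ : ¬ UConn Γ) (x : Pl k n) (hx : Iso Γ x) :
    dv f Γ (Es x (range k)) ≠ 0 := by
  unfold dv
  rw [Finset.sum_eq_single (Es x (range k))]
  · rw [if_pos ((hf _).1 (dpath_full Γ x)), mul_one]
    exact pow_ne_zero _ (by norm_num)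
  · intro S hS hne
    have h := (hf _).2 (not_uconn hΓ hx (Finset.mem_powerset.1 hS) hne)
    rw [if_neg (by rw [h]; simp), mul_zero]
  · intro h
    exact absurd (Finset.mem_powerset_self _) h

end P18dd
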