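import Pool.Agent.Lib.P18dd.SwB

/-!
# P18dd.Rounds: `d` rounds and the last round

`rounds`: induction on `i ≤ d` of: `pr (w3 (pp α β i) (α β^i)) (some H j with lev j ≤ i and some b with ¬ Cert w b (res ρ (H j))) ≤ i * card ι * c`, `c = (16wβ)^(w+1)`.
`i = 0`: `Dep1` functions have certificates of size `1 ≤ w`, also after a restriction: probability `0`. Step: `ex_cmp` with `p' = 1/2`, `q' = β`
(`pp α β (i+1) = pp α β i + α β^i * (1/2)`). For a fixed `ρ` which is good for the levels `≤ i`: `res (cmp ρ τ) h = res τ (res ρ h)`; levels `≤ i` stay good (`Cert` persists under `res τ`). Level `i + 1`: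
`H j` is an OR of functions of lower level: certificates for `true` come from one input; for `false` use `switching` for the family `{res ρ (H i)}`;
an AND: apply this to the negations (`Cert w b (fun z => !h z) ↔ Cert w (!b) h`). Weights stay nonnegative because `pp α β i + α β^i ≤ α ≤ 1`.
`last_round`: one more round with `γ`; now `switching` with `T = {res ρ (H j)}` and `T = {fun z => !res ρ (H j) z}` (size `w` certificates) gives certificates of size `t`
for both values: at most `2 * card ι` events of probability `(16wγ)^(t+1)`.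
-/

set_option autoImplicit false

namespace P18dd

open Finset

/-- probability of a one after `i` rounds -/
noncomputable def pp (α β : ℝ) : ℕ → ℝ
  | 0 => 0
  | (i + 1) => pp α β i + α * β ^ i / 2

theorem pp_nonneg {α β : ℝ} (hα : 0 ≤ α) (hβ : 0 ≤ β) (i : ℕ) : 0 ≤ pp α β i := by
  induction i with
  | zero => exact le_rfl
  | succ i ih =>
    have h1 : 0 ≤ α * β ^ i := mul_nonneg hα (pow_nonneg hβ i)
    show 0 ≤ pp α β i + α * β ^ i / 2
    linarith

theorem pp_le {α β : ℝ} (hα : 0 ≤ α) (hβ : 0 ≤ β) (hβ' : β ≤ 1 / 2) (i : ℕ) :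
    pp α β i + α * β ^ i ≤ α := by
  induction i with
  | zero =>
    show (0 : ℝ) + α * β ^ 0 ≤ α
    rw [pow_zero, mul_one, zero_add]
  | succ i ih =>
    have h1 : 0 ≤ α * β ^ i := mul_nonneg hα (pow_nonneg hβ i)
    have h2 : α * β ^ (i + 1) ≤ α * β ^ i / 2 := by
      rw [pow_succ, ← mul_assoc]
      have := mul_le_mul_of_nonneg_left hβ' h1
      linarith
    show pp α β i + α * β ^ i / 2 + α * β ^ (i + 1) ≤ α
    linarith

namespace RoundsAux

variable {I : Type}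

theorem cert_res {w : ℕ} {b : Bool} {h : (I → Bool) → Bool} (τ : Res I) (hc : Cert w b h) :
    Cert w b (res τ h) := by
  intro z hz
  obtain ⟨D, hD, hD'⟩ := hc (ov τ z) hz
  refine ⟨D, hD, fun z' hz' => hD' (ov τ z') fun i hi => ?_⟩
  show (τ i).getD (z' i) = (τ i).getD (z i)
  rw [hz' i hi]

theorem cert_neg {w : ℕ} {b : Bool} {h : (I → Bool) → Bool} (hc : Cert w b h) :
    Cert w (!b) (fun z => !h z) := by
  intro z hz
  have h1 : h z = b := by
    have h2 : (!h z) = (!b) := hz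
    revert h2
    cases h z <;> cases b <;> simp
  obtain ⟨D, hD, hD'⟩ := hc z h1
  refine ⟨D, hD, fun z' hz' => ?_⟩
  show (!h z') = (!b)
  rw [hD' z' hz']

theorem dep1_cert {w : ℕ} (hw : 1 ≤ w) (b : Bool) {h : (I → Bool) → Bool} (hh : Dep1 h) :
    Cert w b h := by
  intro z hz
  rcases hh with ⟨c, hc⟩ | ⟨i, hi⟩
  · refine ⟨∅, by simp, fun z' _ => ?_⟩
    rw [hc z', ← hc z, hz]
  · refine ⟨{i}, by simpa using hw, fun z' hz' => ?_⟩
    rw [hi z' z (hz' i (by simp)), hz]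

theorem res_cmp (ρ τ : Res I) (h : (I → Bool) → Bool) : res (cmp ρ τ) h = res τ (res ρ h) := by
  funext z
  show h (ov (cmp ρ τ) z) = h (ov ρ (ov τ z))
  refine congrArg h (funext fun i => ?_)
  show ((ρ i).elim (τ i) some).getD (z i) = (ρ i).getD ((τ i).getD (z i))
  cases ρ i <;> rfl

theorem res_neg (ρ : Res I) (h : (I → Bool) → Bool) :
    res ρ (fun z => !h z) = fun z => !res ρ h z := rfl

theorem cert_or {w : ℕ} (T : Set ((I → Bool) → Bool)) (hT : ∀ h ∈ T, Cert w true h)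
    (f : (I → Bool) → Bool) (hf : ∀ z, f z = true ↔ ∃ h ∈ T, h z = true) : Cert w true f := by
  intro z hz
  obtain ⟨h, hh, hhz⟩ := (hf z).1 hz
  obtain ⟨D, hD, hD'⟩ := hT h hh z hhz
  exact ⟨D, hD, fun z' hz' => (hf z').2 ⟨h, hh, hD' z' hz'⟩⟩

theorem cert_neg' {w : ℕ} {b : Bool} {h : (I → Bool) → Bool} (hc : Cert w (!b) (fun z => !h z)) :
    Cert w b h := by
  have h1 := cert_neg hc
  rw [Bool.not_not] at h1
  have h2 : (fun z => !(fun z => !h z) z) = h := by
    funext z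
    exact Bool.not_not (h z)
  rw [h2] at h1
  exact h1

variable [Fintype I] [DecidableEq I]

theorem w_half {β : ℝ} (h0 : 0 ≤ β) (h1 : β ≤ 1 / 2) (a : Option Bool) : 0 ≤ w3 (1 / 2) β a :=
  w3_nonneg (by norm_num) h0 (by linarith) a

theorem or_gate {w : ℕ} (hw : 1 ≤ w) {β : ℝ} (h0 : 0 < β) (hc : 16 * w * β ≤ 1)
    (hβ : β ≤ 1 / 2) (T : Set ((I → Bool) → Bool)) (hT : ∀ h ∈ T, Cert w true h)
    (f : (I → Bool) → Bool) (hf : ∀ z, f z = true ↔ ∃ h ∈ T, h z = true) :
    pr (w3 (1 / 2) β) (fun τ : Res I => ∃ b, ¬ Cert w b (res τ f)) ≤ (16 * w * β) ^ (w + 1) := by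
  refine le_trans (pr_mono (w_half h0.le hβ) ?_) (switching w hw β h0 hc T hT f hf w)
  rintro τ ⟨b, hb⟩
  cases b with
  | false => exact hb
  | true => exact absurd (cert_res τ (cert_or T hT f hf)) hb

theorem gate {ι : Type} {w : ℕ} (hw : 1 ≤ w) {β : ℝ} (h0 : 0 < β) (hc : 16 * w * β ≤ 1)
    (hβ : β ≤ 1 / 2) (K : ι → (I → Bool) → Bool) (T : Set ι) (hT : ∀ i ∈ T, ∀ b, Cert w b (K i))
    (f : (I → Bool) → Bool)
    (hf : (∀ z, f z = true ↔ ∀ i ∈ T, K i z = true) ∨ (∀ z, f z = true ↔ ∃ i ∈ T, K i z = true)) :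
    pr (w3 (1 / 2) β) (fun τ : Res I => ∃ b, ¬ Cert w b (res τ f)) ≤ (16 * w * β) ^ (w + 1) := by
  rcases hf with hf | hf
  · refine le_trans (pr_mono (w_half h0.le hβ) ?_)
      (or_gate hw h0 hc hβ {h | ∃ i ∈ T, h = fun z => !K i z} ?_ (fun z => !f z) ?_)
    · rintro τ ⟨b, hb⟩
      refine ⟨!b, fun h => hb (cert_neg' ?_)⟩
      rw [res_neg] at h
      exact h
    · rintro h ⟨i, hi, rfl⟩
      exact cert_neg (b := false) (hT i hi false)
    · intro z
      have h1 : (!f z) = true ↔ ¬ (f z = true) := by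
        cases f z <;> simp
      rw [h1, hf z]
      constructor
      · intro h
        by_contra hcon
        refine h fun i hi => ?_
        by_contra h2
        refine hcon ⟨fun z => !K i z, ⟨i, hi, rfl⟩, ?_⟩
        show (!K i z) = true
        revert h2
        cases K i z <;> simp
      · rintro ⟨h, ⟨i, hi, rfl⟩, h2⟩ h3
        have h4 := h3 i hi
        have h5 : (!K i z) = true := h2
        rw [h4] at h5
        exact absurd h5 (by decide)
  · refine or_gate hw h0 hc hβ {h | ∃ i ∈ T, h = K i} ?_ f ?_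
    · rintro h ⟨i, hi, rfl⟩
      exact hT i hi true
    · intro z
      rw [hf z]
      constructor
      · rintro ⟨i, hi, h⟩
        exact ⟨K i, ⟨i, hi, rfl⟩, h⟩
      · rintro ⟨h, ⟨i, hi, rfl⟩, h2⟩
        exact ⟨i, hi, h2⟩

theorem step {p q q' : ℝ} (hp : 0 ≤ p) (hq : 0 ≤ q) (hpq : p + q ≤ 1) (h0 : 0 ≤ q')
    (h1 : q' ≤ 1 / 2) (P B : Res I → Prop) {e : ℝ} (he : 0 ≤ e)
    (h : ∀ ρ, ¬ B ρ → pr (w3 (1 / 2) q') (fun τ : Res I => P (cmp ρ τ)) ≤ e) :
    pr (w3 (p + q * (1 / 2)) (q * q')) P ≤ pr (w3 p q) B + e := by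
  have h2 : pr (w3 (p + q * (1 / 2)) (q * q')) P =
      ex (w3 p q) (fun ρ : Res I => pr (w3 (1 / 2) q') (fun τ : Res I => P (cmp ρ τ))) :=
    (ex_cmp p q (1 / 2) q' (fun ρ : Res I => ind (P ρ))).symm
  have h3 : pr (w3 p q) B + e = ex (w3 p q) (fun ρ : Res I => ind (B ρ) + e) := by
    rw [ex_add]
    have h4 : ex (w3 p q) (fun _ : Res I => e) = e := by
      have h5 := ex_mul (w3 p q) e (fun _ : Res I => (1 : ℝ))
      rw [ex_one (w3_sum p q)] at h5
      simpa using h5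
    rw [h4]
    rfl
  rw [h2, h3]
  refine ex_mono (w3_nonneg hp hq hpq) fun ρ => ?_
  by_cases hB : B ρ
  · rw [ind_of hB]
    have := pr_le_one (w_half h0 h1) (w3_sum (1 / 2) q') (fun τ : Res I => P (cmp ρ τ))
    linarith
  · rw [ind_of_not hB, zero_add]
    exact h ρ hB

theorem pr_exists_card {J : Type} [Fintype J] {A : Type} [Fintype A] {w : A → ℝ}
    (hw : ∀ a, 0 ≤ w a) (P : J → (I → A) → Prop) {e : ℝ} (h : ∀ j, pr w (P j) ≤ e) :
    pr w (fun x => ∃ j, P j x) ≤ Fintype.card J * e := by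
  have h1 := pr_exists_le (I := I) (univ : Finset J) hw P
  refine le_trans (pr_mono hw ?_) (h1.trans ?_)
  · rintro x ⟨j, hj⟩
    exact ⟨j, mem_univ j, hj⟩
  · refine (sum_le_sum fun j _ => h j).trans (le_of_eq ?_)
    rw [sum_const, nsmul_eq_mul, card_univ]

theorem pr_false {A : Type} [Fintype A] (w : A → ℝ) {P : (I → A) → Prop} (h : ∀ x, ¬ P x) :
    pr w P = 0 := by
  show (∑ x : I → A, (∏ i, w (x i)) * ind (P x)) = 0
  exact sum_eq_zero fun x _ => by rw [ind_of_not (h x), mul_zero]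

theorem beta_le {w : ℕ} (hw : 1 ≤ w) {β : ℝ} (_ : 0 < β) (hc : 16 * w * β ≤ 1) : β ≤ 1 / 2 := by
  have h1 : (1 : ℝ) ≤ w := by exact_mod_cast hw
  nlinarith

theorem rounds' {ι : Type} [Fintype ι]
    (H : ι → (I → Bool) → Bool) (lev : ι → ℕ) (w : ℕ) (hw : 1 ≤ w) (α β : ℝ) (hα : 0 ≤ α)
    (hα1 : α ≤ 1) (h0 : 0 < β) (hc : 16 * w * β ≤ 1)
    (hz : ∀ j, lev j = 0 → Dep1 (H j))
    (hs : ∀ j, lev j ≠ 0 → ∃ T : Set ι, (∀ i ∈ T, lev i < lev j) ∧
      ((∀ z, H j z = true ↔ ∀ i ∈ T, H i z = true) ∨ (∀ z, H j z = true ↔ ∃ i ∈ T, H i z = true)))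
    (i : ℕ) :
    pr (w3 (pp α β i) (α * β ^ i))
      (fun ρ : Res I => ∃ j, lev j ≤ i ∧ ∃ b, ¬ Cert w b (res ρ (H j))) ≤
      i * Fintype.card ι * (16 * w * β) ^ (w + 1) := by
  have hβ := beta_le hw h0 hc
  have hw' : (0 : ℝ) ≤ w := Nat.cast_nonneg w
  have hcc : (0 : ℝ) ≤ (16 * w * β) ^ (w + 1) := by positivity
  induction i with
  | zero =>
    rw [pr_false]
    · simp
    · rintro ρ ⟨j, hj, b, hb⟩
      exact hb (cert_res ρ (dep1_cert hw b (hz j (Nat.le_zero.1 hj))))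
  | succ i ih =>
    have h1 : w3 (pp α β (i + 1)) (α * β ^ (i + 1)) =
        w3 (pp α β i + α * β ^ i * (1 / 2)) (α * β ^ i * β) := by
      congr 1
      · show pp α β i + α * β ^ i / 2 = _
        ring
      · ring
    rw [h1]
    have hq : 0 ≤ α * β ^ i := mul_nonneg hα (pow_nonneg h0.le i)
    have hpq := (pp_le hα h0.le hβ i).trans hα1
    refine (step (pp_nonneg hα h0.le i) hq hpq h0.le hβ _
      (fun ρ : Res I => ∃ j, lev j ≤ i ∧ ∃ b, ¬ Cert w b (res ρ (H j)))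
      (e := Fintype.card ι * (16 * w * β) ^ (w + 1)) (by positivity) ?_).trans ?_
    · intro ρ hρ
      push Not at hρ
      refine le_trans (pr_mono (w_half h0.le hβ) ?_) (pr_exists_card (w_half h0.le hβ)
        (fun (j : ι) (τ : Res I) => lev j = i + 1 ∧ ∃ b, ¬ Cert w b (res τ (res ρ (H j)))) ?_)
      · rintro τ ⟨j, hj, b, hb⟩
        rw [res_cmp] at hb
        refine ⟨j, ?_, b, hb⟩
        by_contra h2
        exact hb (cert_res τ (hρ j (by omega) b))
      · intro j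
        by_cases hj : lev j = i + 1
        · obtain ⟨T, hT, hT'⟩ := hs j (by omega)
          refine le_trans (pr_mono (w_half h0.le hβ) fun τ h => h.2)
            (gate hw h0 hc hβ (fun i => res ρ (H i)) T ?_ (res ρ (H j)) ?_)
          · intro i' hi' b
            exact hρ i' (by have := hT i' hi'; omega) b
          · rcases hT' with hT' | hT'
            · exact Or.inl fun z => hT' (ov ρ z)
            · exact Or.inr fun z => hT' (ov ρ z)
        · rw [pr_false]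
          · exact hcc
          · exact fun τ h => hj h.1
    · push_cast
      linarith

end RoundsAux

open RoundsAux

theorem rounds {I ι : Type} [Fintype I] [DecidableEq I] [Fintype ι]
    (H : ι → (I → Bool) → Bool) (lev : ι → ℕ) (d w : ℕ) (hw : 1 ≤ w) (α β : ℝ) (hα : 0 ≤ α)
    (hα1 : α ≤ 1) (h0 : 0 < β) (hc : 16 * w * β ≤ 1)
    (hz : ∀ j, lev j = 0 → Dep1 (H j))
    (hs : ∀ j, lev j ≠ 0 → ∃ T : Set ι, (∀ i ∈ T, lev i < lev j) ∧
      ((∀ z, H j z = true ↔ ∀ i ∈ T, H i z = true) ∨ (∀ z, H j z = true ↔ ∃ i ∈ T, H i z = true)))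
    (hd : ∀ j, lev j ≤ d) :
    pr (w3 (pp α β d) (α * β ^ d)) (fun ρ : Res I => ∃ j b, ¬ Cert w b (res ρ (H j))) ≤
      d * Fintype.card ι * (16 * w * β) ^ (w + 1) := by
  have hβ := beta_le hw h0 hc
  have hq : 0 ≤ α * β ^ d := mul_nonneg hα (pow_nonneg h0.le d)
  have hpq := (pp_le hα h0.le hβ d).trans hα1
  refine le_trans (pr_mono (w3_nonneg (pp_nonneg hα h0.le d) hq hpq) ?_)
    (rounds' H lev w hw α β hα hα1 h0 hc hz hs d)
  rintro ρ ⟨j, b, hb⟩
  exact ⟨j, hd j, b, hb⟩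

theorem last_round {I ι : Type} [Fintype I] [DecidableEq I] [Fintype ι]
    (H : ι → (I → Bool) → Bool) (lev : ι → ℕ) (d w t : ℕ) (hw : 1 ≤ w) (α β γ : ℝ) (hα : 0 ≤ α)
    (hα1 : α ≤ 1) (h0 : 0 < β) (hc : 16 * w * β ≤ 1) (h0' : 0 < γ) (hc' : 16 * w * γ ≤ 1)
    (hz : ∀ j, lev j = 0 → Dep1 (H j))
    (hs : ∀ j, lev j ≠ 0 → ∃ T : Set ι, (∀ i ∈ T, lev i < lev j) ∧
      ((∀ z, H j z = true ↔ ∀ i ∈ T, H i z = true) ∨ (∀ z, H j z = true ↔ ∃ i ∈ T, H i z = true)))
    (hd : ∀ j, lev j ≤ d) :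
    pr (w3 (pp α β d + α * β ^ d / 2) (α * β ^ d * γ))
        (fun ρ : Res I => ∃ j b, ¬ Cert t b (res ρ (H j))) ≤
      d * Fintype.card ι * (16 * w * β) ^ (w + 1) + 2 * Fintype.card ι * (16 * w * γ) ^ (t + 1) := by
  have hβ := beta_le hw h0 hc
  have hγ := beta_le hw h0' hc'
  have hw' : (0 : ℝ) ≤ w := Nat.cast_nonneg w
  have hq : 0 ≤ α * β ^ d := mul_nonneg hα (pow_nonneg h0.le d)
  have hpq := (pp_le hα h0.le hβ d).trans hα1
  have h1 : w3 (pp α β d + α * β ^ d / 2) (α * β ^ d * γ) =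
      w3 (pp α β d + α * β ^ d * (1 / 2)) (α * β ^ d * γ) := by
    congr 1
    ring
  rw [h1]
  refine (step (pp_nonneg hα h0.le d) hq hpq h0'.le hγ _
    (fun ρ : Res I => ∃ j b, ¬ Cert w b (res ρ (H j)))
    (e := 2 * Fintype.card ι * (16 * w * γ) ^ (t + 1)) (by positivity) ?_).trans
    (add_le_add (rounds H lev d w hw α β hα hα1 h0 hc hz hs hd) le_rfl)
  intro ρ hρ
  push Not at hρ
  have h2 : (2 : ℝ) * Fintype.card ι * (16 * w * γ) ^ (t + 1) =
      Fintype.card ι * ((Fintype.card Bool : ℕ) * (16 * w * γ) ^ (t + 1)) := by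
    rw [Fintype.card_bool]
    push_cast
    ring
  rw [h2]
  refine le_trans (pr_mono (w_half h0'.le hγ) ?_) (pr_exists_card (w_half h0'.le hγ)
    (fun (j : ι) (τ : Res I) => ∃ b, ¬ Cert t b (res τ (res ρ (H j)))) ?_)
  · rintro τ ⟨j, b, hb⟩
    rw [res_cmp] at hb
    exact ⟨j, b, hb⟩
  · intro j
    refine pr_exists_card (w_half h0'.le hγ)
      (fun (b : Bool) (τ : Res I) => ¬ Cert t b (res τ (res ρ (H j)))) ?_
    intro b
    cases b with
    | false =>
      refine switching w hw γ h0' hc' {res ρ (H j)} ?_ (res ρ (H j)) ?_ t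
      · rintro h rfl
        exact hρ j true
      · intro z
        simp
    | true =>
      have h3 := switching w hw γ h0' hc' {fun z => !res ρ (H j) z} (by
        rintro h rfl
        exact cert_neg (b := false) (hρ j false)) (fun z => !res ρ (H j) z) (by
        intro z
        simp) t
      refine le_trans (pr_mono (w_half h0'.le hγ) ?_) h3
      intro τ h h4
      refine h (cert_neg' ?_)
      rw [res_neg] at h4
      exact h4

end P18dd
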