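import Pool.Agent.Lib.P18dd.Kern
import Pool.Agent.Lib.P18dd.Mono

/-!
# P18dd.SSG: strong smallness for one function

`q' := q / (1 - p) ≥ q`, `ex_ones p q'` : `ρ = (Γ, R)`, `ones ρ = Γ`, the stars are the arcs outside `Γ` with `R`. Fix `Γ` with the event on the left:
`M y := (∀ i ∉ Ve k J, y i = x i) ∧ dv h Γ (Es y J) ≠ 0` has more than `L` points. `dv h Γ E ≠ 0` implies that `E` is disjoint from `Γ` (an arc of `E ∩ Γ` pairs the terms of `dv` with opposite signs).
`kernel` with `e i y := (i, y i, y (i+1))` for `i < k` (`J ⊆ range k`), `M0 := 4^(t*t)`: with probability at least `q'^|J| / 2^(|J|+2) ≥ q^|J| / 2^(|J|+2)` more than `4^(t*t)` points `y` of `M` have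
all arcs of `Es y J` in `R`, i.e. stars. Distinct such `y` have distinct `Es y J` (each vertex in `Ve k J` is on an edge of `J`), and `dv (res ρ h) 0 (Es y J) = dv h Γ (Es y J) ≠ 0` (`dv_res`).
So by `mono` not all `Cert t b (res ρ h)` hold.
-/

set_option autoImplicit false

namespace P18dd

open Finset

theorem dv_zero {I : Type} [DecidableEq I] (h : (I → Bool) → Bool) (z : I → Bool) (E : Finset I)
    {i : I} (hi : i ∈ E) (hz : z i = true) : dv h z E = 0 := by
  have h1 : dv h z (insert i (E.erase i)) = 0 := by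
    have h2 := MonoAux.D_insert (fun S : Finset I => if h (on z S) = true then (1 : ℤ) else 0)
      (notMem_erase i E)
    refine (Eq.trans ?_ h2).trans ?_
    · rfl
    · unfold MonoAux.D
      refine sum_eq_zero fun S _ => ?_
      have h3 : on z (insert i S) = on z S := by
        funext j
        unfold on
        by_cases hj : j = i
        · subst hj
          rw [hz]; rfl
        · simp [hj]
      show (-1 : ℤ) ^ S.card * ((if h (on z S) = true then (1 : ℤ) else 0) -
        if h (on z (insert i S)) = true then 1 else 0) = 0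
      rw [h3, sub_self, mul_zero]
  rwa [insert_erase hi] at h1

theorem Es_inj {k n : ℕ} {J : Finset ℕ} (hJ : J ⊆ range k) {x y y' : Pl k n}
    (hy : ∀ i, i ∉ Ve k J → y i = x i) (hy' : ∀ i, i ∉ Ve k J → y' i = x i)
    (h : Es y J = Es y' J) : y = y' := by
  have key : ∀ i : Fin k, (i : ℕ) ∈ J → y i.castSucc = y' i.castSucc ∧ y i.succ = y' i.succ := by
    intro i hi
    have h1 : (i, y i.castSucc, y i.succ) ∈ Es y J := by
      simp [Es, hi]
    rw [h] at h1
    simp only [Es, mem_filter, mem_univ, true_and] at h1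
    exact ⟨h1.2.1, h1.2.2⟩
  funext v
  by_cases hv : v ∈ Ve k J
  · simp only [Ve, mem_filter, mem_univ, true_and] at hv
    rcases hv with hv | ⟨j, hj, hjv⟩
    · have hk : (v : ℕ) < k := mem_range.1 (hJ hv)
      have h1 := (key ⟨v, hk⟩ hv).1
      have h2 : (⟨v, hk⟩ : Fin k).castSucc = v := Fin.ext rfl
      rwa [h2] at h1
    · have hk : j < k := mem_range.1 (hJ hj)
      have h1 := (key ⟨j, hk⟩ hj).2
      have h2 : (⟨j, hk⟩ : Fin k).succ = v := Fin.ext hjv.symm
      rwa [h2] at h1
  · rw [hy v hv, hy' v hv]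

theorem ss_single {k n : ℕ} (h : (Arc k n → Bool) → Bool) (J : Finset ℕ) (hJ : J ⊆ range k)
    (x : Pl k n) (p q : ℝ) (hp : 0 ≤ p) (hq : 0 < q) (hpq : p + q ≤ 1) (t L : ℕ)
    (hL : 2 * (4 : ℝ) ^ (t * t) ≤ L * q ^ J.card) :
    pr (w2 p) (fun Γ : Arc k n → Bool =>
        L < cnt fun y : Pl k n => (∀ i, i ∉ Ve k J → y i = x i) ∧ dv h Γ (Es y J) ≠ 0) *
      (q ^ J.card / 2 ^ (J.card + 2)) ≤
    pr (w3 p q) (fun ρ : Res (Arc k n) => ∃ b, ¬ Cert t b (res ρ h)) := by
  classical
  have hp1 : 0 < 1 - p := by linarith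
  set q' : ℝ := q / (1 - p) with hq'
  have hqq : (1 - p) * q' = q := by rw [hq', mul_div_cancel₀ _ hp1.ne']
  have hq'0 : 0 < q' := div_pos hq hp1
  have hq'1 : q' ≤ 1 := by rw [hq', div_le_one hp1]; linarith
  have hle : q ≤ q' := by rw [hq', le_div_iff₀ hp1]; nlinarith
  have hpw : q ^ J.card ≤ q' ^ J.card := pow_le_pow_left₀ hq.le hle _
  set c : ℝ := q ^ J.card / 2 ^ (J.card + 2) with hc
  have h2pos : (0 : ℝ) < 2 ^ (J.card + 2) := pow_pos (by norm_num) _
  have hcc : c ≤ q' ^ J.card / 2 ^ (J.card + 2) := div_le_div_of_nonneg_right hpw h2pos.le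
  unfold pr
  rw [← hqq, ← ex_ones p q', mul_comm, ← ex_mul]
  refine ex_mono (w2_nonneg hp (by linarith)) fun Γ => ?_
  by_cases hA : L < cnt fun y : Pl k n => (∀ i, i ∉ Ve k J → y i = x i) ∧ dv h Γ (Es y J) ≠ 0
  swap
  · rw [ind_of_not hA, mul_zero]
    exact ex_nonneg (w2_nonneg hq'0.le hq'1) fun R => ind_nonneg _
  rw [ind_of hA, mul_one]
  set M : Pl k n → Prop := fun y => (∀ i, i ∉ Ve k J → y i = x i) ∧ dv h Γ (Es y J) ≠ 0 with hMd
  have hLr : 2 * (4 : ℝ) ^ (t * t) ≤ cnt M * q' ^ J.card := by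
    have h1 : (L : ℝ) ≤ cnt M := by exact_mod_cast hA.le
    exact hL.trans (mul_le_mul h1 hpw (pow_pos hq _).le (Nat.cast_nonneg _))
  by_cases hJe : J = ∅
  · exfalso
    subst hJe
    have h1 : cnt M ≤ 1 := by
      rw [cnt_eq, card_le_one]
      intro a ha b hb
      simp only [hMd, mem_filter, mem_univ, true_and] at ha hb
      exact Es_inj hJ ha.1 hb.1 (by simp [Es])
    have h2 : (1 : ℝ) ≤ 4 ^ (t * t) := one_le_pow₀ (by norm_num)
    have h3 : (cnt M : ℝ) ≤ 1 := by exact_mod_cast h1
    rw [card_empty, pow_zero, mul_one] at hLr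
    linarith
  obtain ⟨i0, hi0⟩ := nonempty_iff_ne_empty.2 hJe
  have hi0k : i0 < k := mem_range.1 (hJ hi0)
  set e : ℕ → Pl k n → Arc k n := fun i y =>
    if hi : i < k then (⟨i, hi⟩, y (⟨i, hi⟩ : Fin k).castSucc, y (⟨i, hi⟩ : Fin k).succ)
    else (⟨i0, hi0k⟩, y 0, y 0) with he
  have hlay : ∀ i ∈ J, ∀ i' ∈ J, ∀ y y', e i y = e i' y' → i = i' := by
    intro i hi i' hi' y y' heq
    have h1 : i < k := mem_range.1 (hJ hi)
    have h2 : i' < k := mem_range.1 (hJ hi')
    simp only [he, dif_pos h1, dif_pos h2, Prod.mk.injEq, Fin.mk.injEq] at heq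
    exact heq.1
  have hne : ∃ y, M y := by
    by_contra hno
    push Not at hno
    have h1 : cnt M = 0 := by
      rw [cnt_eq, card_eq_zero, filter_eq_empty_iff]
      exact fun y _ => hno y
    omega
  have hk := kernel J e hlay M hne q' hq'0 hq'1 (4 ^ (t * t)) (by push_cast; exact hLr)
  refine (hcc.trans hk).trans ?_
  refine pr_mono (w2_nonneg hq'0.le hq'1) fun R hR => ?_
  by_contra hno
  push Not at hno
  have h1 := mono t _ hno
  refine absurd (hR.trans_le (le_trans ?_ h1)) (lt_irrefl _)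
  rw [cnt_eq, cnt_eq]
  refine card_le_card_of_injOn (fun y => Es y J) ?_ ?_
  · intro y hy
    simp only [coe_filter, mem_univ, true_and, Set.mem_setOf_eq, hMd] at hy
    simp only [coe_filter, mem_univ, true_and, Set.mem_setOf_eq]
    have hst : ∀ a ∈ Es y J, (fun i => if Γ i = true then some true else if R i = true then none
        else some false : Res (Arc k n)) a = none := by
      intro a ha
      have hΓ : Γ a = false := by
        by_contra hΓ
        rw [Bool.not_eq_false] at hΓ
        exact hy.1.2 (dv_zero h Γ (Es y J) ha hΓ)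
      simp only [Es, mem_filter, mem_univ, true_and] at ha
      have h2 : e a.1 y = a := by
        simp only [he, dif_pos a.1.isLt, Fin.eta]
        rw [← ha.2.1, ← ha.2.2]
      have h3 := hy.2 a.1 ha.1
      rw [h2] at h3
      simp [hΓ, h3]
    rw [dv_res _ _ _ hst]
    have h4 : ones (fun i => if Γ i = true then some true else if R i = true then none
        else some false : Res (Arc k n)) = Γ := by
      funext i
      unfold ones
      cases hΓ : Γ i <;> cases hRi : R i <;> simp [hΓ, hRi]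
    rw [h4]
    exact hy.1.2
  · intro y hy y' hy' heq
    simp only [coe_filter, mem_univ, true_and, Set.mem_setOf_eq, hMd] at hy hy'
    exact Es_inj hJ hy.1.1 hy'.1.1 heq

end P18dd
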