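import Pool.Agent.Lib.P18dd.Pw

/-!
# P18dd.SwA: the canonical process is short

`κ` is an ordered list of partial assignments (certificates) of size at most `w`. At a restriction `ρ` the FIRST `κ j` which
is consistent with `ρ` is taken, all its stars are queried, the answers `a` are arbitrary. `Long κ s ρ`: for some answers at least `s`
variables are queried. Claim: probability at most `c ^ s`, `c = 16 w β`.

PROOF. Induction on `s` (strong) of the stronger statement: for all `D : Finset I`, `b : I → Bool` and every `H : Res I → Prop` which is closed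
under fixing stars outside `D` (`H ρ → (∀ i ∈ N, i ∉ D ∧ ρ i = none) → H (setR ρ N v)`):
  `ex w3 (ind (H ρ ∧ Long κ s (setR ρ D b))) ≤ c ^ s * ex w3 (ind (H ρ))`.
`s = 0` trivial. Let `s > 0`. `Long` gives `j` (first consistent with `ρ_D := setR ρ D b`), `N` := stars of `ρ_D` in `(κ j).1` (nonempty, disjoint from `D`) and
answers `a` (only `a` on `N` matters, so `a` ranges over `2 ^ |N|` functions, e.g. `a = decide (· ∈ N')`, `N' ⊆ N`).
For fixed `(j, N, a)` map `ρ ↦ ρ' := setR ρ N (κ j).2`. It is injective on `{ρ : ρ = none on N}` and the weight of `ρ` is at most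
`(4 β) ^ |N|` times the weight of `ρ'` (weights `1/2` and `1/2 - β ≥ 1/4` against `β`). `ρ'` satisfies
`H' := H ρ' ∧ (j is the first index with κ j consistent with setR ρ' D b) ∧ (ρ' = (κ j).2 on N)  ∧ (no star of setR ρ' D b in (κ j).1)`,
which is closed under fixing stars outside `D ∪ N` (earlier certificates stay inconsistent, `κ j` is not touched any more), and
`setR (setR ρ D b) N a = setR ρ' (D ∪ N) (b overwritten by a on N)`. Induction hypothesis with `s - |N|`:
`≤ (4β)^|N| c^(s - |N|) ex (ind (H ρ' ∧ j is first for setR ρ' D b))`. Sum over `a`: `2 ^ |N|`; over `N ⊆ (κ j).1`, `N ≠ ∅`: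
`∑_{m ≥ 1} choose(w, m) (8β)^m c^(s-m) ≤ c^s ((1 + 8β/c)^w - 1) = c^s ((1 + 1/(2w))^w - 1) ≤ c^s` (use `c ≤ 1` for `m > s`: `c^(s-m) = 1 ≤ c^s c^(-m)`; `(1 + 1/(2w))^w ≤ exp(1/2) < 2`);
over `j`: the events 'j is first' are disjoint.
-/

set_option autoImplicit false

namespace P18dd

open Finset

variable {I : Type}

/-- `κ` is not falsified by `ρ` -/
def Con (ρ : Res I) (κ : Finset I × (I → Bool)) : Prop := ∀ i ∈ κ.1, ρ i = none ∨ ρ i = some (κ.2 i)

section

variable [DecidableEq I]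

/-- fix the coordinates in `N` -/
def setR (ρ : Res I) (N : Finset I) (a : I → Bool) : Res I := fun i => if i ∈ N then some (a i) else ρ i

/-- the stars in `S` -/
def strs (ρ : Res I) (S : Finset I) : Finset I := S.filter fun i => ρ i = none

/-- `κ j` is the first one which is not falsified -/
def First {M : ℕ} (κ : Fin M → Finset I × (I → Bool)) (ρ : Res I) (j : Fin M) : Prop :=
  Con ρ (κ j) ∧ ∀ i < j, ¬ Con ρ (κ i)

/-- for some answers at least `s` variables are queried -/
inductive Long {M : ℕ} (κ : Fin M → Finset I × (I → Bool)) : ℕ → Res I → Prop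
  | zero (ρ : Res I) : Long κ 0 ρ
  | step (s : ℕ) (ρ : Res I) (j : Fin M) (a : I → Bool) : First κ ρ j →
      (strs ρ (κ j).1).Nonempty →
      Long κ (s - (strs ρ (κ j).1).card) (setR ρ (strs ρ (κ j).1) a) → Long κ s ρ

end

namespace SwAAux

variable [Fintype I] [DecidableEq I]

theorem w_ratio {β : ℝ} (h0 : 0 < β) (h1 : β ≤ 1 / 16) (v : Bool) :
    w3 (1 / 2) β none ≤ 4 * β * w3 (1 / 2) β (some v) := by
  cases v
  · show β ≤ 4 * β * (1 - 1 / 2 - β)
    nlinarith
  · show β ≤ 4 * β * (1 / 2)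
    linarith

theorem w_nn {β : ℝ} (h0 : 0 < β) (h1 : β ≤ 1 / 16) (v : Option Bool) : 0 ≤ w3 (1 / 2) β v :=
  w3_nonneg (by norm_num) h0.le (by linarith) v

theorem wt_le {β : ℝ} (h0 : 0 < β) (h1 : β ≤ 1 / 16) (ρ : Res I) (N : Finset I) (v : I → Bool)
    (hN : ∀ i ∈ N, ρ i = none) :
    ∏ i, w3 (1 / 2) β (ρ i) ≤ (4 * β) ^ N.card * ∏ i, w3 (1 / 2) β (setR ρ N v i) := by
  have h2 : ∏ i, w3 (1 / 2) β (ρ i) ≤
      ∏ i, ((if i ∈ N then 4 * β else 1) * w3 (1 / 2) β (setR ρ N v i)) := by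
    refine prod_le_prod (fun i _ => w_nn h0 h1 _) fun i _ => ?_
    unfold setR
    by_cases hi : i ∈ N
    · rw [if_pos hi, if_pos hi, hN i hi]
      exact w_ratio h0 h1 (v i)
    · rw [if_neg hi, if_neg hi, one_mul]
  refine h2.trans (le_of_eq ?_)
  rw [prod_mul_distrib]
  congr 1
  rw [prod_ite]
  simp

theorem sum_inj {β : ℝ} (h0 : 0 < β) (h1 : β ≤ 1 / 16) (N : Finset I) (v : I → Bool)
    (E1 E2 : Res I → Prop) (hN : ∀ ρ, E1 ρ → ∀ i ∈ N, ρ i = none)
    (h12 : ∀ ρ, E1 ρ → E2 (setR ρ N v)) :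
    ex (w3 (1 / 2) β) (fun ρ : Res I => ind (E1 ρ)) ≤
      (4 * β) ^ N.card * ex (w3 (1 / 2) β) (fun ρ : Res I => ind (E2 ρ)) := by
  classical
  have key : ∀ E : Res I → Prop, ex (w3 (1 / 2) β) (fun ρ : Res I => ind (E ρ)) =
      ∑ ρ ∈ univ.filter E, ∏ i, w3 (1 / 2) β (ρ i) := by
    intro E
    unfold ex
    rw [sum_filter]
    refine sum_congr rfl fun ρ _ => ?_
    show (∏ i, w3 (1 / 2) β (ρ i)) * ind (E ρ) = _
    by_cases h : E ρ
    · rw [ind_of h, if_pos h, mul_one]
    · rw [ind_of_not h, if_neg h, mul_zero]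
  rw [key E1, key E2]
  have hinj : Set.InjOn (fun ρ : Res I => setR ρ N v) (↑(univ.filter E1) : Set (Res I)) := by
    intro ρ hρ ρ' hρ' he
    have hE : E1 ρ := (mem_filter.mp (mem_coe.mp hρ)).2
    have hE' : E1 ρ' := (mem_filter.mp (mem_coe.mp hρ')).2
    funext i
    by_cases hi : i ∈ N
    · rw [hN ρ hE i hi, hN ρ' hE' i hi]
    · have h := congrFun he i
      simp only [setR, if_neg hi] at h
      exact h
  calc ∑ ρ ∈ univ.filter E1, ∏ i, w3 (1 / 2) β (ρ i)
      ≤ ∑ ρ ∈ univ.filter E1, (4 * β) ^ N.card * ∏ i, w3 (1 / 2) β (setR ρ N v i) := by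
        refine sum_le_sum fun ρ hρ => ?_
        exact wt_le h0 h1 ρ N v (hN ρ (mem_filter.mp hρ).2)
    _ = (4 * β) ^ N.card * ∑ ρ ∈ univ.filter E1, ∏ i, w3 (1 / 2) β (setR ρ N v i) := by
        rw [mul_sum]
    _ = (4 * β) ^ N.card *
          ∑ ρ' ∈ (univ.filter E1).image (fun ρ : Res I => setR ρ N v), ∏ i, w3 (1 / 2) β (ρ' i) := by
        rw [sum_image hinj]
    _ ≤ (4 * β) ^ N.card * ∑ ρ' ∈ univ.filter E2, ∏ i, w3 (1 / 2) β (ρ' i) := by
        refine mul_le_mul_of_nonneg_left ?_ (by positivity)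
        refine sum_le_sum_of_subset_of_nonneg ?_ fun ρ _ _ => prod_nonneg fun i _ => w_nn h0 h1 _
        intro ρ' hρ'
        obtain ⟨ρ, hρ, rfl⟩ := mem_image.mp hρ'
        exact mem_filter.mpr ⟨mem_univ _, h12 ρ (mem_filter.mp hρ).2⟩

theorem pow_bound (w : ℕ) (hw : 1 ≤ w) (m : ℕ) (hm : m ≤ w) :
    (1 + 1 / (2 * (w : ℝ))) ^ m ≤ 2 := by
  have hw1 : (1 : ℝ) ≤ w := by exact_mod_cast hw
  set x : ℝ := 1 / (2 * (w : ℝ)) with hx
  have hx0 : 0 < x := by positivity
  have hx1 : x ≤ 1 / 2 := by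
    rw [hx, div_le_div_iff₀ (by positivity) (by norm_num)]
    linarith
  have hwx : (w : ℝ) * x = 1 / 2 := by
    rw [hx]; field_simp
  have h1 : (1 + x) ^ m ≤ (1 + x) ^ w := pow_le_pow_right₀ (by linarith) hm
  have h2 : 1 / 2 ≤ (1 - x) ^ w := by
    have := one_add_mul_le_pow (a := -x) (by linarith) w
    have e : (1 + -x) = 1 - x := by ring
    rw [e] at this
    linarith
  have h3 : (1 + x) ^ w * (1 - x) ^ w ≤ 1 := by
    rw [← mul_pow]
    refine pow_le_one₀ (by nlinarith) (by nlinarith)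
  have h4 : 0 ≤ (1 + x) ^ w := by positivity
  nlinarith

theorem sum_sets (κs : Finset I) (w : ℕ) (hw : 1 ≤ w) (hk : κs.card ≤ w) (β : ℝ) (h0 : 0 < β)
    (hc : 16 * w * β ≤ 1) (s : ℕ) :
    ∑ N ∈ κs.powerset.filter (fun N => N.Nonempty),
      (2 : ℝ) ^ N.card * ((4 * β) ^ N.card * (16 * w * β) ^ (s - N.card)) ≤
        (16 * w * β) ^ s := by
  have hw1 : (1 : ℝ) ≤ w := by exact_mod_cast hw
  set c : ℝ := 16 * w * β with hcdef
  have hc0 : 0 < c := by positivity
  set x : ℝ := 1 / (2 * (w : ℝ)) with hx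
  have hx0 : 0 < x := by positivity
  have hxc : x * c = 8 * β := by
    rw [hx, hcdef]; field_simp; ring
  have hterm : ∀ N : Finset I, (2 : ℝ) ^ N.card * ((4 * β) ^ N.card * c ^ (s - N.card)) ≤
      c ^ s * x ^ N.card := by
    intro N
    have e1 : (2 : ℝ) ^ N.card * ((4 * β) ^ N.card * c ^ (s - N.card)) =
        x ^ N.card * (c ^ N.card * c ^ (s - N.card)) := by
      have e2 : (2 : ℝ) ^ N.card * (4 * β) ^ N.card = x ^ N.card * c ^ N.card := by
        rw [← mul_pow, ← mul_pow, hxc]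
        congr 1
        ring
      rw [← mul_assoc, e2, mul_assoc]
    rw [e1, mul_comm (c ^ s), ← pow_add]
    refine mul_le_mul_of_nonneg_left ?_ (by positivity)
    exact pow_le_pow_of_le_one hc0.le hc (by omega)
  have h2 : ∑ N ∈ κs.powerset, x ^ N.card = (1 + x) ^ κs.card := by
    have := Finset.sum_pow_mul_eq_add_pow x 1 κs
    simp only [one_pow, mul_one] at this
    rw [this, add_comm]
  have h3 : ∑ N ∈ κs.powerset.filter (fun N => N.Nonempty), x ^ N.card ≤ 1 := by
    have h4 : κs.powerset.filter (fun N => N.Nonempty) = κs.powerset.erase ∅ := by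
      ext N
      simp only [mem_filter, mem_erase, nonempty_iff_ne_empty]
      tauto
    have h5 : ∑ N ∈ κs.powerset.erase ∅, x ^ N.card + x ^ (∅ : Finset I).card =
        ∑ N ∈ κs.powerset, x ^ N.card := sum_erase_add _ _ (empty_mem_powerset κs)
    rw [h4]
    have h6 := pow_bound w hw κs.card hk
    rw [card_empty, pow_zero, h2] at h5
    linarith
  calc ∑ N ∈ κs.powerset.filter (fun N => N.Nonempty),
        (2 : ℝ) ^ N.card * ((4 * β) ^ N.card * c ^ (s - N.card))
      ≤ ∑ N ∈ κs.powerset.filter (fun N => N.Nonempty), c ^ s * x ^ N.card :=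
        sum_le_sum fun N _ => hterm N
    _ = c ^ s * ∑ N ∈ κs.powerset.filter (fun N => N.Nonempty), x ^ N.card := by rw [mul_sum]
    _ ≤ c ^ s * 1 := mul_le_mul_of_nonneg_left h3 (by positivity)
    _ = c ^ s := mul_one _

/-- the event for fixed `j`, `N`, `a` -/
def E1 {M : ℕ} (κ : Fin M → Finset I × (I → Bool)) (s : ℕ) (D : Finset I) (b : I → Bool)
    (H : Res I → Prop) (j : Fin M) (N : Finset I) (a : I → Bool) (ρ : Res I) : Prop :=
  H ρ ∧ First κ (setR ρ D b) j ∧ strs (setR ρ D b) (κ j).1 = N ∧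
    Long κ (s - N.card) (setR (setR ρ D b) N a)

/-- the new closed property -/
def H2 {M : ℕ} (κ : Fin M → Finset I × (I → Bool)) (D : Finset I) (b : I → Bool)
    (H : Res I → Prop) (j : Fin M) (N : Finset I) (ρ : Res I) : Prop :=
  H ρ ∧ First κ (setR ρ D b) j ∧ strs (setR ρ D b) (κ j).1 = ∅ ∧
    ∀ i ∈ N, ρ i = some ((κ j).2 i)

theorem E1_none {M : ℕ} {κ : Fin M → Finset I × (I → Bool)} {s : ℕ} {D : Finset I}
    {b : I → Bool} {H : Res I → Prop} {j : Fin M} {N : Finset I} {a : I → Bool} {ρ : Res I}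
    (h : E1 κ s D b H j N a ρ) : ∀ i ∈ N, i ∉ D ∧ ρ i = none := by
  intro i hi
  have h1 := h.2.2.1
  rw [← h1] at hi
  have h2 := (mem_filter.mp hi).2
  unfold setR at h2
  by_cases hD : i ∈ D
  · rw [if_pos hD] at h2
    exact absurd h2 (by simp)
  · rw [if_neg hD] at h2
    exact ⟨hD, h2⟩

theorem E1_step {M : ℕ} {κ : Fin M → Finset I × (I → Bool)} {s : ℕ} {D : Finset I}
    {b : I → Bool} {H : Res I → Prop} {j : Fin M} {N : Finset I} {a : I → Bool} {ρ : Res I}
    (hH : ∀ (ρ : Res I) (N : Finset I) (v : I → Bool), H ρ → (∀ i ∈ N, i ∉ D ∧ ρ i = none) →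
      H (setR ρ N v))
    (h : E1 κ s D b H j N a ρ) :
    H2 κ D b H j N (setR ρ N (κ j).2) ∧
      Long κ (s - N.card) (setR (setR ρ N (κ j).2) (D ∪ N) (fun i => if i ∈ N then a i else b i)) := by
  have hN := E1_none h
  obtain ⟨h1, h2, h3, h4⟩ := h
  have hcomm : setR (setR ρ N (κ j).2) D b = setR (setR ρ D b) N (κ j).2 := by
    funext i
    unfold setR
    by_cases hi : i ∈ N
    · rw [if_neg (hN i hi).1, if_pos hi, if_pos hi]
    · rw [if_neg hi, if_neg hi]
  have hst : ∀ i ∈ (κ j).1, setR (setR ρ D b) N (κ j).2 i = some ((κ j).2 i) := by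
    intro i hi
    by_cases hiN : i ∈ N
    · unfold setR
      rw [if_pos hiN]
    · have h5 : setR ρ D b i ≠ none := by
        intro h6
        apply hiN
        rw [← h3]
        exact mem_filter.mpr ⟨hi, h6⟩
      have h6 := (h2.1 i hi).resolve_left h5
      show (if i ∈ N then some ((κ j).2 i) else setR ρ D b i) = _
      rw [if_neg hiN, h6]
  refine ⟨⟨hH ρ N (κ j).2 h1 hN, ?_, ?_, ?_⟩, ?_⟩
  · rw [hcomm]
    refine ⟨fun i hi => Or.inr (hst i hi), ?_⟩
    intro i hij hcon
    apply h2.2 i hij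
    intro l hl
    have h5 := hcon l hl
    by_cases hlN : l ∈ N
    · left
      rw [← h3] at hlN
      exact (mem_filter.mp hlN).2
    · have h6 : setR (setR ρ D b) N (κ j).2 l = setR ρ D b l := by
        show (if l ∈ N then some ((κ j).2 l) else setR ρ D b l) = _
        rw [if_neg hlN]
      rw [h6] at h5
      exact h5
  · rw [hcomm]
    rw [← not_nonempty_iff_eq_empty]
    rintro ⟨i, hi⟩
    have h5 := mem_filter.mp hi
    rw [hst i h5.1] at h5
    exact absurd h5.2 (by simp)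
  · intro i hi
    unfold setR
    rw [if_pos hi]
  · have h5 : setR (setR ρ N (κ j).2) (D ∪ N) (fun i => if i ∈ N then a i else b i) =
        setR (setR ρ D b) N a := by
      funext i
      unfold setR
      by_cases hi : i ∈ N
      · simp [hi]
      · by_cases hD : i ∈ D
        · simp [hi, hD]
        · simp [hi, hD]
    rw [h5]
    exact h4

theorem H2_closed {M : ℕ} {κ : Fin M → Finset I × (I → Bool)} {D : Finset I}
    {b : I → Bool} {H : Res I → Prop} {j : Fin M} {N : Finset I}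
    (hH : ∀ (ρ : Res I) (N : Finset I) (v : I → Bool), H ρ → (∀ i ∈ N, i ∉ D ∧ ρ i = none) →
      H (setR ρ N v)) (ρ : Res I) (P : Finset I) (v : I → Bool) (h : H2 κ D b H j N ρ)
    (hP : ∀ i ∈ P, i ∉ D ∪ N ∧ ρ i = none) : H2 κ D b H j N (setR ρ P v) := by
  obtain ⟨h1, h2, h3, h4⟩ := h
  have hPD : ∀ i ∈ P, i ∉ D ∧ ρ i = none := fun i hi =>
    ⟨fun h => (hP i hi).1 (mem_union_left N h), (hP i hi).2⟩
  have hsame : ∀ i, setR ρ D b i ≠ none → setR (setR ρ P v) D b i = setR ρ D b i := by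
    intro i hi
    unfold setR at hi ⊢
    by_cases hD : i ∈ D
    · rw [if_pos hD, if_pos hD]
    · rw [if_neg hD] at hi
      rw [if_neg hD, if_neg hD]
      by_cases hiP : i ∈ P
      · exact absurd (hP i hiP).2 hi
      · rw [if_neg hiP]
  have hfull : ∀ i ∈ (κ j).1, setR ρ D b i ≠ none := by
    intro i hi h5
    have : i ∈ strs (setR ρ D b) (κ j).1 := mem_filter.mpr ⟨hi, h5⟩
    rw [h3] at this
    exact absurd this (notMem_empty i)
  refine ⟨hH ρ P v h1 hPD, ⟨?_, ?_⟩, ?_, ?_⟩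
  · intro i hi
    rw [hsame i (hfull i hi)]
    exact h2.1 i hi
  · intro i hij hcon
    apply h2.2 i hij
    intro l hl
    by_cases h5 : setR ρ D b l = none
    · left; exact h5
    · have h6 := hcon l hl
      rw [hsame l h5] at h6
      exact h6
  · rw [← not_nonempty_iff_eq_empty]
    rintro ⟨i, hi⟩
    have h5 := mem_filter.mp hi
    rw [hsame i (hfull i h5.1)] at h5
    exact hfull i h5.1 h5.2
  · intro i hi
    have h5 : i ∉ P := fun h => (hP i h).1 (mem_union_right D hi)
    unfold setR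
    rw [if_neg h5]
    exact h4 i hi

theorem ind_pointwise {M : ℕ} (κ : Fin M → Finset I × (I → Bool)) (s : ℕ) (hs : 0 < s)
    (D : Finset I) (b : I → Bool) (H : Res I → Prop) (ρ : Res I) :
    ind (H ρ ∧ Long κ s (setR ρ D b)) ≤
      ∑ j, ∑ N ∈ (κ j).1.powerset.filter (fun N => N.Nonempty), ∑ N' ∈ N.powerset,
        ind (E1 κ s D b H j N (fun i => decide (i ∈ N')) ρ) := by
  by_cases h : H ρ ∧ Long κ s (setR ρ D b)
  · obtain ⟨h1, h2⟩ := h
    cases h2 with
    | zero => exact absurd hs (by simp)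
    | step _ _ j a hfirst hne hlong =>
      set N := strs (setR ρ D b) (κ j).1 with hN
      set N' := N.filter (fun i => a i = true) with hN'
      have h3 : setR (setR ρ D b) N (fun i => decide (i ∈ N')) = setR (setR ρ D b) N a := by
        funext i
        unfold setR
        by_cases hi : i ∈ N
        · rw [if_pos hi, if_pos hi]
          congr 1
          rw [hN']
          rcases ha : a i with _ | _
          · simp [ha]
          · simp [ha, hi]
        · rw [if_neg hi, if_neg hi]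
      have h4 : E1 κ s D b H j N (fun i => decide (i ∈ N')) ρ := by
        refine ⟨h1, hfirst, hN.symm, ?_⟩
        rw [h3]
        exact hlong
      have h5 : ind (E1 κ s D b H j N (fun i => decide (i ∈ N')) ρ) ≤
          ∑ N' ∈ N.powerset, ind (E1 κ s D b H j N (fun i => decide (i ∈ N')) ρ) :=
        single_le_sum (f := fun N' => ind (E1 κ s D b H j N (fun i => decide (i ∈ N')) ρ))
          (fun _ _ => ind_nonneg _) (mem_powerset.mpr (filter_subset _ _))
      have h6 : ∑ N' ∈ N.powerset, ind (E1 κ s D b H j N (fun i => decide (i ∈ N')) ρ) ≤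
          ∑ N ∈ (κ j).1.powerset.filter (fun N => N.Nonempty), ∑ N' ∈ N.powerset,
            ind (E1 κ s D b H j N (fun i => decide (i ∈ N')) ρ) :=
        single_le_sum (f := fun N => ∑ N' ∈ N.powerset,
            ind (E1 κ s D b H j N (fun i => decide (i ∈ N')) ρ))
          (fun _ _ => sum_nonneg fun _ _ => ind_nonneg _)
          (mem_filter.mpr ⟨mem_powerset.mpr (filter_subset _ _), hne⟩)
      have h7 : ∑ N ∈ (κ j).1.powerset.filter (fun N => N.Nonempty), ∑ N' ∈ N.powerset,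
            ind (E1 κ s D b H j N (fun i => decide (i ∈ N')) ρ) ≤
          ∑ j, ∑ N ∈ (κ j).1.powerset.filter (fun N => N.Nonempty), ∑ N' ∈ N.powerset,
            ind (E1 κ s D b H j N (fun i => decide (i ∈ N')) ρ) :=
        single_le_sum (f := fun j => ∑ N ∈ (κ j).1.powerset.filter (fun N => N.Nonempty),
            ∑ N' ∈ N.powerset, ind (E1 κ s D b H j N (fun i => decide (i ∈ N')) ρ))
          (fun _ _ => sum_nonneg fun _ _ => sum_nonneg fun _ _ => ind_nonneg _) (mem_univ j)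
      rw [ind_of h4] at h5
      exact (ind_le_one _).trans (h5.trans (h6.trans h7))
  · rw [ind_of_not h]
    exact sum_nonneg fun _ _ => sum_nonneg fun _ _ => sum_nonneg fun _ _ => ind_nonneg _

theorem first_unique {M : ℕ} {κ : Fin M → Finset I × (I → Bool)} {ρ : Res I} {j j' : Fin M}
    (h : First κ ρ j) (h' : First κ ρ j') : j = j' := by
  rcases lt_trichotomy j j' with h1 | h1 | h1
  · exact absurd h.1 (h'.2 j h1)
  · exact h1
  · exact absurd h'.1 (h.2 j' h1)

theorem sum_first {M : ℕ} (κ : Fin M → Finset I × (I → Bool)) (D : Finset I) (b : I → Bool)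
    (H : Res I → Prop) (ρ : Res I) :
    ∑ j, ind (H ρ ∧ First κ (setR ρ D b) j) ≤ ind (H ρ) := by
  by_cases h : ∃ j, H ρ ∧ First κ (setR ρ D b) j
  · obtain ⟨j, hj⟩ := h
    rw [sum_eq_single j]
    · exact ind_mono fun h => h.1
    · intro j' _ hne
      exact ind_of_not fun h => hne (first_unique h.2 hj.2)
    · intro hno
      exact absurd (mem_univ _) hno
  · push Not at h
    rw [sum_eq_zero]
    · exact ind_nonneg _
    · intro j _
      exact ind_of_not fun hh => h j hh.1 hh.2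

theorem main {M : ℕ} (κ : Fin M → Finset I × (I → Bool))
    (w : ℕ) (hw : 1 ≤ w) (hκ : ∀ j, (κ j).1.card ≤ w) (β : ℝ) (h0 : 0 < β)
    (hc : 16 * w * β ≤ 1) : ∀ (s : ℕ) (D : Finset I) (b : I → Bool) (H : Res I → Prop),
      (∀ (ρ : Res I) (N : Finset I) (v : I → Bool), H ρ → (∀ i ∈ N, i ∉ D ∧ ρ i = none) →
        H (setR ρ N v)) →
      ex (w3 (1 / 2) β) (fun ρ : Res I => ind (H ρ ∧ Long κ s (setR ρ D b))) ≤
        (16 * w * β) ^ s * ex (w3 (1 / 2) β) (fun ρ : Res I => ind (H ρ)) := by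
  have hw1 : (1 : ℝ) ≤ w := by exact_mod_cast hw
  have hβ : β ≤ 1 / 16 := by nlinarith
  have hc0 : 0 < 16 * (w : ℝ) * β := by positivity
  intro s
  induction s using Nat.strong_induction_on with
  | _ s ih =>
    intro D b H hH
    rcases Nat.eq_zero_or_pos s with hs | hs
    · subst hs
      rw [pow_zero, one_mul]
      exact ex_mono (w_nn h0 hβ) fun ρ => ind_mono fun h => h.1
    have h1 : ex (w3 (1 / 2) β) (fun ρ : Res I => ind (H ρ ∧ Long κ s (setR ρ D b))) ≤
        ∑ j, ∑ N ∈ (κ j).1.powerset.filter (fun N => N.Nonempty), ∑ N' ∈ N.powerset,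
          ex (w3 (1 / 2) β) (fun ρ : Res I =>
            ind (E1 κ s D b H j N (fun i => decide (i ∈ N')) ρ)) := by
      refine (ex_mono (w_nn h0 hβ) (ind_pointwise κ s hs D b H)).trans (le_of_eq ?_)
      rw [ex_sum]
      refine sum_congr rfl fun j _ => ?_
      rw [ex_sum]
      refine sum_congr rfl fun N _ => ?_
      rw [ex_sum]
    set A : Fin M → ℝ := fun j =>
      ex (w3 (1 / 2) β) (fun ρ : Res I => ind (H ρ ∧ First κ (setR ρ D b) j)) with hA
    have hA0 : ∀ j, 0 ≤ A j := fun j => ex_nonneg (w_nn h0 hβ) fun _ => ind_nonneg _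
    have h2 : ∀ j, ∀ N ∈ (κ j).1.powerset.filter (fun N => N.Nonempty), ∀ a : I → Bool,
        ex (w3 (1 / 2) β) (fun ρ : Res I => ind (E1 κ s D b H j N a ρ)) ≤
          (4 * β) ^ N.card * ((16 * w * β) ^ (s - N.card) * A j) := by
      intro j N hN a
      have hNne : N.Nonempty := (mem_filter.mp hN).2
      have hNc := card_pos.mpr hNne
      refine (sum_inj h0 hβ N (κ j).2 _ (fun ρ => H2 κ D b H j N ρ ∧
        Long κ (s - N.card) (setR ρ (D ∪ N) (fun i => if i ∈ N then a i else b i)))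
        (fun ρ h i hi => (E1_none h i hi).2) fun ρ h => E1_step hH h).trans ?_
      refine mul_le_mul_of_nonneg_left ?_ (by positivity)
      refine (ih (s - N.card) (by omega) (D ∪ N) (fun i => if i ∈ N then a i else b i)
        (H2 κ D b H j N) (H2_closed hH)).trans ?_
      refine mul_le_mul_of_nonneg_left ?_ (by positivity)
      exact ex_mono (w_nn h0 hβ) fun ρ => ind_mono fun h => ⟨h.1, h.2.1⟩
    have h3 : ∀ j, ∑ N ∈ (κ j).1.powerset.filter (fun N => N.Nonempty), ∑ N' ∈ N.powerset,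
          ex (w3 (1 / 2) β) (fun ρ : Res I =>
            ind (E1 κ s D b H j N (fun i => decide (i ∈ N')) ρ)) ≤ (16 * w * β) ^ s * A j := by
      intro j
      calc ∑ N ∈ (κ j).1.powerset.filter (fun N => N.Nonempty), ∑ N' ∈ N.powerset,
            ex (w3 (1 / 2) β) (fun ρ : Res I =>
              ind (E1 κ s D b H j N (fun i => decide (i ∈ N')) ρ))
          ≤ ∑ N ∈ (κ j).1.powerset.filter (fun N => N.Nonempty), ∑ _N' ∈ N.powerset,
              (4 * β) ^ N.card * ((16 * w * β) ^ (s - N.card) * A j) :=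
            sum_le_sum fun N hN => sum_le_sum fun N' _ => h2 j N hN _
        _ = (∑ N ∈ (κ j).1.powerset.filter (fun N => N.Nonempty),
              (2 : ℝ) ^ N.card * ((4 * β) ^ N.card * (16 * w * β) ^ (s - N.card))) * A j := by
            rw [sum_mul]
            refine sum_congr rfl fun N _ => ?_
            rw [sum_const, card_powerset, nsmul_eq_mul]
            push_cast
            ring
        _ ≤ (16 * w * β) ^ s * A j :=
            mul_le_mul_of_nonneg_right (sum_sets (κ j).1 w hw (hκ j) β h0 hc s) (hA0 j)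
    calc ex (w3 (1 / 2) β) (fun ρ : Res I => ind (H ρ ∧ Long κ s (setR ρ D b)))
        ≤ ∑ j, (16 * w * β) ^ s * A j := h1.trans (sum_le_sum fun j _ => h3 j)
      _ = (16 * w * β) ^ s * ∑ j, A j := by rw [mul_sum]
      _ = (16 * w * β) ^ s * ex (w3 (1 / 2) β) (fun ρ : Res I =>
            ∑ j, ind (H ρ ∧ First κ (setR ρ D b) j)) := by
          rw [ex_sum]
      _ ≤ _ := by
          refine mul_le_mul_of_nonneg_left ?_ (by positivity)
          exact ex_mono (w_nn h0 hβ) (sum_first κ D b H)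

end SwAAux

theorem long_bound [Fintype I] [DecidableEq I] {M : ℕ} (κ : Fin M → Finset I × (I → Bool))
    (w : ℕ) (hw : 1 ≤ w) (hκ : ∀ j, (κ j).1.card ≤ w) (β : ℝ) (h0 : 0 < β) (hc : 16 * w * β ≤ 1)
    (s : ℕ) : pr (w3 (1 / 2) β) (fun τ : Res I => Long κ s τ) ≤ (16 * w * β) ^ s := by
  have hw1 : (1 : ℝ) ≤ w := by exact_mod_cast hw
  have hβ : β ≤ 1 / 16 := by nlinarith
  have h := SwAAux.main κ w hw hκ β h0 hc s ∅ (fun _ => true) (fun _ => True)
    (fun _ _ _ _ _ => trivial)
  have h1 : ∀ ρ : Res I, setR ρ ∅ (fun _ => true) = ρ := fun ρ => by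
    funext i
    simp [setR]
  simp only [h1, true_and] at h
  refine h.trans ?_
  have h2 : ex (w3 (1 / 2) β) (fun _ : Res I => ind True) ≤ 1 := by
    have h3 : (fun _ : Res I => ind True) = fun _ : Res I => (1 : ℝ) := by
      funext ρ
      exact ind_of trivial
    rw [h3, ex_one (w3_sum (1 / 2) β)]
  calc (16 * w * β) ^ s * ex (w3 (1 / 2) β) (fun _ : Res I => ind True)
      ≤ (16 * w * β) ^ s * 1 := mul_le_mul_of_nonneg_left h2 (by positivity)
    _ = _ := mul_one _

end P18dd
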