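import Pool.Agent.Lib.P18dd.SwA

/-!
# P18dd.SwB: the switching lemma

`κ` := an enumeration (`Fintype.equivFin` of a subtype) of all `(D, v)` with `D.card ≤ w` and `∀ z, (∀ i ∈ D, z i = v i) → f z = true`.
If `¬ Cert s false (res τ f)`: there is `z` with `f (ov τ z) = false` such that no `D` with `D.card ≤ s` certifies it. Claim: for every `D` consisting of stars of
`τ` and every `j` with `j = 0 ∨ D.card + j = s + 1`: `Long κ j (setR τ D z)`. Strong induction on `j`: `j = 0` is `Long.zero`. Otherwise `D.card ≤ s`, so some `z'` agrees with `z` on `D`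
and `f (ov τ z') = true`, hence some `h ∈ T` is true there and has a certificate of size `≤ w`, which is one of the `κ` and is consistent with `setR τ D z`.
So a FIRST consistent `κ j₀` exists. If it had no stars in `setR τ D z` it would be satisfied by `ov τ z` (which extends `setR τ D z`), contradiction with
`f (ov τ z) = false`. Take the answers `z` on its stars `N` : `setR (setR τ D z) N z = setR τ (D ∪ N) z`, `N` consists of stars of `τ`, disjoint from `D`.
Apply `long_bound` with `s + 1`.
-/

set_option autoImplicit false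

namespace P18dd

open Finset

namespace SwBAux

variable {I : Type} [DecidableEq I]

theorem setR_union (τ : Res I) (D N : Finset I) (z : I → Bool) :
    setR (setR τ D z) N z = setR τ (D ∪ N) z := by
  funext i
  unfold setR
  by_cases h1 : i ∈ N
  · rw [if_pos h1, if_pos (mem_union_right D h1)]
  · rw [if_neg h1]
    by_cases h2 : i ∈ D
    · rw [if_pos h2, if_pos (mem_union_left N h2)]
    · rw [if_neg h2, if_neg (by rw [mem_union]; tauto)]

theorem setR_empty (τ : Res I) (z : I → Bool) : setR τ ∅ z = τ := by
  funext i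
  simp [setR]

theorem long_of {M : ℕ} (κ : Fin M → Finset I × (I → Bool)) (f : (I → Bool) → Bool)
    (hκ1 : ∀ j, ∀ z, (∀ i ∈ (κ j).1, z i = (κ j).2 i) → f z = true) (τ : Res I) (z : I → Bool)
    (hz : f (ov τ z) = false) (s : ℕ)
    (hex : ∀ D : Finset I, D.card ≤ s → ∃ z', (∀ i ∈ D, z' i = z i) ∧
      ∃ j, ∀ i ∈ (κ j).1, ov τ z' i = (κ j).2 i) :
    ∀ n : ℕ, ∀ D : Finset I, (∀ i ∈ D, τ i = none) → (n = 0 ∨ D.card + n = s + 1) →
      Long κ n (setR τ D z) := by
  intro n
  induction n using Nat.strong_induction_on with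
  | _ n ih =>
    intro D hD hn
    rcases Nat.eq_zero_or_pos n with h0 | hpos
    · subst h0
      exact Long.zero _
    have hn' : D.card + n = s + 1 := hn.resolve_left hpos.ne'
    obtain ⟨z', hz', j₁, hj₁⟩ := hex D (by omega)
    have hcon : Con (setR τ D z) (κ j₁) := by
      intro i hi
      have h1 := hj₁ i hi
      unfold setR
      by_cases h2 : i ∈ D
      · right
        rw [if_pos h2, ← h1, ← hz' i h2]
        unfold ov
        rw [hD i h2]
        rfl
      · rw [if_neg h2]
        unfold ov at h1
        rcases hτ : τ i with _ | b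
        · left; rfl
        · right
          rw [hτ] at h1
          rw [← h1]
          rfl
    obtain ⟨j₀, hj₀, hmin⟩ := WellFounded.has_min (wellFounded_lt (α := Fin M))
      {j | Con (setR τ D z) (κ j)} ⟨j₁, hcon⟩
    have hfirst : First κ (setR τ D z) j₀ := ⟨hj₀, fun i hi hc => hmin i hc hi⟩
    set N := strs (setR τ D z) (κ j₀).1 with hN
    have hNmem : ∀ i ∈ N, τ i = none ∧ i ∉ D := by
      intro i hi
      rw [hN] at hi
      unfold strs at hi
      rw [mem_filter] at hi
      have h1 := hi.2
      unfold setR at h1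
      by_cases h2 : i ∈ D
      · rw [if_pos h2] at h1
        exact absurd h1 (by simp)
      · rw [if_neg h2] at h1
        exact ⟨h1, h2⟩
    have hne : N.Nonempty := by
      by_contra hcon2
      rw [not_nonempty_iff_eq_empty] at hcon2
      have h1 : f (ov τ z) = true := by
        refine hκ1 j₀ _ fun i hi => ?_
        have h3 : setR τ D z i ≠ none := by
          intro h4
          have h5 : i ∈ N := by
            rw [hN]
            exact mem_filter.mpr ⟨hi, h4⟩
          rw [hcon2] at h5
          exact absurd h5 (notMem_empty i)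
        have h4 : setR τ D z i = some ((κ j₀).2 i) := (hj₀ i hi).resolve_left h3
        unfold setR at h4
        unfold ov
        by_cases h2 : i ∈ D
        · rw [if_pos h2] at h4
          rw [hD i h2]
          exact Option.some.inj h4
        · rw [if_neg h2] at h4
          rw [h4]
          rfl
      rw [h1] at hz
      exact absurd hz (by simp)
    refine Long.step n (setR τ D z) j₀ z hfirst hne ?_
    rw [← hN, setR_union]
    refine ih (n - N.card) ?_ (D ∪ N) ?_ ?_
    · have := card_pos.mpr hne
      omega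
    · intro i hi
      rcases mem_union.mp hi with h1 | h1
      · exact hD i h1
      · exact (hNmem i h1).1
    · have hdisj : Disjoint D N := by
        rw [disjoint_left]
        intro i h1 h2
        exact (hNmem i h2).2 h1
      rw [card_union_of_disjoint hdisj]
      omega

end SwBAux

theorem switching {I : Type} [Fintype I] [DecidableEq I] (w : ℕ) (hw : 1 ≤ w) (β : ℝ)
    (h0 : 0 < β) (hc : 16 * w * β ≤ 1) (T : Set ((I → Bool) → Bool))
    (hT : ∀ h ∈ T, Cert w true h) (f : (I → Bool) → Bool)
    (hf : ∀ z, f z = true ↔ ∃ h ∈ T, h z = true) (s : ℕ) :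
    pr (w3 (1 / 2) β) (fun τ : Res I => ¬ Cert s false (res τ f)) ≤ (16 * w * β) ^ (s + 1) := by
  classical
  set Q : Type := {p : Finset I × (I → Bool) // p.1.card ≤ w ∧
    ∀ z, (∀ i ∈ p.1, z i = p.2 i) → f z = true} with hQ
  set e := (Fintype.equivFin Q).symm with he
  set κ : Fin (Fintype.card Q) → Finset I × (I → Bool) := fun j => (e j).1 with hκ
  have hκw : ∀ j, (κ j).1.card ≤ w := fun j => (e j).2.1
  have hκ1 : ∀ j, ∀ z, (∀ i ∈ (κ j).1, z i = (κ j).2 i) → f z = true := fun j => (e j).2.2
  have hw1 : (1 : ℝ) ≤ w := by exact_mod_cast hw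
  have hβ : β ≤ 1 / 2 := by nlinarith
  refine le_trans (pr_mono (w3_nonneg (by norm_num) h0.le (by linarith)) ?_)
    (long_bound κ w hw hκw β h0 hc (s + 1))
  intro τ hτ
  unfold Cert at hτ
  push Not at hτ
  obtain ⟨z, hz, hD⟩ := hτ
  have h1 := SwBAux.long_of κ f hκ1 τ z hz s (by
    intro D hDs
    obtain ⟨z', hz', hne⟩ := hD D hDs
    refine ⟨z', hz', ?_⟩
    have ht : f (ov τ z') = true := by
      have h2 : f (ov τ z') ≠ false := hne
      exact Bool.eq_true_of_not_eq_false h2
    obtain ⟨h, hhT, hh⟩ := (hf _).mp ht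
    obtain ⟨D', hD'w, hD'⟩ := hT h hhT _ hh
    have hq : D'.card ≤ w ∧ ∀ y, (∀ i ∈ D', y i = ov τ z' i) → f y = true :=
      ⟨hD'w, fun y hy => (hf y).mpr ⟨h, hhT, hD' y hy⟩⟩
    refine ⟨e.symm ⟨(D', ov τ z'), hq⟩, ?_⟩
    have h3 : κ (e.symm ⟨(D', ov τ z'), hq⟩) = (D', ov τ z') := by
      show (e (e.symm ⟨(D', ov τ z'), hq⟩)).1 = (D', ov τ z')
      rw [Equiv.apply_symm_apply]
    rw [h3]
    exact fun i _ => rfl) (s + 1) ∅ (by simp) (Or.inr (by simp))
  rw [SwBAux.setR_empty] at h1
  exact h1

end P18dd
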