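import Pool.Agent.Lib.P18dd.Defs

/-!
# P18dd.Tree: from formulas with arbitrary fan-in to balanced binary trees

`tree_of_fm`: induction on `Fm`. A gate with `m ≥ 1` inputs and trees `t₀, .., t_{m-1}`: for `b = true` (AND) or `false` (OR) build a balanced tree: lemma: for a nonempty list of trees
`L` (all `Lit`, `alt ≤ d`, `depth ≤ e`, `length ≤ 2 ^ j`) there is `t` with `t.fn z = true ↔ ∀ u ∈ L, u.fn z = true` (resp. `∃`), `t.Lit`, `t.leaves = sum`, `t.alt ≤ d + 1`, moreover
(`if t.isG b then t.alt else t.alt + 1) ≤ d + 1`, `t.depth ≤ e + j` (induction on `j`, split the list in two halves). `m ≤ ∑ S i` as every `S i ≥ 1`; `2 ^ (Nat.log 2 S + 1) > S ≥ m`.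
`fam_of_tree`: index type `Fin T.subs.length`; `alt = 0` only for leaves (`alt (node ..) ≥ 1`: if `l.isG b` then `l.alt ≥ 1`); for `node b l r` the set `T` := indices `i` whose subtree is in `(node b l r).parts b`; 
these are subtrees of `T` (`subs_trans`) and have smaller `alt` (`u ∈ (node b l r).parts b → u.alt < (node b l r).alt`, induction).
-/

set_option autoImplicit false

namespace P18dd

open Finset

namespace TreeAux

variable {I : Type}

/-- contribution of a child below a gate of type `b` -/
def ca (b : Bool) (t : Tr I) : ℕ := if t.isG b then t.alt else t.alt + 1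

theorem alt_le_ca (b : Bool) (t : Tr I) : t.alt ≤ ca b t := by
  unfold ca; split_ifs <;> omega

theorem alt_node (b : Bool) (l r : Tr I) : (Tr.node b l r).alt = max (ca b l) (ca b r) := rfl

theorem ca_node (b : Bool) (l r : Tr I) : ca b (Tr.node b l r) = (Tr.node b l r).alt := by
  simp [ca, Tr.isG]

theorem alt_pos (t : Tr I) : (∃ b l r, t = Tr.node b l r) → 1 ≤ t.alt := by
  induction t with
  | leaf f => rintro ⟨b, l, r, h⟩; cases h
  | node b l r ihl ihr =>
    intro _
    rw [alt_node]
    have : 1 ≤ ca b l := by
      cases l with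
      | leaf f => simp [ca, Tr.isG]
      | node b' l' r' =>
        have h1 := ihl ⟨b', l', r', rfl⟩
        exact h1.trans (alt_le_ca _ _)
    exact this.trans (le_max_left _ _)

theorem bal (b : Bool) (d e : ℕ) : ∀ (j : ℕ) (L : List (Tr I)), L ≠ [] → L.length ≤ 2 ^ j →
    (∀ u ∈ L, u.Lit ∧ u.alt ≤ d ∧ u.depth ≤ e) →
    ∃ t : Tr I, (b = true → ∀ z, t.fn z = true ↔ ∀ u ∈ L, u.fn z = true) ∧
      (b = false → ∀ z, t.fn z = true ↔ ∃ u ∈ L, u.fn z = true) ∧
      t.Lit ∧ t.leaves = (L.map Tr.leaves).sum ∧ ca b t ≤ d + 1 ∧ t.depth ≤ e + j := by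
  intro j
  induction j with
  | zero =>
    intro L hL hlen hall
    match L, hL, hlen, hall with
    | [u], _, _, hall =>
      have h1 := hall u (by simp)
      refine ⟨u, ?_, ?_, h1.1, by simp, ?_, by omega⟩
      · intro _ z; simp
      · intro _ z; simp
      · unfold ca; split_ifs <;> omega
    | u :: v :: L, _, hlen, _ => simp at hlen
  | succ j ih =>
    intro L hL hlen hall
    by_cases hsm : L.length ≤ 2 ^ j
    · obtain ⟨t, h1, h2, h3, h4, h5, h6⟩ := ih L hL hsm hall
      exact ⟨t, h1, h2, h3, h4, h5, by omega⟩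
    · push Not at hsm
      have hpos : 0 < 2 ^ j := by positivity
      have hp2 : 2 ^ (j + 1) = 2 ^ j + 2 ^ j := by rw [pow_succ]; ring
      obtain ⟨t1, a1, a2, a3, a4, a5, a6⟩ := ih (L.take (2 ^ j)) (by
        intro h
        have := congrArg List.length h
        rw [List.length_take, List.length_nil] at this
        omega) (by rw [List.length_take]; omega) (fun u hu => hall u (List.mem_of_mem_take hu))
      obtain ⟨t2, b1, b2, b3, b4, b5, b6⟩ := ih (L.drop (2 ^ j)) (by
        intro h
        have := congrArg List.length h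
        rw [List.length_drop, List.length_nil] at this
        omega) (by rw [List.length_drop]; omega) (fun u hu => hall u (List.mem_of_mem_drop hu))
      have hLL : L = L.take (2 ^ j) ++ L.drop (2 ^ j) := (List.take_append_drop _ _).symm
      have hmem : ∀ u, u ∈ L ↔ u ∈ L.take (2 ^ j) ∨ u ∈ L.drop (2 ^ j) := by
        intro u
        conv_lhs => rw [hLL]
        rw [List.mem_append]
      refine ⟨Tr.node b t1 t2, ?_, ?_, ⟨a3, b3⟩, ?_, ?_, ?_⟩
      · intro hb z
        have h1 := a1 hb z
        have h2 := b1 hb z
        have h0 : (Tr.node b t1 t2).fn z = true ↔ t1.fn z = true ∧ t2.fn z = true := by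
          rw [hb]; simp [Tr.fn]
        rw [h0, h1, h2]
        constructor
        · rintro ⟨h3, h4⟩ u hu
          rcases (hmem u).1 hu with h | h
          · exact h3 u h
          · exact h4 u h
        · intro h3
          exact ⟨fun u hu => h3 u ((hmem u).2 (Or.inl hu)),
            fun u hu => h3 u ((hmem u).2 (Or.inr hu))⟩
      · intro hb z
        have h1 := a2 hb z
        have h2 := b2 hb z
        have h0 : (Tr.node b t1 t2).fn z = true ↔ t1.fn z = true ∨ t2.fn z = true := by
          rw [hb]; simp [Tr.fn]
        rw [h0, h1, h2]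
        constructor
        · rintro (⟨u, hu, h3⟩ | ⟨u, hu, h3⟩)
          · exact ⟨u, (hmem u).2 (Or.inl hu), h3⟩
          · exact ⟨u, (hmem u).2 (Or.inr hu), h3⟩
        · rintro ⟨u, hu, h3⟩
          rcases (hmem u).1 hu with h | h
          · exact Or.inl ⟨u, h, h3⟩
          · exact Or.inr ⟨u, h, h3⟩
      · conv_rhs => rw [hLL]
        rw [List.map_append, List.sum_append, ← a4, ← b4]
        rfl
      · rw [ca_node, alt_node]
        exact max_le a5 b5
      · simp only [Tr.depth]
        omega

theorem subs_alt (t : Tr I) : ∀ u ∈ t.subs, u.alt ≤ t.alt := by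
  induction t with
  | leaf f =>
    intro u hu
    simp only [Tr.subs, List.mem_singleton] at hu
    rw [hu]
  | node b l r ihl ihr =>
    intro u hu
    simp only [Tr.subs, List.mem_cons, List.mem_append] at hu
    rw [alt_node]
    rcases hu with h | h | h
    · rw [h, alt_node]
    · exact ((ihl u h).trans (alt_le_ca b l)).trans (le_max_left _ _)
    · exact ((ihr u h).trans (alt_le_ca b r)).trans (le_max_right _ _)

theorem parts_subs (b : Bool) (t : Tr I) : ∀ u ∈ t.parts b, u ∈ t.subs := by
  induction t with
  | leaf f =>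
    intro u hu
    simpa [Tr.parts, Tr.subs] using hu
  | node b' l r ihl ihr =>
    intro u hu
    simp only [Tr.subs, List.mem_cons, List.mem_append]
    simp only [Tr.parts] at hu
    split_ifs at hu with h
    · rw [List.mem_append] at hu
      rcases hu with h1 | h1
      · exact Or.inr (Or.inl (ihl u h1))
      · exact Or.inr (Or.inr (ihr u h1))
    · rw [List.mem_singleton] at hu
      exact Or.inl hu

theorem parts_alt (b : Bool) (t : Tr I) : ∀ u ∈ t.parts b, u.alt < ca b t := by
  induction t with
  | leaf f =>
    intro u hu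
    simp only [Tr.parts, List.mem_singleton] at hu
    rw [hu]
    simp [ca, Tr.isG, Tr.alt]
  | node b' l r ihl ihr =>
    intro u hu
    simp only [Tr.parts] at hu
    split_ifs at hu with h
    · subst h
      rw [ca_node, alt_node]
      rw [List.mem_append] at hu
      rcases hu with h1 | h1
      · exact lt_of_lt_of_le (ihl u h1) (le_max_left _ _)
      · exact lt_of_lt_of_le (ihr u h1) (le_max_right _ _)
    · rw [List.mem_singleton] at hu
      rw [hu]
      have : (Tr.node b' l r).isG b = false := by
        simp only [Tr.isG]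
        exact beq_false_of_ne h
      simp [ca, this]

theorem parts_and (t : Tr I) (z : I → Bool) :
    t.fn z = true ↔ ∀ u ∈ t.parts true, u.fn z = true := by
  induction t with
  | leaf f => simp [Tr.parts]
  | node b l r ihl ihr =>
    cases b with
    | true =>
      have h0 : (Tr.node true l r).fn z = true ↔ l.fn z = true ∧ r.fn z = true := by
        simp [Tr.fn]
      rw [h0, ihl, ihr]
      simp only [Tr.parts, if_true, List.mem_append]
      constructor
      · rintro ⟨h1, h2⟩ u (h | h)
        · exact h1 u h
        · exact h2 u h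
      · intro h
        exact ⟨fun u hu => h u (Or.inl hu), fun u hu => h u (Or.inr hu)⟩
    | false => simp [Tr.parts]

theorem parts_or (t : Tr I) (z : I → Bool) :
    t.fn z = true ↔ ∃ u ∈ t.parts false, u.fn z = true := by
  induction t with
  | leaf f => simp [Tr.parts]
  | node b l r ihl ihr =>
    cases b with
    | false =>
      have h0 : (Tr.node false l r).fn z = true ↔ l.fn z = true ∨ r.fn z = true := by
        simp [Tr.fn]
      rw [h0, ihl, ihr]
      simp only [Tr.parts, if_true, List.mem_append]
      constructor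
      · rintro (⟨u, hu, h1⟩ | ⟨u, hu, h1⟩)
        · exact ⟨u, Or.inl hu, h1⟩
        · exact ⟨u, Or.inr hu, h1⟩
      · rintro ⟨u, h | h, h1⟩
        · exact Or.inl ⟨u, h, h1⟩
        · exact Or.inr ⟨u, h, h1⟩
    | true => simp [Tr.parts]

end TreeAux

open TreeAux

theorem tree_of_fm {I : Type} (P : Set ((I → Bool) → Bool)) (hP : ∀ h ∈ P, Dep1 h) {d S : ℕ}
    {f : (I → Bool) → Bool} (h : Fm P d S f) :
    ∃ T : Tr I, T.fn = f ∧ T.Lit ∧ T.leaves = S ∧ T.alt ≤ d ∧
      T.depth ≤ d * (Nat.log 2 S + 1) := by
  induction h with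
  | lit d f hf => exact ⟨Tr.leaf f, rfl, hP f hf, rfl, by simp [Tr.alt], by simp [Tr.depth]⟩
  | gate d m S g f hm _ hop ih =>
    choose t ht1 ht2 ht3 ht4 ht5 using ih
    have hSi : ∀ i, S i ≤ ∑ i, S i := fun i =>
      Finset.single_le_sum (f := S) (fun j _ => Nat.zero_le _) (mem_univ i)
    have hSpos : ∀ i, 1 ≤ S i := fun i => by rw [← ht3 i]; exact leaves_pos _
    have hmS : m ≤ ∑ i, S i := by
      calc m = ∑ _i : Fin m, 1 := by simp
        _ ≤ _ := sum_le_sum fun i _ => hSpos i
    have hlen : (List.ofFn t).length ≤ 2 ^ (Nat.log 2 (∑ i, S i) + 1) := by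
      rw [List.length_ofFn]
      exact hmS.trans (Nat.lt_pow_succ_log_self (by norm_num) _).le
    have hne : List.ofFn t ≠ [] := by
      intro h
      have := congrArg List.length h
      rw [List.length_ofFn, List.length_nil] at this
      omega
    have hall : ∀ u ∈ List.ofFn t, u.Lit ∧ u.alt ≤ d ∧
        u.depth ≤ d * (Nat.log 2 (∑ i, S i) + 1) := by
      intro u hu
      rw [List.mem_ofFn] at hu
      obtain ⟨i, rfl⟩ := hu
      refine ⟨ht2 i, ht4 i, (ht5 i).trans ?_⟩
      apply Nat.mul_le_mul_left
      have := Nat.log_mono_right (b := 2) (hSi i)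
      omega
    have hmem : ∀ u, u ∈ List.ofFn t ↔ ∃ i, t i = u := by
      intro u
      rw [List.mem_ofFn]
    have hsum : ((List.ofFn t).map Tr.leaves).sum = ∑ i, S i := by
      rw [List.map_ofFn, List.sum_ofFn]
      exact sum_congr rfl fun i _ => ht3 i
    have hdep : d * (Nat.log 2 (∑ i, S i) + 1) + (Nat.log 2 (∑ i, S i) + 1)
        = (d + 1) * (Nat.log 2 (∑ i, S i) + 1) := by ring
    rcases hop with hop | hop
    · obtain ⟨T, h1, _, h3, h4, h5, h6⟩ := bal true d _ _ (List.ofFn t) hne hlen hall
      refine ⟨T, ?_, h3, by rw [h4, hsum], (alt_le_ca _ _).trans h5, by rw [← hdep]; exact h6⟩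
      funext z
      rw [Bool.eq_iff_iff, h1 rfl z, hop z]
      constructor
      · intro h i
        rw [← ht1 i]
        exact h _ ((hmem _).2 ⟨i, rfl⟩)
      · intro h u hu
        obtain ⟨i, rfl⟩ := (hmem u).1 hu
        rw [ht1 i]
        exact h i
    · obtain ⟨T, _, h2, h3, h4, h5, h6⟩ := bal false d _ _ (List.ofFn t) hne hlen hall
      refine ⟨T, ?_, h3, by rw [h4, hsum], (alt_le_ca _ _).trans h5, by rw [← hdep]; exact h6⟩
      funext z
      rw [Bool.eq_iff_iff, h2 rfl z, hop z]
      constructor
      · rintro ⟨u, hu, h⟩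
        obtain ⟨i, rfl⟩ := (hmem u).1 hu
        exact ⟨i, by rw [← ht1 i]; exact h⟩
      · rintro ⟨i, h⟩
        exact ⟨t i, (hmem _).2 ⟨i, rfl⟩, by rw [ht1 i]; exact h⟩

theorem length_subs {I : Type} (T : Tr I) : T.subs.length + 1 = 2 * T.leaves := by
  induction T with
  | leaf f => rfl
  | node b l r ihl ihr =>
    simp only [Tr.subs, Tr.leaves, List.length_cons, List.length_append]
    omega

/-- leaves which are subtrees read at most one variable -/
theorem lit_of_mem {I : Type} {T : Tr I} (hT : T.Lit) {f : (I → Bool) → Bool}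
    (h : Tr.leaf f ∈ T.subs) : Dep1 f := by
  induction T with
  | leaf g =>
    simp only [Tr.subs, List.mem_singleton] at h
    cases h
    exact hT
  | node b l r ihl ihr =>
    simp only [Tr.subs, List.mem_cons, List.mem_append] at h
    rcases h with h | h | h
    · cases h
    · exact ihl hT.1 h
    · exact ihr hT.2 h

theorem fam_of_tree {I : Type} (T : Tr I) (hT : T.Lit) :
    (∀ j : Fin T.subs.length, (T.subs.get j).alt = 0 → Dep1 (T.subs.get j).fn) ∧
    (∀ j : Fin T.subs.length, (T.subs.get j).alt ≠ 0 → ∃ Q : Set (Fin T.subs.length),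
      (∀ i ∈ Q, (T.subs.get i).alt < (T.subs.get j).alt) ∧
      ((∀ z, (T.subs.get j).fn z = true ↔ ∀ i ∈ Q, (T.subs.get i).fn z = true) ∨
        (∀ z, (T.subs.get j).fn z = true ↔ ∃ i ∈ Q, (T.subs.get i).fn z = true))) ∧
    (∀ j : Fin T.subs.length, (T.subs.get j).alt ≤ T.alt) := by
  refine ⟨?_, ?_, ?_⟩
  · intro j hj
    have hmem : T.subs.get j ∈ T.subs := List.get_mem _ _
    generalize T.subs.get j = u at hj hmem
    cases u with
    | leaf f => exact lit_of_mem hT hmem
    | node b l r =>
      exfalso
      have := alt_pos (Tr.node b l r) ⟨b, l, r, rfl⟩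
      omega
  · intro j hj
    have hmem : T.subs.get j ∈ T.subs := List.get_mem _ _
    generalize T.subs.get j = u at hj hmem
    cases u with
    | leaf f => exact absurd rfl hj
    | node b l r =>
      refine ⟨{i | T.subs.get i ∈ (Tr.node b l r).parts b}, ?_, ?_⟩
      · intro i hi
        have := parts_alt b (Tr.node b l r) _ hi
        rwa [ca_node] at this
      · have hidx : ∀ v ∈ (Tr.node b l r).parts b, ∃ i : Fin T.subs.length, T.subs.get i = v := by
          intro v hv
          exact List.mem_iff_get.1 (subs_trans hmem (parts_subs b _ v hv))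
        cases b with
        | true =>
          left
          intro z
          rw [parts_and]
          constructor
          · intro h i hi
            exact h _ hi
          · intro h v hv
            obtain ⟨i, rfl⟩ := hidx v hv
            exact h i hv
        | false =>
          right
          intro z
          rw [parts_or]
          constructor
          · rintro ⟨v, hv, h⟩
            obtain ⟨i, rfl⟩ := hidx v hv
            exact ⟨i, hv, h⟩
          · rintro ⟨i, hi, h⟩
            exact ⟨_, hi, h⟩
  · intro j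
    exact subs_alt T _ (List.get_mem _ _)

end P18dd
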