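import Pool.Agent.Lib.P18dd.Rounds
import Pool.Agent.Lib.P18dd.SSG
import Pool.Agent.Lib.P18dd.Der
import Pool.Agent.Lib.P18dd.Cmb0
import Pool.Agent.Lib.P18dd.RootB
import Pool.Agent.Lib.P18dd.Tree

/-!
# P18dd.Typ: a typical graph
-/

set_option autoImplicit false

namespace P18dd

open Finset

namespace TypAux

/-! ### numbers -/

/-- the parameters -/
structure Par (k n K m θ d w t : ℕ) : Prop where
  hK : 1 ≤ K
  hk : k = 24 * K
  hθ : θ = m * K
  hn : n = 2 ^ (m * k)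
  hm : 1300 * k ^ 3 ≤ m
  hw : w = 10 * m * k ^ 2
  ht : t = 10 * k ^ 2
  hd : (64 * w) ^ d ≤ 2 ^ m
  hw10 : (16 * w) ^ 10 ≤ 2 ^ m

noncomputable def al (m n : ℕ) : ℝ := 1 / (n * 4 ^ m)
noncomputable def be (w : ℕ) : ℝ := 1 / (64 * w)
noncomputable def ga (m : ℕ) : ℝ := 1 / 2 ^ m
/-- probability of an arc of `Γ` -/
noncomputable def P1 (m n w d : ℕ) : ℝ := pp (al m n) (be w) d + al m n * be w ^ d / 2
/-- probability of a star -/
noncomputable def Q1 (m n w d : ℕ) : ℝ := al m n * be w ^ d * ga m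

variable {k n K m θ d w t : ℕ}

theorem Par.k24 (h : Par k n K m θ d w t) : 24 ≤ k := by
  have := h.hK; have := h.hk; omega

theorem Par.m1 (h : Par k n K m θ d w t) : 1300 ≤ m := by
  have h1 := h.k24
  have h2 := h.hm
  have h3 : 1 ≤ k ^ 3 := Nat.one_le_pow _ _ (by omega)
  omega

theorem Par.w1 (h : Par k n K m θ d w t) : 1 ≤ w := by
  have h1 := h.k24
  have h2 := h.m1
  rw [h.hw]
  exact Nat.succ_le_of_lt (by positivity)

theorem Par.n1 (h : Par k n K m θ d w t) : 1 ≤ n := by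
  rw [h.hn]; exact Nat.one_le_two_pow

theorem Par.al_pos (h : Par k n K m θ d w t) : 0 < al m n := by
  have := h.n1
  unfold al
  positivity

theorem Par.al_le (h : Par k n K m θ d w t) : al m n ≤ 1 := by
  have h1 := h.n1
  have h1' : (1 : ℝ) ≤ n := by exact_mod_cast h1
  have h2 : (1 : ℝ) ≤ 4 ^ m := one_le_pow₀ (by norm_num)
  unfold al
  rw [div_le_one (by positivity)]
  nlinarith

theorem Par.be_pos (h : Par k n K m θ d w t) : 0 < be w := by
  have h1 := h.w1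
  have h1' : (1 : ℝ) ≤ w := by exact_mod_cast h1
  unfold be
  positivity

theorem Par.be_eq (h : Par k n K m θ d w t) : 16 * w * be w = 1 / 4 := by
  have h1 := h.w1
  have h1' : (1 : ℝ) ≤ w := by exact_mod_cast h1
  unfold be
  field_simp
  norm_num

theorem Par.be_le (h : Par k n K m θ d w t) : be w ≤ 1 / 2 := by
  have h1 := h.w1
  have h1' : (1 : ℝ) ≤ w := by exact_mod_cast h1
  unfold be
  rw [div_le_div_iff₀ (by positivity) (by norm_num)]
  nlinarith

theorem ga_pos (m : ℕ) : 0 < ga m := by unfold ga; positivity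

theorem Par.ga_le (h : Par k n K m θ d w t) : 16 * w * ga m ≤ 1 := by
  have h1 : 16 * w ≤ 2 ^ m :=
    le_trans (Nat.le_self_pow (by norm_num) _) h.hw10
  have h1' : (16 : ℝ) * w ≤ 2 ^ m := by exact_mod_cast h1
  unfold ga
  rw [mul_one_div, div_le_one (by positivity)]
  exact h1'

theorem Par.q_pos (h : Par k n K m θ d w t) : 0 < Q1 m n w d := by
  unfold Q1
  have := h.al_pos
  have := h.be_pos
  have := ga_pos m
  positivity

theorem Par.p_nonneg (h : Par k n K m θ d w t) : 0 ≤ P1 m n w d := by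
  unfold P1
  have h1 := h.al_pos
  have h2 := h.be_pos
  have h3 := pp_nonneg h1.le h2.le d
  positivity

theorem Par.ga_le_half (h : Par k n K m θ d w t) : ga m ≤ 1 / 2 := by
  unfold ga
  have : (2 : ℝ) ^ 1 ≤ 2 ^ m := pow_le_pow_right₀ (by norm_num) (by have := h.m1; omega)
  rw [div_le_div_iff₀ (by positivity) (by norm_num)]
  linarith

theorem Par.pq_le (h : Par k n K m θ d w t) : P1 m n w d + Q1 m n w d ≤ al m n := by
  have h1 := h.al_pos
  have h2 := h.be_pos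
  have h3 := pp_le h1.le h2.le h.be_le d
  have h4 := h.ga_le_half
  have h5 : 0 ≤ al m n * be w ^ d := by positivity
  unfold P1 Q1
  nlinarith

theorem Par.p_le (h : Par k n K m θ d w t) : P1 m n w d ≤ al m n := by
  have := h.pq_le
  have := h.q_pos
  linarith

/-- `q ≥ 2 ^ -(mk + 4m)` -/
theorem Par.q_ge (h : Par k n K m θ d w t) : 1 ≤ Q1 m n w d * 2 ^ (m * k + 4 * m) := by
  have h1 : (be w) ^ d * 2 ^ m ≥ 1 := by
    have hd' : ((64 * w : ℕ) : ℝ) ^ d ≤ 2 ^ m := by exact_mod_cast h.hd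
    have hw1 : (1 : ℝ) ≤ w := by exact_mod_cast h.w1
    unfold be
    rw [div_pow, one_pow, div_mul_eq_mul_div, one_mul, ge_iff_le, le_div_iff₀ (by positivity)]
    push_cast at hd'
    linarith
  have h2 : al m n * 2 ^ (m * k + 2 * m) = 1 := by
    unfold al
    rw [h.hn, pow_add]
    push_cast
    have h4 : (4 : ℝ) ^ m = 2 ^ (2 * m) := by rw [pow_mul]; norm_num
    rw [h4]
    field_simp
  have h3 : ga m * 2 ^ m = 1 := by
    unfold ga
    field_simp
  have h4 : Q1 m n w d * 2 ^ (m * k + 4 * m) =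
      (al m n * 2 ^ (m * k + 2 * m)) * (be w ^ d * 2 ^ m) * (ga m * 2 ^ m) := by
    unfold Q1
    rw [show m * k + 4 * m = (m * k + 2 * m) + m + m by ring, pow_add, pow_add (2 : ℝ) (m * k + 2 * m) m]
    ring
  rw [h4, h2, h3]
  linarith

/-- bound for the number of placements -/
def LJ (k m θ : ℕ) (J : Finset ℕ) : ℕ := 2 ^ (m * k * (J.card + comps J) - 16 * θ * comps J - k)

theorem Par.expo (h : Par k n K m θ d w t) {J : Finset ℕ} (hJ : J.Nonempty)
    (hJK : J.card ≤ K * comps J) :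
    1 + 2 * (t * t) + (m * k + 4 * m) * J.card + 16 * θ * comps J + k ≤
      m * k * (J.card + comps J) := by
  have hτ := comps_pos hJ
  obtain ⟨τ, hτe⟩ : ∃ τ, τ = comps J := ⟨_, rfl⟩
  rw [← hτe] at hτ hJK ⊢
  have hk := h.hk
  have hK := h.hK
  have hm := h.hm
  have h1 : 16 * θ * τ = 16 * (m * K * τ) := by rw [h.hθ]; ring
  have h2 : m * k * τ = 24 * (m * K * τ) := by rw [hk]; ring
  have h3 : 4 * m * J.card ≤ 4 * (m * K * τ) := by
    calc 4 * m * J.card ≤ 4 * m * (K * τ) := Nat.mul_le_mul_left _ hJK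
      _ = 4 * (m * K * τ) := by ring
  have h4 : m * K ≤ m * K * τ := Nat.le_mul_of_pos_right _ hτ
  have h5 : 1300 * k ^ 3 * K ≤ m * K := Nat.mul_le_mul_right _ hm
  have h6 : 2 * (t * t) = 200 * k ^ 4 := by rw [h.ht]; ring
  have h7 : 1300 * k ^ 3 * K * 24 = 1300 * k ^ 4 := by rw [hk]; ring
  have h8 : k ≤ k ^ 4 := Nat.le_self_pow (by norm_num) _
  have h9 : 1 ≤ k ^ 4 := Nat.one_le_pow _ _ (by omega)
  have h10 : m * k * (J.card + τ) = m * k * J.card + m * k * τ := by ring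
  have h11 : (m * k + 4 * m) * J.card = m * k * J.card + 4 * m * J.card := by ring
  rw [h10, h11, h1, h2, h6]
  have h12 : 4 * (1300 * k ^ 3 * K) * 6 = 1300 * k ^ 4 := by rw [hk]; ring
  omega

theorem Par.L_cond (h : Par k n K m θ d w t) {J : Finset ℕ} (hJ : J.Nonempty)
    (hJK : J.card ≤ K * comps J) :
    2 * (4 : ℝ) ^ (t * t) ≤ (LJ k m θ J : ℕ) * Q1 m n w d ^ J.card := by
  have h1 := h.expo hJ hJK
  have h2 : 1 ≤ Q1 m n w d ^ J.card * 2 ^ ((m * k + 4 * m) * J.card) := by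
    rw [pow_mul, ← mul_pow]
    exact one_le_pow₀ h.q_ge
  have h3 : (2 : ℝ) ^ (1 + 2 * (t * t) + (m * k + 4 * m) * J.card) ≤ (LJ k m θ J : ℕ) := by
    unfold LJ
    push_cast
    exact pow_le_pow_right₀ (by norm_num) (by omega)
  have h4 : 2 * (4 : ℝ) ^ (t * t) = 2 ^ (1 + 2 * (t * t)) := by
    rw [show (4 : ℝ) = 2 ^ 2 by norm_num, ← pow_mul, pow_add, pow_one]
  rw [h4]
  have hq : 0 ≤ Q1 m n w d ^ J.card := by have := h.q_pos; positivity
  calc (2 : ℝ) ^ (1 + 2 * (t * t)) ≤ 2 ^ (1 + 2 * (t * t)) *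
        (Q1 m n w d ^ J.card * 2 ^ ((m * k + 4 * m) * J.card)) :=
        le_mul_of_one_le_right (by positivity) h2
    _ = 2 ^ (1 + 2 * (t * t) + (m * k + 4 * m) * J.card) * Q1 m n w d ^ J.card := by
        rw [pow_add]; ring
    _ ≤ (LJ k m θ J : ℕ) * Q1 m n w d ^ J.card := mul_le_mul_of_nonneg_right h3 hq

theorem Par.d_le (h : Par k n K m θ d w t) : d ≤ 2 ^ m := by
  have h1 : 2 ^ d ≤ (64 * w) ^ d := Nat.pow_le_pow_left (by have := h.w1; omega) d
  have h2 : d < 2 ^ d := Nat.lt_two_pow_self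
  exact (h2.le.trans h1).trans h.hd

/-- the failure probability of all rounds -/
theorem Par.delta (h : Par k n K m θ d w t) {ι : ℕ} (hι : ι ≤ 2 ^ (m * k ^ 2 + 1)) :
    ((d : ℝ) * ι * (16 * w * be w) ^ (w + 1) + 2 * ι * (16 * w * ga m) ^ (t + 1)) *
      2 ^ (7 * (m * k ^ 2)) ≤ 1 := by
  have hι' : (ι : ℝ) ≤ 2 ^ (m * k ^ 2 + 1) := by exact_mod_cast hι
  have hd' : (d : ℝ) ≤ 2 ^ m := by exact_mod_cast h.d_le
  have hk := h.k24
  have hm := h.m1
  obtain ⟨X, hX⟩ : ∃ X, X = m * k ^ 2 := ⟨_, rfl⟩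
  have hXm : m ≤ X := by
    rw [hX]; exact Nat.le_mul_of_pos_right _ (by positivity)
  have hw : w = 10 * X := by rw [h.hw, hX]; ring
  rw [← hX] at hι' ⊢
  have e1 : (16 * (w : ℝ) * be w) ^ (w + 1) = (1 / 2) ^ (20 * X + 2) := by
    rw [h.be_eq, show (1 : ℝ) / 4 = (1 / 2) ^ 2 by norm_num, ← pow_mul, hw]
    congr 1
    ring
  have hg0 : 0 ≤ 16 * (w : ℝ) * ga m := by have := ga_pos m; positivity
  have e2 : (16 * (w : ℝ) * ga m) ^ (t + 1) ≤ (1 / 2) ^ (9 * X) := by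
    have h1 : (16 * (w : ℝ) * ga m) ^ 10 ≤ (1 / 2) ^ (9 * m) := by
      have h2 : ((16 * w : ℕ) : ℝ) ^ 10 ≤ 2 ^ m := by exact_mod_cast h.hw10
      push_cast at h2
      have h3 : ga m ^ 10 = (1 / 2) ^ (10 * m) := by
        unfold ga
        rw [show (1 : ℝ) / 2 ^ m = (1 / 2) ^ m by rw [div_pow, one_pow], ← pow_mul]
        congr 1; ring
      rw [mul_pow, h3, show 10 * m = 9 * m + m by ring, pow_add]
      have h4 : (16 * (w : ℝ)) ^ 10 * (1 / 2) ^ m ≤ 1 := by
        rw [div_pow, one_pow, mul_one_div, div_le_one (by positivity)]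
        exact h2
      have h5 : (0 : ℝ) ≤ (1 / 2) ^ (9 * m) := by positivity
      nlinarith
    calc (16 * (w : ℝ) * ga m) ^ (t + 1) ≤ (16 * (w : ℝ) * ga m) ^ (10 * k ^ 2) :=
          pow_le_pow_of_le_one hg0 h.ga_le (by rw [h.ht]; omega)
      _ = ((16 * (w : ℝ) * ga m) ^ 10) ^ (k ^ 2) := by rw [← pow_mul]
      _ ≤ ((1 / 2) ^ (9 * m)) ^ (k ^ 2) := pow_le_pow_left₀ (by positivity) h1 _
      _ = (1 / 2) ^ (9 * X) := by rw [← pow_mul, hX]; congr 1; ring
  rw [e1]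
  have hι0 : (0 : ℝ) ≤ ι := by positivity
  have t1 : (d : ℝ) * ι * (1 / 2) ^ (20 * X + 2) * 2 ^ (7 * X) ≤ 1 / 2 := by
    have h1 : (d : ℝ) * ι ≤ 2 ^ m * 2 ^ (X + 1) :=
      mul_le_mul hd' hι' hι0 (by positivity)
    calc (d : ℝ) * ι * (1 / 2) ^ (20 * X + 2) * 2 ^ (7 * X)
        ≤ (2 ^ m * 2 ^ (X + 1)) * (1 / 2) ^ (20 * X + 2) * 2 ^ (7 * X) := by gcongr
      _ ≤ (2 ^ X * 2 ^ (X + 1)) * (1 / 2) ^ (20 * X + 2) * 2 ^ (7 * X) := by
          gcongr
          norm_num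
      _ = 2 ^ (9 * X + 1) * (1 / 2) ^ (20 * X + 2) := by
          rw [show 9 * X + 1 = X + (X + 1) + 7 * X by ring, pow_add, pow_add]; ring
      _ ≤ 2 ^ (20 * X + 1) * (1 / 2) ^ (20 * X + 2) := by
          gcongr
          · norm_num
          · omega
      _ = 1 / 2 := by
          rw [show 20 * X + 2 = (20 * X + 1) + 1 by ring, pow_succ (1 / 2 : ℝ), ← mul_assoc,
            ← mul_pow]
          norm_num
  have t2 : 2 * (ι : ℝ) * (16 * w * ga m) ^ (t + 1) * 2 ^ (7 * X) ≤ 1 / 2 := by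
    have hX3 : 3 ≤ X := by omega
    calc 2 * (ι : ℝ) * (16 * w * ga m) ^ (t + 1) * 2 ^ (7 * X)
        ≤ 2 * 2 ^ (X + 1) * (1 / 2) ^ (9 * X) * 2 ^ (7 * X) := by gcongr
      _ = 2 ^ (8 * X + 2) * (1 / 2) ^ (9 * X) := by
          rw [show 8 * X + 2 = (X + 1) + 7 * X + 1 by ring, pow_add, pow_add]; ring
      _ ≤ 2 ^ (9 * X - 1) * (1 / 2) ^ (9 * X) := by
          gcongr
          · norm_num
          · omega
      _ = 1 / 2 := by
          rw [show 9 * X = (9 * X - 1) + 1 by omega, pow_succ (1 / 2 : ℝ), ← mul_assoc,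
            show 9 * X - 1 + 1 - 1 = 9 * X - 1 by omega, ← mul_pow]
          norm_num
  calc ((d : ℝ) * ι * (1 / 2) ^ (20 * X + 2) + 2 * ι * (16 * w * ga m) ^ (t + 1)) * 2 ^ (7 * X)
      = (d : ℝ) * ι * (1 / 2) ^ (20 * X + 2) * 2 ^ (7 * X) +
        2 * (ι : ℝ) * (16 * w * ga m) ^ (t + 1) * 2 ^ (7 * X) := by ring
    _ ≤ 1 := by linarith

/-- the event that the set of placements is too large -/
def Ev {k n : ℕ} (K m θ : ℕ) (u : Tr (Arc k n)) (x : Pl k n) (J S : Finset ℕ)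
    (Γ : Arc k n → Bool) : Prop :=
  J.Nonempty ∧ J ⊆ range k ∧ J.card ≤ K * comps J ∧
    LJ k m θ J < cnt fun y : Pl k n => (∀ i, i ∉ Ve k J → y i = x i) ∧
      dv (fun z => u.fn (on z (Es x S))) Γ (Es y J) ≠ 0

theorem dep1_plant {I : Type} [DecidableEq I] {h : (I → Bool) → Bool} (hh : Dep1 h)
    (P : Finset I) : Dep1 fun z => h (on z P) := by
  rcases hh with ⟨c, hc⟩ | ⟨i, hi⟩
  · exact Or.inl ⟨c, fun z => hc _⟩
  · refine Or.inr ⟨i, fun z z' hz => hi _ _ ?_⟩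
    simp [on, hz]

theorem Par.pr_ev (h : Par k n K m θ d w t) (T : Tr (Arc k n)) (hLit : T.Lit) (halt : T.alt ≤ d)
    (hsize : T.leaves ≤ 2 ^ (m * k ^ 2)) (j : Fin T.subs.length) (x : Pl k n)
    (J S : Finset ℕ) :
    pr (w2 (P1 m n w d)) (Ev K m θ (T.subs.get j) x J S) * 2 ^ (5 * (m * k ^ 2)) ≤ 1 := by
  have hp0 := h.p_nonneg
  have hq0 := h.q_pos
  have hpq := h.pq_le
  have hal := h.al_le
  have hw0 : ∀ b, 0 ≤ w2 (P1 m n w d) b := w2_nonneg hp0 (by linarith)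
  by_cases hc : J.Nonempty ∧ J ⊆ range k ∧ J.card ≤ K * comps J
  · obtain ⟨hJ, hJk, hJK⟩ := hc
    have h1 := ss_single (fun z => (T.subs.get j).fn (on z (Es x S))) J hJk x (P1 m n w d)
      (Q1 m n w d) hp0 hq0 (by linarith) t (LJ k m θ J) (h.L_cond hJ hJK)
    have h2 : pr (w2 (P1 m n w d)) (Ev K m θ (T.subs.get j) x J S) ≤
        pr (w2 (P1 m n w d)) (fun Γ : Arc k n → Bool =>
        LJ k m θ J < cnt fun y : Pl k n => (∀ i, i ∉ Ve k J → y i = x i) ∧
          dv (fun z => (T.subs.get j).fn (on z (Es x S))) Γ (Es y J) ≠ 0) :=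
      pr_mono hw0 fun Γ hΓ => hΓ.2.2.2
    obtain ⟨f1, f2, f3⟩ := fam_of_tree T hLit
    have h3 := last_round (I := Arc k n) (ι := Fin T.subs.length)
      (fun i z => (T.subs.get i).fn (on z (Es x S))) (fun i => (T.subs.get i).alt) d w t h.w1
      (al m n) (be w) (ga m) h.al_pos.le hal h.be_pos (by rw [h.be_eq]; norm_num) (ga_pos m)
      h.ga_le (fun i hi => dep1_plant (f1 i hi) _)
      (fun i hi => by
        obtain ⟨Q, hQ1, hQ2⟩ := f2 i hi
        refine ⟨Q, hQ1, ?_⟩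
        rcases hQ2 with hQ | hQ
        · exact Or.inl fun z => hQ _
        · exact Or.inr fun z => hQ _) (fun i => (f3 i).trans halt)
    have h4 : pr (w3 (P1 m n w d) (Q1 m n w d)) (fun ρ : Res (Arc k n) =>
        ∃ b, ¬ Cert t b (res ρ fun z => (T.subs.get j).fn (on z (Es x S)))) ≤
        pr (w3 (pp (al m n) (be w) d + al m n * be w ^ d / 2) (al m n * be w ^ d * ga m))
        (fun ρ : Res (Arc k n) => ∃ i b, ¬ Cert t b
          (res ρ fun z => (T.subs.get i).fn (on z (Es x S)))) :=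
      pr_mono (w3_nonneg hp0 hq0.le (by linarith)) fun ρ hρ => ⟨j, hρ⟩
    have hι : T.subs.length ≤ 2 ^ (m * k ^ 2 + 1) := by
      have := length_subs T
      rw [pow_succ]
      omega
    have h5 := h.delta hι
    simp only [Fintype.card_fin] at h3
    obtain ⟨δ, hδ⟩ : ∃ δ : ℝ, δ = (d : ℝ) * T.subs.length * (16 * w * be w) ^ (w + 1) +
      2 * T.subs.length * (16 * w * ga m) ^ (t + 1) := ⟨_, rfl⟩
    rw [← hδ] at h3 h5
    obtain ⟨e, he⟩ : ∃ e, e = pr (w2 (P1 m n w d)) (Ev K m θ (T.subs.get j) x J S) := ⟨_, rfl⟩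
    rw [← he] at h2 ⊢
    have he0 : 0 ≤ e := by rw [he]; exact pr_nonneg hw0 _
    have h6 : e * (Q1 m n w d ^ J.card / 2 ^ (J.card + 2)) ≤ δ :=
      le_trans (mul_le_mul_of_nonneg_right h2 (by positivity)) (h1.trans (h4.trans h3))
    have hJc : J.card ≤ k := by
      have := card_le_card hJk
      simpa using this
    have h7 : 1 ≤ (Q1 m n w d ^ J.card / 2 ^ (J.card + 2)) *
        2 ^ ((m * k + 4 * m) * J.card + (J.card + 2)) := by
      have h8 : 1 ≤ Q1 m n w d ^ J.card * 2 ^ ((m * k + 4 * m) * J.card) := by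
        rw [pow_mul, ← mul_pow]
        exact one_le_pow₀ h.q_ge
      rw [pow_add (2 : ℝ) _ (J.card + 2)]
      calc 1 ≤ Q1 m n w d ^ J.card * 2 ^ ((m * k + 4 * m) * J.card) := h8
        _ = Q1 m n w d ^ J.card / 2 ^ (J.card + 2) *
            (2 ^ ((m * k + 4 * m) * J.card) * 2 ^ (J.card + 2)) := by field_simp
    have h9 : (m * k + 4 * m) * J.card + (J.card + 2) + 5 * (m * k ^ 2) ≤ 7 * (m * k ^ 2) := by
      have hk := h.k24
      have hm := h.m1
      have g1 : (m * k + 4 * m) * J.card ≤ (m * k + 4 * m) * k := Nat.mul_le_mul_left _ hJc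
      have g2 : (m * k + 4 * m) * k = m * k ^ 2 + 4 * (m * k) := by ring
      have g3 : 24 * (m * k) ≤ m * k ^ 2 := by
        calc 24 * (m * k) ≤ k * (m * k) := Nat.mul_le_mul_right _ hk
          _ = m * k ^ 2 := by ring
      have g4 : k + 2 ≤ m * k := by nlinarith
      omega
    calc e * 2 ^ (5 * (m * k ^ 2))
        ≤ e * 2 ^ (5 * (m * k ^ 2)) * ((Q1 m n w d ^ J.card / 2 ^ (J.card + 2)) *
          2 ^ ((m * k + 4 * m) * J.card + (J.card + 2))) :=
          le_mul_of_one_le_right (by positivity) h7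
      _ = e * (Q1 m n w d ^ J.card / 2 ^ (J.card + 2)) *
          2 ^ ((m * k + 4 * m) * J.card + (J.card + 2) + 5 * (m * k ^ 2)) := by
          rw [pow_add (2 : ℝ) ((m * k + 4 * m) * J.card + (J.card + 2))]; ring
      _ ≤ δ * 2 ^ ((m * k + 4 * m) * J.card + (J.card + 2) + 5 * (m * k ^ 2)) :=
          mul_le_mul_of_nonneg_right h6 (by positivity)
      _ ≤ δ * 2 ^ (7 * (m * k ^ 2)) := by
          have hδ0 : 0 ≤ δ := by
            have := h.be_pos
            have := ga_pos m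
            rw [hδ]; positivity
          exact mul_le_mul_of_nonneg_left (pow_le_pow_right₀ (by norm_num) h9) hδ0
      _ ≤ 1 := h5
  · have h1 : pr (w2 (P1 m n w d)) (Ev K m θ (T.subs.get j) x J S) = 0 := by
      have h2 : (Ev K m θ (T.subs.get j) x J S) = fun _ => False := by
        funext Γ
        exact propext ⟨fun hΓ => hc ⟨hΓ.1, hΓ.2.1, hΓ.2.2.1⟩, False.elim⟩
      rw [h2]
      unfold pr ex
      simp [ind]
    rw [h1, zero_mul]
    exact zero_le_one

/-- the union of all the events -/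
def Bad {k n : ℕ} (K m θ : ℕ) (T : Tr (Arc k n)) (Γ : Arc k n → Bool) : Prop :=
  ∃ a ∈ (univ : Finset (Fin T.subs.length × Pl k n)) ×ˢ ((range k).powerset ×ˢ (range k).powerset),
    Ev K m θ (T.subs.get a.1.1) a.1.2 a.2.1 a.2.2 Γ

theorem Par.pr_bad (h : Par k n K m θ d w t) (T : Tr (Arc k n)) (hLit : T.Lit) (halt : T.alt ≤ d)
    (hsize : T.leaves ≤ 2 ^ (m * k ^ 2)) :
    pr (w2 (P1 m n w d)) (Bad K m θ T) ≤ 1 / 4 := by
  have hp0 := h.p_nonneg
  have hq0 := h.q_pos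
  have hpq := h.pq_le
  have hal := h.al_le
  have hw0 : ∀ b, 0 ≤ w2 (P1 m n w d) b := w2_nonneg hp0 (by linarith)
  have h1 := pr_exists_le (I := Arc k n)
    ((univ : Finset (Fin T.subs.length × Pl k n)) ×ˢ ((range k).powerset ×ˢ (range k).powerset)) hw0
    (fun a Γ => Ev K m θ (T.subs.get a.1.1) a.1.2 a.2.1 a.2.2 Γ)
  have h2 : ∀ a ∈ (univ : Finset (Fin T.subs.length × Pl k n)) ×ˢ
      ((range k).powerset ×ˢ (range k).powerset),
      pr (w2 (P1 m n w d)) (Ev K m θ (T.subs.get a.1.1) a.1.2 a.2.1 a.2.2) ≤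
        1 / 2 ^ (5 * (m * k ^ 2)) := by
    intro a _
    rw [le_div_iff₀ (by positivity)]
    exact h.pr_ev T hLit halt hsize _ _ _ _
  have h3 := sum_le_sum h2
  rw [sum_const, nsmul_eq_mul, card_product, card_product, card_univ, Fintype.card_prod,
    Fintype.card_fin, Fintype.card_fun, Fintype.card_fin, Fintype.card_fin, card_powerset,
    card_range] at h3
  have hι : T.subs.length ≤ 2 ^ (m * k ^ 2 + 1) := by
    have := length_subs T
    rw [pow_succ]
    omega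
  have h4 : T.subs.length * n ^ (k + 1) * (2 ^ k * 2 ^ k) ≤
      2 ^ ((m * k ^ 2 + 1) + m * k * (k + 1) + 2 * k) := by
    have hnk : n ^ (k + 1) = 2 ^ (m * k * (k + 1)) := by rw [h.hn, ← pow_mul]
    rw [hnk, pow_add, pow_add, ← pow_add 2 k k, show 2 * k = k + k by ring]
    exact Nat.mul_le_mul_right _ (Nat.mul_le_mul_right _ hι)
  have h5 : (m * k ^ 2 + 1) + m * k * (k + 1) + 2 * k + 2 ≤ 5 * (m * k ^ 2) := by
    have hk := h.k24
    have hm := h.m1
    have g3 : 24 * (m * k) ≤ m * k ^ 2 := by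
      calc 24 * (m * k) ≤ k * (m * k) := Nat.mul_le_mul_right _ hk
        _ = m * k ^ 2 := by ring
    have g4 : k + 2 ≤ m * k := by nlinarith
    have g5 : m * k * (k + 1) = m * k ^ 2 + m * k := by ring
    omega
  have h6 : ((T.subs.length * n ^ (k + 1) * (2 ^ k * 2 ^ k) : ℕ) : ℝ) ≤
      2 ^ ((m * k ^ 2 + 1) + m * k * (k + 1) + 2 * k) := by exact_mod_cast h4
  refine h1.trans (h3.trans ?_)
  rw [mul_one_div, div_le_div_iff₀ (by positivity) (by norm_num)]
  calc ((T.subs.length * n ^ (k + 1) * (2 ^ k * 2 ^ k) : ℕ) : ℝ) * 4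
      ≤ 2 ^ ((m * k ^ 2 + 1) + m * k * (k + 1) + 2 * k) * 4 := by gcongr
    _ = 2 ^ ((m * k ^ 2 + 1) + m * k * (k + 1) + 2 * k + 2) := by
        rw [pow_add (2 : ℝ) _ 2]; norm_num
    _ ≤ 2 ^ (5 * (m * k ^ 2)) := pow_le_pow_right₀ (by norm_num) h5
    _ = 1 * 2 ^ (5 * (m * k ^ 2)) := by ring

theorem Par.pr_conn (h : Par k n K m θ d w t) :
    pr (w2 (P1 m n w d)) (fun Γ : Arc k n → Bool => UConn Γ) ≤ 1 / 4 := by
  have hp0 := h.p_nonneg
  have hq0 := h.q_pos
  have hpq := h.pq_le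
  have hal := h.al_le
  have hpl := h.p_le
  have hal0 := h.al_pos
  refine (pr_uconn (P1 m n w d) hp0 (by linarith)).trans ?_
  have h1 : (n : ℝ) * (2 * n) ^ k * P1 m n w d ^ k ≤ n * (2 * n) ^ k * al m n ^ k := by
    gcongr
  refine h1.trans ?_
  have hn1 : (1 : ℝ) ≤ n := by exact_mod_cast h.n1
  have h2 : (2 * (n : ℝ)) * al m n = 2 / 4 ^ m := by
    unfold al
    field_simp
  have h4 : (n : ℝ) = 2 ^ (m * k) := by
    have := h.hn
    exact_mod_cast this
  rw [mul_assoc, ← mul_pow, h2, div_pow, ← pow_mul, h4]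
  have h5 : (4 : ℝ) ^ (m * k) = 2 ^ (m * k) * 2 ^ (m * k) := by rw [← mul_pow]; norm_num
  rw [h5]
  have h6 : (2 : ℝ) ^ (m * k) * (2 ^ k / (2 ^ (m * k) * 2 ^ (m * k))) = 2 ^ k / 2 ^ (m * k) := by
    field_simp
  rw [h6, div_le_div_iff₀ (by positivity) (by norm_num)]
  have hk := h.k24
  have hm := h.m1
  calc (2 : ℝ) ^ k * 4 = 2 ^ (k + 2) := by rw [pow_add]; norm_num
    _ ≤ 2 ^ (m * k) := pow_le_pow_right₀ (by norm_num) (by nlinarith)
    _ = 1 * 2 ^ (m * k) := by ring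

theorem cnt_cast {α : Type} [Fintype α] (S : α → Prop) : (cnt S : ℝ) = ∑ x, ind (S x) := by
  classical
  rw [cnt_eq, card_filter]
  push_cast
  refine sum_congr rfl fun x _ => ?_
  by_cases hx : S x
  · simp [ind, hx]
  · simp [ind, hx]

theorem Par.pr_iso (h : Par k n K m θ d w t) :
    pr (w2 (P1 m n w d)) (fun Γ : Arc k n → Bool =>
      (n : ℝ) ^ (k + 1) / 2 ≤ cnt fun x : Pl k n => ¬ Iso Γ x) ≤ 1 / 4 := by
  have hp0 := h.p_nonneg
  have hq0 := h.q_pos
  have hpq := h.pq_le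
  have hal := h.al_le
  have hpl := h.p_le
  have hal0 := h.al_pos
  have hw0 : ∀ b, 0 ≤ w2 (P1 m n w d) b := w2_nonneg hp0 (by linarith)
  have hn1 : (1 : ℝ) ≤ n := by exact_mod_cast h.n1
  have hN : (0 : ℝ) < (n : ℝ) ^ (k + 1) := by positivity
  refine (markov (I := Arc k n) hw0 (F := fun Γ => ((cnt fun x : Pl k n => ¬ Iso Γ x : ℕ) : ℝ))
    (fun Γ => by positivity) (half_pos hN)).trans ?_
  have h1 : ex (w2 (P1 m n w d))
      (fun Γ : Arc k n → Bool => ((cnt fun x : Pl k n => ¬ Iso Γ x : ℕ) : ℝ)) =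
      ∑ x : Pl k n, pr (w2 (P1 m n w d)) (fun Γ : Arc k n → Bool => ¬ Iso Γ x) := by
    simp only [cnt_cast]
    rw [ex_sum]
    rfl
  have h2 : ∑ x : Pl k n, pr (w2 (P1 m n w d)) (fun Γ : Arc k n → Bool => ¬ Iso Γ x) ≤
      (n : ℝ) ^ (k + 1) * (2 * n * k * P1 m n w d) := by
    refine (sum_le_sum fun x _ => pr_touch (P1 m n w d) hp0 (by linarith) x).trans ?_
    rw [sum_const, nsmul_eq_mul, card_univ, Fintype.card_fun, Fintype.card_fin, Fintype.card_fin]
    push_cast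
    exact le_rfl
  rw [h1, div_le_iff₀ (half_pos hN)]
  refine h2.trans ?_
  have h3 : 2 * (n : ℝ) * k * P1 m n w d ≤ 1 / 8 := by
    have h4 : 2 * (n : ℝ) * k * P1 m n w d ≤ 2 * n * k * al m n := by gcongr
    have h5 : 2 * (n : ℝ) * k * al m n = 2 * k / 4 ^ m := by
      unfold al
      field_simp
    rw [h5] at h4
    refine h4.trans ?_
    rw [div_le_div_iff₀ (by positivity) (by norm_num)]
    have h6 : 16 * k ≤ 4 ^ m := by
      have g1 : k ≤ m := by
        have := h.hm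
        have := h.k24
        have g3 : k ≤ k ^ 3 := Nat.le_self_pow (by norm_num) _
        omega
      have g2 : m < 2 ^ m := Nat.lt_two_pow_self
      have g4 : 16 ≤ 2 ^ m := by
        calc 16 = 2 ^ 4 := by norm_num
          _ ≤ 2 ^ m := Nat.pow_le_pow_right (by norm_num) (by have := h.m1; omega)
      calc 16 * k ≤ 2 ^ m * 2 ^ m := Nat.mul_le_mul g4 (g1.trans g2.le)
        _ = 4 ^ m := by rw [← mul_pow]; norm_num
    have h7 : (16 : ℝ) * k ≤ 4 ^ m := by exact_mod_cast h6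
    linarith
  nlinarith

theorem on_mono_union {I : Type} [DecidableEq I] (z : I → Bool) (S S' : Finset I) :
    on (on z S) S' = on z (S' ∪ S) := by
  funext i
  simp only [on, mem_union]
  by_cases h1 : i ∈ S <;> by_cases h2 : i ∈ S' <;> simp [h1, h2]

theorem Par.ss_of_not_bad (h : Par k n K m θ d w t) (T : Tr (Arc k n)) {Γ : Arc k n → Bool}
    (hΓ : ¬ Bad K m θ T Γ) (u : Tr (Arc k n)) (hu : u ∈ T.subs) (F : Finset ℕ)
    (hF : F ⊆ range k) (J : Finset ℕ) (hJF : Full J F) (hJK : J.card ≤ K * comps J) :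
    Small (Av Γ u F) (Ve k J) (2 ^ (16 * θ * comps J)) := by
  classical
  rcases J.eq_empty_or_nonempty with rfl | hJ
  · intro x
    have h1 : comps ∅ = 0 := by simp [comps]
    have h2 : Ve k ∅ = ∅ := by simp [Ve]
    rw [h1, h2, mul_zero, pow_zero, mul_one, card_empty, pow_zero, cnt_eq]
    refine card_le_one.2 fun a ha b hb => ?_
    simp only [mem_filter, mem_univ, true_and, notMem_empty, not_false_eq_true, forall_true_left]
      at ha hb
    funext i
    rw [ha.1 i, hb.1 i]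
  · intro x
    obtain ⟨j, rfl⟩ : ∃ j : Fin T.subs.length, T.subs.get j = u := by
      obtain ⟨j, hj⟩ := List.get_of_mem hu
      exact ⟨j, hj⟩
    have hJk : J ⊆ range k := hJF.1.trans hF
    have hcard := card_Ve (k := k) J hJk
    have hF0 : F ≠ ∅ := by
      rintro rfl
      exact absurd (hJF.1) (by
        intro hc
        exact (Finset.nonempty_iff_ne_empty.1 hJ) (subset_empty.1 hc))
    have hle : ∀ S ∈ (F \ J).powerset, (cnt fun y : Pl k n => (∀ i, i ∉ Ve k J → y i = x i) ∧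
        dv (fun z => (T.subs.get j).fn (on z (Es x S))) Γ (Es y J) ≠ 0) ≤ LJ k m θ J := by
      intro S hS
      by_contra hcon
      push Not at hcon
      refine hΓ ⟨((j, x), (J, S)), ?_, hJ, hJk, hJK, hcon⟩
      simp only [mem_product, mem_univ, mem_powerset, true_and]
      exact ⟨hJk, (mem_powerset.1 hS).trans (sdiff_subset.trans hF)⟩
    have hsub : (univ.filter fun x' : Pl k n => (∀ i, i ∉ Ve k J → x' i = x i) ∧
        Av Γ (T.subs.get j) F x') ⊆ (F \ J).powerset.biUnion fun S =>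
        univ.filter fun y : Pl k n => (∀ i, i ∉ Ve k J → y i = x i) ∧
        dv (fun z => (T.subs.get j).fn (on z (Es x S))) Γ (Es y J) ≠ 0 := by
      intro y hy
      simp only [mem_filter, mem_univ, true_and] at hy
      obtain ⟨hy1, hy2⟩ := hy
      rcases hy2 with hy2 | hy2
      · exact absurd hy2 hF0
      · obtain ⟨S, hS, hd⟩ := dv_plant _ Γ F J hF hJF.1 y hy2
        simp only [mem_biUnion, mem_powerset, mem_filter, mem_univ, true_and]
        refine ⟨S, hS, hy1, ?_⟩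
        have he : Es x S = Es y S := by
          refine es_congr x y S fun v hv => ?_
          have hdis := ve_disj (k := k) hJF hS
          exact (hy1 v fun hv' => (disjoint_left.1 hdis) hv hv').symm
        rw [he]
        exact hd
    have h1 : (cnt fun x' : Pl k n => (∀ i, i ∉ Ve k J → x' i = x i) ∧
        Av Γ (T.subs.get j) F x') ≤ 2 ^ k * LJ k m θ J := by
      rw [cnt_eq]
      refine (card_le_card hsub).trans (card_biUnion_le.trans ?_)
      have h2 : ∀ S ∈ (F \ J).powerset, (univ.filter fun y : Pl k n =>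
          (∀ i, i ∉ Ve k J → y i = x i) ∧
          dv (fun z => (T.subs.get j).fn (on z (Es x S))) Γ (Es y J) ≠ 0).card ≤ LJ k m θ J := by
        intro S hS
        have := hle S hS
        rw [cnt_eq] at this
        exact this
      refine (sum_le_sum h2).trans ?_
      rw [sum_const, smul_eq_mul, card_powerset]
      have h3 : (F \ J).card ≤ k := by
        have := card_le_card (sdiff_subset.trans hF : F \ J ⊆ range k)
        simpa using this
      exact Nat.mul_le_mul_right _ (Nat.pow_le_pow_right (by norm_num) h3)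
    have h4 := h.expo hJ hJK
    calc (cnt fun x' : Pl k n => (∀ i, i ∉ Ve k J → x' i = x i) ∧
        Av Γ (T.subs.get j) F x') * 2 ^ (16 * θ * comps J)
        ≤ 2 ^ k * LJ k m θ J * 2 ^ (16 * θ * comps J) := Nat.mul_le_mul_right _ h1
      _ = 2 ^ (k + (m * k * (J.card + comps J) - 16 * θ * comps J - k) + 16 * θ * comps J) := by
          unfold LJ
          rw [pow_add, pow_add]
      _ = 2 ^ (m * k * (J.card + comps J)) := by
          congr 1
          omega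
      _ = n ^ (Ve k J).card := by
          rw [hcard, pow_mul]
          congr 1
          exact h.hn.symm

end TypAux

open TypAux in
theorem typical {k n K m θ d w t : ℕ} (h : Par k n K m θ d w t) (T : Tr (Arc k n))
    (hLit : T.Lit) (halt : T.alt ≤ d) (hsep : SepL T.fn) (hsize : T.leaves ≤ 2 ^ (m * k ^ 2)) :
    ∃ Γ, Sys k n K θ T (Av Γ) ∧ n ^ (k + 1) ≤ 2 * cnt (Av Γ T (range k)) := by
  classical
  have hp0 := h.p_nonneg
  have hq0 := h.q_pos
  have hpq := h.pq_le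
  have hal := h.al_le
  have hw0 : ∀ b, 0 ≤ w2 (P1 m n w d) b := w2_nonneg hp0 (by linarith)
  have h1 := h.pr_conn
  have h2 := h.pr_iso
  have h3 := h.pr_bad T hLit halt hsize
  have h4 : pr (w2 (P1 m n w d)) (fun Γ : Arc k n → Bool => (UConn Γ ∨
      (n : ℝ) ^ (k + 1) / 2 ≤ cnt fun x : Pl k n => ¬ Iso Γ x) ∨ Bad K m θ T Γ) < 1 := by
    have h5 := pr_or_le hw0 (fun Γ : Arc k n → Bool => UConn Γ ∨
      (n : ℝ) ^ (k + 1) / 2 ≤ cnt fun x : Pl k n => ¬ Iso Γ x) (Bad K m θ T)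
    have h6 := pr_or_le hw0 (fun Γ : Arc k n → Bool => UConn Γ)
      (fun Γ : Arc k n → Bool => (n : ℝ) ^ (k + 1) / 2 ≤ cnt fun x : Pl k n => ¬ Iso Γ x)
    linarith
  obtain ⟨Γ, hΓ⟩ := exists_good hw0 (w2_sum _) h4
  push Not at hΓ
  obtain ⟨⟨hΓ1, hΓ2⟩, hΓ3⟩ := hΓ
  refine ⟨Γ, ⟨?_, ?_, ?_, ?_⟩, ?_⟩
  · intro u _ F _ x x' hx
    exact av_dep Γ u F x x' hx
  · intro f hf F hF x hx
    exact av_leaf Γ f (lit_of_mem hLit hf) F hF x hx
  · intro b l r _ F hF x hx
    exact av_rule Γ b l r F hF x hx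
  · intro u hu F hF J hJF hJK
    exact h.ss_of_not_bad T hΓ3 u hu F hF J hJF hJK
  · have h5 : cnt (fun x : Pl k n => Iso Γ x) ≤ cnt (Av Γ T (range k)) :=
      cnt_mono fun x hx => Or.inr (root_dv T.fn hsep Γ hΓ1 x hx)
    have h6 : n ^ (k + 1) ≤ cnt (fun x : Pl k n => Iso Γ x) + cnt (fun x : Pl k n => ¬ Iso Γ x) := by
      rw [cnt_eq, cnt_eq, card_filter_add_card_filter_not, card_univ, Fintype.card_fun,
        Fintype.card_fin, Fintype.card_fin]
    have h7 : ((n ^ (k + 1) : ℕ) : ℝ) ≤ ((cnt (fun x : Pl k n => Iso Γ x) +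
      cnt (fun x : Pl k n => ¬ Iso Γ x) : ℕ) : ℝ) := by exact_mod_cast h6
    push_cast at h7
    have h8 : (n : ℝ) ^ (k + 1) ≤ 2 * (cnt (fun x : Pl k n => Iso Γ x) : ℕ) := by linarith
    have h9 : n ^ (k + 1) ≤ 2 * cnt (fun x : Pl k n => Iso Γ x) := by exact_mod_cast h8
    omega

end P18dd
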