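import Pool.Agent.Lib.P18dd.Typ
import Pool.Agent.Lib.P18dd.EmbX

/-!
# P18dd.TypX: a typical graph, end points of the path fixed
-/

set_option autoImplicit false

namespace P18dd

open Finset

namespace TypAux

/-- the paths with fixed end points -/
def Ends {k n : ℕ} (a b : Fin n) (x : Pl k n) : Prop := x 0 = a ∧ x (Fin.last k) = b

theorem cnt_ends {k n : ℕ} (hk : 1 ≤ k) (a b : Fin n) :
    cnt (Ends (k := k) a b) * n ^ 2 = n ^ (k + 1) := by
  classical
  have h1 : (univ.filter (Ends (k := k) a b)) = Fintype.piFinset fun i : Fin (k + 1) =>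
      if i = 0 then {a} else if i = Fin.last k then {b} else (univ : Finset (Fin n)) := by
    ext x
    simp only [mem_filter, mem_univ, true_and, Fintype.mem_piFinset, Ends]
    constructor
    · rintro ⟨h1, h2⟩ i
      split_ifs with h3 h4
      · rw [h3]; simpa using h1
      · rw [h4]; simpa using h2
      · exact mem_univ _
    · intro h
      have h0 := h 0
      have hl := h (Fin.last k)
      have hne : Fin.last k ≠ 0 := by
        intro hc
        have := congrArg Fin.val hc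
        simp at this
        omega
      simp only [if_true, mem_singleton] at h0
      rw [if_neg hne, if_pos rfl, mem_singleton] at hl
      exact ⟨h0, hl⟩
  rw [cnt_eq, h1, Fintype.card_piFinset]
  have hne : Fin.last k ≠ 0 := by
    intro hc
    have := congrArg Fin.val hc
    simp at this
    omega
  have h2 : ∏ i : Fin (k + 1), (if i = 0 then ({a} : Finset (Fin n)) else
      if i = Fin.last k then {b} else univ).card =
      ∏ i ∈ (univ.erase (0 : Fin (k + 1))).erase (Fin.last k), n := by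
    rw [← mul_prod_erase univ _ (mem_univ (0 : Fin (k + 1))), ← mul_prod_erase (univ.erase 0) _
      (mem_erase.2 ⟨hne, mem_univ (Fin.last k)⟩)]
    rw [if_pos rfl, if_neg hne, if_pos rfl, card_singleton, card_singleton, one_mul, one_mul]
    refine prod_congr rfl fun i hi => ?_
    rw [mem_erase, mem_erase] at hi
    rw [if_neg hi.2.1, if_neg hi.1, card_univ, Fintype.card_fin]
  rw [h2, prod_const, card_erase_of_mem (mem_erase.2 ⟨hne, mem_univ _⟩),
    card_erase_of_mem (mem_univ _), card_univ, Fintype.card_fin, ← pow_add]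
  congr 1
  omega

variable {k n K m θ d w t : ℕ}

theorem Par.pr_isoX (h : Par k n K m θ d w t) (a b : Fin n) :
    pr (w2 (P1 m n w d)) (fun Γ : Arc k n → Bool =>
      ((cnt (Ends (k := k) a b) : ℕ) : ℝ) / 2 ≤
        cnt fun x : Pl k n => Ends a b x ∧ ¬ Iso Γ x) ≤ 1 / 4 := by
  have hp0 := h.p_nonneg
  have hq0 := h.q_pos
  have hpq := h.pq_le
  have hal := h.al_le
  have hpl := h.p_le
  have hal0 := h.al_pos
  have hw0 : ∀ b, 0 ≤ w2 (P1 m n w d) b := w2_nonneg hp0 (by linarith)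
  have hn1 : (1 : ℝ) ≤ n := by exact_mod_cast h.n1
  have hE := cnt_ends (k := k) (by have := h.k24; omega) a b
  have hEpos : 0 < cnt (Ends (k := k) a b) := by
    rcases Nat.eq_zero_or_pos (cnt (Ends (k := k) a b)) with h0 | h0
    · rw [h0, zero_mul] at hE
      have : 0 < n ^ (k + 1) := by have := h.n1; positivity
      omega
    · exact h0
  obtain ⟨E, hEd⟩ : ∃ E : ℝ, E = ((cnt (Ends (k := k) a b) : ℕ) : ℝ) := ⟨_, rfl⟩
  have hN : (0 : ℝ) < E := by rw [hEd]; exact_mod_cast hEpos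
  rw [← hEd]
  refine (markov (I := Arc k n) hw0
    (F := fun Γ => ((cnt fun x : Pl k n => Ends a b x ∧ ¬ Iso Γ x : ℕ) : ℝ))
    (fun Γ => by positivity) (half_pos hN)).trans ?_
  have h1 : ex (w2 (P1 m n w d))
      (fun Γ : Arc k n → Bool => ((cnt fun x : Pl k n => Ends a b x ∧ ¬ Iso Γ x : ℕ) : ℝ)) =
      ∑ x : Pl k n, ind (Ends a b x) *
        pr (w2 (P1 m n w d)) (fun Γ : Arc k n → Bool => ¬ Iso Γ x) := by
    simp only [cnt_cast]
    rw [ex_sum]
    refine sum_congr rfl fun x _ => ?_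
    unfold pr
    rw [← ex_mul]
    congr 1
    funext Γ
    by_cases hx : Ends a b x <;> by_cases hy : Iso Γ x <;> simp [ind, hx, hy]
  have h2 : ∑ x : Pl k n, ind (Ends a b x) *
      pr (w2 (P1 m n w d)) (fun Γ : Arc k n → Bool => ¬ Iso Γ x) ≤
      E * (2 * n * k * P1 m n w d) := by
    refine (sum_le_sum fun x _ => mul_le_mul_of_nonneg_left
      (pr_touch (P1 m n w d) hp0 (by linarith) x) (ind_nonneg _)).trans ?_
    rw [← sum_mul, hEd, cnt_cast]
  rw [h1, div_le_iff₀ (half_pos hN)]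
  refine h2.trans ?_
  have h3 : 2 * (n : ℝ) * k * P1 m n w d ≤ 1 / 8 := by
    have h4 : 2 * (n : ℝ) * k * P1 m n w d ≤ 2 * n * k * al m n := by gcongr
    have h5 : 2 * (n : ℝ) * k * al m n = 2 * k / 4 ^ m := by
      unfold al
      field_simp
    rw [h5] at h4
    refine h4.trans ?_
    rw [div_le_div_iff₀ (by positivity) (by norm_num)]
    have h6 : 16 * k ≤ 4 ^ m := by
      have g1 : k ≤ m := by
        have := h.hm
        have := h.k24
        have g3 : k ≤ k ^ 3 := Nat.le_self_pow (by norm_num) _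
        omega
      have g2 : m < 2 ^ m := Nat.lt_two_pow_self
      have g4 : 16 ≤ 2 ^ m := by
        calc 16 = 2 ^ 4 := by norm_num
          _ ≤ 2 ^ m := Nat.pow_le_pow_right (by norm_num) (by have := h.m1; omega)
      calc 16 * k ≤ 2 ^ m * 2 ^ m := Nat.mul_le_mul g4 (g1.trans g2.le)
        _ = 4 ^ m := by rw [← mul_pow]; norm_num
    have h7 : (16 : ℝ) * k ≤ 4 ^ m := by exact_mod_cast h6
    linarith
  nlinarith

end TypAux

theorem root_dvX {k n : ℕ} {a b : Fin n} (f : (Arc k n → Bool) → Bool) (hf : SepX a b f)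
    (Γ : Arc k n → Bool) (x : Pl k n) (hx : Iso Γ x) (h0 : x 0 = a) (h1 : x (Fin.last k) = b) :
    dv f Γ (Es x (range k)) ≠ 0 := by
  unfold dv
  rw [sum_eq_single (Es x (range k))]
  · rw [hf Γ x hx h0 h1 _ (Subset.refl _)]
    simp
  · intro S hS hne
    rw [hf Γ x hx h0 h1 S (mem_powerset.1 hS)]
    simp [hne]
  · intro hc
    exact absurd (mem_powerset.2 (Subset.refl _)) hc

open TypAux in
theorem typicalX {k n K m θ d w t : ℕ} (h : Par k n K m θ d w t) (T : Tr (Arc k n))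
    (hLit : T.Lit) (halt : T.alt ≤ d) (a b : Fin n) (hsep : SepX a b T.fn)
    (hsize : T.leaves ≤ 2 ^ (m * k ^ 2)) :
    ∃ Γ, Sys k n K θ T (Av Γ) ∧ n ^ (k + 1) ≤ 2 * n ^ 2 * cnt (Av Γ T (range k)) := by
  classical
  have hp0 := h.p_nonneg
  have hq0 := h.q_pos
  have hpq := h.pq_le
  have hal := h.al_le
  have hw0 : ∀ b, 0 ≤ w2 (P1 m n w d) b := w2_nonneg hp0 (by linarith)
  have h2 := h.pr_isoX a b
  have h3 := h.pr_bad T hLit halt hsize
  have h4 : pr (w2 (P1 m n w d)) (fun Γ : Arc k n → Bool =>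
      ((cnt (Ends (k := k) a b) : ℕ) : ℝ) / 2 ≤
        (cnt fun x : Pl k n => Ends a b x ∧ ¬ Iso Γ x) ∨ Bad K m θ T Γ) < 1 := by
    have h5 := pr_or_le hw0 (fun Γ : Arc k n → Bool =>
      ((cnt (Ends (k := k) a b) : ℕ) : ℝ) / 2 ≤
        (cnt fun x : Pl k n => Ends a b x ∧ ¬ Iso Γ x)) (Bad K m θ T)
    linarith
  obtain ⟨Γ, hΓ⟩ := exists_good hw0 (w2_sum _) h4
  push Not at hΓ
  obtain ⟨hΓ2, hΓ3⟩ := hΓ
  refine ⟨Γ, ⟨?_, ?_, ?_, ?_⟩, ?_⟩
  · intro u _ F _ x x' hx
    exact av_dep Γ u F x x' hx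
  · intro f hf F hF x hx
    exact av_leaf Γ f (lit_of_mem hLit hf) F hF x hx
  · intro b l r _ F hF x hx
    exact av_rule Γ b l r F hF x hx
  · intro u hu F hF J hJF hJK
    exact h.ss_of_not_bad T hΓ3 u hu F hF J hJF hJK
  · have h5 : cnt (fun x : Pl k n => Ends a b x ∧ Iso Γ x) ≤ cnt (Av Γ T (range k)) :=
      cnt_mono fun x hx => Or.inr (root_dvX T.fn hsep Γ x hx.2 hx.1.1 hx.1.2)
    have h6 : cnt (Ends (k := k) a b) ≤ cnt (fun x : Pl k n => Ends a b x ∧ Iso Γ x) +
        cnt (fun x : Pl k n => Ends a b x ∧ ¬ Iso Γ x) := by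
      refine le_trans (cnt_mono fun x hx => ?_) (cnt_or_le _ _)
      by_cases hy : Iso Γ x
      · exact Or.inl ⟨hx, hy⟩
      · exact Or.inr ⟨hx, hy⟩
    have h7 : ((cnt (Ends (k := k) a b) : ℕ) : ℝ) ≤
        ((cnt (fun x : Pl k n => Ends a b x ∧ Iso Γ x) +
        cnt (fun x : Pl k n => Ends a b x ∧ ¬ Iso Γ x) : ℕ) : ℝ) := by exact_mod_cast h6
    push_cast at h7
    have h8 : ((cnt (Ends (k := k) a b) : ℕ) : ℝ) ≤
        2 * (cnt (fun x : Pl k n => Ends a b x ∧ Iso Γ x) : ℕ) := by linarith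
    have h9 : cnt (Ends (k := k) a b) ≤ 2 * cnt (fun x : Pl k n => Ends a b x ∧ Iso Γ x) := by
      exact_mod_cast h8
    have hE := cnt_ends (k := k) (by have := h.k24; omega) a b
    calc n ^ (k + 1) = cnt (Ends (k := k) a b) * n ^ 2 := hE.symm
      _ ≤ 2 * cnt (Av Γ T (range k)) * n ^ 2 := Nat.mul_le_mul_right _ (by omega)
      _ = 2 * n ^ 2 * cnt (Av Γ T (range k)) := by ring

end P18dd
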